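import Pool.Agent.Q207.HN.Cn
import Pool.Agent.Q207.AF.Ac

/-!
# Connectedness
-/

set_option autoImplicit false

open PowerSeries Filter Topology

namespace Q207.HN

open Q207.HM Q207.HG Pool.Agent.Y113 Pool.Agent.Y120.GF Pool.Agent.Y120.GH
open Pool.Agent.Y119.HY (Hf Gal)
open Pool.Agent.Y119.HZ (evq ix)
open Pool.Agent.Y118.UL (Conn)

section conv

lemma mem_Cw {f : ℚ⟦X⟧} (h : ∀ t : ℝ, 1 < t → Cv t f) : cx f ∈ Cw 1 := by
  intro r hr hr1
  rw [mul_one] at hr1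
  have hm0 : (0 : ℝ) < max r (1 / 2) := lt_max_of_lt_right (by norm_num)
  have hm1 : max r (1 / 2) < 1 := max_lt hr1 (by norm_num)
  have h1 := h (1 / max r (1 / 2)) (by rw [lt_div_iff₀ hm0, one_mul]; exact hm1)
  refine Summable.of_nonneg_of_le (fun m => by positivity) (fun m => ?_) h1
  rw [norm_coeff_cx, one_div_one_div]
  exact mul_le_mul_of_nonneg_left (pow_le_pow_left₀ hr (le_max_left _ _) m) (abs_nonneg _)

lemma ou_ev (f : ℚ⟦X⟧) (s : ℝ) : ou (cx f) (s : ℂ) = ((ev s f : ℝ) : ℂ) := by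
  unfold ou inn ev
  rw [Complex.ofReal_tsum]
  refine tsum_congr fun m => ?_
  rw [coeff_cx]
  push_cast
  rfl

/-- uniqueness on the reals -/
lemma ou_real {ρ : ℝ} (hρ : 0 ≤ ρ) {f : PowerSeries ℂ} (hf : f ∈ Cw ρ) (h : ∀ᶠ s : ℝ in atTop, ou f (s : ℂ) = 0) : f = 0 := by
  obtain ⟨τ, hτ⟩ := eventually_atTop.1 h
  set U : Set ℂ := {z | ρ < z.re} with hU
  have hUn : ∀ z ∈ U, ρ < ‖z‖ := fun z hz => lt_of_lt_of_le hz (Complex.re_le_norm z)
  have hGan : AnalyticOnNhd ℂ (ou f) U := fun z hz => ou_an hρ hf z (hUn z hz)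
  set z₀ : ℂ := ((max τ ρ + 1 : ℝ) : ℂ) with hz₀
  have hz₀U : z₀ ∈ U := by
    show ρ < z₀.re
    rw [hz₀, Complex.ofReal_re]
    have := le_max_right τ ρ
    linarith
  have hzero : Set.EqOn (ou f) 0 U := by
    refine hGan.eqOn_zero_of_preconnected_of_frequently_eq_zero (convex_halfSpace_re_gt ρ).isPreconnected hz₀U ?_
    let u : ℕ → ℂ := fun n => ((max τ ρ + 1 + 1 / ((n : ℝ) + 1) : ℝ) : ℂ)
    have hu : Tendsto u atTop (𝓝[≠] z₀) := by
      rw [tendsto_nhdsWithin_iff]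
      refine ⟨?_, Eventually.of_forall fun n => ?_⟩
      · have h1 : Tendsto (fun n : ℕ => (max τ ρ + 1 + 1 / ((n : ℝ) + 1) : ℝ)) atTop (𝓝 (max τ ρ + 1 + 0)) :=
          tendsto_const_nhds.add tendsto_one_div_add_atTop_nhds_zero_nat
        rw [add_zero] at h1
        exact (Complex.continuous_ofReal.tendsto _).comp h1
      · show u n ≠ z₀
        intro h1
        have h2 : (max τ ρ + 1 + 1 / ((n : ℝ) + 1) : ℝ) = max τ ρ + 1 := Complex.ofReal_injective h1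
        have h3 : (0 : ℝ) < 1 / ((n : ℝ) + 1) := by positivity
        linarith
    refine hu.frequently (Eventually.frequently (Eventually.of_forall fun n => ?_))
    have h3 : (0 : ℝ) < 1 / ((n : ℝ) + 1) := by positivity
    have h4 := le_max_left τ ρ
    exact hτ _ (by linarith)
  have hUo : IsOpen U := isOpen_lt continuous_const Complex.continuous_re
  refine ou_inj hρ hf (hUn z₀ hz₀U) ?_
  filter_upwards [hUo.mem_nhds hz₀U] with z hz
  exact hzero hz

/-- polynomials have no zeros at large reals -/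
lemma poly_ev {q : Polynomial ℂ} (hq : q ≠ 0) : ∀ᶠ s : ℝ in atTop, q.eval (1 / (s : ℂ)) ≠ 0 := by
  have hfin : ((fun z : ℂ => (1 / z).re) '' (q.roots.toFinset : Set ℂ)).Finite := (q.roots.toFinset.finite_toSet).image _
  obtain ⟨M, hM⟩ := hfin.bddAbove
  filter_upwards [eventually_gt_atTop M] with s hs h0
  have h1 : (1 / (s : ℂ)) ∈ (q.roots.toFinset : Set ℂ) := by
    rw [Finset.mem_coe, Multiset.mem_toFinset, Polynomial.mem_roots hq]
    exact h0
  have h2 := hM (Set.mem_image_of_mem _ h1)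
  simp only [one_div_one_div, Complex.ofReal_re] at h2
  linarith

end conv

section tor

variable {I : Type} [Fintype I] [DecidableEq I] {Z H N K : Matrix I I ℂ}

open Matrix in
lemma tor1 (hK : IsUnit K.det) (hZ : Zᵀ * N * Z = K) (hH : Hᵀ * N * H = K) :
    IsUnit Z.det ∧ (Z⁻¹ * H)ᵀ * K * (Z⁻¹ * H) = K := by
  have hZu : IsUnit Z.det := by
    have h1 := congrArg Matrix.det hZ
    rw [Matrix.det_mul] at h1
    rw [← h1] at hK
    exact isUnit_of_mul_isUnit_right hK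
  refine ⟨hZu, ?_⟩
  have h2 : (Z⁻¹)ᵀ * Zᵀ = 1 := by rw [← Matrix.transpose_mul, Matrix.mul_nonsing_inv _ hZu, Matrix.transpose_one]
  calc (Z⁻¹ * H)ᵀ * K * (Z⁻¹ * H) = Hᵀ * ((Z⁻¹)ᵀ * Zᵀ) * N * (Z * Z⁻¹) * H := by
        conv_lhs => rw [← hZ, Matrix.transpose_mul]
        simp only [Matrix.mul_assoc]
    _ = K := by rw [h2, Matrix.mul_nonsing_inv _ hZu, Matrix.mul_one, Matrix.mul_one, hH]

end tor

section hom

variable {σ : Type} [Fintype σ]

lemma hom_eval (φ : Polynomial ℚ →+* ℂ) (A : MvPolynomial σ (Polynomial ℚ)) {D : ℕ} (hD : A.totalDegree ≤ D) {q : ℂ} (hq : q ≠ 0)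
    (y : σ → ℂ) : q ^ D * MvPolynomial.eval₂ φ (fun i => q⁻¹ * y i) A =
      ∑ s ∈ A.support, φ (A.coeff s) * q ^ (D - ∑ i, s i) * ∏ i, y i ^ s i := by
  rw [MvPolynomial.eval₂_eq', Finset.mul_sum]
  refine Finset.sum_congr rfl fun s hs => ?_
  have h1 : ∑ i, s i ≤ D := by
    have h2 := (MvPolynomial.le_totalDegree hs).trans hD
    rwa [Finsupp.sum_fintype _ _ fun _ => rfl] at h2
  have h3 : ∏ i, (q⁻¹ * y i) ^ s i = (q⁻¹) ^ (∑ i, s i) * ∏ i, y i ^ s i := by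
    simp only [mul_pow]
    rw [Finset.prod_mul_distrib, Finset.prod_pow_eq_pow_sum]
  have h4 : q ^ D = q ^ (D - ∑ i, s i) * q ^ (∑ i, s i) := by
    rw [← pow_add]
    congr 1
    omega
  have h5 : q ^ (∑ i, s i) * (q⁻¹) ^ (∑ i, s i) = 1 := by
    rw [← mul_pow, mul_inv_cancel₀ hq, one_pow]
  rw [h3, h4]
  linear_combination (φ (MvPolynomial.coeff s A) * q ^ (D - ∑ i, s i) * ∏ i, y i ^ s i) * h5

/-- the homogenised polynomial -/
noncomputable def hmg (A : MvPolynomial σ (Polynomial ℚ)) (D : ℕ) (q : Polynomial ℂ) (y : σ → Polynomial ℂ) : Polynomial ℂ :=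
  ∑ s ∈ A.support, (A.coeff s).map (algebraMap ℚ ℂ) * q ^ (D - ∑ i, s i) * ∏ i, y i ^ s i

lemma eval_hmg (A : MvPolynomial σ (Polynomial ℚ)) {D : ℕ} (hD : A.totalDegree ≤ D) (q : Polynomial ℂ) (y : σ → Polynomial ℂ) {x : ℂ}
    (hq : q.eval x ≠ 0) : (hmg A D q y).eval x =
      q.eval x ^ D * MvPolynomial.eval₂ (evq x) (fun i => (q.eval x)⁻¹ * (y i).eval x) A := by
  rw [hom_eval _ A hD hq]
  unfold hmg
  rw [Polynomial.eval_finsetSum]
  refine Finset.sum_congr rfl fun s _ => ?_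
  rw [Polynomial.eval_mul, Polynomial.eval_mul, Polynomial.eval_pow, Polynomial.eval_prod]
  simp only [Polynomial.eval_pow]
  congr 2
  rw [Polynomial.eval_map]
  rfl

end hom

/-- descent to the rational numbers -/
lemma descent {f g : ℚ⟦X⟧} {a b : Polynomial ℂ} (hb : b ≠ 0) (h : (a : PowerSeries ℂ) * cx g = (b : PowerSeries ℂ) * cx f) :
    ∃ a' b' : Polynomial ℚ, b' ≠ 0 ∧ (a' : ℚ⟦X⟧) * g = (b' : ℚ⟦X⟧) * f := by
  obtain ⟨k, hk⟩ : ∃ k, b.coeff k ≠ 0 := by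
    by_contra h0
    push_neg at h0
    exact hb (Polynomial.ext fun k => by rw [h0 k, Polynomial.coeff_zero])
  obtain ⟨φ, hφ⟩ : ∃ φ : ℂ →ₗ[ℚ] ℚ, φ (b.coeff k) ≠ 0 := by
    by_contra h0
    push_neg at h0
    exact hk ((Module.forall_dual_apply_eq_zero_iff ℚ _).1 h0)
  set P : Polynomial ℂ → Polynomial ℚ := fun u => ∑ i ∈ Finset.range (u.natDegree + 1), Polynomial.monomial i (φ (u.coeff i)) with hP
  have hPc : ∀ u i, (P u).coeff i = φ (u.coeff i) := by
    intro u i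
    rw [hP]
    simp only [Polynomial.finsetSum_coeff, Polynomial.coeff_monomial]
    by_cases hi : i ∈ Finset.range (u.natDegree + 1)
    · rw [Finset.sum_ite_eq' , if_pos hi]
    · rw [Finset.sum_ite_eq', if_neg hi]
      rw [Finset.mem_range, not_lt] at hi
      rw [Polynomial.coeff_eq_zero_of_natDegree_lt (by omega), map_zero]
  have key : ∀ (u : Polynomial ℂ) (w : ℚ⟦X⟧) (m : ℕ), coeff m ((P u : ℚ⟦X⟧) * w) = φ (coeff m ((u : PowerSeries ℂ) * cx w)) := by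
    intro u w m
    rw [coeff_mul, coeff_mul, map_sum]
    refine Finset.sum_congr rfl fun kl _ => ?_
    rw [Polynomial.coeff_coe, Polynomial.coeff_coe, hPc, coeff_cx]
    have h1 : u.coeff kl.1 * ((coeff kl.2 w : ℚ) : ℂ) = (coeff kl.2 w : ℚ) • u.coeff kl.1 := by
      rw [Rat.smul_def, mul_comm]
    rw [h1, map_smul, smul_eq_mul, mul_comm]
  refine ⟨P a, P b, fun h0 => hφ ?_, ?_⟩
  · rw [← hPc, h0, Polynomial.coeff_zero]
  · ext m
    rw [key, key, h]

end Q207.HN
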