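import Pool.Agent.Q207.HN.Cc

/-!
# Connectedness, continued
-/

set_option autoImplicit false

open PowerSeries Filter Topology

namespace Q207.HN

open Q207.HM Q207.HG Pool.Agent.Y113 Pool.Agent.Y120.GF Pool.Agent.Y120.GH
open Pool.Agent.Y119.HY (Hf Gal Hc)
open Pool.Agent.Y119.HZ (evq ix)
open Pool.Agent.Y118.UL (Conn)

variable {r : ℕ} {n : Fin r → ℕ} {α : ∀ j, Fin (n j) → ℚ}

/-- the values of the functions -/
lemma Sy.val (h : Sy α) {s : ℝ} (hs : 1 < s) (R : MvPolynomial (Fin (sz n * sz n)) (Polynomial ℚ)) :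
    ou (cx (MvPolynomial.aeval (jsys (hb α)).hf R)) (s : ℂ) = va (((1 / s : ℝ)) : ℂ) (Hf (jsys (hb α)).Hc (((1 / s : ℝ)) : ℂ)) R := by
  rw [ou_ev, (ev_aevalS h.ok hs R).2]
  unfold va
  congr 1
  funext j
  exact ev_sys _ s _ _

lemma Sy.mem (h : Sy α) (R : MvPolynomial (Fin (sz n * sz n)) (Polynomial ℚ)) :
    cx (MvPolynomial.aeval (jsys (hb α)).hf R) ∈ Cw 1 := mem_Cw fun _ ht => (ev_aevalS h.ok ht R).1

/-- the polynomial matrix of the quadratic relations -/
noncomputable def NP (n : ℕ) (Q : Polynomial ℚ) : Matrix (Fin n) (Fin n) (Polynomial ℂ) :=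
  (K0 n).map Polynomial.C + (Polynomial.X : Polynomial ℂ) • (K1 n Q).map Polynomial.C

lemma NP_map (n : ℕ) (Q : Polynomial ℚ) (x : ℂ) : (NP n Q).map (Polynomial.eval x) = Nn n Q x := by
  ext a b
  unfold NP Nn
  simp
  ring

lemma Sy.skewN (h : Sy α) {x : ℝ} (hx : 0 < x) (hx1 : x < 1) (j : Fin r) :
    (Nn (n j) (QA (α j)) (x : ℂ)).transpose = -Nn (n j) (QA (α j)) (x : ℂ) ∧ (Nn (n j) (QA (α j)) (x : ℂ)).det ≠ 0 := by
  have h1 := h.quad hx hx1 j
  set H := Hf (Hc (n j) (QA (α j))) (x : ℂ) with hH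
  set N := Nn (n j) (QA (α j)) (x : ℂ) with hN
  have hd : H.transpose.det * N.det * H.det = (K0 (n j)).det := by rw [← Matrix.det_mul, ← Matrix.det_mul, h1]
  have hK := h.det j
  rw [← hd] at hK
  have hHd : H.det ≠ 0 := right_ne_zero_of_mul hK
  have hNd : N.det ≠ 0 := right_ne_zero_of_mul (left_ne_zero_of_mul hK)
  have hHu : IsUnit H.det := Ne.isUnit hHd
  refine ⟨?_, hNd⟩
  have h2 : H.transpose * N.transpose * H = -(H.transpose * N * H) := by
    rw [h1, ← h.skew j, ← h1, Matrix.transpose_mul, Matrix.transpose_mul, Matrix.transpose_transpose, Matrix.mul_assoc]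
  have h3 : (H⁻¹).transpose * H.transpose = 1 := by rw [← Matrix.transpose_mul, Matrix.mul_nonsing_inv _ hHu, Matrix.transpose_one]
  calc N.transpose = ((H⁻¹).transpose * H.transpose) * N.transpose * (H * H⁻¹) := by
        rw [h3, Matrix.mul_nonsing_inv _ hHu, Matrix.one_mul, Matrix.mul_one]
    _ = (H⁻¹).transpose * (H.transpose * N.transpose * H) * H⁻¹ := by simp only [Matrix.mul_assoc]
    _ = -(((H⁻¹).transpose * H.transpose) * N * (H * H⁻¹)) := by
        rw [h2]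
        simp only [Matrix.mul_assoc, Matrix.mul_neg, Matrix.neg_mul]
    _ = -N := by rw [h3, Matrix.mul_nonsing_inv _ hHu, Matrix.one_mul, Matrix.mul_one]

lemma inf_real : (Set.range fun x : Set.Ioo (0 : ℝ) 1 => ((x : ℝ) : ℂ)).Infinite := by
  have : Infinite (Set.Ioo (0 : ℝ) 1) := (Set.Ioo_infinite one_pos).to_subtype
  exact Set.infinite_range_of_injective fun a b hab => Subtype.ext (Complex.ofReal_injective hab)

lemma Sy.skewP (h : Sy α) (j : Fin r) : (NP (n j) (QA (α j))).transpose = -NP (n j) (QA (α j)) ∧ (NP (n j) (QA (α j))).det ≠ 0 := by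
  refine ⟨?_, ?_⟩
  · ext1 a b
    refine Polynomial.eq_of_infinite_eval_eq _ _ (inf_real.mono ?_)
    rintro _ ⟨⟨x, hx0, hx1⟩, rfl⟩
    show Polynomial.eval (x : ℂ) (NP (n j) (QA (α j)) b a) = Polynomial.eval (x : ℂ) (-(NP (n j) (QA (α j)) a b))
    have h1 := congrFun (congrFun (h.skewN hx0 hx1 j).1 a) b
    rw [← NP_map] at h1
    rw [Polynomial.eval_neg]
    exact h1
  · intro h0
    have h1 := (h.skewN (x := 1 / 2) (by norm_num) (by norm_num) j).2
    apply h1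
    rw [← NP_map, ← Polynomial.coe_evalRingHom, ← RingHom.mapMatrix_apply, ← RingHom.map_det, h0, map_zero]

lemma Sy.skewK (h : Sy α) (j : Fin r) : ((K0 (n j)).map (Polynomial.C : ℂ →+* Polynomial ℂ)).transpose = -(K0 (n j)).map Polynomial.C ∧
    ((K0 (n j)).map (Polynomial.C : ℂ →+* Polynomial ℂ)).det ≠ 0 := by
  refine ⟨?_, ?_⟩
  · rw [← Matrix.transpose_map, h.skew j]
    ext1 a b
    simp
  · rw [← RingHom.mapMatrix_apply, ← RingHom.map_det]
    exact (map_ne_zero_iff _ Polynomial.C_injective).2 (h.det j)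

/-- **The family is connected.** -/
theorem Sy.conn (h : Sy α) : Conn (jsys (hb α)).hf := by
  classical
  intro A B halg
  set f := MvPolynomial.aeval (jsys (hb α)).hf A with hf
  set g := MvPolynomial.aeval (jsys (hb α)).hf B with hg
  by_cases hg0 : g = 0
  · refine ⟨0, 1, one_ne_zero, ?_⟩
    rw [hg0, map_zero, div_zero, map_zero, zero_div]
  have hinj : Function.Injective (algebraMap ℚ⟦X⟧ (FractionRing ℚ⟦X⟧)) := IsFractionRing.injective _ _
  have hgK : algebraMap ℚ⟦X⟧ (FractionRing ℚ⟦X⟧) g ≠ 0 := fun h0 => hg0 (hinj (by rw [h0, map_zero]))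
  obtain ⟨P, hP0, hP⟩ := halg
  set d := P.natDegree with hd
  -- the relation
  have hrel : MvPolynomial.aeval (jsys (hb α)).hf
      (∑ j ∈ Finset.range (d + 1), MvPolynomial.C (P.coeff j) * A ^ j * B ^ (d - j)) = 0 := by
    apply hinj
    rw [map_zero, map_sum, map_sum]
    have h1 : ∀ j ∈ Finset.range (d + 1), algebraMap ℚ⟦X⟧ (FractionRing ℚ⟦X⟧) (MvPolynomial.aeval (jsys (hb α)).hf
        (MvPolynomial.C (P.coeff j) * A ^ j * B ^ (d - j))) = (algebraMap ℚ⟦X⟧ (FractionRing ℚ⟦X⟧) g) ^ d *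
        (algebraMap (Polynomial ℚ) (FractionRing ℚ⟦X⟧) (P.coeff j) *
          (algebraMap ℚ⟦X⟧ (FractionRing ℚ⟦X⟧) f / algebraMap ℚ⟦X⟧ (FractionRing ℚ⟦X⟧) g) ^ j) := by
      intro j hj
      have hjd : j ≤ d := by
        have := Finset.mem_range.1 hj
        omega
      simp only [map_mul, map_pow, MvPolynomial.aeval_C]
      rw [← IsScalarTower.algebraMap_apply, ← hf, ← hg, div_pow]
      have e1 : (algebraMap ℚ⟦X⟧ (FractionRing ℚ⟦X⟧) g) ^ d = (algebraMap ℚ⟦X⟧ (FractionRing ℚ⟦X⟧) g) ^ j *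
          (algebraMap ℚ⟦X⟧ (FractionRing ℚ⟦X⟧) g) ^ (d - j) := by
        rw [← pow_add]
        congr 1
        omega
      rw [e1]
      field_simp
    rw [Finset.sum_congr rfl h1, ← Finset.mul_sum]
    have h2 : ∑ j ∈ Finset.range (d + 1), algebraMap (Polynomial ℚ) (FractionRing ℚ⟦X⟧) (P.coeff j) *
          (algebraMap ℚ⟦X⟧ (FractionRing ℚ⟦X⟧) f / algebraMap ℚ⟦X⟧ (FractionRing ℚ⟦X⟧) g) ^ j = 0 := by
      rw [Polynomial.aeval_eq_sum_range] at hP
      simp only [Algebra.smul_def] at hP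
      exact hP
    rw [h2, mul_zero]
  have hPd : P.coeff d ≠ 0 := Polynomial.leadingCoeff_ne_zero.2 hP0
  -- the torsor
  obtain ⟨q, Z, hq0, hZ⟩ := poly_congr (B := fun j => NP (n j) (QA (α j))) (B' := fun j => (K0 (n j)).map Polynomial.C)
    (fun j => (h.skewP j).1) (fun j => (h.skewP j).2) (fun j => (h.skewK j).1) (fun j => (h.skewK j).2)
  set Zx : ℂ → Bl n ℂ := fun x j => (q.eval x)⁻¹ • (Z j).map (Polynomial.eval x) with hZx
  have hZK : ∀ x : ℂ, q.eval x ≠ 0 → ∀ j, (Zx x j).transpose * Nn (n j) (QA (α j)) x * Zx x j = K0 (n j) := by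
    intro x hx j
    have h1 := congrArg (fun X : Matrix (Fin (n j)) (Fin (n j)) (Polynomial ℂ) => X.map (Polynomial.evalRingHom x)) (hZ j)
    simp only [Matrix.map_mul] at h1
    have e1 : (NP (n j) (QA (α j))).map (Polynomial.evalRingHom x) = Nn (n j) (QA (α j)) x := NP_map _ _ _
    have e2 : ((q * q) • (K0 (n j)).map Polynomial.C).map (Polynomial.evalRingHom x) = (q.eval x * q.eval x) • K0 (n j) := by
      ext1 a b
      simp
    have e3 : (Z j).transpose.map (Polynomial.evalRingHom x) = ((Z j).map (Polynomial.evalRingHom x)).transpose := rfl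
    rw [e1, e2, e3] at h1
    rw [hZx]
    simp only
    rw [Matrix.transpose_smul, Matrix.smul_mul, Matrix.smul_mul, Matrix.mul_smul, smul_smul]
    have h2 : ((Z j).map (Polynomial.eval x)).transpose * Nn (n j) (QA (α j)) x * (Z j).map (Polynomial.eval x) =
        (q.eval x * q.eval x) • K0 (n j) := h1
    rw [h2, smul_smul]
    have h3 : (q.eval x)⁻¹ * (q.eval x)⁻¹ * (q.eval x * q.eval x) = 1 := by
      field_simp
    rw [h3, one_smul]
  -- a good point
  have hu0 : q * (P.coeff d).map (algebraMap ℚ ℂ) ≠ 0 :=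
    mul_ne_zero hq0 ((Polynomial.map_ne_zero_iff (algebraMap ℚ ℂ).injective).2 hPd)
  have hev : ∀ᶠ s : ℝ in atTop, 1 < s ∧ q.eval (((1 / s : ℝ)) : ℂ) ≠ 0 ∧ evq (((1 / s : ℝ)) : ℂ) (P.coeff d) ≠ 0 := by
    filter_upwards [poly_ev hu0, eventually_gt_atTop (1 : ℝ)] with s h1 h2
    rw [Polynomial.eval_mul] at h1
    have e1 : (((1 / s : ℝ)) : ℂ) = 1 / (s : ℂ) := by push_cast; rfl
    rw [e1]
    refine ⟨h2, left_ne_zero_of_mul h1, ?_⟩
    have h3 := right_ne_zero_of_mul h1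
    rw [Polynomial.eval_map] at h3
    exact h3
  obtain ⟨s₀, hs₀, hs₀1, hs₀q, -⟩ : ∃ s : ℝ, ou (cx g) (s : ℂ) ≠ 0 ∧ 1 < s ∧ q.eval (((1 / s : ℝ)) : ℂ) ≠ 0 ∧
      evq (((1 / s : ℝ)) : ℂ) (P.coeff d) ≠ 0 := by
    have h1 : ∃ᶠ s : ℝ in atTop, ou (cx g) (s : ℂ) ≠ 0 := by
      intro h0
      have h1 : ∀ᶠ s : ℝ in atTop, ou (cx g) (s : ℂ) = 0 := h0.mono fun s hs => not_not.1 hs
      have h2 := ou_real zero_le_one (h.mem B) h1
      apply hg0
      ext m
      have h3 := congrArg (coeff m) h2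
      rw [coeff_cx, map_zero] at h3
      rw [map_zero]
      exact_mod_cast h3
    exact (h1.and_eventually hev).exists
  set x₀ : ℝ := 1 / s₀ with hx₀
  have hx₀0 : 0 < x₀ := by positivity
  have hx₀1 : x₀ < 1 := by rw [hx₀, div_lt_one (by linarith)]; exact hs₀1
  have hKu : ∀ j, IsUnit (K0 (n j)).det := fun j => Ne.isUnit (h.det j)
  have ht0 := fun j => tor1 (hKu j) (hZK (x₀ : ℂ) hs₀q j) (h.quad hx₀0 hx₀1 j)
  set κ₀ : Bl n ℂ := fun j => (Zx (x₀ : ℂ) j)⁻¹ * Hf (Hc (n j) (QA (α j))) (x₀ : ℂ) with hκ₀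
  -- the values
  set D := max A.totalDegree B.totalDegree with hD
  set y : Fin (sz n * sz n) → Polynomial ℂ := fun i => (BD fun j => Z j * (κ₀ j).map Polynomial.C) (ix (sz n) i).1 (ix (sz n) i).2 with hy
  have hyx : ∀ (x : ℂ) (i : Fin (sz n * sz n)), (q.eval x)⁻¹ * (y i).eval x =
      (BD fun j => Zx x j * κ₀ j) (ix (sz n) i).1 (ix (sz n) i).2 := by
    intro x i
    have e1 : (y i).eval x = ((BD fun j => Z j * (κ₀ j).map Polynomial.C).map (Polynomial.evalRingHom x))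
        (ix (sz n) i).1 (ix (sz n) i).2 := rfl
    rw [e1, BD_map' _ (map_zero _)]
    have e2 : (BD fun j => Zx x j * κ₀ j) = (q.eval x)⁻¹ • BD fun j => (Z j * (κ₀ j).map Polynomial.C).map (Polynomial.evalRingHom x) := by
      rw [← BD_smul]
      congr 1
      funext j
      rw [Matrix.map_mul, hZx]
      simp only [Matrix.smul_mul]
      congr 2
      ext1 a b
      simp
    rw [e2, Matrix.smul_apply, smul_eq_mul]
  have hstar : ∀ (C : MvPolynomial (Fin (sz n * sz n)) (Polynomial ℚ)), C.totalDegree ≤ D → ∀ x : ℂ, q.eval x ≠ 0 →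
      (hmg C D q y).eval x = q.eval x ^ D * va x (BD fun j => Zx x j * κ₀ j) C := by
    intro C hC x hx
    rw [eval_hmg C hC q y hx]
    unfold va
    simp only [hyx]
  have hbne : hmg B D q y ≠ 0 := by
    intro h0
    have h1 := hstar B (le_max_right _ _) (x₀ : ℂ) hs₀q
    rw [h0, Polynomial.eval_zero] at h1
    have h2 : (BD fun j => Zx (x₀ : ℂ) j * κ₀ j) = Hf (jsys (hb α)).Hc (x₀ : ℂ) := by
      rw [Hf_blocks]
      congr 1
      funext j
      rw [hκ₀]
      simp only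
      rw [← Matrix.mul_assoc, Matrix.mul_nonsing_inv _ (ht0 j).1, Matrix.one_mul]
    rw [h2, ← h.val hs₀1 B] at h1
    exact (mul_ne_zero (pow_ne_zero _ hs₀q) hs₀) h1.symm
  have hkey : ∀ᶠ s : ℝ in atTop, (hmg A D q y).eval (((1 / s : ℝ)) : ℂ) * ou (cx g) (s : ℂ) =
      (hmg B D q y).eval (((1 / s : ℝ)) : ℂ) * ou (cx f) (s : ℂ) := by
    filter_upwards [hev] with s hs
    obtain ⟨hs1, hsq, hsP⟩ := hs
    set x : ℝ := 1 / s with hx
    have hx0 : 0 < x := by rw [hx]; positivity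
    have hx1 : x < 1 := by rw [hx, div_lt_one (by linarith)]; exact hs1
    rw [hstar A (le_max_left _ _) _ hsq, hstar B (le_max_right _ _) _ hsq, h.val hs1 A, h.val hs1 B]
    have hZκ : ∀ j, (Zx (x : ℂ) j * κ₀ j).transpose * Nn (n j) (QA (α j)) (x : ℂ) * (Zx (x : ℂ) j * κ₀ j) = K0 (n j) := by
      intro j
      calc (Zx (x : ℂ) j * κ₀ j).transpose * Nn (n j) (QA (α j)) (x : ℂ) * (Zx (x : ℂ) j * κ₀ j) =
            (κ₀ j).transpose * ((Zx (x : ℂ) j).transpose * Nn (n j) (QA (α j)) (x : ℂ) * Zx (x : ℂ) j) * κ₀ j := by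
              rw [Matrix.transpose_mul]
              simp only [Matrix.mul_assoc]
        _ = K0 (n j) := by
              rw [hZK _ hsq j]
              exact (ht0 j).2
    have ht := fun j => tor1 (hKu j) (h.quad hx0 hx1 j) (hZκ j)
    have h1 := inv_quot h hrel hx0 hx1 hsP (κ := fun j => (Hf (Hc (n j) (QA (α j))) (x : ℂ))⁻¹ * (Zx (x : ℂ) j * κ₀ j)) fun j => (ht j).2
    have h2 : Hf (jsys (hb α)).Hc (x : ℂ) * BD (fun j => (Hf (Hc (n j) (QA (α j))) (x : ℂ))⁻¹ * (Zx (x : ℂ) j * κ₀ j)) =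
        BD fun j => Zx (x : ℂ) j * κ₀ j := by
      rw [Hf_blocks, ← BD_mul]
      congr 1
      funext j
      rw [← Matrix.mul_assoc, Matrix.mul_nonsing_inv _ (ht j).1, Matrix.one_mul]
    rw [h2] at h1
    linear_combination (q.eval (x : ℂ)) ^ D * h1
  have hformal : ((hmg A D q y : Polynomial ℂ) : PowerSeries ℂ) * cx g = ((hmg B D q y : Polynomial ℂ) : PowerSeries ℂ) * cx f := by
    have h1 : ((hmg A D q y : Polynomial ℂ) : PowerSeries ℂ) * cx g + ((-hmg B D q y : Polynomial ℂ) : PowerSeries ℂ) * cx f = 0 := by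
      have m1 : ((hmg A D q y : Polynomial ℂ) : PowerSeries ℂ) * cx g ∈ Cw 1 := (Cw 1).mul_mem (poly_mem _) (h.mem B)
      have m2 : ((-hmg B D q y : Polynomial ℂ) : PowerSeries ℂ) * cx f ∈ Cw 1 := (Cw 1).mul_mem (poly_mem _) (h.mem A)
      refine ou_real zero_le_one ((Cw 1).add_mem m1 m2) ?_
      filter_upwards [hkey, eventually_gt_atTop (1 : ℝ)] with s h1 h2
      have hn : (1 : ℝ) < ‖(s : ℂ)‖ := by
        rw [Complex.norm_real, Real.norm_eq_abs]
        exact h2.trans_le (le_abs_self _)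
      have e1 : (((1 / s : ℝ)) : ℂ) = 1 / (s : ℂ) := by push_cast; rfl
      rw [e1] at h1
      rw [ou_add zero_le_one m1 m2 hn, ou_mul zero_le_one (poly_mem _) (h.mem B) hn, ou_mul zero_le_one (poly_mem _) (h.mem A) hn,
        ou_poly, ou_poly, Polynomial.eval_neg]
      linear_combination h1
    rw [Polynomial.coe_neg] at h1
    linear_combination h1
  obtain ⟨a', b', hb', hab⟩ := descent hbne hformal
  refine ⟨a', b', hb', ?_⟩
  have hcoe : ∀ p : Polynomial ℚ, algebraMap (Polynomial ℚ) (FractionRing ℚ⟦X⟧) p = algebraMap ℚ⟦X⟧ (FractionRing ℚ⟦X⟧) (p : ℚ⟦X⟧) := by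
    intro p
    rw [IsScalarTower.algebraMap_apply (Polynomial ℚ) ℚ⟦X⟧ (FractionRing ℚ⟦X⟧)]
    congr 1
  have hb'K : algebraMap ℚ⟦X⟧ (FractionRing ℚ⟦X⟧) (b' : ℚ⟦X⟧) ≠ 0 := by
    intro h0
    apply hb'
    have h1 := hinj (h0.trans (map_zero _).symm)
    exact Polynomial.coe_injective ℚ (by rw [h1, Polynomial.coe_zero])
  rw [hcoe, hcoe, div_eq_div_iff hgK hb'K, ← map_mul, ← map_mul, hab]
  congr 1
  ring

end Q207.HN
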