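import Pool.Agent.Q207.HN.Ct

/-!
# The algebraic functions in the field of the periods are invariant
-/

set_option autoImplicit false

open Matrix

namespace Q207.HN

open Q207.HM Q207.HG
open Pool.Agent.Y119.HY (Hf Gal)
open Pool.Agent.Y119.HZ (evq ix)

section val

variable {N : ℕ}

/-- the value of a polynomial at a matrix -/
noncomputable def va (x : ℂ) (Z : Matrix (Fin N) (Fin N) ℂ) (A : MvPolynomial (Fin (N * N)) (Polynomial ℚ)) : ℂ :=
  MvPolynomial.eval₂ (evq x) (fun j => Z (ix N j).1 (ix N j).2) A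

/-- the value of a polynomial at a path -/
noncomputable def vp (x : ℂ) (Z : Matrix (Fin N) (Fin N) (Polynomial ℂ)) (A : MvPolynomial (Fin (N * N)) (Polynomial ℚ)) : Polynomial ℂ :=
  MvPolynomial.eval₂ (Polynomial.C.comp (evq x)) (fun j => Z (ix N j).1 (ix N j).2) A

lemma eval_vp (x s : ℂ) (Z : Matrix (Fin N) (Fin N) (Polynomial ℂ)) (A : MvPolynomial (Fin (N * N)) (Polynomial ℚ)) :
    (vp x Z A).eval s = va x (Z.map (Polynomial.eval s)) A := by
  unfold vp va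
  rw [← Polynomial.coe_evalRingHom, MvPolynomial.hom_eval₂]
  congr 1
  refine RingHom.ext fun q => ?_
  simp

lemma va_sum (x : ℂ) (Z : Matrix (Fin N) (Fin N) ℂ) (A B : MvPolynomial (Fin (N * N)) (Polynomial ℚ)) (d : ℕ) (p : ℕ → Polynomial ℚ) :
    va x Z (∑ j ∈ Finset.range (d + 1), MvPolynomial.C (p j) * A ^ j * B ^ (d - j)) =
      ∑ j ∈ Finset.range (d + 1), evq x (p j) * va x Z A ^ j * va x Z B ^ (d - j) := by
  unfold va
  rw [MvPolynomial.eval₂_sum]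
  refine Finset.sum_congr rfl fun j _ => ?_
  rw [MvPolynomial.eval₂_mul, MvPolynomial.eval₂_mul, MvPolynomial.eval₂_C, MvPolynomial.eval₂_pow, MvPolynomial.eval₂_pow]

end val

variable {r : ℕ} {n : Fin r → ℕ} {α : ∀ j, Fin (n j) → ℚ}

lemma Sy.skew (h : Sy α) (j : Fin r) : (K0 (n j))ᵀ = -K0 (n j) := by
  rw [K0_tr]
  have h1 : Odd (n j - 1) := by
    obtain ⟨m, hm⟩ := h.even j
    have := h.two j
    exact ⟨m - 1, by omega⟩
  rw [h1.neg_one_pow, neg_one_smul]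

lemma Sy.det (_h : Sy α) (j : Fin r) : (K0 (n j)).det ≠ 0 := ((Matrix.isUnit_iff_isUnit_det _).1 K0_unit).ne_zero

/-- **invariance** -/
theorem inv_quot (h : Sy α) {A B : MvPolynomial (Fin (sz n * sz n)) (Polynomial ℚ)} {d : ℕ} {p : ℕ → Polynomial ℚ}
    (hR : MvPolynomial.aeval (jsys (hb α)).hf (∑ j ∈ Finset.range (d + 1), MvPolynomial.C (p j) * A ^ j * B ^ (d - j)) = 0)
    {x : ℝ} (hx : 0 < x) (hx1 : x < 1) (hp : evq (x : ℂ) (p d) ≠ 0) {κ : Bl n ℂ}
    (hκ : ∀ j, (κ j)ᵀ * K0 (n j) * κ j = K0 (n j)) :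
    va (x : ℂ) (Hf (jsys (hb α)).Hc (x : ℂ) * BD κ) A * va (x : ℂ) (Hf (jsys (hb α)).Hc (x : ℂ)) B =
      va (x : ℂ) (Hf (jsys (hb α)).Hc (x : ℂ)) A * va (x : ℂ) (Hf (jsys (hb α)).Hc (x : ℂ) * BD κ) B := by
  classical
  choose M hM0 hM1 hM using fun j => sp_path (h.skew j) (h.det j) (κ j) (hκ j)
  set Z : Matrix (Fin (sz n)) (Fin (sz n)) (Polynomial ℂ) := (Hf (jsys (hb α)).Hc (x : ℂ)).map Polynomial.C * BD M with hZ
  have hZs : ∀ s : ℂ, Z.map (Polynomial.eval s) = Hf (jsys (hb α)).Hc (x : ℂ) * BD fun j => (M j).map (Polynomial.eval s) := by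
    intro s
    have h1 : Z.map (Polynomial.eval s) = ((Hf (jsys (hb α)).Hc (x : ℂ)).map Polynomial.C).map (Polynomial.eval s) *
        (BD M).map (Polynomial.eval s) := Matrix.map_mul (f := Polynomial.evalRingHom s)
    rw [h1, BD_map' _ Polynomial.eval_zero]
    congr 1
    ext a b
    simp
  have hs : ∑ j ∈ Finset.range (d + 1), Polynomial.C (evq (x : ℂ) (p j)) * vp (x : ℂ) Z A ^ j * vp (x : ℂ) Z B ^ (d - j) = 0 := by
    refine Polynomial.funext fun s => ?_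
    rw [Polynomial.eval_finsetSum, Polynomial.eval_zero]
    have h1 := rel_invS h.ok hR hx hx1 (gal_all h (fun j => (M j).map (Polynomial.eval s)) fun j => hM j s)
    have h2 := va_sum (x : ℂ) (Hf (jsys (hb α)).Hc (x : ℂ) * BD fun j => (M j).map (Polynomial.eval s)) A B d p
    unfold va at h2
    rw [h1] at h2
    rw [h2]
    refine Finset.sum_congr rfl fun j _ => ?_
    rw [Polynomial.eval_mul, Polynomial.eval_mul, Polynomial.eval_C, Polynomial.eval_pow, Polynomial.eval_pow, eval_vp, eval_vp, hZs]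
    rfl
  have h3 := const_quot (c := fun j => evq (x : ℂ) (p j)) hp hs 1 0
  rw [eval_vp, eval_vp, eval_vp, eval_vp, hZs, hZs] at h3
  have e1 : (fun j => (M j).map (Polynomial.eval 1)) = κ := funext hM1
  have e0 : (BD fun j => (M j).map (Polynomial.eval 0)) = 1 := by
    rw [← BD_one]
    congr 1
    funext j
    exact hM0 j
  rw [e1, e0, Matrix.mul_one] at h3
  exact h3

/-- the quadratic relation for the holomorphic part -/
lemma Sy.quad (h : Sy α) {x : ℝ} (hx : 0 < x) (hx1 : x < 1) (j : Fin r) :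
    (Hf (Pool.Agent.Y119.HY.Hc (n j) (QA (α j))) (x : ℂ))ᵀ * Nn (n j) (QA (α j)) (x : ℂ) *
      Hf (Pool.Agent.Y119.HY.Hc (n j) (QA (α j))) (x : ℂ) = K0 (n j) := by
  have h1 := conc_Y Pool.Agent.Q195.HG.conc hx hx1 (h.two j) (h.pos j) (QA_cls_neg (h.pos j) (h.pos j) (h.cl j))
  have hnil : Pool.Agent.Y119.HY.cm (Pool.Agent.Y119.HY.Am (n j)) ^ n j = 0 := Pool.Agent.Y119.HY.Ac_nil
  set N := Pool.Agent.Y119.HY.cm (Pool.Agent.Y119.HY.Am (n j)) with hN
  set L := Complex.log (x : ℂ) with hL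
  set H := Hf (Pool.Agent.Y119.HY.Hc (n j) (QA (α j))) (x : ℂ) with hH
  have hY : Yx (n j) (QA (α j)) x = H * Pool.Agent.Y119.HY.E N L := rfl
  have h2 : H = Yx (n j) (QA (α j)) x * Pool.Agent.Y119.HY.E N (-L) := by
    rw [hY, Matrix.mul_assoc, Pool.Agent.Y119.HY.E_mul_neg hnil, Matrix.mul_one]
  have h3 := Pool.Agent.Y119.HY.E_isom hnil (J := K0 (n j)) (Pool.Agent.Q195.HG.Cnc.rel1 (n := n j)) (-L)
  calc Hᵀ * Nn (n j) (QA (α j)) (x : ℂ) * H = (Pool.Agent.Y119.HY.E N (-L))ᵀ * ((Yx (n j) (QA (α j)) x)ᵀ * Nn (n j) (QA (α j)) (x : ℂ) *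
        Yx (n j) (QA (α j)) x) * Pool.Agent.Y119.HY.E N (-L) := by
        rw [h2, Matrix.transpose_mul]
        simp only [Matrix.mul_assoc]
    _ = K0 (n j) := by rw [h1, h3]

/-- the holomorphic part is block diagonal -/
lemma Hf_blocks {x : ℂ} : Hf (jsys (hb α)).Hc x = BD fun j => Hf (Pool.Agent.Y119.HY.Hc (n j) (QA (α j))) x := by
  have h1 : (jsys (hb α)).Hc = fun k => BD fun i => Pool.Agent.Y119.HY.Hc (n i) (hb α i).Q k := funext jsys_Hc
  rw [h1, Hf_BD]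
  rfl

end Q207.HN
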