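import Pool.Agent.Q207.HN.Pa
import Pool.Agent.Q2.UY.Con0

/-!
# The form of the quadratic relations is equivalent to a constant form
-/

set_option autoImplicit false

open Matrix

namespace Q207.HN

open Pool.Agent.Q2.UY (sbasis' JJ)
open Q207.HM Q207.HG

section field

variable {K : Type} [Field K] [CharZero K] {n : ℕ}

lemma alt_one {B : Matrix (Fin n) (Fin n) K} (hB : Bᵀ = -B) (hd : B.det ≠ 0) :
    ∃ (d : ℕ) (S : Matrix (Fin n) (Fin d × Fin 2) K) (T : Matrix (Fin d × Fin 2) (Fin n) K),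
      Sᵀ * B * S = JJ K d ∧ S * T = 1 ∧ n = 2 * d := by
  set ω : (Fin n → K) →ₗ[K] (Fin n → K) →ₗ[K] K := Matrix.toLinearMap₂' K B with hω
  have hωa : ∀ u v, ω u v = u ⬝ᵥ (B *ᵥ v) := by
    intro u v
    rw [hω, Matrix.toLinearMap₂'_apply']
  have h0 : ∀ v, ω v v = 0 := by
    intro v
    have h1 : v ⬝ᵥ (B *ᵥ v) = -(v ⬝ᵥ (B *ᵥ v)) := by
      conv_lhs => rw [dotProduct_comm, ← Matrix.vecMul_transpose, ← Matrix.dotProduct_mulVec, hB, Matrix.neg_mulVec, dotProduct_neg]
    rw [hωa]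
    have h2 : (2 : K) * (v ⬝ᵥ (B *ᵥ v)) = 0 := by linear_combination h1
    exact (mul_eq_zero.1 h2).resolve_left two_ne_zero
  have hnd : ∀ u, (∀ v, ω u v = 0) → u = 0 := by
    intro u hu
    have h1 : ∀ w : Fin n → K, u ⬝ᵥ w = 0 := by
      intro w
      have h2 := hu (B⁻¹ *ᵥ w)
      rw [hωa, mulVec_mulVec, mul_nonsing_inv _ (Ne.isUnit hd), one_mulVec] at h2
      exact h2
    funext i
    have := h1 (Pi.single i 1)
    rwa [dotProduct_single_one] at this
  obtain ⟨d, s, hs⟩ := sbasis' (Fin n → K) ω h0 hnd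
  refine ⟨d, (Pi.basisFun K (Fin n)).toMatrix s, s.toMatrix (Pi.basisFun K (Fin n)), ?_, Module.Basis.toMatrix_mul_toMatrix_flip _ _, ?_⟩
  · ext p q
    rw [← hs p q, hωa, Matrix.mul_assoc, Matrix.mul_apply, dotProduct]
    refine Finset.sum_congr rfl fun i _ => ?_
    rw [Matrix.transpose_apply, Matrix.mul_apply, Matrix.mulVec, dotProduct]
    simp only [Module.Basis.toMatrix_apply, Pi.basisFun_repr]
  · have h1 := Module.finrank_eq_card_basis s
    rw [Module.finrank_fin_fun, Fintype.card_prod, Fintype.card_fin, Fintype.card_fin] at h1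
    omega

/-- two nondegenerate alternating forms are equivalent -/
theorem alt_congr {B B' : Matrix (Fin n) (Fin n) K} (hB : Bᵀ = -B) (hd : B.det ≠ 0) (hB' : B'ᵀ = -B') (hd' : B'.det ≠ 0) :
    ∃ P : Matrix (Fin n) (Fin n) K, Pᵀ * B * P = B' := by
  obtain ⟨d, S, T, h1, -, h2⟩ := alt_one hB hd
  obtain ⟨d', S', T', h1', h3', h2'⟩ := alt_one hB' hd'
  obtain rfl : d = d' := by omega
  refine ⟨S * T', ?_⟩
  have h4 : T'ᵀ * S'ᵀ = 1 := by rw [← Matrix.transpose_mul, h3', Matrix.transpose_one]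
  calc (S * T')ᵀ * B * (S * T') = T'ᵀ * (Sᵀ * B * S) * T' := by
        rw [Matrix.transpose_mul]
        simp only [Matrix.mul_assoc]
    _ = T'ᵀ * (S'ᵀ * B' * S') * T' := by rw [h1, h1']
    _ = (T'ᵀ * S'ᵀ) * B' * (S' * T') := by simp only [Matrix.mul_assoc]
    _ = B' := by rw [h4, h3', Matrix.one_mul, Matrix.mul_one]

end field

section poly

variable {r : ℕ} {n : Fin r → ℕ}

/-- polynomial form -/
theorem poly_congr {B B' : ∀ j, Matrix (Fin (n j)) (Fin (n j)) (Polynomial ℂ)} (hB : ∀ j, (B j)ᵀ = -B j) (hd : ∀ j, (B j).det ≠ 0)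
    (hB' : ∀ j, (B' j)ᵀ = -B' j) (hd' : ∀ j, (B' j).det ≠ 0) :
    ∃ (q : Polynomial ℂ) (Z : ∀ j, Matrix (Fin (n j)) (Fin (n j)) (Polynomial ℂ)), q ≠ 0 ∧ ∀ j, (Z j)ᵀ * B j * Z j = (q * q) • B' j := by
  classical
  set K := FractionRing (Polynomial ℂ) with hK
  set φ : Polynomial ℂ →+* K := algebraMap (Polynomial ℂ) K with hφ
  have hinj : Function.Injective φ := IsFractionRing.injective (Polynomial ℂ) K
  have : CharZero K := charZero_of_injective_algebraMap hinj
  have hex : ∀ j, ∃ P : Matrix (Fin (n j)) (Fin (n j)) K, Pᵀ * (B j).map φ * P = (B' j).map φ := by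
    intro j
    have hdet : ∀ X : Matrix (Fin (n j)) (Fin (n j)) (Polynomial ℂ), X.det ≠ 0 → (X.map φ).det ≠ 0 := by
      intro X hX h0
      apply hX
      apply hinj
      rw [map_zero, RingHom.map_det]
      exact h0
    have htr : ∀ X : Matrix (Fin (n j)) (Fin (n j)) (Polynomial ℂ), Xᵀ = -X → (X.map φ)ᵀ = -(X.map φ) := by
      intro X hX
      rw [← Matrix.transpose_map, hX]
      ext a b
      simp
    exact alt_congr (htr _ (hB j)) (hdet _ (hd j)) (htr _ (hB' j)) (hdet _ (hd' j))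
  choose P hP using hex
  obtain ⟨b, hb⟩ := IsLocalization.exist_integer_multiples_of_finite (nonZeroDivisors (Polynomial ℂ))
    (fun v : Σ j : Fin r, Fin (n j) × Fin (n j) => P v.1 v.2.1 v.2.2)
  choose z hz using hb
  refine ⟨(b : Polynomial ℂ), fun j => Matrix.of fun a c => z ⟨j, (a, c)⟩, nonZeroDivisors.ne_zero b.2, fun j => ?_⟩
  have hZ : (Matrix.of fun a c => z ⟨j, (a, c)⟩).map φ = φ b • P j := by
    ext a c
    rw [Matrix.map_apply, Matrix.of_apply, Matrix.smul_apply, smul_eq_mul]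
    have := hz ⟨j, (a, c)⟩
    rw [Algebra.smul_def] at this
    exact this
  have hmap : Function.Injective fun X : Matrix (Fin (n j)) (Fin (n j)) (Polynomial ℂ) => X.map φ := Matrix.map_injective hinj
  apply hmap
  simp only
  have h1 : (((Matrix.of fun a c => z ⟨j, (a, c)⟩)ᵀ * B j * (Matrix.of fun a c => z ⟨j, (a, c)⟩)).map φ) =
      (φ b • P j)ᵀ * (B j).map φ * (φ b • P j) := by
    rw [Matrix.map_mul, Matrix.map_mul, ← hZ, Matrix.transpose_map]
  rw [h1, Matrix.transpose_smul, Matrix.smul_mul, Matrix.smul_mul, Matrix.mul_smul, hP j, smul_smul]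
  ext a c
  simp

end poly

end Q207.HN
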