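import Pool.Agent.Q207.AH.Mx

/-!
# De Rham-Betti tensors on a sum
-/

set_option autoImplicit false

open Finset Matrix

namespace Q207.HN

open Q207.DB (actM actM_apply actM_comp actM_one prodT actM_prodT)
open Q207.HT (mix lft rgt qc)
open Pool.Agent.Q195.HT

section glue

variable {K J : Type} [Fintype K] [DecidableEq K] [Fintype J] [DecidableEq J] {r : ℕ} {σ : Fin r → Bool}

/-- the action of a block matrix on one type -/
lemma actM_glue (A : Matrix K K ℂ) (B : Matrix J J ℂ) (U : (Fin r → K ⊕ J) → ℂ) (x : {k : Fin r // σ k = true} → K)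
    (β : {k : Fin r // ¬ σ k = true} → J) :
    actM (fun _ => fromBlocks A 0 0 B) U (glue σ x β) =
      ∑ ab : ({k : Fin r // σ k = true} → K) × ({k : Fin r // ¬ σ k = true} → J),
        ((∏ k, A (x k) (ab.1 k)) * ∏ k, B (β k) (ab.2 k)) * U (glue σ ab.1 ab.2) := by
  rw [actM_apply]
  symm
  refine Fintype.sum_of_injective (fun ab : ({k : Fin r // σ k = true} → K) × ({k : Fin r // ¬ σ k = true} → J) =>
    glue σ ab.1 ab.2) glue_inj _ _ (fun v hv => ?_) fun ab => ?_
  · rw [Finset.prod_eq_zero_iff.2, zero_mul]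
    by_contra hcon
    push Not at hcon
    apply hv
    obtain ⟨a, b, hab⟩ := exists_glue σ (p := v) (fun k hk => by
      rcases hvk : v k with y | y
      · rfl
      · exfalso
        apply hcon k (mem_univ _)
        have h1 := glue_left (a := x) (b := β) ⟨k, hk⟩
        rw [show ((⟨k, hk⟩ : {k : Fin r // σ k = true}) : Fin r) = k from rfl] at h1
        rw [h1, hvk, fromBlocks_apply₁₂, Matrix.zero_apply]) (fun k hk => by
      rcases hvk : v k with y | y
      · exfalso
        apply hcon k (mem_univ _)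
        have h1 := glue_right (a := x) (b := β) ⟨k, hk⟩
        rw [show ((⟨k, hk⟩ : {k : Fin r // ¬ σ k = true}) : Fin r) = k from rfl] at h1
        rw [h1, hvk, fromBlocks_apply₂₁, Matrix.zero_apply]
      · rfl)
    exact ⟨(a, b), hab.symm⟩
  · congr 1
    rw [← Fintype.prod_equiv (Equiv.sumCompl fun k => σ k = true)
      (fun k => (fromBlocks A 0 0 B) (glue σ x β (Equiv.sumCompl (fun k => σ k = true) k))
        (glue σ ab.1 ab.2 (Equiv.sumCompl (fun k => σ k = true) k))) _ (fun _ => rfl), Fintype.prod_sum_type]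
    congr 1
    · refine prod_congr rfl fun k _ => ?_
      rw [Equiv.sumCompl_apply_inl, glue_left, glue_left, fromBlocks_apply₁₁]
    · refine prod_congr rfl fun k _ => ?_
      rw [Equiv.sumCompl_apply_inr, glue_right, glue_right, fromBlocks_apply₂₂]

lemma actM_reindex {κ κ' : Type} [Fintype κ] [DecidableEq κ] [Fintype κ'] [DecidableEq κ'] (η : κ ≃ κ') (X : Matrix J J ℂ)
    (c : (κ' → J) → ℂ) : actM (fun _ : κ => X) (fun w : κ → J => c fun k => w (η.symm k)) =
      fun w => actM (fun _ : κ' => X) c fun k => w (η.symm k) := by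
  funext w
  rw [actM_apply, actM_apply]
  refine Fintype.sum_equiv (Equiv.arrowCongr η (Equiv.refl J)) _ _ fun v => ?_
  congr 1
  exact Fintype.prod_equiv η _ _ fun k => by
    simp [Equiv.arrowCongr]

end glue

section main

variable {k : ℕ} {n : Fin k → ℕ} {w : ℕ}

/-- **De Rham-Betti tensors on a sum, with given sections** -/
theorem mixD {M : Type} [Fintype M] [DecidableEq M] (C2 : Fin k → (Fin 2 → M) → ℚ) {K : Subfield ℂ} {Pm : Matrix M M ℂ}
    (hPm : IsUnit Pm) {C₀ : Matrix (Fin w) (Fin w) ℂ} (hC₀ : IsUnit C₀) {cs : Fin k → ℂ} (hcs : ∀ i, cs i ≠ 0)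
    {bq : Fin k → (Fin 2 → M) → ℂ} (hbK : ∀ i p, bq i p ∈ K) (hbq : ∀ i, qc (C2 i) = cs i • actM (fun _ => Pm) (bq i))
    {r : ℕ} {u : (Fin r → M ⊕ Fin w) → ℚ} (hF0 : ∀ (σ : Fin r → Bool) b, (fun a => u (glue σ a b)) ∈ Submodule.span ℚ
      {g | ∃ (l : ℕ) (ι : Fin l → Fin k) (e : (Σ _ : Fin l, Fin 2) ≃ {k : Fin r // σ k = true}), g = prodQ e fun j => C2 (ι j)})
    {l : ℂ} {a : (Fin r → M ⊕ Fin w) → ℂ} (haK : ∀ p, a p ∈ K) (hu : qc u = l • actM (fun _ => fromBlocks Pm 0 0 C₀) a) :
    u ∈ Submodule.span ℚ {x | ∃ (l' s₀ : ℕ) (ι : Fin l' → Fin k) (e : (Σ _ : Fin l', Fin 2) ⊕ Fin s₀ ≃ Fin r)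
      (y : (Fin s₀ → Fin w) → ℚ), (∃ b : (Fin s₀ → Fin w) → ℂ, (∀ p, b p ∈ K) ∧
        qc y = (l / ∏ j, cs (ι j)) • actM (fun _ => C₀) b) ∧ x = mix e (fun j => C2 (ι j)) y} := by
  classical
  set target : Submodule ℚ ((Fin r → M ⊕ Fin w) → ℚ) :=
    Submodule.span ℚ {x | ∃ (l' s₀ : ℕ) (ι : Fin l' → Fin k) (e : (Σ _ : Fin l', Fin 2) ⊕ Fin s₀ ≃ Fin r)
      (y : (Fin s₀ → Fin w) → ℚ), (∃ b : (Fin s₀ → Fin w) → ℂ, (∀ p, b p ∈ K) ∧
        qc y = (l / ∏ j, cs (ι j)) • actM (fun _ => C₀) b) ∧ x = mix e (fun j => C2 (ι j)) y} with htarget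
  have hdP := (Matrix.isUnit_iff_isUnit_det _).1 hPm
  have hdC := (Matrix.isUnit_iff_isUnit_det _).1 hC₀
  rcases eq_or_ne l 0 with rfl | hl
  · have h1 : u = 0 := by
      funext p
      have h2 := congrFun hu p
      rw [zero_smul] at h2
      have h3 : ((u p : ℚ) : ℂ) = 0 := h2
      exact_mod_cast h3
    rw [h1]
    exact Submodule.zero_mem _
  -- the inverse comparison
  have hinv : actM (fun _ => fromBlocks Pm⁻¹ 0 0 C₀⁻¹) (qc u) = l • a := by
    rw [hu, map_smul, actM_comp]
    congr 1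
    have h1 : (fromBlocks Pm⁻¹ 0 0 C₀⁻¹ : Matrix (M ⊕ Fin w) (M ⊕ Fin w) ℂ) * fromBlocks Pm 0 0 C₀ = 1 := by
      rw [fromBlocks_multiply]
      simp [Matrix.nonsing_inv_mul _ hdP, Matrix.nonsing_inv_mul _ hdC]
    simp only [h1]
    exact actM_one a
  obtain ⟨φ, hφ⟩ := LinearMap.exists_leftInverse_of_injective (Algebra.linearMap K ℂ)
    (LinearMap.ker_eq_bot.2 (algebraMap K ℂ).injective)
  have hφ' : ∀ y : K, φ (y : ℂ) = y := fun y => LinearMap.congr_fun hφ y
  -- one type
  have key : ∀ σ : Fin r → Bool, ∃ uσ : (Fin r → M ⊕ Fin w) → ℚ, uσ ∈ target ∧ (∀ a b, uσ (glue σ a b) = u (glue σ a b)) ∧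
      ∀ p, (∀ a b, p ≠ glue σ a b) → uσ p = 0 := by
    intro σ
    set P : Set (({k : Fin r // σ k = true} → M) → ℚ) := {g | ∃ (l : ℕ) (ι : Fin l → Fin k)
      (e : (Σ _ : Fin l, Fin 2) ≃ {k : Fin r // σ k = true}), g = prodQ e fun j => C2 (ι j)} with hP
    obtain ⟨bs, hbsP, hbspan, hli⟩ := exists_linearIndependent ℚ P
    have hfin : Finite bs := hli.finite
    let _ : Fintype bs := Fintype.ofFinite bs
    have hF : ∀ b, ∃ c : bs → ℚ, ∑ m, c m • (m : ({k : Fin r // σ k = true} → M) → ℚ) = fun a => u (glue σ a b) := by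
      intro b
      have h1 := hF0 σ b
      rw [← hP, ← hbspan] at h1
      have h2 : bs = Set.range (fun m : bs => (m : ({k : Fin r // σ k = true} → M) → ℚ)) := Subtype.range_coe.symm
      rw [h2] at h1
      exact (Submodule.mem_span_range_iff_exists_fun ℚ).1 h1
    choose cc hcc using hF
    have hexp : ∀ a b, u (glue σ a b) = ∑ m : bs, (m : ({k : Fin r // σ k = true} → M) → ℚ) a * cc b m := by
      intro a b
      have h1 := congrFun (hcc b) a
      rw [← h1, Finset.sum_apply]
      exact sum_congr rfl fun m _ => mul_comm _ _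
    choose lm ιm em hm using fun m : bs => hbsP m.2
    set κm : bs → ℂ := fun m => ∏ j, cs (ιm m j) with hκm
    have hκ0 : ∀ m, κm m ≠ 0 := fun m => prod_ne_zero_iff.2 fun j _ => hcs _
    set bm : bs → ({k : Fin r // σ k = true} → M) → ℂ := fun m => prodT (em m) fun j => bq (ιm m j) with hbm
    have hbmK : ∀ m x, bm m x ∈ K := fun m x => prod_mem fun j _ => hbK _ _
    have hqm : ∀ m : bs, (fun x => (((m : ({k : Fin r // σ k = true} → M) → ℚ) x : ℚ) : ℂ)) =
        κm m • actM (fun _ => Pm) (bm m) := by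
      intro m
      have h1 : (fun x => (((m : ({k : Fin r // σ k = true} → M) → ℚ) x : ℚ) : ℂ)) =
          prodT (em m) fun j p => ((C2 (ιm m j) p : ℚ) : ℂ) := by
        rw [← cast_prodQ]
        funext x
        rw [← hm m]
      rw [h1, actM_prodT]
      funext x
      rw [Pi.smul_apply, smul_eq_mul, hκm]
      unfold prodT
      rw [← prod_mul_distrib]
      refine prod_congr rfl fun j _ => ?_
      have h2 := congrFun (hbq (ιm m j)) fun a => x (em m ⟨j, a⟩)
      rw [Pi.smul_apply, smul_eq_mul] at h2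
      exact h2
    -- independence
    have hind : ∀ z : bs → ℂ, (∀ x, ∑ m, z m * bm m x = 0) → ∀ m, z m = 0 := by
      intro z hz m
      have h1 : ∑ m, z m • bm m = 0 := by
        funext x
        rw [Finset.sum_apply, Pi.zero_apply, ← hz x]
        rfl
      have h2 := congrArg (actM fun _ => Pm) h1
      rw [map_sum, map_zero] at h2
      have h3 := indepQ (b := fun m : bs => (m : ({k : Fin r // σ k = true} → M) → ℚ)) hli (z := fun m => z m * (κm m)⁻¹)
        (fun x => by
          have h4 := congrFun h2 x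
          rw [Finset.sum_apply, Pi.zero_apply] at h4
          rw [← h4]
          refine sum_congr rfl fun m _ => ?_
          have h5 := congrFun (hqm m) x
          rw [h5, map_smul, Pi.smul_apply, Pi.smul_apply, smul_eq_mul, smul_eq_mul, mul_assoc, inv_mul_cancel_left₀ (hκ0 m)]) m
      rcases mul_eq_zero.1 h3 with h4 | h4
      · exact h4
      · exact absurd h4 (inv_ne_zero (hκ0 m))
    -- the coefficients
    set D : bs → ({k : Fin r // ¬ σ k = true} → Fin w) → ℂ := fun m =>
      (κm m * l⁻¹) • actM (fun _ => C₀⁻¹) fun b => ((cc b m : ℚ) : ℂ) with hD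
    have hmain : ∀ x β, a (glue σ x β) = ∑ m, bm m x * D m β := by
      intro x β
      have h1 := congrFun hinv (glue σ x β)
      rw [actM_glue, Pi.smul_apply, smul_eq_mul] at h1
      have h2 : a (glue σ x β) = l⁻¹ * (l * a (glue σ x β)) := by rw [inv_mul_cancel_left₀ hl]
      rw [h2, ← h1]
      have h3 : ∀ m : bs, actM (fun _ => Pm⁻¹) (fun x => (((m : ({k : Fin r // σ k = true} → M) → ℚ) x : ℚ) : ℂ)) = κm m • bm m := by
        intro m
        rw [hqm, map_smul, actM_comp, Matrix.nonsing_inv_mul _ hdP]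
        congr 1
        exact actM_one _
      have h4 : ∀ m : bs, bm m x * D m β = l⁻¹ * (∑ ab : ({k : Fin r // σ k = true} → M) × ({k : Fin r // ¬ σ k = true} → Fin w),
          ((∏ k, Pm⁻¹ (x k) (ab.1 k)) * ∏ k, C₀⁻¹ (β k) (ab.2 k)) *
            ((((m : ({k : Fin r // σ k = true} → M) → ℚ) ab.1 : ℚ) : ℂ) * ((cc ab.2 m : ℚ) : ℂ))) := by
        intro m
        have h5 := congrFun (h3 m) x
        rw [Pi.smul_apply, smul_eq_mul] at h5
        show bm m x * ((κm m * l⁻¹) * actM (fun _ => C₀⁻¹) (fun b => ((cc b m : ℚ) : ℂ)) β) = _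
        have h6 : bm m x * ((κm m * l⁻¹) * actM (fun _ => C₀⁻¹) (fun b => ((cc b m : ℚ) : ℂ)) β) =
            l⁻¹ * ((κm m * bm m x) * actM (fun _ => C₀⁻¹) (fun b => ((cc b m : ℚ) : ℂ)) β) := by ring
        rw [h6, ← h5, actM_apply, actM_apply, Fintype.sum_prod_type, Finset.sum_mul_sum]
        congr 1
        refine sum_congr rfl fun a' _ => sum_congr rfl fun b' _ => ?_
        ring
      rw [sum_congr rfl fun m _ => h4 m, ← Finset.mul_sum, Finset.sum_comm]
      congr 1
      refine sum_congr rfl fun ab _ => ?_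
      rw [← Finset.mul_sum]
      congr 1
      show ((u (glue σ ab.1 ab.2) : ℚ) : ℂ) = _
      rw [hexp]
      push_cast
      rfl
    have hDK : ∀ m β, D m β ∈ K := by
      intro m β
      have h1 := hind (fun m => D m β - (φ (D m β) : ℂ)) (fun x => by
        have h2 := hmain x β
        have h3 : (⟨a (glue σ x β), haK _⟩ : K) = ∑ m, (⟨bm m x, hbmK m x⟩ : K) * φ (D m β) := by
          rw [← hφ' ⟨a (glue σ x β), haK _⟩]
          show φ (a (glue σ x β)) = _
          rw [h2, map_sum]
          refine sum_congr rfl fun m _ => ?_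
          have h4 : bm m x * D m β = (⟨bm m x, hbmK m x⟩ : K) • D m β := rfl
          rw [h4, map_smul, smul_eq_mul]
        have h5 := congrArg K.subtype h3
        simp only [map_sum, map_mul] at h5
        have h6 : a (glue σ x β) = ∑ m, bm m x * (φ (D m β) : ℂ) := h5
        simp only [sub_mul, Finset.sum_sub_distrib]
        rw [sub_eq_zero]
        calc ∑ m, D m β * bm m x = a (glue σ x β) := by rw [h2]; exact sum_congr rfl fun m _ => mul_comm _ _
          _ = ∑ m, (φ (D m β) : ℂ) * bm m x := by rw [h6]; exact sum_congr rfl fun m _ => mul_comm _ _) m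
      rw [sub_eq_zero] at h1
      rw [h1]
      exact (φ (D m β)).2
    have hcD : ∀ m : bs, (fun b => ((cc b m : ℚ) : ℂ)) = (l / κm m) • actM (fun _ => C₀) (D m) := by
      intro m
      rw [hD]
      show _ = (l / κm m) • actM (fun _ => C₀) ((κm m * l⁻¹) • actM (fun _ => C₀⁻¹) fun b => ((cc b m : ℚ) : ℂ))
      rw [map_smul, actM_comp, Matrix.mul_nonsing_inv _ hdC, actM_one, smul_smul]
      have h1 : l / κm m * (κm m * l⁻¹) = 1 := by
        have := hκ0 m
        field_simp
      rw [h1, one_smul]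
    refine ⟨∑ m : bs, join σ (fun b => cc b m) (m : ({k : Fin r // σ k = true} → M) → ℚ), ?_, ?_, ?_⟩
    · refine Submodule.sum_mem _ fun m _ => ?_
      rw [hm m, join_prodQ σ (fun b => cc b m) (em m) (fun j => C2 (ιm m j)) (Fintype.equivFin {k : Fin r // ¬ σ k = true}).symm]
      refine Submodule.subset_span ⟨lm m, _, ιm m, _, _, ⟨fun q => D m fun k => q ((Fintype.equivFin {k : Fin r // ¬ σ k = true}) k),
        fun p => hDK m _, ?_⟩, rfl⟩
      have h1 := actM_reindex (Fintype.equivFin {k : Fin r // ¬ σ k = true}).symm C₀ (D m)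
      rw [Equiv.symm_symm] at h1
      rw [h1]
      funext q
      have h2 := congrFun (hcD m) fun k => q ((Fintype.equivFin {k : Fin r // ¬ σ k = true}) k)
      exact h2
    · intro a b
      rw [Finset.sum_apply, hexp]
      exact sum_congr rfl fun m _ => join_glue σ _ _ a b
    · intro p hp
      rw [Finset.sum_apply]
      exact sum_eq_zero fun m _ => join_not σ _ _ hp
  choose uσ h1 h2 h3 using key
  have hsum : u = ∑ σ, uσ σ := by
    funext p
    rw [Finset.sum_apply, Finset.sum_eq_single fun k => (p k).isLeft]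
    · obtain ⟨a, b, hab⟩ := exists_glue (fun k => (p k).isLeft) (p := p) (fun k hk => hk) (fun k hk => by
        rcases hpk : p k with x | x
        · rw [hpk] at hk
          exact absurd rfl hk
        · rfl)
      have h4 := h2 (fun k => (p k).isLeft) a b
      rw [← hab] at h4
      exact h4.symm
    · intro σ _ hσ
      apply h3
      intro a b hab
      apply hσ
      funext k
      rw [hab]
      by_cases hk : σ k = true
      · have h4 := glue_left (a := a) (b := b) ⟨k, hk⟩
        rw [show ((⟨k, hk⟩ : {k : Fin r // σ k = true}) : Fin r) = k from rfl] at h4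
        rw [h4, hk]
        rfl
      · have h4 := glue_right (a := a) (b := b) ⟨k, hk⟩
        rw [show ((⟨k, hk⟩ : {k : Fin r // ¬ σ k = true}) : Fin r) = k from rfl] at h4
        rw [h4, Bool.eq_false_of_not_eq_true hk]
        rfl
    · intro h
      exact absurd (mem_univ _) h
  rw [hsum]
  exact Submodule.sum_mem _ fun σ _ => h1 σ

end main

end Q207.HN
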