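import Pool.Agent.Q207.HN.Db
import Pool.Agent.Q207.DB.Pt
import Pool.Agent.Q207.AF.Tz
import Pool.Agent.Y123.GN.E8

/-!
# De Rham-Betti tensors are invariant
-/

set_option autoImplicit false

open Finset Matrix Module
open scoped commutatorElement

namespace Q207.HN

open Q207.DB (actM actM_apply actM_comp actM_one actM_mul actM_inv Tl line_mu mem_Tl Tl_sub)
open Pool.Agent.Y123.GN (Clf Spf GB Ug Ug_le EG EG_mul EG_one IG EGu em mono_comm cl_perf)
open Pool.Agent.TH127.PT (IsSubtorsor)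
open Q207.AF (GoodZ)

variable {k w : ℕ} {n : Fin k → ℕ}

/-- **de Rham-Betti tensors are invariant** -/
theorem drb_inv {D : ℕ} {C₀ : Matrix (Fin w) (Fin w) ℂ} (hC₀ : IsUnit C₀.det)
    {𝒢 : ∀ i, Subgroup (Matrix (Fin (n i)) (Fin (n i)) ℂ)ˣ} {Z : ∀ i, Matrix (Fin (n i)) (Fin (n i)) ℂ}
    (hZ : ∀ i, IsUnit (Z i).det) (hG : GoodZ D C₀ 𝒢 Z) {K : Subfield ℂ} (hKf : FiniteDimensional ℚ K) (hKD : finrank ℚ K ≤ D)
    {B : ∀ i, Matrix (Fin (n i)) (Fin (n i)) ℂ} (hB : ∀ i, Clf (B i)) (hB𝒢 : ∀ i, GB (B i) ≤ 𝒢 i)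
    {κ : Type} [Fintype κ] [DecidableEq κ] {x a : (κ → IG (Fin w) n) → ℂ} (hxK : ∀ p, x p ∈ K) (haK : ∀ p, a p ∈ K) {l : ℂ}
    (hx : x = l • actM (fun _ => EG C₀ Z) a) (g : ∀ i, (Matrix (Fin (n i)) (Fin (n i)) ℂ)ˣ) (hg : ∀ i, g i ∈ GB (B i)) :
    actM (fun _ => EG 1 fun i => (g i : Matrix (Fin (n i)) (Fin (n i)) ℂ)) x = x := by
  classical
  rcases eq_or_ne x 0 with h0 | h0
  · rw [h0, map_zero]
  have hl : l ≠ 0 := by
    rintro rfl
    rw [zero_smul] at hx
    exact h0 hx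
  have ha : a ≠ 0 := by
    rintro rfl
    rw [map_zero, smul_zero] at hx
    exact h0 hx
  have hc : IsUnit (EG C₀ Z) := by
    have h1 : EG C₀ Z * EG C₀⁻¹ (fun i => (Z i)⁻¹) = 1 := by
      rw [EG_mul, Matrix.mul_nonsing_inv _ hC₀]
      have h2 : (fun i => Z i * (Z i)⁻¹) = (1 : ∀ i, Matrix (Fin (n i)) (Fin (n i)) ℂ) := by
        funext i
        exact Matrix.mul_nonsing_inv _ (hZ i)
      rw [h2, EG_one]
    exact (Matrix.isUnit_iff_isUnit_det _).2 (Matrix.isUnit_det_of_right_inverse h1)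
  have hca : actM (fun _ => EG C₀ Z) a = l⁻¹ • x := by
    rw [hx, smul_smul, inv_mul_cancel₀ hl, one_smul]
  have hcT : EG C₀ Z ∈ Tl a x := mem_Tl hc hca
  have hT : IsSubtorsor K (Tl a x) := Tl_sub haK hxK ha h0
  -- the stabiliser of the line
  have hline : ∀ g : ∀ i, (Matrix (Fin (n i)) (Fin (n i)) ℂ)ˣ, (∀ i, g i ∈ GB (B i)) →
      ∃ χ : ℂ, actM (fun _ => EG 1 fun i => (g i : Matrix (Fin (n i)) (Fin (n i)) ℂ)) x = χ • x := by
    intro g hg
    have h1 := hG K hKf hKD (Tl a x) hT hcT g (fun i => mono_comm (hB𝒢 i) (cl_perf (hB i)) (hg i)) _ hcT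
    obtain ⟨m, -, h2⟩ := line_mu h1 ha h0
    refine ⟨l * m, ?_⟩
    rw [actM_mul, hca, map_smul] at h2
    have h3 := congrArg (fun z => l • z) h2
    simp only [smul_smul, mul_inv_cancel₀ hl, one_smul] at h3
    exact h3
  set S : Subgroup (Matrix (IG (Fin w) n) (IG (Fin w) n) ℂ)ˣ :=
    { carrier := {u | ∃ χ : ℂ, actM (fun _ => u.val) x = χ • x}
      one_mem' := ⟨1, by rw [Units.val_one, actM_one, one_smul]⟩
      mul_mem' := by
        rintro u u' ⟨χ, h1⟩ ⟨χ', h2⟩
        refine ⟨χ' * χ, ?_⟩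
        rw [Units.val_mul, actM_mul, h2, map_smul, h1, smul_smul]
      inv_mem' := by
        rintro u ⟨χ, h1⟩
        have h0' : χ ≠ 0 := by
          rintro rfl
          rw [zero_smul] at h1
          apply h0
          rw [← actM_inv u.isUnit x, h1, map_zero]
        refine ⟨χ⁻¹, ?_⟩
        have h2 := congrArg (actM (fun _ => (u⁻¹).val)) h1
        rw [← actM_mul, Units.inv_mul, actM_one, map_smul] at h2
        have h3 : actM (fun _ => (u⁻¹).val) x = χ⁻¹ • (χ • actM (fun _ => (u⁻¹).val) x) := by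
          rw [smul_smul, inv_mul_cancel₀ h0', one_smul]
        rw [h3, ← h2] } with hS
  set F : Subgroup (Matrix (IG (Fin w) n) (IG (Fin w) n) ℂ)ˣ :=
    { carrier := {u | actM (fun _ => u.val) x = x}
      one_mem' := by
        show actM (fun _ => (1 : (Matrix (IG (Fin w) n) (IG (Fin w) n) ℂ)ˣ).val) x = x
        rw [Units.val_one, actM_one]
      mul_mem' := by
        intro u u' h1 h2
        show actM (fun _ => (u * u').val) x = x
        rw [Units.val_mul, actM_mul]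
        have h2' : actM (fun _ => u'.val) x = x := h2
        rw [h2']
        exact h1
      inv_mem' := by
        intro u h1
        have h1' : actM (fun _ => u.val) x = x := h1
        have h2 := congrArg (actM (fun _ => (u⁻¹).val)) h1'
        rw [← actM_mul, Units.inv_mul, actM_one] at h2
        exact h2.symm } with hF
  have hSF : ⁅S, S⁆ ≤ F := by
    rw [Subgroup.commutator_le]
    rintro u ⟨χ, h1⟩ u' ⟨χ', h2⟩
    have h0' : ∀ (u : (Matrix (IG (Fin w) n) (IG (Fin w) n) ℂ)ˣ) (χ : ℂ), actM (fun _ => u.val) x = χ • x →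
        χ ≠ 0 ∧ actM (fun _ => (u⁻¹).val) x = χ⁻¹ • x := by
      intro u χ h1
      have h3 : χ ≠ 0 := by
        rintro rfl
        rw [zero_smul] at h1
        apply h0
        rw [← actM_inv u.isUnit x, h1, map_zero]
      refine ⟨h3, ?_⟩
      have h2 := congrArg (actM (fun _ => (u⁻¹).val)) h1
      rw [← actM_mul, Units.inv_mul, actM_one, map_smul] at h2
      have h4 : actM (fun _ => (u⁻¹).val) x = χ⁻¹ • (χ • actM (fun _ => (u⁻¹).val) x) := by
        rw [smul_smul, inv_mul_cancel₀ h3, one_smul]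
      rw [h4, ← h2]
    obtain ⟨h3, h4⟩ := h0' u χ h1
    obtain ⟨h5, h6⟩ := h0' u' χ' h2
    show actM (fun _ => (⁅u, u'⁆ : (Matrix (IG (Fin w) n) (IG (Fin w) n) ℂ)ˣ).val) x = x
    rw [commutatorElement_def, Units.val_mul, Units.val_mul, Units.val_mul, actM_mul, actM_mul, actM_mul]
    simp only [h6, map_smul, h4, h2, h1, smul_smul]
    have e6 : ∀ y : ℂ, y = 1 → y • x = x := fun y hy => by rw [hy, one_smul]
    exact e6 _ (by field_simp)
  have hmem : g ∈ F.comap (EGu (Fin w) n) := by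
    refine Subgroup.pi_mem_of_mulSingle_mem _ fun i => ?_
    show em (Fin w) i (g i) ∈ F
    refine hSF ?_
    have h1 : g i ∈ (⁅GB (B i), GB (B i)⁆ : Subgroup _) :=
      Subgroup.commutator_mono (Ug_le _) (Ug_le _) (cl_perf (hB i) (hg i))
    have h2 : (GB (B i)).map (em (Fin w) i) ≤ S := by
      rintro _ ⟨v, hv, rfl⟩
      have h3 := hline (Pi.mulSingle i v) fun j => by
        rcases eq_or_ne j i with rfl | hji
        · rw [Pi.mulSingle_eq_same]
          exact hv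
        · rw [Pi.mulSingle_eq_of_ne hji]
          exact (GB (B j)).one_mem
      exact h3
    have h3 : em (Fin w) i (g i) ∈ (⁅GB (B i), GB (B i)⁆ : Subgroup _).map (em (Fin w) i) := ⟨g i, h1, rfl⟩
    rw [Subgroup.map_commutator] at h3
    exact Subgroup.commutator_mono h2 h2 h3
  exact hmem

end Q207.HN
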