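import Pool.Agent.Q207.HN.Sn
import Pool.Agent.Q207.HM.Qua

/-!
# The quadratic relations cut out the torsor
-/

set_option autoImplicit false

open PowerSeries Filter Topology

namespace Q207.HN

open Q207.HM Q207.HG Pool.Agent.Y113 Pool.Agent.Y120.GF Pool.Agent.Y120.GH Pool.Agent.Y120.R Q207.AF Pool.Agent.Y123.GN
open Pool.Agent.Y916 Pool.Agent.Y123.SR
open Pool.Agent.Y119.HY (Hf Gal Hc Rel cm Am E Ac_nil Vr E_add E_mul_neg E_isom)
open Pool.Agent.Y119.HZ (evq)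

variable {r : ℕ} {n : Fin r → ℕ} {α : ∀ j, Fin (n j) → ℚ} {k p : ℕ}

/-- relations hold everywhere -/
theorem Sy.hall (h : Sy α) (R : MvPolynomial (Vj n) (Polynomial ℂ))
    (hR : ∀ᶠ s : ℝ in atTop, MvPolynomial.eval₂ (Polynomial.evalRingHom (1 / (s : ℂ)))
      (vj ((Real.log s : ℝ) : ℂ) fun j => Yx (n j) (QA (α j)) (1 / s)) R = 0) {a : ℂ} (ha : 1 < ‖a‖) (ℓ : ℂ) :
    MvPolynomial.eval₂ (Polynomial.evalRingHom (1 / a)) (vj ℓ fun j => YL (α j) (1 / a) (-ℓ)) R = 0 := by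
  have h1 := point_all2 one_pos h.hmem PJ R (by
    filter_upwards [hR, eventually_gt_atTop (1 : ℝ)] with s hs hs1
    rw [pw_PJ]
    have hx0 : (0 : ℝ) < 1 / s := by positivity
    have h3 : (fun j => YL (α j) (1 / (s : ℂ)) (-((Real.log s : ℝ) : ℂ))) = fun j => Yx (n j) (QA (α j)) (1 / s) := by
      funext j
      have hlog : -((Real.log s : ℝ) : ℂ) = Complex.log (((1 / s : ℝ)) : ℂ) := by
        rw [← Complex.ofReal_log hx0.le, one_div, Real.log_inv]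
        push_cast
        ring
      have h4 : ((((1 / s : ℝ)) : ℂ)) = 1 / (s : ℂ) := by push_cast; rfl
      rw [hlog]
      unfold YL
      rw [← h4]
      rfl
    rw [h3]
    exact hs) ha ℓ
  rw [pw_PJ] at h1
  exact h1

/-- the functional relations of degree at most two -/
def Qd (α : ∀ j, Fin (n j) → ℚ) (z : ℂ) (X : ∀ j, Matrix (Fin (n j)) (Fin (n j)) ℂ) : Prop :=
  ∀ R : MvPolynomial (Σ j : Fin r, Fin (n j) × Fin (n j)) (Polynomial ℚ), R.totalDegree ≤ 2 →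
    (∀ x : ℝ, 0 < x → x < 1 → valQ R (x : ℂ) (fun j => Yx (n j) (QA (α j)) x) = 0) → valQ R z X = 0

lemma val_map (R : MvPolynomial (Σ j : Fin r, Fin (n j) × Fin (n j)) (Polynomial ℚ)) (x l : ℂ)
    (X : ∀ j, Matrix (Fin (n j)) (Fin (n j)) ℂ) :
    MvPolynomial.eval₂ (Polynomial.evalRingHom x) (vj l X)
      (MvPolynomial.rename some (MvPolynomial.map (Polynomial.mapRingHom (algebraMap ℚ ℂ)) R)) = valQ R x X := by
  rw [MvPolynomial.eval₂_rename, MvPolynomial.eval₂_map]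
  unfold valQ
  congr 1
  refine Polynomial.ringHom_ext (fun q => ?_) ?_
  · unfold evq
    simp
  · unfold evq
    simp

theorem Sy.qd_in (h : Sy α) {a : ℂ} (ha : 1 < ‖a‖) (ℓ : ℂ) : Qd α (1 / a) fun j => YL (α j) (1 / a) (-ℓ) := by
  intro R _ hR
  have h1 := h.hall (MvPolynomial.rename some (MvPolynomial.map (Polynomial.mapRingHom (algebraMap ℚ ℂ)) R)) (by
    filter_upwards [eventually_gt_atTop (1 : ℝ)] with s hs
    have hx0 : (0 : ℝ) < 1 / s := by positivity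
    have hx1 : 1 / s < 1 := by rw [div_lt_one (by linarith)]; exact hs
    rw [val_map]
    have h4 : ((((1 / s : ℝ)) : ℂ)) = 1 / (s : ℂ) := by push_cast; rfl
    rw [← h4]
    exact hR _ hx0 hx1) ha ℓ
  rw [val_map] at h1
  exact h1

theorem Sy.qd_out (h : Sy α) {z : ℂ} {X : ∀ j, Matrix (Fin (n j)) (Fin (n j)) ℂ} (hX : Qd α z X) (j : Fin r) :
    (X j).transpose * Nn (n j) (QA (α j)) z * X j = K0 (n j) := by
  ext a b
  set R : MvPolynomial (Σ j : Fin r, Fin (n j) × Fin (n j)) (Polynomial ℚ) :=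
    ∑ c, ∑ d, MvPolynomial.C (Kp (n j) (QA (α j)) d c) * (MvPolynomial.X ⟨j, (d, a)⟩ * MvPolynomial.X ⟨j, (c, b)⟩) -
      MvPolynomial.C (Polynomial.C (K0q (n j) a b)) with hR
  have hC : ∀ (z : ℂ) (q : ℚ), evq z (Polynomial.C q) = (algebraMap ℚ ℂ) q := by
    intro z q
    unfold evq
    simp
  have hval : ∀ (z : ℂ) (g : ∀ j, Matrix (Fin (n j)) (Fin (n j)) ℂ), valQ R z g =
      ((g j).transpose * Nn (n j) (QA (α j)) z * g j - K0 (n j)) a b := by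
    intro z g
    have h1 : Nn (n j) (QA (α j)) z = (Kp (n j) (QA (α j))).map (evq z) := (Kp_map _ z).symm
    unfold valQ
    rw [hR, MvPolynomial.eval₂_sub, MvPolynomial.eval₂_sum, Matrix.sub_apply, Matrix.mul_apply, h1]
    congr 1
    · refine Finset.sum_congr rfl fun c _ => ?_
      rw [MvPolynomial.eval₂_sum, Matrix.mul_apply, Finset.sum_mul]
      refine Finset.sum_congr rfl fun d _ => ?_
      rw [MvPolynomial.eval₂_mul, MvPolynomial.eval₂_mul, MvPolynomial.eval₂_C, MvPolynomial.eval₂_X, MvPolynomial.eval₂_X,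
        Matrix.map_apply, Matrix.transpose_apply]
      show _ * (g j d a * g j c b) = _
      ring
    · rw [MvPolynomial.eval₂_C, hC, ← K0q_map, Matrix.map_apply]
  have h1 := hX R ?_ fun x hx hx1 => ?_
  · rw [hval, Matrix.sub_apply, sub_eq_zero] at h1
    exact h1
  · rw [hR]
    refine (MvPolynomial.totalDegree_sub _ _).trans (max_le ?_ ?_)
    · refine (MvPolynomial.totalDegree_finsetSum _ _).trans (Finset.sup_le fun c _ => ?_)
      refine (MvPolynomial.totalDegree_finsetSum _ _).trans (Finset.sup_le fun d _ => ?_)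
      refine (MvPolynomial.totalDegree_mul _ _).trans ?_
      rw [MvPolynomial.totalDegree_C, zero_add]
      refine (MvPolynomial.totalDegree_mul _ _).trans ?_
      rw [MvPolynomial.totalDegree_X, MvPolynomial.totalDegree_X]
    · rw [MvPolynomial.totalDegree_C]
      omega
  · rw [hval, Matrix.sub_apply, sub_eq_zero]
    have h2 := conc_Y Pool.Agent.Q195.HG.conc hx hx1 (h.two j) (h.pos j) (QA_cls_neg (h.pos j) (h.pos j) (h.cl j))
    rw [h2]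

/-- the torsor is an orbit -/
theorem Sy.orbit (h : Sy α) {a : ℂ} (ha : 1 < ‖a‖) (ℓ : ℂ) {X : ∀ j, Matrix (Fin (n j)) (Fin (n j)) ℂ}
    (hX : Qd α (1 / a) X) (j : Fin r) : ∃ κ : Matrix (Fin (n j)) (Fin (n j)) ℂ, κ.transpose * K0 (n j) * κ = K0 (n j) ∧
      X j = YL (α j) (1 / a) (-ℓ) * κ := by
  set Y := YL (α j) (1 / a) (-ℓ) with hY
  have h1 : Y.transpose * Nn (n j) (QA (α j)) (1 / a) * Y = K0 (n j) := h.qd_out (h.qd_in ha ℓ) j
  have h2 := h.qd_out hX j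
  have hu : IsUnit Y.det := by
    refine isUnit_iff_ne_zero.2 fun h0 => h.det j ?_
    rw [← h1, Matrix.det_mul, h0, mul_zero]
  have hYX : Y * (Y⁻¹ * X j) = X j := by rw [← Matrix.mul_assoc, Matrix.mul_nonsing_inv _ hu, Matrix.one_mul]
  refine ⟨Y⁻¹ * X j, ?_, hYX.symm⟩
  calc (Y⁻¹ * X j).transpose * K0 (n j) * (Y⁻¹ * X j) =
      (Y⁻¹ * X j).transpose * (Y.transpose * Nn (n j) (QA (α j)) (1 / a) * Y) * (Y⁻¹ * X j) := by rw [h1]
    _ = (Y * (Y⁻¹ * X j)).transpose * Nn (n j) (QA (α j)) (1 / a) * (Y * (Y⁻¹ * X j)) := by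
        rw [Matrix.transpose_mul Y]
        simp only [Matrix.mul_assoc]
    _ = K0 (n j) := by rw [hYX, h2]

/-- few tuples have a small coordinate -/
lemma few_small (k m : ℕ) (hm : 1 ≤ m) : ∃ C : ℝ, 0 ≤ C ∧ ∀ T : ℕ, 1 ≤ T →
    ({a : Fin k → ℂ | (∀ i, Sl.SInt m T (a i)) ∧ ∃ i, ‖a i‖ ≤ 1}.ncard : ℝ) ≤
      C * (T : ℝ) ^ (-(1 : ℝ)) * ({α : ℂ | Sl.SInt m T α}.ncard : ℝ) ^ k := by
  classical
  obtain ⟨c₁, hc₁, h₁⟩ := Sl.many m hm
  obtain ⟨C₂, hC₂, h₂⟩ := Af.small_tuples m k 1 le_rfl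
  refine ⟨C₂ / c₁ ^ k, by positivity, fun T hT => ?_⟩
  have hle : ({a : Fin k → ℂ | (∀ i, Sl.SInt m T (a i)) ∧ ∃ i, ‖a i‖ ≤ 1}.ncard : ℝ) ≤
      C₂ * (T : ℝ) ^ (((k * Sl.Mm m : ℕ) : ℝ) - 1) := by
    refine le_trans ?_ (h₂ T hT)
    rw [← Set.ncard_coe_finset]
    refine Nat.cast_le.2 (Set.ncard_le_ncard ?_ (Finset.finite_toSet _))
    rintro a ⟨h3, h4⟩
    rw [Finset.mem_coe, Finset.mem_filter, Fintype.mem_piFinset]
    refine ⟨fun i => Sl.mem_NF.2 (Sl.SInt.aint (h3 i)), ?_⟩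
    simpa using h4
  exact hle.trans (Sl.prop_bound hc₁ hC₂ hT (h₁ T hT))

/-- the conclusion -/
def GdT (α : ∀ j, Fin (n j) → ℚ) (δ : ℕ) (V : Submodule ℚ ℂ) (Ω : ∀ (_ : Fin k) (j : Fin r), Matrix (Fin (n j)) (Fin p) ℂ)
    (a : Fin k → ℂ) : Prop :=
  (∀ i, 1 < ‖a i‖) ∧ ∀ ℓ : Fin k → ℂ, (∀ i, Complex.exp (ℓ i) = a i) → ∀ F : MvPolynomial (Vq k n p) ℂ, F.totalDegree ≤ δ →
    (∀ s, F.coeff s ∈ V) → MvPolynomial.eval (pq ℓ fun i j => YL (α j) (1 / a i) (-ℓ i) * Ω i j) F = 0 →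
    ∀ (l : Fin k → ℂ) (X : ∀ (_ : Fin k) (j : Fin r), Matrix (Fin (n j)) (Fin (n j)) ℂ),
      (∀ i, Qd α (1 / a i) (X i)) → MvPolynomial.eval (pq l fun i j => X i j * Ω i j) F = 0

/-- **almost all tuples of algebraic integers** -/
theorem sum_tor (h : Sy α) (k m : ℕ) (hm : 1 ≤ m) (δ D p : ℕ) :
    ∃ c C : ℝ, 0 < c ∧ ∃ B : Set ℂ, B.Finite ∧ ∀ V : Submodule ℚ ℂ, Module.Finite ℚ V →
      Module.finrank ℚ V ≤ D → ∀ Ω : ∀ (_ : Fin k) (j : Fin r), Matrix (Fin (n j)) (Fin p) ℂ, ∀ T : ℕ, 1 ≤ T →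
        ({a : Fin k → ℂ | (∀ i, Sl.SInt m T (a i) ∧ a i ∉ B) ∧ ¬ GdT α δ V Ω a}.ncard : ℝ) ≤
          C * (T : ℝ) ^ (-c) * ({α : ℂ | Sl.SInt m T α}.ncard : ℝ) ^ k := by
  classical
  obtain ⟨c, hc0, C, hC0, B, hBf, hB⟩ := sum_alg h k m hm δ D p
  obtain ⟨C₂, hC₂, h₂⟩ := few_small k m hm
  refine ⟨min c 1, C + C₂, lt_min hc0 one_pos, B, hBf, fun V hVf hVD Ω T hT => ?_⟩
  have hT1 : (1 : ℝ) ≤ T := by exact_mod_cast hT
  have hfin1 : {a : Fin k → ℂ | (∀ i, Sl.SInt m T (a i) ∧ a i ∉ B) ∧ ¬ GdJ α δ V Ω a}.Finite := by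
    refine (Set.Finite.pi (fun _ : Fin k => Sl.sint_fin m T)).subset ?_
    intro α hα i _
    exact (hα.1 i).1
  have hfin2 : {a : Fin k → ℂ | (∀ i, Sl.SInt m T (a i)) ∧ ∃ i, ‖a i‖ ≤ 1}.Finite := by
    refine (Set.Finite.pi (fun _ : Fin k => Sl.sint_fin m T)).subset ?_
    intro α hα i _
    exact hα.1 i
  have hsub : {a : Fin k → ℂ | (∀ i, Sl.SInt m T (a i) ∧ a i ∉ B) ∧ ¬ GdT α δ V Ω a} ⊆
      {a : Fin k → ℂ | (∀ i, Sl.SInt m T (a i) ∧ a i ∉ B) ∧ ¬ GdJ α δ V Ω a} ∪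
        {a : Fin k → ℂ | (∀ i, Sl.SInt m T (a i)) ∧ ∃ i, ‖a i‖ ≤ 1} := by
    rintro a ⟨h3, h4⟩
    by_cases h5 : ∃ i, ‖a i‖ ≤ 1
    · exact Or.inr ⟨fun i => (h3 i).1, h5⟩
    · refine Or.inl ⟨h3, fun hg => h4 ?_⟩
      have h6 : ∀ i, 1 < ‖a i‖ := fun i => not_le.1 fun h7 => h5 ⟨i, h7⟩
      refine ⟨h6, fun ℓ hℓ F hF1 hF2 hF0 l X hX => ?_⟩
      choose κ hκ hXκ using fun i j => h.orbit (h6 i) (ℓ i) (hX i) j
      have h8 := hg ℓ hℓ F hF1 hF2 hF0 l κ hκ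
      have h9 : (fun i j => YL (α j) (1 / a i) (-ℓ i) * κ i j * Ω i j) = fun i j => X i j * Ω i j := by
        funext i j
        rw [← hXκ]
      rw [h9] at h8
      exact h8
  have hcard := (Set.ncard_le_ncard hsub (hfin1.union hfin2)).trans (Set.ncard_union_le _ _)
  have hmono1 : (T : ℝ) ^ (-c) ≤ (T : ℝ) ^ (-min c 1) := Real.rpow_le_rpow_of_exponent_le hT1 (by linarith [min_le_left c 1])
  have hmono2 : (T : ℝ) ^ (-(1 : ℝ)) ≤ (T : ℝ) ^ (-min c 1) :=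
    Real.rpow_le_rpow_of_exponent_le hT1 (by linarith [min_le_right c 1])
  have h5 : ({a : Fin k → ℂ | (∀ i, Sl.SInt m T (a i) ∧ a i ∉ B) ∧ ¬ GdT α δ V Ω a}.ncard : ℝ) ≤
      ({a : Fin k → ℂ | (∀ i, Sl.SInt m T (a i) ∧ a i ∉ B) ∧ ¬ GdJ α δ V Ω a}.ncard : ℝ) +
        ({a : Fin k → ℂ | (∀ i, Sl.SInt m T (a i)) ∧ ∃ i, ‖a i‖ ≤ 1}.ncard : ℝ) := by exact_mod_cast hcard
  refine h5.trans ?_
  have hI : (0 : ℝ) ≤ ({α : ℂ | Sl.SInt m T α}.ncard : ℝ) ^ k := by positivity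
  have h6 := (hB V hVf hVD Ω T hT).trans (mul_le_mul_of_nonneg_right (mul_le_mul_of_nonneg_left hmono1 hC0) hI)
  have h7 := (h₂ T hT).trans (mul_le_mul_of_nonneg_right (mul_le_mul_of_nonneg_left hmono2 hC₂) hI)
  refine (add_le_add h6 h7).trans (le_of_eq ?_)
  ring

end Q207.HN
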