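import Pool.Agent.Q207.HN.Dc
import Pool.Agent.Q207.HN.So

/-!
# The sections of an invariant tensor
-/

set_option autoImplicit false

open Finset Matrix Module

namespace Q207.HN

open Q207.DB (actM actM_apply actM_comp actM_one prodT)
open Q207.HG (cmx)
open Q207.HT (lieA lieA_apply qc InvL mix lft rgt)
open Q207.GH (ic ir Cl Hs Iso1 trl hat pcl ic_T ic_det ir_det kill_cl)
open Pool.Agent.Q195.HT (glue prodQ descQ lieA_glue lieA_reindex cast_prodQ)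
open Q207.AH (Pg IsP IsD inv_span)

variable {k : ℕ} {n : Fin k → ℕ} {w : ℕ}

/-- the class of the form -/
noncomputable def C2 (Q : ∀ i, Matrix (Fin (n i)) (Fin (n i)) ℤ) (i : Fin k) (p : Fin 2 → Σ i, Fin (n i)) : ℚ :=
  pcl (fun j => (ir (Q j))⁻¹) i (p 0) (p 1)

lemma not_isD {Q : ∀ i, Matrix (Fin (n i)) (Fin (n i)) ℤ} (hQ : ∀ i, 0 < n i ∧ (Q i).det ≠ 0 ∧ (Q i)ᵀ = -Q i) {s : ℕ}
    {v : (Fin s → Σ i, Fin (n i)) → ℚ} (h : IsD Q v) : False := by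
  obtain ⟨i, -, hs, -⟩ := h
  obtain ⟨h1, h2, h3⟩ := hQ i
  apply h2
  have h4 : Q i = 0 := by
    ext a b
    have h5 := congrFun (congrFun (hs.symm.trans h3) a) b
    rw [Matrix.neg_apply] at h5
    rw [Matrix.zero_apply]
    omega
  have : Nonempty (Fin (n i)) := ⟨⟨0, h1⟩⟩
  rw [h4, Matrix.det_zero]

/-- products of generators are products of the classes of the forms -/
lemma pg_two {Q : ∀ i, Matrix (Fin (n i)) (Fin (n i)) ℤ} (hQ : ∀ i, 0 < n i ∧ (Q i).det ≠ 0 ∧ (Q i)ᵀ = -Q i) {s : ℕ}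
    {v : (Fin s → Σ i, Fin (n i)) → ℚ} (h : Pg Q v) :
    ∃ (l : ℕ) (ι : Fin l → Fin k) (e : (Σ _ : Fin l, Fin 2) ≃ Fin s), v = prodQ e fun j => C2 Q (ι j) := by
  obtain ⟨l, t, e, g, hg, rfl⟩ := h
  have hg' : ∀ j, IsP Q (g j) := fun j => (hg j).resolve_right fun h => not_isD hQ h
  choose ι ht hι using hg'
  obtain rfl : t = fun _ => 2 := funext ht
  refine ⟨l, ι, e, ?_⟩
  funext p
  refine prod_congr rfl fun j _ => ?_
  rw [hι j]
  rfl

/-- the sections -/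
theorem sec_sp {Q : ∀ i, Matrix (Fin (n i)) (Fin (n i)) ℤ} (hQ : ∀ i, 0 < n i ∧ (Q i).det ≠ 0 ∧ (Q i)ᵀ = -Q i) {r : ℕ}
    {u : (Fin r → (Σ i, Fin (n i)) ⊕ Fin w) → ℚ}
    (hu : ∀ X ∈ Hs fun i => ic (Q i), lieA (fromBlocks X 0 0 (0 : Matrix (Fin w) (Fin w) ℂ)) (qc u) = 0) (σ : Fin r → Bool)
    (b : {k : Fin r // ¬ σ k = true} → Fin w) : (fun a => u (glue σ a b)) ∈ Submodule.span ℚ
      {g | ∃ (l : ℕ) (ι : Fin l → Fin k) (e : (Σ _ : Fin l, Fin 2) ≃ {k : Fin r // σ k = true}), g = prodQ e fun j => C2 Q (ι j)} := by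
  classical
  have hCl : ∀ i, Cl (Q i) := fun i => ⟨(hQ i).1, (hQ i).2.1, Or.inl (hQ i).2.2⟩
  have h1 : ∀ X ∈ Hs fun i => ic (Q i), lieA X (fun a : {k : Fin r // σ k = true} → Σ i, Fin (n i) =>
      ((u (glue σ a b) : ℚ) : ℂ)) = 0 := by
    intro X hX
    funext a
    have h2 := congrFun (hu X hX) (glue σ a b)
    unfold qc at h2
    rw [lieA_glue] at h2
    have h3 : lieA (0 : Matrix (Fin w) (Fin w) ℂ) (fun b' => ((u (glue σ a b') : ℚ) : ℂ)) b = 0 := by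
      rw [lieA_apply]
      refine sum_eq_zero fun l _ => sum_eq_zero fun y _ => ?_
      rw [Matrix.zero_apply, zero_mul]
    rw [h3, add_zero] at h2
    exact h2
  set η := Fintype.equivFin {k : Fin r // σ k = true} with hη
  set v : (Fin (Fintype.card {k : Fin r // σ k = true}) → Σ i, Fin (n i)) → ℚ := fun z => u (glue σ (fun k => z (η k)) b) with hv
  have h2 : InvL (Hs fun i => ic (Q i)) (fun z => ((v z : ℚ) : ℂ)) := by
    intro X hX
    exact lieA_reindex η.symm X (fun a : {k : Fin r // σ k = true} → Σ i, Fin (n i) => ((u (glue σ a b) : ℚ) : ℂ)) (h1 X hX)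
  have h3 := descQ (inv_span hCl h2)
  have h4 : (fun a => u (glue σ a b)) = (LinearMap.funLeft ℚ ℚ fun a : {k : Fin r // σ k = true} → Σ i, Fin (n i) =>
      fun m => a (η.symm m)) v := by
    funext a
    rw [LinearMap.funLeft_apply, hv]
    simp only [Equiv.symm_apply_apply]
  rw [h4]
  have h5 := Submodule.mem_map_of_mem (f := LinearMap.funLeft ℚ ℚ fun a : {k : Fin r // σ k = true} → Σ i, Fin (n i) =>
      fun m => a (η.symm m)) h3
  rw [Submodule.map_span] at h5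
  refine Submodule.span_mono ?_ h5
  rintro _ ⟨x, hx, rfl⟩
  obtain ⟨l, ι, e, rfl⟩ := pg_two hQ hx
  exact ⟨l, ι, e.trans η.symm, rfl⟩

/-- invariance under the isometry groups -/
theorem kill_sp {Q : ∀ i, Matrix (Fin (n i)) (Fin (n i)) ℤ} (hQ : ∀ i, 0 < n i ∧ (Q i).det ≠ 0 ∧ (Q i)ᵀ = -Q i) {r : ℕ}
    {u : (Fin r → (Σ i, Fin (n i)) ⊕ Fin w) → ℚ} (hu : ∀ γ : ∀ i, Matrix (Fin (n i)) (Fin (n i)) ℚ, Iso1 Q γ →
      trl (hat w γ) u = u) :
    ∀ X ∈ Hs fun i => ic (Q i), lieA (fromBlocks X 0 0 (0 : Matrix (Fin w) (Fin w) ℂ)) (qc u) = 0 := by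
  classical
  have hCl : ∀ i, Cl (Q i) := fun i => ⟨(hQ i).1, (hQ i).2.1, Or.inl (hQ i).2.2⟩
  refine kill_cl hCl (K := ∑ p, ‖qc u p‖) fun γ hγ p => ?_
  rw [hu γ hγ]
  exact Finset.single_le_sum (f := fun p => ‖qc u p‖) (fun _ _ => norm_nonneg _) (Finset.mem_univ p)

end Q207.HN
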