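import Pool.Agent.Q207.HN.De

/-!
# De Rham-Betti tensors at one tuple
-/

set_option autoImplicit false

open Finset Matrix Module

namespace Q207.HN

open Q207.DB (actM actM_apply actM_comp actM_one prodT swap_unit swap_unit')
open Q207.HG (cmx K0 Nn Kp Kp_map K0_unit)
open Q207.HM (QA)
open Q207.HT (lieA lieA_apply qc InvL mix lft rgt)
open Q207.GH (ic ir Cl Hs Iso1 trl hat pcl pcl_apply ic_T ic_det ir_det kill_cl)
open Pool.Agent.Q195.HT (glue prodQ descQ lieA_glue lieA_reindex cast_prodQ)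
open Pool.Agent.Y123.GN (Clf Spf GB EG IG)
open Q207.AF (GoodZ)

variable {k : ℕ} {n : Fin k → ℕ} {w : ℕ}

/-- reindexing the basis -/
lemma act_sub {I J κ : Type} [Fintype I] [Fintype J] [Fintype κ] [DecidableEq κ] (e : I ≃ J) (X : Matrix J J ℂ)
    (u : (κ → J) → ℂ) :
    actM (fun _ : κ => X.submatrix e e) (fun p : κ → I => u fun k => e (p k)) = fun p => actM (fun _ : κ => X) u fun k => e (p k) := by
  funext p
  rw [actM_apply, actM_apply]
  exact Fintype.sum_equiv (Equiv.arrowCongr (Equiv.refl κ) e) _ _ fun v => rfl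

/-- the swap of the two summands -/
abbrev sw (n : Fin k → ℕ) (w : ℕ) : IG (Fin w) n ≃ (Σ i, Fin (n i)) ⊕ Fin w := Equiv.sumComm _ _

lemma sub_sw (A : Matrix (Σ i, Fin (n i)) (Σ i, Fin (n i)) ℂ) (B : Matrix (Fin w) (Fin w) ℂ) :
    (fromBlocks A 0 0 B).submatrix (sw n w) (sw n w) = fromBlocks B 0 0 A := by
  ext (a | a) (b | b) <;> rfl

/-- invariance under the rational isometries -/
theorem point_iso {D : ℕ} {C₀ : Matrix (Fin w) (Fin w) ℂ} (hC₀ : IsUnit C₀.det)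
    {𝒢 : ∀ i, Subgroup (Matrix (Fin (n i)) (Fin (n i)) ℂ)ˣ} {Z : ∀ i, Matrix (Fin (n i)) (Fin (n i)) ℂ}
    (hZ : ∀ i, IsUnit (Z i).det) (hG : GoodZ D C₀ 𝒢 Z) {K : Subfield ℂ} (hKf : FiniteDimensional ℚ K) (hKD : finrank ℚ K ≤ D)
    {Q : ∀ i, Matrix (Fin (n i)) (Fin (n i)) ℤ} (hQ : ∀ i, 0 < n i ∧ (Q i).det ≠ 0 ∧ (Q i)ᵀ = -Q i)
    (hQG : ∀ i, GB (ic (Q i))⁻¹ ≤ 𝒢 i) {r : ℕ} {u : (Fin r → (Σ i, Fin (n i)) ⊕ Fin w) → ℚ}
    {a : (Fin r → (Σ i, Fin (n i)) ⊕ Fin w) → ℂ} (haK : ∀ p, a p ∈ K) {l : ℂ}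
    (hu : qc u = l • actM (fun _ => fromBlocks (blockDiagonal' Z) 0 0 C₀) a) (γ : ∀ i, Matrix (Fin (n i)) (Fin (n i)) ℚ)
    (hγ : Iso1 Q γ) : trl (hat w γ) u = u := by
  classical
  have hmul : ∀ {m : ℕ} (X Y : Matrix (Fin m) (Fin m) ℚ), cmx (X * Y) = cmx X * cmx Y := fun X Y => Matrix.map_mul
  have hone : ∀ {m : ℕ}, cmx (1 : Matrix (Fin m) (Fin m) ℚ) = 1 := Matrix.map_one _ (map_zero _) (map_one _)
  have hCQ : ∀ i, IsUnit (ic (Q i)).det := fun i => ic_det (hQ i).2.1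
  have hCQ' : ∀ i, IsUnit (ic (Q i)) := fun i => (Matrix.isUnit_iff_isUnit_det _).2 (hCQ i)
  have hB : ∀ i, Clf (ic (Q i))⁻¹ := by
    intro i
    refine Or.inr (Or.inl ⟨?_, ?_⟩)
    · rw [Matrix.isUnit_nonsing_inv_iff]
      exact hCQ' i
    · rw [Matrix.transpose_nonsing_inv, ic_T (hQ i).2.2]
      refine Matrix.inv_eq_right_inv ?_
      rw [neg_mul_neg, Matrix.mul_nonsing_inv _ (hCQ i)]
  have hγu : ∀ i, IsUnit (γ i).det := fun i => by rw [(hγ i).2]; exact isUnit_one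
  set g : ∀ i, (Matrix (Fin (n i)) (Fin (n i)) ℂ)ˣ := fun i => ⟨cmx (γ i), cmx (γ i)⁻¹,
    by rw [← hmul, Matrix.mul_nonsing_inv _ (hγu i), hone], by rw [← hmul, Matrix.nonsing_inv_mul _ (hγu i), hone]⟩ with hg
  have hgB : ∀ i, g i ∈ GB (ic (Q i))⁻¹ := by
    intro i
    refine ⟨?_, ?_⟩
    · have h1 := (RingHom.map_det (algebraMap ℚ ℂ) (γ i)).symm
      rw [(hγ i).2, map_one] at h1
      exact h1
    · refine swap_unit (hCQ' i) ?_
      have h1 := congrArg cmx (hγ i).1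
      rw [hmul, hmul] at h1
      have h2 : cmx (ir (Q i)) = ic (Q i) := by
        ext a b
        show (((Q i a b : ℤ) : ℚ) : ℂ) = ((Q i a b : ℤ) : ℂ)
        push_cast
        rfl
      rw [h2] at h1
      exact h1
  have h1 := drb_inv hC₀ hZ hG hKf hKD hB hQG (x := fun p => qc u fun k => sw n w (p k)) (a := fun p => a fun k => sw n w (p k))
    (l := l) (fun p => SubfieldClass.ratCast_mem K _) (fun p => haK _) (by
      have h2 := act_sub (κ := Fin r) (sw n w) (fromBlocks (blockDiagonal' Z) 0 0 C₀) a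
      rw [sub_sw] at h2
      funext p
      have h3 := congrFun h2 p
      rw [Pi.smul_apply, smul_eq_mul]
      show qc u (fun k => sw n w (p k)) = l * actM (fun _ => fromBlocks C₀ 0 0 (blockDiagonal' Z)) _ p
      rw [h3, hu]
      rfl) g hgB
  have h2 := act_sub (κ := Fin r) (sw n w) (fromBlocks (blockDiagonal' fun i => cmx (γ i)) 0 0 1) (qc u)
  rw [sub_sw] at h2
  have h3 : actM (fun _ => fromBlocks (blockDiagonal' fun i => cmx (γ i)) 0 0 (1 : Matrix (Fin w) (Fin w) ℂ)) (qc u) = qc u := by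
    funext p
    have h4 := congrFun h2 fun k => (sw n w).symm (p k)
    have h5 := congrFun h1 fun k => (sw n w).symm (p k)
    have h6 : actM (fun _ => fromBlocks (1 : Matrix (Fin w) (Fin w) ℂ) 0 0 (blockDiagonal' fun i => cmx (γ i)))
        (fun p => qc u fun k => sw n w (p k)) (fun k => (sw n w).symm (p k)) = qc u fun k => sw n w ((sw n w).symm (p k)) := h5
    rw [h4] at h6
    simp only [Equiv.apply_symm_apply] at h6
    exact h6
  have hhat : fromBlocks (blockDiagonal' fun i => cmx (γ i)) 0 0 (1 : Matrix (Fin w) (Fin w) ℂ) = cmx (hat w γ) := by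
    ext (a | a) (b | b)
    · obtain ⟨i, a⟩ := a
      obtain ⟨j, b⟩ := b
      show blockDiagonal' (fun i => cmx (γ i)) ⟨i, a⟩ ⟨j, b⟩ = (algebraMap ℚ ℂ) (blockDiagonal' γ ⟨i, a⟩ ⟨j, b⟩)
      rw [blockDiagonal'_apply, blockDiagonal'_apply]
      by_cases h : i = j
      · subst h
        simp only [dite_true]
        rfl
      · simp only [h, dite_false, map_zero]
    · exact (map_zero (algebraMap ℚ ℂ)).symm
    · exact (map_zero (algebraMap ℚ ℂ)).symm
    · show (1 : Matrix (Fin w) (Fin w) ℂ) a b = (algebraMap ℚ ℂ) ((1 : Matrix (Fin w) (Fin w) ℚ) a b)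
      rw [Matrix.one_apply, Matrix.one_apply]
      split_ifs
      · exact (map_one _).symm
      · exact (map_zero _).symm
  rw [hhat] at h3
  funext p
  have h4 := congrFun h3 p
  rw [actM_apply] at h4
  have h5 : ((trl (hat w γ) u p : ℚ) : ℂ) = ((u p : ℚ) : ℂ) := by
    have h6 : ((u p : ℚ) : ℂ) = qc u p := rfl
    rw [h6, ← h4]
    unfold trl
    push_cast
    rfl
  exact_mod_cast h5

end Q207.HN
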