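import Pool.Agent.Q207.HN.Df

/-!
# De Rham-Betti tensors of almost all tuples
-/

set_option autoImplicit false

open Finset Matrix Module

namespace Q207.HN

open Q207.DB (actM actM_apply actM_comp actM_one prodT swap_unit swap_unit')
open Q207.HG (cmx K0 Nn Kp Kp_map K0_unit K0q K1q K0q_map K1q_map K1)
open Q207.HM (QA)
open Q207.HT (lieA lieA_apply qc InvL mix lft rgt)
open Q207.GH (ic ir Cl Hs Iso1 trl hat pcl pcl_apply ic_T ic_det ir_det kill_cl pcQ_cast)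
open Pool.Agent.Q195.HT (glue prodQ descQ lieA_glue lieA_reindex cast_prodQ)
open Pool.Agent.Y123.GN (Clf Spf GB EG IG Gs)
open Q207.AF (GoodZ)
open Pool.Agent.Y916

variable {k : ℕ} {n : Fin k → ℕ} {w : ℕ}

/-- the inverse of the form -/
lemma inv_form {m : ℕ} {Ω Y N Q : Matrix (Fin m) (Fin m) ℂ} {c : ℂ} (hsk : (K0 m)ᵀ = -K0 m) (hΩ : IsUnit Ω.det) (hc : c ≠ 0)
    (hY : Yᵀ * N * Y = K0 m) (hQ : Ωᵀ * Q * Ω = c • K0 m) : Q⁻¹ = c⁻¹ • ((Ω * Yᵀ) * (-N) * (Ω * Yᵀ)ᵀ) := by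
  refine Matrix.inv_eq_right_inv ?_
  have hΩT : IsUnit Ωᵀ.det := by rwa [Matrix.det_transpose]
  have h1 : (Ω * Yᵀ) * (-N) * (Ω * Yᵀ)ᵀ = -(Ω * K0 m * Ωᵀ) := by
    rw [Matrix.transpose_mul, Matrix.transpose_transpose, ← hY]
    simp only [Matrix.mul_neg, Matrix.neg_mul, Matrix.mul_assoc]
  have h2 : Ωᵀ * (Q * (Ω * K0 m * Ωᵀ)) = Ωᵀ * (-c • (1 : Matrix (Fin m) (Fin m) ℂ)) := by
    calc Ωᵀ * (Q * (Ω * K0 m * Ωᵀ)) = (Ωᵀ * Q * Ω) * K0 m * Ωᵀ := by simp only [Matrix.mul_assoc]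
      _ = c • (K0 m * K0 m) * Ωᵀ := by rw [hQ, Matrix.smul_mul]
      _ = Ωᵀ * (-c • (1 : Matrix (Fin m) (Fin m) ℂ)) := by
          rw [K0_sq hsk]
          simp
  have h3 : Q * (Ω * K0 m * Ωᵀ) = -c • (1 : Matrix (Fin m) (Fin m) ℂ) := by
    have h4 := congrArg (fun X => Ωᵀ⁻¹ * X) h2
    simpa only [Matrix.nonsing_inv_mul_cancel_left _ _ hΩT] using h4
  rw [h1, Matrix.mul_smul, Matrix.mul_neg, h3, neg_smul, neg_neg, smul_smul, inv_mul_cancel₀ hc, one_smul]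

/-- the classes of the forms -/
lemma cls_drb {Q : ∀ i, Matrix (Fin (n i)) (Fin (n i)) ℤ} (hQd : ∀ i, (Q i).det ≠ 0)
    {P N : ∀ i, Matrix (Fin (n i)) (Fin (n i)) ℂ} {c : Fin k → ℂ}
    (h : ∀ i, (ic (Q i))⁻¹ = (c i)⁻¹ • (P i * (-N i) * (P i)ᵀ)) (i : Fin k) :
    qc (C2 Q i) = (c i)⁻¹ • actM (fun _ => blockDiagonal' P) (fun p => pcl (fun j => -N j) i (p 0) (p 1)) := by
  classical
  have h1 : pcl (fun j => (ic (Q j))⁻¹) i = (c i)⁻¹ • (blockDiagonal' P * pcl (fun j => -N j) i * (blockDiagonal' P)ᵀ) := by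
    unfold pcl
    rw [blockDiagonal'_transpose, ← blockDiagonal'_mul, ← blockDiagonal'_mul, ← blockDiagonal'_smul]
    congr 1
    funext j
    rw [Pi.smul_apply]
    by_cases hj : j = i
    · subst hj
      rw [if_pos rfl, if_pos rfl]
      exact h j
    · rw [if_neg hj, if_neg hj, Matrix.mul_zero, Matrix.zero_mul, smul_zero]
  rw [Q207.AH.actM_two]
  funext p
  show ((C2 Q i p : ℚ) : ℂ) = _
  unfold C2
  rw [pcQ_cast hQd, h1]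
  rfl

lemma Sp1.sy {m : ℕ} {β : Fin m → ℚ} (hβ : Sp1 β) : Sy (fun _ : Fin 1 => β) :=
  sy_of (fun _ => hβ.two) (fun _ => hβ.even) (fun _ => hβ.pos) (fun _ => hβ.sym) fun j j' hj => absurd (Subsingleton.elim j j') hj

lemma one_form {m : ℕ} {β : Fin m → ℚ} (hβ : Sp1 β) {a : ℂ} (ha : 1 < ‖a‖) (ℓ : ℂ) :
    (YL β (1 / a) (-ℓ))ᵀ * Nn m (QA β) (1 / a) * YL β (1 / a) (-ℓ) = K0 m :=
  hβ.sy.qd_out (hβ.sy.qd_in ha ℓ) 0

lemma one_det {m : ℕ} {β : Fin m → ℚ} (hβ : Sp1 β) {a : ℂ} (ha : 1 < ‖a‖) (ℓ : ℂ) : IsUnit (YL β (1 / a) (-ℓ)).det := by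
  have h1 := one_form hβ ha ℓ
  refine isUnit_iff_ne_zero.2 fun h0 => ((Matrix.isUnit_iff_isUnit_det _).1 (K0_unit (n := m))).ne_zero ?_
  rw [← h1, Matrix.det_mul, h0, mul_zero]

lemma Nn_mem {m : ℕ} (Q : Polynomial ℚ) {K : Subfield ℂ} {z : ℂ} (hz : z ∈ K) (a b : Fin m) : Nn m Q z a b ∈ K := by
  unfold Nn
  rw [← K0q_map, ← K1q_map, Matrix.add_apply, Matrix.smul_apply, Matrix.map_apply, Matrix.map_apply]
  exact add_mem (SubfieldClass.ratCast_mem K _) (mul_mem hz (SubfieldClass.ratCast_mem K _))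

/-- the conclusion at one tuple -/
def GdD (D : ℕ) (β : ∀ i, Fin (n i) → ℚ) (Ω : ∀ i, Matrix (Fin (n i)) (Fin (n i)) ℂ)
    (Q : ∀ i, Matrix (Fin (n i)) (Fin (n i)) ℤ) (γ : Fin k → ℂ) (C₀ : Matrix (Fin w) (Fin w) ℂ) (α : Fin k → ℂ) : Prop :=
  (∀ i, 1 < ‖α i‖) ∧ ∀ ℓ : Fin k → ℂ, (∀ i, Complex.exp (ℓ i) = α i) → ∀ K : Subfield ℂ, FiniteDimensional ℚ K →
    finrank ℚ K ≤ D → (∀ i, α i ∈ K) →
    (∀ i, ∃ b : (Fin 2 → Σ i, Fin (n i)) → ℂ, (∀ p, b p ∈ K) ∧ qc (C2 Q i) =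
      (γ i)⁻¹ • actM (fun _ => blockDiagonal' fun i => Ω i * (YL (β i) (1 / α i) (-ℓ i))ᵀ) b) ∧
    ∀ (r : ℕ) (u : (Fin r → (Σ i, Fin (n i)) ⊕ Fin w) → ℚ) (l : ℂ) (a : (Fin r → (Σ i, Fin (n i)) ⊕ Fin w) → ℂ),
      (∀ p, a p ∈ K) →
      qc u = l • actM (fun _ => fromBlocks (blockDiagonal' fun i => Ω i * (YL (β i) (1 / α i) (-ℓ i))ᵀ) 0 0 C₀) a →
      u ∈ Submodule.span ℚ {x | ∃ (l' s₀ : ℕ) (ι : Fin l' → Fin k) (e : (Σ _ : Fin l', Fin 2) ⊕ Fin s₀ ≃ Fin r)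
        (y : (Fin s₀ → Fin w) → ℚ), (∃ b : (Fin s₀ → Fin w) → ℂ, (∀ p, b p ∈ K) ∧
          qc y = (l * ∏ j, γ (ι j)) • actM (fun _ => C₀) b) ∧ x = mix e (fun j => C2 Q (ι j)) y}

/-- one tuple -/
theorem drb_point {D : ℕ} {β : ∀ i, Fin (n i) → ℚ} (hβ : ∀ i, Sp1 (β i)) {Ω : ∀ i, Matrix (Fin (n i)) (Fin (n i)) ℂ}
    {Q : ∀ i, Matrix (Fin (n i)) (Fin (n i)) ℤ} {γ : Fin k → ℂ} (hΩ : ∀ i, IsUnit (Ω i).det) (hγ : ∀ i, γ i ≠ 0)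
    (hQ : ∀ i, (Ω i)ᵀ * ic (Q i) * Ω i = γ i • K0 (n i)) {C₀ : Matrix (Fin w) (Fin w) ℂ} (hC₀ : IsUnit C₀.det) {α : Fin k → ℂ}
    (hα : ∀ i, 1 < ‖α i‖) {𝒢 : ∀ i, Subgroup (Matrix (Fin (n i)) (Fin (n i)) ℂ)ˣ} (hQG : ∀ i, GB (ic (Q i))⁻¹ ≤ 𝒢 i)
    (hG : ∀ ℓ : Fin k → ℂ, (∀ i, Complex.exp (ℓ i) = α i) → GoodZ D C₀ 𝒢 fun i => Ω i * (YL (β i) (1 / α i) (-ℓ i))ᵀ) :
    GdD D β Ω Q γ C₀ α := by
  classical
  have hQ' : ∀ i, 0 < n i ∧ (Q i).det ≠ 0 ∧ (Q i)ᵀ = -Q i := by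
    intro i
    obtain ⟨h1, h2⟩ := form_of (hβ i).two (hβ i).even (hΩ i) (hγ i) (hQ i)
    refine ⟨by have := (hβ i).two; omega, fun h0 => h2 ?_, ?_⟩
    · have h3 : (ic (Q i)).det = (((Q i).det : ℤ) : ℂ) := (RingHom.map_det (Int.castRingHom ℂ) (Q i)).symm
      rw [h3, h0, Int.cast_zero]
    · ext a b
      have h3 := congrFun (congrFun h1 a) b
      rw [Matrix.transpose_apply, Matrix.neg_apply] at h3
      have h4 : ((Q i b a : ℤ) : ℂ) = -((Q i a b : ℤ) : ℂ) := h3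
      rw [Matrix.transpose_apply, Matrix.neg_apply]
      exact_mod_cast h4
  refine ⟨hα, fun ℓ hℓ K hKf hKD hαK => ?_⟩
  set P : ∀ i, Matrix (Fin (n i)) (Fin (n i)) ℂ := fun i => Ω i * (YL (β i) (1 / α i) (-ℓ i))ᵀ with hP
  have hPd : ∀ i, IsUnit (P i).det := by
    intro i
    rw [hP, Matrix.det_mul, Matrix.det_transpose]
    exact (hΩ i).mul (one_det (hβ i) (hα i) _)
  have hsk : ∀ i, (K0 (n i))ᵀ = -K0 (n i) := fun i => (hβ i).sy.skew 0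
  have hinv : ∀ i, (ic (Q i))⁻¹ = (γ i)⁻¹ • (P i * (-Nn (n i) (QA (β i)) (1 / α i)) * (P i)ᵀ) := fun i =>
    inv_form (hsk i) (hΩ i) (hγ i) (one_form (hβ i) (hα i) (ℓ i)) (hQ i)
  have hcls := cls_drb (fun i => (hQ' i).2.1) hinv
  have hbK : ∀ (i : Fin k) (p : Fin 2 → Σ i, Fin (n i)), pcl (fun j => -Nn (n j) (QA (β j)) (1 / α j)) i (p 0) (p 1) ∈ K := by
    intro i p
    generalize p 0 = x
    generalize p 1 = y
    obtain ⟨j, a⟩ := x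
    obtain ⟨j', b⟩ := y
    rw [pcl_apply]
    split_ifs with h1
    · by_cases h2 : j = j'
      · subst h2
        rw [blockDiagonal'_apply_eq, Matrix.neg_apply]
        exact neg_mem (Nn_mem _ (div_mem (one_mem _) (hαK j)) a b)
      · rw [blockDiagonal'_apply_ne _ _ _ h2]
        exact zero_mem _
    · exact zero_mem _
  refine ⟨fun i => ⟨_, hbK i, hcls i⟩, fun r u l a haK hu => ?_⟩
  have hkill := kill_sp hQ' fun δ hδ => point_iso hC₀ hPd (hG ℓ hℓ) hKf hKD hQ' hQG haK hu δ hδ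
  have hbl : IsUnit (blockDiagonal' P) := by
    have h1 : blockDiagonal' P * (blockDiagonal' fun i => (P i)⁻¹) = 1 := by
      rw [← blockDiagonal'_mul, ← blockDiagonal'_one]
      congr 1
      funext i
      exact Matrix.mul_nonsing_inv _ (hPd i)
    exact (Matrix.isUnit_iff_isUnit_det _).2 (Matrix.isUnit_det_of_right_inverse h1)
  have hmain := mixD (C2 Q) hbl ((Matrix.isUnit_iff_isUnit_det _).2 hC₀) (cs := fun i => (γ i)⁻¹)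
    (fun i => inv_ne_zero (hγ i)) hbK hcls (fun σ b => sec_sp hQ' hkill σ b) haK hu
  refine Submodule.span_mono ?_ hmain
  rintro _ ⟨l', s₀, ι, e, y, ⟨b, hb, hy⟩, rfl⟩
  refine ⟨l', s₀, ι, e, y, ⟨b, hb, ?_⟩, rfl⟩
  rw [hy, Finset.prod_inv_distrib, div_inv_eq_mul]

/-- **almost all tuples** -/
theorem drb_alg (k m w D : ℕ) (hm : 1 ≤ m) (n : Fin k → ℕ) {β : ∀ i, Fin (n i) → ℚ} (hβ : ∀ i, Sp1 (β i)) :
    ∃ c C : ℝ, 0 < c ∧ ∀ (Ω : ∀ i, Matrix (Fin (n i)) (Fin (n i)) ℂ) (Q : ∀ i, Matrix (Fin (n i)) (Fin (n i)) ℤ)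
      (γ : Fin k → ℂ), (∀ i, IsUnit (Ω i).det) → (∀ i, γ i ≠ 0) → (∀ i, (Ω i)ᵀ * ic (Q i) * Ω i = γ i • K0 (n i)) →
      ∃ B : Set ℂ, B.Finite ∧ ∀ C₀ : Matrix (Fin w) (Fin w) ℂ, IsUnit C₀.det → ∀ T : ℕ, 1 ≤ T →
        ({α : Fin k → ℂ | (∀ i, Sl.SInt m T (α i) ∧ α i ∉ B) ∧ ¬ GdD D β Ω Q γ C₀ α}.ncard : ℝ) ≤
          C * (T : ℝ) ^ (-c) * ({α : ℂ | Sl.SInt m T α}.ncard : ℝ) ^ k := by
  classical
  obtain ⟨r, T₀, A, h, e, hG, hc, hP⟩ := inst hβ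
  obtain ⟨c, hc0, C, hC0, hmain⟩ := Q207.AF.tors_alg (n := n) hG hc m hm D e w
  obtain ⟨C₂, hC₂, h₂⟩ := few_small k m hm
  refine ⟨min c 1, C + C₂, lt_min hc0 one_pos, fun Ω Q γ hΩ hγ hQ => ?_⟩
  choose P hdeg hper hiso using fun i => hP i (Ω i)
  obtain ⟨B, hBf, hB⟩ := hmain P hdeg
  refine ⟨B, hBf, fun C₀ hC₀ T hT => ?_⟩
  have hQG : ∀ i, GB (ic (Q i))⁻¹ ≤ Gs h (P i) := by
    intro i g hg
    have hdet : (ic (Q i)).det ≠ 0 := (form_of (hβ i).two (hβ i).even (hΩ i) (hγ i) (hQ i)).2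
    have hu : IsUnit (ic (Q i)) := (Matrix.isUnit_iff_isUnit_det _).2 (isUnit_iff_ne_zero.2 hdet)
    have h1 : ∀ g : (Matrix (Fin (n i)) (Fin (n i)) ℂ)ˣ, g ∈ GB (ic (Q i))⁻¹ →
        Pool.Agent.Y123.GN.Prs h (P i) (g : Matrix (Fin (n i)) (Fin (n i)) ℂ) := fun g hg =>
      hiso i (ic (Q i)) _ (γ i) (hΩ i) (hγ i) (hQ i) (swap_unit' hu hg.2)
    exact ⟨h1 g hg, h1 g⁻¹ ((GB _).inv_mem hg)⟩
  have hT1 : (1 : ℝ) ≤ T := by exact_mod_cast hT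
  set S₁ : Set (Fin k → ℂ) := {α : Fin k → ℂ | (∀ i, Sl.SInt m T (α i) ∧ α i ∉ B) ∧ ¬ ∀ ℓ : Fin k → ℂ,
    (∀ i, Complex.exp (ℓ i) = α i) → GoodZ D C₀ (fun i => Gs h (P i)) fun i => Q207.AF.zM h (P i) (α i) (ℓ i)} with hS₁
  set S₂ : Set (Fin k → ℂ) := {a : Fin k → ℂ | (∀ i, Sl.SInt m T (a i)) ∧ ∃ i, ‖a i‖ ≤ 1} with hS₂
  have hfin1 : S₁.Finite := by
    refine (Set.Finite.pi (fun _ : Fin k => Sl.sint_fin m T)).subset ?_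
    intro α hα i _
    exact (hα.1 i).1
  have hfin2 : S₂.Finite := by
    refine (Set.Finite.pi (fun _ : Fin k => Sl.sint_fin m T)).subset ?_
    intro α hα i _
    exact hα.1 i
  have hsub : {α : Fin k → ℂ | (∀ i, Sl.SInt m T (α i) ∧ α i ∉ B) ∧ ¬ GdD D β Ω Q γ C₀ α} ⊆ S₁ ∪ S₂ := by
    rintro a ⟨h3, h4⟩
    by_cases h5 : ∃ i, ‖a i‖ ≤ 1
    · exact Or.inr ⟨fun i => (h3 i).1, h5⟩
    · refine Or.inl ⟨h3, fun hg => h4 ?_⟩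
      have h6 : ∀ i, 1 < ‖a i‖ := fun i => not_le.1 fun h7 => h5 ⟨i, h7⟩
      refine drb_point hβ hΩ hγ hQ hC₀ h6 hQG fun ℓ hℓ => ?_
      have h7 := hg ℓ hℓ
      have h8 : (fun i => Q207.AF.zM h (P i) (a i) (ℓ i)) = fun i => Ω i * (YL (β i) (1 / a i) (-ℓ i))ᵀ := by
        funext i
        exact hper i (a i) (ℓ i)
      rw [h8] at h7
      exact h7
  have hcard := (Set.ncard_le_ncard hsub (hfin1.union hfin2)).trans (Set.ncard_union_le _ _)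
  have hmono1 : (T : ℝ) ^ (-c) ≤ (T : ℝ) ^ (-min c 1) := Real.rpow_le_rpow_of_exponent_le hT1 (by linarith [min_le_left c 1])
  have hmono2 : (T : ℝ) ^ (-(1 : ℝ)) ≤ (T : ℝ) ^ (-min c 1) :=
    Real.rpow_le_rpow_of_exponent_le hT1 (by linarith [min_le_right c 1])
  have h5 : ({α : Fin k → ℂ | (∀ i, Sl.SInt m T (α i) ∧ α i ∉ B) ∧ ¬ GdD D β Ω Q γ C₀ α}.ncard : ℝ) ≤
      (S₁.ncard : ℝ) + (S₂.ncard : ℝ) := by exact_mod_cast hcard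
  refine h5.trans ?_
  have hI : (0 : ℝ) ≤ ({α : ℂ | Sl.SInt m T α}.ncard : ℝ) ^ k := by positivity
  have h6 := (hB C₀ T hT).trans (mul_le_mul_of_nonneg_right (mul_le_mul_of_nonneg_left hmono1 hC0) hI)
  have h7 := (h₂ T hT).trans (mul_le_mul_of_nonneg_right (mul_le_mul_of_nonneg_left hmono2 hC₂) hI)
  refine (add_le_add h6 h7).trans (le_of_eq ?_)
  ring

end Q207.HN
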