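import Pool.Agent.Q207.HN.Pm

/-!
# Hypergeometric families: the conditions in terms of the exponents and the explicit form of the solutions
-/

set_option autoImplicit false

open PowerSeries

namespace Q207.HN

open Q207.HM Q207.HG
open Pool.Agent.Y119.HY (Hf Hc cm Am E)

lemma ms_equiv {m n : ℕ} {f : Fin m → ℚ} {g : Fin n → ℚ}
    (h : (Finset.univ : Finset (Fin m)).val.map f = (Finset.univ : Finset (Fin n)).val.map g) :
    ∃ σ : Fin m ≃ Fin n, ∀ i, g (σ i) = f i := by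
  classical
  have hc : ∀ c : ℚ, Nonempty ({i // f i = c} ≃ {i // g i = c}) := by
    intro c
    rw [← Fintype.card_eq]
    have h1 := congrArg (Multiset.count c) h
    rw [Multiset.count_map, Multiset.count_map] at h1
    rw [Fintype.card_subtype, Fintype.card_subtype]
    simp only [Finset.card_def, Finset.filter_val]
    simp only [eq_comm (a := c)] at h1
    exact h1
  exact ⟨Equiv.ofFiberEquiv (f := f) (g := g) fun c => (hc c).some,
    fun i => Equiv.ofFiberEquiv_map (f := f) (g := g) (fun c => (hc c).some) i⟩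

lemma QA_roots {m : ℕ} (α : Fin m → ℚ) : (QA α).roots = (Finset.univ : Finset (Fin m)).val.map fun i => -α i := by
  have h1 : QA α = (((Finset.univ : Finset (Fin m)).val.map fun i => -α i).map fun a => Polynomial.X - Polynomial.C a).prod := by
    unfold QA
    rw [Multiset.map_map]
    refine Finset.prod_congr rfl fun i _ => ?_
    rw [Function.comp_apply, map_neg, sub_neg_eq_add]
  rw [h1, Polynomial.roots_multiset_prod_X_sub_C]

/-- the conditions -/
theorem sy_of {s : ℕ} {d : Fin s → ℕ} {β : ∀ j, Fin (d j) → ℚ} (h2 : ∀ j, 2 ≤ d j) (he : ∀ j, Even (d j))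
    (hp : ∀ j l, 0 < β j l ∧ β j l < 1) (hs : ∀ j, ∃ σ : Equiv.Perm (Fin (d j)), ∀ l, β j (σ l) + β j l = 1)
    (hne : ∀ j j', j ≠ j' → ¬ ∃ σ : Fin (d j) ≃ Fin (d j'), ∀ l, β j' (σ l) = β j l) : Sy β := by
  refine ⟨h2, he, hp, hs, fun j j' hj h => hne j j' hj ?_⟩
  have h1 := congrArg Polynomial.roots h
  rw [QA_roots, QA_roots] at h1
  obtain ⟨σ, hσ⟩ := ms_equiv h1
  exact ⟨σ, fun l => neg_injective (hσ l)⟩

/-- the explicit form of the solution -/
theorem YL_apply {m : ℕ} (α : Fin m → ℚ) (z L : ℂ) (i j : Fin m) :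
    YL α z L i j = ∑ l ∈ Finset.range ((j : ℕ) + 1), L ^ l / (l.factorial : ℂ) *
      ∑' k : ℕ, ((coeff ((j : ℕ) - l) (Pool.Agent.Y119.HY.kx k ^ (i : ℕ) * Pool.Agent.Y119.HY.aq m (QA α) k) : ℚ) : ℂ) * z ^ k := by
  unfold YL
  rw [Matrix.mul_apply]
  have hE : ∀ c : Fin m, E (cm (Am m)) L c j = ∑ l ∈ Finset.range m,
        if (j : ℕ) = c + l then L ^ l / (l.factorial : ℂ) else 0 := by
    intro c
    unfold Pool.Agent.Y119.HY.E
    rw [Matrix.sum_apply]
    refine Finset.sum_congr rfl fun l _ => ?_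
    rw [Matrix.smul_apply, ← Pool.Agent.Y119.HY.cm_pow, Pool.Agent.Y119.HY.cm_apply, Pool.Agent.Y119.HY.Am_pow, smul_eq_mul]
    split_ifs
    · push_cast
      ring
    · simp
  simp only [hE, Finset.mul_sum]
  rw [Finset.sum_comm]
  have hsub : Finset.range ((j : ℕ) + 1) ⊆ Finset.range m := by
    intro l hl
    rw [Finset.mem_range] at hl ⊢
    have := j.2
    omega
  symm
  refine Finset.sum_subset_zero_on_sdiff hsub (fun l hl => ?_) fun l hl => ?_
  · rw [Finset.mem_sdiff, Finset.mem_range, Finset.mem_range] at hl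
    refine Finset.sum_eq_zero fun c _ => ?_
    rw [if_neg (by omega), mul_zero]
  · rw [Finset.mem_range] at hl
    have hj := j.2
    rw [Finset.sum_eq_single (⟨(j : ℕ) - l, by omega⟩ : Fin m)]
    · rw [if_pos (by simp only; omega), mul_comm]
      congr 1
    · intro c _ hc
      rw [if_neg, mul_zero]
      intro h
      apply hc
      apply Fin.ext
      simp only
      omega
    · intro h
      exact absurd (Finset.mem_univ _) h

/-- the form is alternating and nondegenerate -/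
lemma form_of {m : ℕ} (h2 : 2 ≤ m) (he : Even m) {Ω Q : Matrix (Fin m) (Fin m) ℂ} {c : ℂ} (hΩ : IsUnit Ω.det) (hc : c ≠ 0)
    (hQ : Ω.transpose * Q * Ω = c • K0 m) : Q.transpose = -Q ∧ Q.det ≠ 0 := by
  have hsk : (K0 m).transpose = -K0 m := by
    rw [K0_tr]
    have h1 : Odd (m - 1) := by
      obtain ⟨a, ha⟩ := he
      exact ⟨a - 1, by omega⟩
    rw [h1.neg_one_pow, neg_one_smul]
  have hΩT : IsUnit Ω.transpose.det := by rwa [Matrix.det_transpose]
  refine ⟨?_, fun h0 => ?_⟩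
  · have h1 : Ω.transpose * Q.transpose * Ω = Ω.transpose * (-Q) * Ω := by
      calc Ω.transpose * Q.transpose * Ω = (Ω.transpose * Q * Ω).transpose := by
            rw [Matrix.transpose_mul, Matrix.transpose_mul, Matrix.transpose_transpose, Matrix.mul_assoc]
        _ = c • (K0 m).transpose := by rw [hQ, Matrix.transpose_smul]
        _ = -(Ω.transpose * Q * Ω) := by rw [hsk, smul_neg, hQ]
        _ = Ω.transpose * (-Q) * Ω := by rw [Matrix.mul_neg, Matrix.neg_mul]
    have h3 := congrArg (fun X => X * Ω⁻¹) h1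
    simp only [Matrix.mul_nonsing_inv_cancel_right _ _ hΩ] at h3
    have h4 := congrArg (fun X => Ω.transpose⁻¹ * X) h3
    simp only [Matrix.nonsing_inv_mul_cancel_left _ _ hΩT] at h4
    exact h4
  · have h1 := congrArg Matrix.det hQ
    rw [Matrix.det_mul, Matrix.det_mul, h0, mul_zero, zero_mul, Matrix.det_smul] at h1
    exact mul_ne_zero (pow_ne_zero _ hc) ((Matrix.isUnit_iff_isUnit_det _).1 K0_unit).ne_zero h1.symm

lemma YL_congr {m : ℕ} {α α' : Fin m → ℚ} (h : QA α = QA α') (z L : ℂ) : YL α z L = YL α' z L := by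
  unfold YL
  rw [h]

/-- the conditions for one exponent vector -/
structure Sp1 {m : ℕ} (β : Fin m → ℚ) : Prop where
  two : 2 ≤ m
  even : Even m
  pos : ∀ l, 0 < β l ∧ β l < 1
  sym : ∃ σ : Equiv.Perm (Fin m), ∀ l, β (σ l) + β l = 1

lemma QA_deg {m : ℕ} (β : Fin m → ℚ) : (QA β).roots.card = m := by
  rw [QA_roots, Multiset.card_map]
  simp

/-- one member of a list of different families -/
lemma one_fam {s : ℕ} {d : Fin s → ℕ} {β' : ∀ j, Fin (d j) → ℚ} (h : Sy β') (j : Fin s) {m : ℕ} (hm : m = d j)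
    {β : Fin m → ℚ} (hβ : QA (β' j) = QA β) (Ω : Matrix (Fin m) (Fin m) ℂ) :
    ∃ P : Fin m → Fin m → MvPolynomial (Option (Fin (sz d * sz d))) ℂ,
      (∀ a b, (P a b).totalDegree ≤ 1 + sz d) ∧
      (∀ z ℓ : ℂ, Q207.AF.zM (jsys (hb β')).hf P z ℓ = Ω * (YL β (1 / z) (-ℓ)).transpose) ∧
      ∀ (Q γ : Matrix (Fin m) (Fin m) ℂ) (c : ℂ), IsUnit Ω.det → c ≠ 0 → Ω.transpose * Q * Ω = c • K0 m →
        γ.transpose * Q * γ = Q → Pool.Agent.Y123.GN.Prs (jsys (hb β')).hf P γ := by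
  subst hm
  refine ⟨Pp j Ω, Pp_deg j Ω, fun z ℓ => ?_, fun Q γ c hΩ hc hQ hγ => h.isom j hΩ hc hQ hγ⟩
  rw [zM_Pp, YL_congr hβ]

/-- **a joint connected family of G-functions for a list of symplectic hypergeometric equations, repetitions allowed** -/
theorem inst {k : ℕ} {n : Fin k → ℕ} {β : ∀ i, Fin (n i) → ℚ} (hβ : ∀ i, Sp1 (β i)) :
    ∃ (r : ℕ) (T : Polynomial ℤ) (A : Fin r → Fin r → Polynomial ℤ) (h : Fin r → ℚ⟦X⟧) (e : ℕ),
      Pool.Agent.Y916.Af.GFam T A h ∧ Pool.Agent.Y118.UL.Conn h ∧ ∀ (i : Fin k) (Ω : Matrix (Fin (n i)) (Fin (n i)) ℂ),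
      ∃ P : Fin (n i) → Fin (n i) → MvPolynomial (Option (Fin r)) ℂ, (∀ a b, (P a b).totalDegree ≤ e) ∧
        (∀ z ℓ : ℂ, Q207.AF.zM h P z ℓ = Ω * (YL (β i) (1 / z) (-ℓ)).transpose) ∧
        ∀ (Q γ : Matrix (Fin (n i)) (Fin (n i)) ℂ) (c : ℂ), IsUnit Ω.det → c ≠ 0 → Ω.transpose * Q * Ω = c • K0 (n i) →
          γ.transpose * Q * γ = Q → Pool.Agent.Y123.GN.Prs h P γ := by
  classical
  set S : Finset (Polynomial ℚ) := Finset.univ.image fun i => QA (β i) with hS
  set e : Fin S.card ≃ S := S.equivFin.symm with he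
  have hrep : ∀ j : Fin S.card, ∃ i, QA (β i) = (e j : Polynomial ℚ) := by
    intro j
    obtain ⟨i, -, hi⟩ := Finset.mem_image.1 (e j).2
    exact ⟨i, hi⟩
  choose ρ hρ using hrep
  have hSy : Sy fun j => β (ρ j) := by
    refine ⟨fun j => (hβ _).two, fun j => (hβ _).even, fun j => (hβ _).pos, fun j => (hβ _).sym, fun j j' hj h => hj ?_⟩
    have h1 : (e j : Polynomial ℚ) = e j' := by rw [← hρ, ← hρ]; exact h
    exact e.injective (Subtype.ext h1)
  obtain ⟨T, A, hG⟩ := hSy.fam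
  refine ⟨_, T, A, (jsys (hb fun j => β (ρ j))).hf, 1 + sz fun j => n (ρ j), hG, hSy.conn, fun i Ω => ?_⟩
  have hi : QA (β i) ∈ S := Finset.mem_image.2 ⟨i, Finset.mem_univ _, rfl⟩
  set j := e.symm ⟨QA (β i), hi⟩ with hj
  have h1 : QA (β (ρ j)) = QA (β i) := by rw [hρ, hj, Equiv.apply_symm_apply]
  have h2 : n i = n (ρ j) := by rw [← QA_deg (β i), ← QA_deg (β (ρ j)), h1]
  exact one_fam hSy j h2 h1 Ω

end Q207.HN
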