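import Pool.Agent.Q207.HG.Yex
import Pool.Agent.Q207.HG.Pk3
import Pool.Agent.Q207.HM.Gsy
import Pool.Agent.Q195.HG.Form
import Pool.Agent.Q195.HG.Conc

/-!
# The group of the relations of a sum of different symplectic hypergeometric systems
-/

set_option autoImplicit false

open Matrix

namespace Q207.HN

open Q207.HM Q207.HG
open Pool.Agent.Y119.HY (Am cm Hc Gal Rel Yf Ac_nil)
open Pool.Agent.Y123.GN (Clf Spf)

/-- a matrix which respects the invariant form comes from the group -/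
lemma bk_grp {m n : ℕ} {d : Bool} {P : Matrix (Fin n) (Fin m) ℂ} {P' : Matrix (Fin m) (Fin n) ℂ} (hm : 2 ≤ m) (h1 : P * P' = 1)
    (h2 : P' * P = 1) {B : Matrix (Fin m) (Fin m) ℂ} (hB : Spf B) {K g : Matrix (Fin n) (Fin n) ℂ} (hKu : IsUnit K)
    (hinv : ∀ κ ∈ GBs B, (lk d P P' κ)ᵀ * K * lk d P P' κ = K) (hg : gᵀ * K * g = K) :
    ∃ κ ∈ GBs B, lk d P P' κ = g := by
  obtain rfl := size_eq h1 h2
  have hBu : IsUnit B := hB.1
  have hBc : Clf B := Or.inr (Or.inl hB)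
  have hne : Nonempty (Fin m) := ⟨⟨0, by omega⟩⟩
  set C : Matrix (Fin m) (Fin m) ℂ := Pᵀ * K * P with hC
  have hPd : IsUnit P := ⟨⟨P, P', h1, h2⟩, rfl⟩
  have hPt : P'ᵀ * Pᵀ = 1 := by rw [← Matrix.transpose_mul, h1, Matrix.transpose_one]
  have hPt' : Pᵀ * P'ᵀ = 1 := by rw [← Matrix.transpose_mul, h2, Matrix.transpose_one]
  have hCu : IsUnit C := (((Matrix.isUnit_transpose P).2 hPd).mul hKu).mul hPd
  have hCd := (Matrix.isUnit_iff_isUnit_det _).1 hCu
  set W : Matrix (Fin m) (Fin m) ℂ := P' * g * P with hW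
  have hPWP : P * W * P' = g := by
    rw [hW]
    calc P * (P' * g * P) * P' = (P * P') * g * (P * P') := by simp only [Matrix.mul_assoc]
      _ = g := by rw [h1, Matrix.one_mul, Matrix.mul_one]
  have hWC : Wᵀ * C * W = C := by
    rw [hW, hC, Matrix.transpose_mul, Matrix.transpose_mul]
    calc Pᵀ * (gᵀ * P'ᵀ) * (Pᵀ * K * P) * (P' * g * P) = Pᵀ * gᵀ * (P'ᵀ * Pᵀ) * K * (P * P') * g * P := by
          simp only [Matrix.mul_assoc]
      _ = Pᵀ * (gᵀ * K * g) * P := by rw [hPt, h1]; simp only [Matrix.mul_assoc, Matrix.mul_one, Matrix.one_mul]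
      _ = _ := by rw [hg]
  have hdet : ∀ κ : Matrix (Fin m) (Fin m) ℂ, κᵀ * B * κ = B → κ.det = 1 := by
    intro κ hκ
    rw [← Matrix.det_transpose]
    refine Pool.Agent.Y123.GN.sp_det1 hB ?_
    rw [Matrix.transpose_transpose]
    exact hκ
  cases hd : d
  · obtain ⟨z, hz⟩ := Pool.Agent.Q195.HG.form m B C hm hBc hBu fun κ hκ1 hκ2 => by
      have e1 := hinv κ ⟨hκ1, hκ2⟩
      rw [hd] at e1
      unfold lk at e1
      simp only [Bool.false_eq_true, if_false] at e1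
      calc κᵀ * C * κ = (Pᵀ * P'ᵀ) * κᵀ * Pᵀ * K * P * κ * (P' * P) := by
            rw [hPt', h2, Matrix.one_mul, Matrix.mul_one, hC]
            simp only [Matrix.mul_assoc]
        _ = Pᵀ * ((P * κ * P')ᵀ * K * (P * κ * P')) * P := by
            rw [Matrix.transpose_mul, Matrix.transpose_mul]
            simp only [Matrix.mul_assoc]
        _ = C := by rw [e1]
    have hz0 : z ≠ 0 := by
      rintro rfl
      rw [zero_smul] at hz
      rw [hz] at hCu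
      exact not_isUnit_zero hCu
    have hWB : Wᵀ * B * W = B := by
      rw [hz, Matrix.mul_smul, Matrix.smul_mul] at hWC
      exact smul_right_injective _ hz0 hWC
    refine ⟨W, ⟨hdet W hWB, hWB⟩, ?_⟩
    unfold lk
    simp only [Bool.false_eq_true, if_false]
    exact hPWP
  · obtain ⟨z, hz⟩ := Pool.Agent.Q195.HG.form m B C⁻¹ hm hBc hBu fun κ hκ1 hκ2 => by
      have e1 := hinv κ ⟨hκ1, hκ2⟩
      rw [hd] at e1
      unfold lk at e1
      simp only [if_true] at e1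
      have hκu : IsUnit κ.det := by rw [hκ1]; exact isUnit_one
      have e2 : κ⁻¹ * C * (κ⁻¹)ᵀ = C := by
        calc κ⁻¹ * C * (κ⁻¹)ᵀ = (Pᵀ * P'ᵀ) * κ⁻¹ * Pᵀ * K * P * (κ⁻¹)ᵀ * (P' * P) := by
              rw [hPt', h2, Matrix.one_mul, Matrix.mul_one, hC]
              simp only [Matrix.mul_assoc]
          _ = Pᵀ * ((P * (κ⁻¹)ᵀ * P')ᵀ * K * (P * (κ⁻¹)ᵀ * P')) * P := by
              rw [Matrix.transpose_mul, Matrix.transpose_mul, Matrix.transpose_transpose]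
              simp only [Matrix.mul_assoc]
          _ = C := by rw [e1]
      have e3 : C = κ * C * κᵀ := by
        conv_rhs => rw [← e2]
        have e4 : (κ⁻¹)ᵀ * κᵀ = 1 := by rw [← Matrix.transpose_mul, Matrix.mul_nonsing_inv _ hκu, Matrix.transpose_one]
        calc C = (κ * κ⁻¹) * C * ((κ⁻¹)ᵀ * κᵀ) := by rw [e4, Matrix.mul_nonsing_inv _ hκu, Matrix.one_mul, Matrix.mul_one]
          _ = _ := by simp only [Matrix.mul_assoc]
      symm
      refine Matrix.inv_eq_left_inv ?_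
      have e5 : κᵀ * C⁻¹ * κ * C * κᵀ = κᵀ := by
        calc κᵀ * C⁻¹ * κ * C * κᵀ = κᵀ * (C⁻¹ * (κ * C * κᵀ)) := by simp only [Matrix.mul_assoc]
          _ = κᵀ := by rw [← e3, Matrix.nonsing_inv_mul _ hCd, Matrix.mul_one]
      have e6 : κᵀ * (κ⁻¹)ᵀ = 1 := by rw [← Matrix.transpose_mul, Matrix.nonsing_inv_mul _ hκu, Matrix.transpose_one]
      calc κᵀ * C⁻¹ * κ * C = κᵀ * C⁻¹ * κ * C * (κᵀ * (κ⁻¹)ᵀ) := by rw [e6, Matrix.mul_one]
        _ = (κᵀ * C⁻¹ * κ * C * κᵀ) * (κ⁻¹)ᵀ := by simp only [Matrix.mul_assoc]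
        _ = 1 := by rw [e5, e6]
    have hz0 : z ≠ 0 := by
      rintro rfl
      rw [zero_smul] at hz
      have : IsUnit C⁻¹ := (Matrix.isUnit_nonsing_inv_iff).2 hCu
      rw [hz] at this
      exact not_isUnit_zero this
    -- `W` is invertible
    have hWd : IsUnit W.det := by
      have h3 := congrArg Matrix.det hWC
      rw [Matrix.det_mul, Matrix.det_mul, Matrix.det_transpose] at h3
      have hC0 : C.det ≠ 0 := hCd.ne_zero
      refine Ne.isUnit fun h0 => ?_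
      rw [h0, mul_zero] at h3
      exact hC0 h3.symm
    have hWi : (W⁻¹)ᵀᵀ * C⁻¹ * (W⁻¹)ᵀ = C⁻¹ := by
      rw [Matrix.transpose_transpose]
      symm
      refine Matrix.inv_eq_right_inv ?_
      have e1 : C = Wᵀ * C * W := hWC.symm
      have e4 : W * W⁻¹ = 1 := Matrix.mul_nonsing_inv _ hWd
      have e5 : Wᵀ * (W⁻¹)ᵀ = 1 := by rw [← Matrix.transpose_mul, Matrix.nonsing_inv_mul _ hWd, Matrix.transpose_one]
      calc C * (W⁻¹ * C⁻¹ * (W⁻¹)ᵀ) = (Wᵀ * C * W) * (W⁻¹ * C⁻¹ * (W⁻¹)ᵀ) := by rw [hWC]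
        _ = Wᵀ * C * (W * W⁻¹) * C⁻¹ * (W⁻¹)ᵀ := by simp only [Matrix.mul_assoc]
        _ = Wᵀ * (C * C⁻¹) * (W⁻¹)ᵀ := by rw [e4, Matrix.mul_one]; simp only [Matrix.mul_assoc]
        _ = 1 := by rw [Matrix.mul_nonsing_inv _ hCd, Matrix.mul_one, e5]
    have hWB : (W⁻¹)ᵀᵀ * B * (W⁻¹)ᵀ = B := by
      rw [hz, Matrix.mul_smul, Matrix.smul_mul] at hWi
      exact smul_right_injective _ hz0 hWi
    refine ⟨(W⁻¹)ᵀ, ⟨hdet _ hWB, hWB⟩, ?_⟩
    unfold lk
    simp only [if_true]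
    have e1 : (((W⁻¹)ᵀ)⁻¹)ᵀ = W := by
      rw [← Matrix.transpose_nonsing_inv, Matrix.transpose_transpose, Matrix.nonsing_inv_nonsing_inv _ hWd]
    rw [e1]
    exact hPWP

section

variable {r : ℕ} {n : Fin r → ℕ}

/-- the blocks -/
noncomputable def hb (α : ∀ j, Fin (n j) → ℚ) (j : Fin r) : HB (n j) := ⟨QA (α j), 1, Ki.s⟩

/-- the conditions on the exponents -/
structure Sy (α : ∀ j, Fin (n j) → ℚ) : Prop where
  two : ∀ j, 2 ≤ n j
  even : ∀ j, Even (n j)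
  pos : ∀ j i, 0 < α j i ∧ α j i < 1
  sym : ∀ j, ∃ σ : Equiv.Perm (Fin (n j)), ∀ l, α j (σ l) + α j l = 1
  ne : ∀ j j', j ≠ j' → QA (α j) ≠ QA (α j')

lemma Sy.cl {α : ∀ j, Fin (n j) → ℚ} (h : Sy α) (j : Fin r) : cls (α j) = cls fun i => -α j i := by
  obtain ⟨σ, hσ⟩ := h.sym j
  refine perm_cls σ fun l => ⟨-1, ?_⟩
  push_cast
  linarith [hσ l]

lemma Sy.ni {α : ∀ j, Fin (n j) → ℚ} (h : Sy α) (j : Fin r) (i : Fin (n j)) (a : ℤ) : α j i ≠ a := ni_of (h.pos j) i a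

lemma Sy.qg {α : ∀ j, Fin (n j) → ℚ} (h : Sy α) (j : Fin r) : QG (n j) (QA (α j)) :=
  QG_QA (h.two j) fun l a h0 => h.ni j l a h0.symm

/-- the joint solution -/
lemma Y_eq {α : ∀ j, Fin (n j) → ℚ} {x : ℝ} : (jsys (hb α)).Y (x : ℂ) = BD fun j => Yx (n j) (QA (α j)) x := by
  rw [jsys_Y]
  have h1 := Yf_BD (n := n) (A := fun i => cm (Am (n i))) (fun i => Ac_nil) (fun i => Hc (n i) (hb α i).Q) (x : ℂ)
  rw [h1]
  rfl

/-- **The group of the relations contains the product of the symplectic groups.** -/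
theorem gal_all {α : ∀ j, Fin (n j) → ℚ} (h : Sy α) (κ : Bl n ℂ) (hκ : ∀ j, (κ j)ᵀ * K0 (n j) * κ j = K0 (n j)) :
    BD κ ∈ Gal (jsys (hb α)).Y := by
  classical
  have hnl : ∀ a a', a ≠ a' → ¬ cls (α a) = cls (α a') := by
    intro a a' haa h1
    exact h.ne a a' haa (QA_cls (h.pos a) (h.pos a') h1)
  have hex : ∀ a, ∃ (h' : HB (n a)) (α' : Fin (n a) → ℚ), ExB h' α' ∧ cls α' = cls (α a) ∧ h'.k = Ki.s := by
    intro a
    obtain ⟨h', α', h2, h3, h4⟩ := exb_sym3 (h.two a) (h.ni a) (h.cl a)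
    refine ⟨h', α', h2, h3, ?_⟩
    rcases h4 with h4 | ⟨h4, -⟩
    · exact h4
    · exact absurd (h.even a) (Nat.not_even_iff_odd.2 h4)
  choose h' α' hx hcl hk using hex
  have hgau : ∀ a, ∃ (G : ℝ → Matrix (Fin (n a)) (Fin (n a)) ℂ) (c : Matrix (Fin (n a)) (Fin (n a)) ℚ),
      Gau (α a) (h' a) G c := by
    intro a
    obtain ⟨G, c, h1, h2, h3, h4, h5⟩ := LE.of_cls (h.two a) (hx a).ni (h.ni a) (hcl a)
    exact ⟨G, c, h1, h2, h3, h4, fun x hx0 hx1 => by rw [(hx a).q]; exact h5 x hx0 hx1⟩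
  choose G c hg using hgau
  choose b hb' using fun a => blk_exists (hx a).ok
  obtain ⟨d, P, P', h1, h2, h3, -⟩ := gal_full (fun a => a) (fun a => a) h.ni hx hcl hg hb'
    (fun a a' haa => (hx a).neq (hx a') (hb' a) (hb' a')
      (fun h1 => by
        rw [hcl, hcl] at h1
        exact hnl a a' haa h1)
      (fun h1 => by
        rw [hcl, cls_neg (hcl a'), ← h.cl a'] at h1
        exact hnl a a' haa h1)) fun j => Or.inl rfl
  have hspf : ∀ a, Spf (b a).J ∧ fB (b a) = (b a).J := by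
    intro a
    have hbk : (b a).k = Ki.s := by rw [(hb' a).2.2.2.1, hk]
    obtain ⟨hJ, hd, -, -⟩ := (hb' a).1.s hbk
    refine ⟨⟨(Matrix.isUnit_iff_isUnit_det _).2 (Ne.isUnit hd), hJ⟩, ?_⟩
    unfold fB
    rw [hbk, if_neg (by decide)]
  -- the elements of the groups
  have hSG : ∀ a, ∀ κ ∈ GBs (b a).J, SG (b a) κ := by
    intro a κ hκ
    refine fB_SG hκ.1 ?_
    rw [(hspf a).2]
    exact hκ.2
  have hQX : ∀ κ : Bl n ℂ, (∀ a, κ a ∈ GBs (b a).J) → ∀ x : ℝ, 0 < x → x < 1 →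
      QuadX α x (fun j => Yx (n j) (QA (α j)) x * lk (d j) (P j) (P' j) (κ j)) := by
    intro κ hκ x hx0 hx1 R hR hR0
    have h5 := h3 κ (fun a => hSG a _ (hκ a)) (toV R) (fun x hx0 hx1 => by
      rw [eval_toV]
      exact hR0 x hx0 hx1) _ hx0 hx1
    rw [eval_toV] at h5
    exact h5
  have hone : ∀ a, (1 : Matrix (Fin (n a)) (Fin (n a)) ℂ) ∈ GBs (b a).J := fun a => GBs_one
  have hsurj : ∀ j, ∃ κ' ∈ GBs (b j).J, lk (d j) (P j) (P' j) κ' = κ j := by
    intro j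
    refine bk_grp (h.two j) (h1 j) (h2 j) (hspf j).1 K0_unit (fun κ' hκ' => ?_) (hκ j)
    have h4 := hQX (Function.update (fun _ => 1) j κ') (fun a => by
      by_cases haj : a = j
      · subst haj
        rw [Function.update_self]
        exact hκ'
      · rw [Function.update_of_ne haj]
        exact hone a) (1 / 2) (by norm_num) (by norm_num)
    have h5 := h4.bil j j
    simp only [Function.update_self] at h5
    exact conc_inv Pool.Agent.Q195.HG.conc (by norm_num) (by norm_num) (h.two j) (h.pos j)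
      (QA_cls_neg (h.pos j) (h.pos j) (h.cl j)) h5
  choose κ' hκ'1 hκ'2 using hsurj
  intro R hR x hx0 hx1
  have h4 := h3 κ' (fun a => hSG a _ (hκ'1 a)) R (fun y hy0 hy1 => by
    have h5 := hR y hy0 hy1
    rw [Y_eq] at h5
    exact h5) x hx0 hx1
  rw [Y_eq, ← BD_mul]
  show MvPolynomial.eval _ R = 0
  have h5 : (fun j => Yx (n j) (QA (α j)) x * lk (d j) (P j) (P' j) (κ' j)) = fun j => Yx (n j) (QA (α j)) x * κ j := by
    funext j
    rw [hκ'2 j]
  rw [h5] at h4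
  exact h4

end

end Q207.HN
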