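import Pool.Agent.Q207.HN.Pr

/-!
# The entries of the holomorphic part of a sum of hypergeometric systems form a family of G-functions
-/

set_option autoImplicit false

open PowerSeries Pool.Agent.Y113 Pool.Agent.Y120.GF Pool.Agent.Y120.GH

namespace Q207.HN

open Pool.Agent.Y119.HZ
open Pool.Agent.Y119.HY (Am Am_nil cm Ac_nil Hc Hq Hq_zero Bm)
open Pool.Agent.Y119.HZ (cf Hp cf_Hp T1 A1 exists_b ix SDc_C)
open Q207.HM

section gen

variable {n : ℕ} {H W : Matrix (Fin n) (Fin n) ℚ⟦X⟧} {N : Matrix (Fin n) (Fin n) ℚ} {Nz : Fin n → Fin n → ℤ}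
  {T₁ : Polynomial ℤ} {A : Fin n → Fin n → Polynomial ℤ}

lemma itm_ix {m : ℕ} {ι : Type} [Fintype ι] [DecidableEq ι] (e : Fin m ≃ ι) (T : Polynomial ℤ) (B : ι → ι → Polynomial ℤ) (s : ℕ)
    (i j : Fin m) : itm T (fun a c => B (e a) (e c)) s i j = itm T B s (e i) (e j) := by
  induction s generalizing j with
  | zero =>
    show (if i = j then (1 : Polynomial ℤ) else 0) = if e i = e j then 1 else 0
    simp only [e.injective.eq_iff]
  | succ s ih =>
    show T * Polynomial.derivative (itm T (fun a c => B (e a) (e c)) s i j) +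
      ∑ l, itm T (fun a c => B (e a) (e c)) s i l * B (e l) (e j) -
      (s : Polynomial ℤ) * (Polynomial.derivative T * itm T (fun a c => B (e a) (e c)) s i j) =
      T * Polynomial.derivative (itm T B s (e i) (e j)) + ∑ l, itm T B s (e i) l * B l (e j) -
      (s : Polynomial ℤ) * (Polynomial.derivative T * itm T B s (e i) (e j))
    simp only [ih]
    rw [← Equiv.sum_comp e fun l => itm T B s (e i) l * B l (e j)]

/-- the hypotheses -/
theorem gfam_gen (hN0 : N ^ n = 0) (hNz : ∀ i j, (Nz i j : ℚ) = N i j) (hT : T₁ ≠ 0) (hHW : H * W = 1)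
    (h0 : ∀ i j, coeff 0 (H i j) = if i = j then 1 else 0)
    (hode : ∀ i j, ps T₁ * (X * d⁄dX ℚ (H i j) + ∑ k, H i k * C (N k j)) = ∑ k, ps (A i k) * H k j)
    (hH : ∀ i j, SDc (H i j)) (hW : ∀ i j, SDc (W i j)) :
    Pool.Agent.Y916.Af.GFam (Polynomial.X * T₁) (fun a c : Fin (n * n) => A3 T₁ A Nz (ix n a) (ix n c))
      (fun a : Fin (n * n) => H (ix n a).1 (ix n a).2) := by
  classical
  obtain ⟨C₁, hC₁, hs, hden⟩ := Pool.Agent.Y119.HY.SDc.unif (y := fun p : Fin n × Fin n => H p.1 p.2) fun p => hH p.1 p.2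
  refine ⟨mul_ne_zero Polynomial.X_ne_zero hT, fun i => ?_, ⟨C₁, fun i m => hs _ m⟩, ⟨C₁, fun m => ?_⟩, ?_,
    qu_gen hN0 hNz h0 hode hH⟩
  · have h1 := ode_A3 hNz hode (ix n i)
    have h2 : ∑ j : Fin (n * n), ps (A3 T₁ A Nz (ix n i) (ix n j)) * H (ix n j).1 (ix n j).2 =
        ∑ q, ps (A3 T₁ A Nz (ix n i) q) * H q.1 q.2 :=
      Equiv.sum_comp (ix n) fun q => ps (A3 T₁ A Nz (ix n i) q) * H q.1 q.2
    exact h1.trans h2.symm
  · obtain ⟨d, hd0, hd, hd'⟩ := hden m
    exact ⟨d, hd0, hd, fun i j hj => hd' _ j hj⟩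
  · obtain ⟨q, B, hB, hbd⟩ := bd_exists (fun o : Option (Option (Fin n × Fin n)) => o.elim (Polynomial.X * T₁) fun o =>
      o.elim T₁ fun p => A p.1 p.2)
    have hT' : Bd q B (Polynomial.X * T₁) := hbd none
    have hT1 : Bd q B T₁ := hbd (some none)
    have hA : ∀ i j, Bd q B (A i j) := fun i j => hbd (some (some (i, j)))
    have hGP : ∀ a b, Pool.Agent.Y119.HY.GP q (PP T₁ A N a b) := fun a b => PP_GP hN0 hHW hode hH hW hB hT' hA hT1.1 a b
    obtain ⟨C₂, hC₂, -, hip⟩ := Pool.Agent.Y119.HY.GP.unif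
      (P := fun p : (Fin n × Fin n) × (Fin n × Fin n) => PP T₁ A N p.1 p.2) fun p => hGP p.1 p.2
    refine ⟨C₂, fun m => ?_⟩
    obtain ⟨g, hg0, hg, hg'⟩ := hip m
    refine ⟨g, hg0, hg, fun s hs i j => ?_⟩
    obtain ⟨Q, hQ⟩ := hg' (ix n i, ix n j) s hs
    refine ⟨Q, ?_⟩
    have hinj : Function.Injective tqR := Polynomial.map_injective _ (RingHom.injective_int _)
    apply hinj
    have h1 := PP_itm (T₁ := T₁) (A := A) hNz s (ix n i) (ix n j)
    rw [itm_ix (ix n) (Polynomial.X * T₁) (A3 T₁ A Nz), map_mul, map_mul, map_natCast, map_natCast, ← h1]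
    have h2 : tqR Q = Polynomial.C (g : ℚ) * PP T₁ A N (ix n i) (ix n j) s := hQ
    rw [h2]
    have h3 : (Polynomial.C (g : ℚ) : Polynomial ℚ) = (g : Polynomial ℚ) := by simp
    rw [h3]
    ring

end gen

section joint

variable {r : ℕ} {n : Fin r → ℕ} {h : ∀ i, HB (n i)}

/-- **the direct sum is a family of G-functions** -/
theorem gfam_jsys (hg : ∀ i, QG (n i) (h i).Q) (hS : ∀ i a b, SDc (Hp (n i) (h i).Q a b)) :
    ∃ (T : Polynomial ℤ) (A : Fin (sz n * sz n) → Fin (sz n * sz n) → Polynomial ℤ), Pool.Agent.Y916.Af.GFam T A (jsys h).hf := by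
  have hN0 : (jsys h).N ^ sz n = 0 := BD_nil fun i => Am_nil
  have hSD0 : SDc (0 : ℚ⟦X⟧) := by
    have := SDc_C 0
    rwa [map_zero] at this
  have hcf0 : cf (jsys h).H 0 = 1 := by
    unfold jsys cf
    rw [BD_map' _ (map_zero _), ← BD_one]
    congr 1
    funext i
    show cf (Hp (n i) (h i).Q) 0 = 1
    rw [cf_Hp, Hq_zero]
  choose D b hD hb using fun i => exists_b (n i) (h i).Q
  -- a common multiple
  set D' : ℕ := ∏ i, D i with hD'
  have hD'0 : D' ≠ 0 := Finset.prod_ne_zero_iff.2 fun i _ => hD i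
  choose c hc using fun i => (Finset.dvd_prod_of_mem D (Finset.mem_univ i))
  set b' : ∀ i, Fin (n i) → Fin (n i) → ℤ := fun i x y => (c i : ℤ) * b i x y with hb'
  have hbb : ∀ i x y, ((b' i x y : ℤ) : ℚ) = (D' : ℚ) * Bm (n i) (h i).Q x y := by
    intro i x y
    rw [hb']
    push_cast
    rw [hb, hD', hc i]
    push_cast
    ring
  set Nz : Matrix (Fin (sz n)) (Fin (sz n)) ℤ := BD fun i => Matrix.of fun x y => if (y : ℕ) = x + 1 then 1 else 0 with hNz
  have hNzq : ∀ x y, ((Nz x y : ℤ) : ℚ) = (jsys h).N x y := by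
    intro x y
    have h1 : Nz.map (fun z : ℤ => (z : ℚ)) = (jsys h).N := by
      rw [hNz, BD_map' _ Int.cast_zero]
      unfold jsys
      congr 1
      funext i
      ext x y
      rw [Matrix.map_apply, Matrix.of_apply]
      unfold Am
      rw [Matrix.of_apply]
      split_ifs <;> simp
    rw [← h1, Matrix.map_apply]
  set W : Matrix (Fin (sz n)) (Fin (sz n)) ℚ⟦X⟧ := BD fun i => Wg (n i) (h i).Q with hW
  have hHW : (jsys h).H * W = 1 := by
    unfold jsys
    rw [hW, ← BD_mul, ← BD_one]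
    congr 1
    funext i
    exact mul_Wg (hg i)
  have hT : T1 D' ≠ 0 := by
    refine mul_ne_zero (Polynomial.C_ne_zero.2 (by exact_mod_cast hD'0)) ?_
    intro h0
    have := congrArg (Polynomial.eval 0) h0
    simp at this
  set A : Matrix (Fin (sz n)) (Fin (sz n)) (Polynomial ℤ) := BD fun i => Matrix.of (A1 (n i) D' (b' i)) with hA
  have hps : ∀ X : Bl n (Polynomial ℤ), (BD X).map ps = BD fun i => (X i).map ps := by
    intro X
    refine BD_map' _ ?_ X
    unfold ps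
    simp
  have hode : ∀ i j, ps (T1 D') * (X * d⁄dX ℚ ((jsys h).H i j) + ∑ k, (jsys h).H i k * C ((jsys h).N k j)) =
      ∑ k, ps (A i k) * (jsys h).H k j := by
    intro x y
    have e1 : ∑ k, (jsys h).H x k * C ((jsys h).N k y) = ((jsys h).H * ((jsys h).N).map C) x y := by
      rw [Matrix.mul_apply]
      rfl
    have e2 : ∑ k, ps (A x k) * (jsys h).H k y = (A.map ps * (jsys h).H) x y := by
      rw [Matrix.mul_apply]
      rfl
    rw [e1, e2]
    unfold jsys
    simp only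
    rw [BD_map' _ (map_zero _), ← BD_mul, hA, hps, ← BD_mul]
    obtain ⟨⟨i, x⟩, rfl⟩ := finSigmaFinEquiv.surjective x
    obtain ⟨⟨j, y⟩, rfl⟩ := finSigmaFinEquiv.surjective y
    by_cases hij : i = j
    · subst hij
      rw [BD_eq, BD_eq, BD_eq]
      have h1 := ode_intG (hg i) (hbb i) x y
      rw [Matrix.mul_apply, Matrix.mul_apply]
      exact h1
    · rw [BD_ne _ hij, BD_ne _ hij, BD_ne _ hij, map_zero, mul_zero, add_zero, mul_zero]
  refine ⟨_, _, gfam_gen (H := (jsys h).H) (W := W) (N := (jsys h).N) (Nz := Nz) (T₁ := T1 D') (A := A) hN0 hNzq hT hHW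
    (fun x y => ?_) hode (fun x y => ?_) (fun x y => ?_)⟩
  · have h1 := congrFun (congrFun hcf0 x) y
    unfold cf at h1
    rw [Matrix.map_apply, Matrix.one_apply] at h1
    exact h1
  · unfold jsys
    exact BD_entry (P := SDc) hSD0 hS x y
  · rw [hW]
    exact BD_entry (P := SDc) hSD0 (fun i a b => SDc_Wg (hS i) a b) x y

variable {α : ∀ j, Fin (n j) → ℚ}

lemma Sy.sd (h : Sy α) (i : Fin r) (a b : Fin (n i)) : SDc (Hp (n i) (hb α i).Q a b) :=
  sdc_hpsG (fun i' l h0 => h.ni i i' l h0.symm) (h.qg i) a b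

theorem Sy.fam (h : Sy α) : ∃ (T : Polynomial ℤ) (A : Fin (sz n * sz n) → Fin (sz n * sz n) → Polynomial ℤ),
    Pool.Agent.Y916.Af.GFam T A (jsys (hb α)).hf := gfam_jsys (fun i => h.qg i) h.sd

theorem Sy.ok (h : Sy α) : SysOK (jsys (hb α)) := jsys_okG (fun i => h.qg i) h.sd

end joint

end Q207.HN
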