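import Pool.Agent.Q207.HG.Hod
import Pool.Agent.Q207.GH.Plk4
import Pool.Agent.Q207.AH.Gx
import Pool.Agent.Q207.AH.Mv

/-!
# Mumford-Tate Lie algebras over number fields: dual Hodge structures
-/

set_option autoImplicit false

open Matrix Finset

namespace Q207.HN

section
variable {I : Type} [Fintype I] [DecidableEq I]

/-- eigenspaces -/
def eg (Ψ : Matrix I I ℂ) (p : ℤ) : Submodule ℂ (I → ℂ) where
  carrier := {v | v ᵥ* Ψ = (p : ℂ) • v}
  zero_mem' := by
    show (0 : I → ℂ) ᵥ* Ψ = _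
    rw [Matrix.zero_vecMul, smul_zero]
  add_mem' := by
    intro v v' hv hv'
    show (v + v') ᵥ* Ψ = _
    rw [Matrix.add_vecMul, show v ᵥ* Ψ = _ from hv, show v' ᵥ* Ψ = _ from hv', smul_add]
  smul_mem' := by
    intro a v hv
    show (a • v) ᵥ* Ψ = _
    rw [Matrix.smul_vecMul, show v ᵥ* Ψ = _ from hv, smul_comm]

omit [DecidableEq I] in
lemma mem_eg {Ψ : Matrix I I ℂ} {p : ℤ} {v : I → ℂ} : v ∈ eg Ψ p ↔ v ᵥ* Ψ = (p : ℂ) • v := Iff.rfl

/-- diagonalizable operators -/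
theorem eg_int {Ψ C : Matrix I I ℂ} {lev : I → ℤ} (hC : IsUnit C.det) (h : ∀ a, C a ∈ eg Ψ (lev a)) :
    DirectSum.IsInternal (eg Ψ) := by
  rw [DirectSum.isInternal_submodule_iff_iSupIndep_and_iSup_eq_top]
  constructor
  · have h1 := Module.End.eigenspaces_iSupIndep (Matrix.vecMulLinear Ψ)
    have h2 : eg Ψ = fun p : ℤ => Module.End.eigenspace (Matrix.vecMulLinear Ψ) (p : ℂ) := by
      funext p
      ext v
      rw [Module.End.mem_eigenspace_iff]
      rfl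
    rw [h2]
    exact h1.comp Int.cast_injective
  · rw [eq_top_iff]
    intro v _
    have h3 : v = ∑ a, (v ᵥ* C⁻¹) a • C a := by
      have h2 : v = (v ᵥ* C⁻¹) ᵥ* C := by
        rw [Matrix.vecMul_vecMul, Matrix.nonsing_inv_mul _ hC, Matrix.vecMul_one]
      conv_lhs => rw [h2]
      funext b
      rw [Finset.sum_apply]
      rfl
    rw [h3]
    refine Submodule.sum_mem _ fun a _ => Submodule.smul_mem _ _ ?_
    exact Submodule.mem_iSup_of_mem (lev a) (h a)

omit [DecidableEq I] in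
lemma eg_conj {Ψ : Matrix I I ℂ} (hΨ : Ψ.map (starRingEnd ℂ) = -Ψ) :
    ∀ p, ∀ v ∈ eg Ψ p, (fun a => (starRingEnd ℂ) (v a)) ∈ eg Ψ (-p) := by
  intro p v hv
  rw [mem_eg] at hv ⊢
  have h1 : (fun a => (starRingEnd ℂ) (v a)) ᵥ* Ψ = -((fun a => (starRingEnd ℂ) (v a)) ᵥ* Ψ.map (starRingEnd ℂ)) := by
    rw [hΨ, Matrix.vecMul_neg, neg_neg]
  rw [h1]
  funext b
  have h2 := congrArg (starRingEnd ℂ) (congrFun hv b)
  have h3 : (starRingEnd ℂ) ((v ᵥ* Ψ) b) = ((fun a => (starRingEnd ℂ) (v a)) ᵥ* Ψ.map (starRingEnd ℂ)) b := by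
    show (starRingEnd ℂ) (∑ a, v a * Ψ a b) = ∑ a, (starRingEnd ℂ) (v a) * (starRingEnd ℂ) (Ψ a b)
    rw [map_sum]
    exact sum_congr rfl fun a _ => map_mul _ _ _
  rw [h3] at h2
  rw [Pi.neg_apply, h2]
  show -(starRingEnd ℂ) ((p : ℂ) * v b) = (((-p : ℤ)) : ℂ) * (starRingEnd ℂ) (v b)
  rw [map_mul, Int.cast_neg, neg_mul]
  congr 2
  exact map_intCast (starRingEnd ℂ) p

/-- the eigenvectors are in the Hodge components -/
theorem mem_of_eg {H : ℤ → Submodule ℂ (I → ℂ)} (hH : DirectSum.IsInternal H) {Φ : Matrix I I ℂ}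
    (hΦ : ∀ p, ∀ v ∈ H p, v ᵥ* Φ = (p : ℂ) • v) {p : ℤ} {v : I → ℂ} (hv : v ᵥ* Φ = (p : ℂ) • v) : v ∈ H p := by
  classical
  obtain ⟨C, lev, hC, hm⟩ := Pool.Agent.Q195.HT.adaptedI hH
  set c := v ᵥ* C⁻¹ with hc
  have h3 : v = ∑ a, c a • C a := by
    have h2 : v = c ᵥ* C := by
      rw [hc, Matrix.vecMul_vecMul, Matrix.nonsing_inv_mul _ hC, Matrix.vecMul_one]
    conv_lhs => rw [h2]
    funext b
    rw [Finset.sum_apply]
    rfl
  have h4 : ∀ a, c a * ((lev a : ℂ) - p) = 0 := by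
    have h5 : ∑ a, (c a * ((lev a : ℂ) - p)) • C a = 0 := by
      have h6 : v ᵥ* Φ = ∑ a, (c a * (lev a : ℂ)) • C a := by
        conv_lhs => rw [h3]
        rw [Matrix.sum_vecMul]
        refine sum_congr rfl fun a _ => ?_
        rw [Matrix.smul_vecMul, hΦ _ _ (hm a), smul_smul]
      have h7 : (p : ℂ) • v = ∑ a, (c a * (p : ℂ)) • C a := by
        conv_lhs => rw [h3]
        rw [smul_sum]
        exact sum_congr rfl fun a _ => by rw [smul_smul, mul_comm]
      have h8 : ∑ a, (c a * ((lev a : ℂ) - p)) • C a = ∑ a, (c a * (lev a : ℂ)) • C a - ∑ a, (c a * (p : ℂ)) • C a := by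
        rw [← sum_sub_distrib]
        exact sum_congr rfl fun a _ => by rw [mul_sub, sub_smul]
      rw [h8, ← h6, ← h7, hv, sub_self]
    have h9 : LinearIndependent ℂ fun a => C a :=
      Matrix.linearIndependent_rows_iff_isUnit.2 ((Matrix.isUnit_iff_isUnit_det _).2 hC)
    exact Fintype.linearIndependent_iff.1 h9 _ h5
  rw [h3]
  refine Submodule.sum_mem _ fun a _ => ?_
  rcases mul_eq_zero.1 (h4 a) with h5 | h5
  · rw [h5, zero_smul]
    exact Submodule.zero_mem _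
  · have h6 : lev a = p := by
      have h7 : (lev a : ℂ) = (p : ℂ) := sub_eq_zero.1 h5
      exact_mod_cast h7
    rw [← h6]
    exact Submodule.smul_mem _ _ (hm a)

end

/-- the sum of a Hodge structure and its dual -/
theorem dual_ext {w : ℕ} {C Φ : Matrix (Fin w) (Fin w) ℂ} {lev : Fin w → ℤ} (hC : IsUnit C.det)
    (hm : ∀ a, C a ᵥ* Φ = (lev a : ℂ) • C a) (hr : Φ.map (starRingEnd ℂ) = -Φ) :
    ∃ (Ψ D : Matrix (Fin (w + w)) (Fin (w + w)) ℂ) (levD : Fin (w + w) → ℤ), IsUnit D.det ∧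
      (∀ a, D a ∈ eg Ψ (levD a)) ∧ Ψ.map (starRingEnd ℂ) = -Ψ ∧
      ∃ (ι₂ : Matrix (Fin w) (Fin (w + w)) ℚ) (ι₁ : Matrix (Fin (w + w)) (Fin w) ℚ) (ρ₂ : Matrix (Fin (w + w)) (Fin w) ℚ)
        (ρ₁ : Matrix (Fin w) (Fin (w + w)) ℚ), ι₂ * ρ₂ = 1 ∧ ρ₁ * ι₁ = 1 ∧
        ι₂.map (algebraMap ℚ ℂ) * Ψ = Φ * ι₂.map (algebraMap ℚ ℂ) ∧
        Ψᵀ * ι₁.map (algebraMap ℚ ℂ) = -(ι₁.map (algebraMap ℚ ℂ) * Φ) := by
  classical
  set e := finSumFinEquiv (m := w) (n := w) with he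
  set Ψ' : Matrix (Fin w ⊕ Fin w) (Fin w ⊕ Fin w) ℂ := fromBlocks Φ 0 0 (-Φᵀ) with hΨ'
  set D' : Matrix (Fin w ⊕ Fin w) (Fin w ⊕ Fin w) ℂ := fromBlocks C 0 0 (C⁻¹)ᵀ with hD'
  have hCi : IsUnit (C⁻¹)ᵀ.det := by
    rw [Matrix.det_transpose]
    exact Matrix.isUnit_nonsing_inv_det _ hC
  have hCΦ : C * Φ = Matrix.diagonal (fun a => (lev a : ℂ)) * C := by
    ext a b
    have h1 := congrFun (hm a) b
    rw [Matrix.diagonal_mul]
    exact h1
  have hCΦ' : Φ * C⁻¹ = C⁻¹ * Matrix.diagonal (fun a => (lev a : ℂ)) := by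
    have h1 := congrArg (fun X => C⁻¹ * X * C⁻¹) hCΦ
    rw [← Matrix.mul_assoc, Matrix.nonsing_inv_mul _ hC, Matrix.one_mul, Matrix.mul_assoc, Matrix.mul_assoc,
      Matrix.mul_nonsing_inv _ hC, Matrix.mul_one] at h1
    exact h1
  have hD'Ψ : D' * Ψ' = Matrix.diagonal (Sum.elim (fun a => (lev a : ℂ)) fun a => -(lev a : ℂ)) * D' := by
    have h1 : Matrix.diagonal (Sum.elim (fun a => (lev a : ℂ)) fun a => -(lev a : ℂ)) =
        fromBlocks (Matrix.diagonal fun a => (lev a : ℂ)) 0 0 (Matrix.diagonal fun a => -(lev a : ℂ)) :=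
      (Matrix.fromBlocks_diagonal _ _).symm
    rw [h1, hD', hΨ', fromBlocks_multiply, fromBlocks_multiply]
    simp only [Matrix.mul_zero, Matrix.zero_mul, add_zero, zero_add]
    have h2 : (C⁻¹)ᵀ * -Φᵀ = Matrix.diagonal (fun a => -(lev a : ℂ)) * (C⁻¹)ᵀ := by
      rw [Matrix.mul_neg, ← Matrix.transpose_mul, hCΦ', Matrix.transpose_mul, Matrix.diagonal_transpose, ← Matrix.neg_mul]
      congr 1
      ext a b
      rw [Matrix.neg_apply]
      by_cases h : a = b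
      · subst h
        rw [Matrix.diagonal_apply_eq, Matrix.diagonal_apply_eq]
      · rw [Matrix.diagonal_apply_ne _ h, Matrix.diagonal_apply_ne _ h, neg_zero]
    rw [h2, hCΦ]
  have hD'u : IsUnit D'.det := by
    rw [hD', Matrix.det_fromBlocks_zero₂₁]
    exact hC.mul hCi
  refine ⟨Ψ'.submatrix e.symm e.symm, D'.submatrix e.symm e.symm, fun x => Sum.elim lev (fun a => -lev a) (e.symm x), ?_, ?_, ?_, ?_⟩
  · rw [Matrix.det_submatrix_equiv_self]
    exact hD'u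
  · intro x
    rw [mem_eg]
    funext y
    have h1 : (D'.submatrix e.symm e.symm * Ψ'.submatrix e.symm e.symm) x y = (D' * Ψ') (e.symm x) (e.symm y) := by
      rw [Matrix.submatrix_mul_equiv]
      rfl
    have h2 : (D'.submatrix e.symm e.symm * Ψ'.submatrix e.symm e.symm) x y =
        ((D'.submatrix e.symm e.symm) x ᵥ* Ψ'.submatrix e.symm e.symm) y := rfl
    rw [← h2, h1, hD'Ψ, Matrix.diagonal_mul]
    show _ = ((Sum.elim lev (fun a => -lev a) (e.symm x) : ℤ) : ℂ) * D' (e.symm x) (e.symm y)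
    congr 1
    rcases e.symm x with a | a
    · rfl
    · show -(lev a : ℂ) = ((-lev a : ℤ) : ℂ)
      rw [Int.cast_neg]
  · have h1 : Ψ'.map (starRingEnd ℂ) = -Ψ' := by
      have h2 : (-Φᵀ).map (starRingEnd ℂ) = -(-Φᵀ) := by
        have h3 : (-Φᵀ).map (starRingEnd ℂ) = -((Φ.map (starRingEnd ℂ))ᵀ) := by
          ext a b
          simp
        rw [h3, hr, Matrix.transpose_neg]
      rw [hΨ', Matrix.fromBlocks_map, Matrix.map_zero _ (map_zero _), hr, h2,
        Matrix.fromBlocks_neg, neg_zero]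
    ext a b
    exact congrFun (congrFun h1 (e.symm a)) (e.symm b)
  · set ι₂' : Matrix (Fin w) (Fin w ⊕ Fin w) ℚ := Matrix.fromCols 1 0 with hι₂
    set ι₁' : Matrix (Fin w ⊕ Fin w) (Fin w) ℚ := Matrix.fromRows 0 1 with hι₁
    set ρ₂' : Matrix (Fin w ⊕ Fin w) (Fin w) ℚ := Matrix.fromRows 1 0 with hρ₂
    set ρ₁' : Matrix (Fin w) (Fin w ⊕ Fin w) ℚ := Matrix.fromCols 0 1 with hρ₁
    refine ⟨ι₂'.submatrix id e.symm, ι₁'.submatrix e.symm id, ρ₂'.submatrix e.symm id, ρ₁'.submatrix id e.symm, ?_, ?_, ?_, ?_⟩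
    · rw [Matrix.submatrix_mul_equiv, hι₂, hρ₂, Matrix.fromCols_mul_fromRows, Matrix.mul_one, Matrix.mul_zero, add_zero,
        Matrix.submatrix_id_id]
    · rw [Matrix.submatrix_mul_equiv, hι₁, hρ₁, Matrix.fromCols_mul_fromRows, Matrix.mul_one, Matrix.mul_zero, zero_add,
        Matrix.submatrix_id_id]
    · have h1 : ι₂'.map (algebraMap ℚ ℂ) = Matrix.fromCols 1 0 := by
        ext a b
        rcases b with b | b
        · show algebraMap ℚ ℂ ((1 : Matrix (Fin w) (Fin w) ℚ) a b) = (1 : Matrix (Fin w) (Fin w) ℂ) a b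
          rw [Matrix.one_apply, Matrix.one_apply]
          split_ifs
          · exact map_one _
          · exact map_zero _
        · show algebraMap ℚ ℂ 0 = 0
          exact map_zero _
      have h2 : (ι₂'.submatrix id e.symm).map (algebraMap ℚ ℂ) = (ι₂'.map (algebraMap ℚ ℂ)).submatrix id e.symm := rfl
      rw [h2, Matrix.submatrix_mul_equiv, h1, hΨ', Matrix.fromCols_mul_fromBlocks]
      ext a b
      show (Matrix.fromCols _ _) a (e.symm b) = ∑ c, Φ a c * (Matrix.fromCols (1 : Matrix (Fin w) (Fin w) ℂ) 0) c (e.symm b)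
      rcases e.symm b with c | c
      · simp [Matrix.one_apply]
      · simp
    · have h1 : ι₁'.map (algebraMap ℚ ℂ) = Matrix.fromRows 0 1 := by
        ext a b
        rcases a with a | a
        · show algebraMap ℚ ℂ 0 = 0
          exact map_zero _
        · show algebraMap ℚ ℂ ((1 : Matrix (Fin w) (Fin w) ℚ) a b) = (1 : Matrix (Fin w) (Fin w) ℂ) a b
          rw [Matrix.one_apply, Matrix.one_apply]
          split_ifs
          · exact map_one _
          · exact map_zero _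
      have h2 : (ι₁'.submatrix e.symm id).map (algebraMap ℚ ℂ) = (ι₁'.map (algebraMap ℚ ℂ)).submatrix e.symm id := rfl
      rw [h2, Matrix.transpose_submatrix, Matrix.submatrix_mul_equiv, h1, hΨ', Matrix.fromBlocks_transpose,
        Matrix.fromBlocks_mul_fromRows]
      ext a b
      show (Matrix.fromRows _ _) (e.symm a) b = -∑ c, (Matrix.fromRows (0 : Matrix (Fin w) (Fin w) ℂ) 1) (e.symm a) c * Φ c b
      rcases e.symm a with c | c
      · simp
      · simp [Matrix.one_apply]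

end Q207.HN
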