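import Pool.Agent.Q207.HN.Ma

/-!
# Mumford-Tate Lie algebras over number fields: stability under the symplectic Lie algebras
-/

set_option autoImplicit false

open Matrix Finset

namespace Q207.HN

open Q207.HT (lieA lieA_apply qc)
open Q207.GH (Sb cs sub_stabC lieA_two)

section adj
variable {I : Type} [Fintype I] [DecidableEq I]

/-- the complex span -/
def CS (𝔪 : Submodule ℚ (Matrix I I ℚ)) : Submodule ℂ (Matrix I I ℂ) :=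
  Submodule.span ℂ ((fun X : Matrix I I ℚ => X.map (algebraMap ℚ ℂ)) '' (𝔪 : Set (Matrix I I ℚ)))

omit [DecidableEq I] in
lemma CS_br {𝔪 : Submodule ℚ (Matrix I I ℚ)} (h𝔪 : ∀ X ∈ 𝔪, ∀ Y ∈ 𝔪, X * Y - Y * X ∈ 𝔪) {Y : Matrix I I ℚ} (hY : Y ∈ 𝔪)
    {Z : Matrix I I ℂ} (hZ : Z ∈ CS 𝔪) : Y.map (algebraMap ℚ ℂ) * Z - Z * Y.map (algebraMap ℚ ℂ) ∈ CS 𝔪 := by
  unfold CS at hZ
  induction hZ using Submodule.span_induction with
  | mem Z hZ =>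
    obtain ⟨X, hX, rfl⟩ := hZ
    refine Submodule.subset_span ⟨Y * X - X * Y, h𝔪 Y hY X hX, ?_⟩
    show (Y * X - X * Y).map (algebraMap ℚ ℂ) = _
    rw [Matrix.map_sub _ (map_sub (algebraMap ℚ ℂ)), Matrix.map_mul, Matrix.map_mul]
  | zero =>
    rw [Matrix.mul_zero, Matrix.zero_mul, sub_zero]
    exact Submodule.zero_mem _
  | add Z Z' _ _ h1 h2 =>
    have h3 : Y.map (algebraMap ℚ ℂ) * (Z + Z') - (Z + Z') * Y.map (algebraMap ℚ ℂ) =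
        (Y.map (algebraMap ℚ ℂ) * Z - Z * Y.map (algebraMap ℚ ℂ)) + (Y.map (algebraMap ℚ ℂ) * Z' - Z' * Y.map (algebraMap ℚ ℂ)) := by
      rw [Matrix.mul_add, Matrix.add_mul]
      abel
    rw [h3]
    exact Submodule.add_mem _ h1 h2
  | smul a Z _ h1 =>
    rw [Matrix.mul_smul, Matrix.smul_mul, ← smul_sub]
    exact Submodule.smul_mem _ _ h1

variable {I' : Type} [Fintype I'] [DecidableEq I']

/-- an endomorphism as a tensor -/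
noncomputable def uC (G₁ : Matrix I' I ℚ) (G₂ : Matrix I I' ℚ) : Matrix I I ℂ →ₗ[ℂ] ((Fin 2 → I') → ℂ) where
  toFun Z := fun p => (G₁.map (algebraMap ℚ ℂ) * Z * G₂.map (algebraMap ℚ ℂ)) (p 0) (p 1)
  map_add' Z Z' := by
    funext p
    rw [Matrix.mul_add, Matrix.add_mul]
    rfl
  map_smul' a Z := by
    funext p
    rw [Matrix.mul_smul, Matrix.smul_mul]
    rfl

/-- an endomorphism as a tensor -/
noncomputable def uQ (G₁ : Matrix I' I ℚ) (G₂ : Matrix I I' ℚ) : Matrix I I ℚ →ₗ[ℚ] ((Fin 2 → I') → ℚ) where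
  toFun Z := fun p => (G₁ * Z * G₂) (p 0) (p 1)
  map_add' Z Z' := by
    funext p
    rw [Matrix.mul_add, Matrix.add_mul]
    rfl
  map_smul' a Z := by
    funext p
    rw [Matrix.mul_smul, Matrix.smul_mul]
    rfl

omit [DecidableEq I] [Fintype I'] [DecidableEq I'] in
lemma qc_uQ (G₁ : Matrix I' I ℚ) (G₂ : Matrix I I' ℚ) (Y : Matrix I I ℚ) : qc (uQ G₁ G₂ Y) = uC G₁ G₂ (Y.map (algebraMap ℚ ℂ)) := by
  funext p
  show algebraMap ℚ ℂ ((G₁ * Y * G₂) (p 0) (p 1)) =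
    (G₁.map (algebraMap ℚ ℂ) * Y.map (algebraMap ℚ ℂ) * G₂.map (algebraMap ℚ ℂ)) (p 0) (p 1)
  rw [← Matrix.map_mul, ← Matrix.map_mul]
  rfl

omit [Fintype I'] [DecidableEq I'] [DecidableEq I] in
lemma uC_ext {G₁ : Matrix I' I ℚ} {G₂ : Matrix I I' ℚ} {Z Z' : Matrix I I ℂ}
    (h : G₁.map (algebraMap ℚ ℂ) * Z * G₂.map (algebraMap ℚ ℂ) = G₁.map (algebraMap ℚ ℂ) * Z' * G₂.map (algebraMap ℚ ℂ)) :
    uC G₁ G₂ Z = uC G₁ G₂ Z' := by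
  funext p
  exact congrFun (congrFun h (p 0)) (p 1)

omit [DecidableEq I'] in
lemma uC_inj {G₁ : Matrix I' I ℚ} {G₂ : Matrix I I' ℚ} {R₁ : Matrix I I' ℚ} {R₂ : Matrix I' I ℚ} (h₁ : R₁ * G₁ = 1)
    (h₂ : G₂ * R₂ = 1) : Function.Injective (uC G₁ G₂) := by
  intro Z Z' h
  have h3 : G₁.map (algebraMap ℚ ℂ) * Z * G₂.map (algebraMap ℚ ℂ) = G₁.map (algebraMap ℚ ℂ) * Z' * G₂.map (algebraMap ℚ ℂ) := by
    ext a b
    exact congrFun h ![a, b]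
  have h₁' : R₁.map (algebraMap ℚ ℂ) * G₁.map (algebraMap ℚ ℂ) = 1 := by
    rw [← Matrix.map_mul, h₁]
    exact Matrix.map_one _ (map_zero _) (map_one _)
  have h₂' : G₂.map (algebraMap ℚ ℂ) * R₂.map (algebraMap ℚ ℂ) = 1 := by
    rw [← Matrix.map_mul, h₂]
    exact Matrix.map_one _ (map_zero _) (map_one _)
  have h4 := congrArg (fun X => R₁.map (algebraMap ℚ ℂ) * X * R₂.map (algebraMap ℚ ℂ)) h3
  have h5 : ∀ Z : Matrix I I ℂ, R₁.map (algebraMap ℚ ℂ) * (G₁.map (algebraMap ℚ ℂ) * Z * G₂.map (algebraMap ℚ ℂ)) *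
      R₂.map (algebraMap ℚ ℂ) = Z := by
    intro Z
    calc R₁.map (algebraMap ℚ ℂ) * (G₁.map (algebraMap ℚ ℂ) * Z * G₂.map (algebraMap ℚ ℂ)) * R₂.map (algebraMap ℚ ℂ) =
        (R₁.map (algebraMap ℚ ℂ) * G₁.map (algebraMap ℚ ℂ)) * Z * (G₂.map (algebraMap ℚ ℂ) * R₂.map (algebraMap ℚ ℂ)) := by
          simp only [Matrix.mul_assoc]
      _ = Z := by rw [h₁', h₂', Matrix.one_mul, Matrix.mul_one]
  simp only [h5] at h4
  exact h4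

/-- **stability of a Lie algebra of endomorphisms** -/
theorem adj {H : ℤ → Submodule ℂ (I' → ℂ)} (hH : DirectSum.IsInternal H)
    (hHc : ∀ p, ∀ v ∈ H p, (fun a => (starRingEnd ℂ) (v a)) ∈ H (-p)) {Φ' : Matrix I' I' ℂ}
    (hΦ' : ∀ p, ∀ v ∈ H p, v ᵥ* Φ' = (p : ℂ) • v) {G₁ : Matrix I' I ℚ} {G₂ : Matrix I I' ℚ} {R₁ : Matrix I I' ℚ}
    {R₂ : Matrix I' I ℚ} (h₁ : R₁ * G₁ = 1) (h₂ : G₂ * R₂ = 1) {𝔪 : Submodule ℚ (Matrix I I ℚ)}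
    (h𝔪 : ∀ X ∈ 𝔪, ∀ Y ∈ 𝔪, X * Y - Y * X ∈ 𝔪) {Φ : Matrix I I ℂ} (hΦ : Φ ∈ CS 𝔪)
    (e₁ : Φ'ᵀ * G₁.map (algebraMap ℚ ℂ) = -(G₁.map (algebraMap ℚ ℂ) * Φ))
    (e₂ : G₂.map (algebraMap ℚ ℂ) * Φ' = Φ * G₂.map (algebraMap ℚ ℂ)) {N : Matrix I' I' ℂ} {R : Matrix I I ℂ}
    (n₁ : N * G₁.map (algebraMap ℚ ℂ) = -(G₁.map (algebraMap ℚ ℂ) * R))
    (n₂ : G₂.map (algebraMap ℚ ℂ) * Nᵀ = R * G₂.map (algebraMap ℚ ℂ))
    (hN : ∀ (q : ℕ) (u : (Fin q → I') → ℚ), lieA Φ'ᵀ (qc u) = 0 → lieA N (qc u) = 0) {Z : Matrix I I ℂ} (hZ : Z ∈ CS 𝔪) :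
    Z * R - R * Z ∈ CS 𝔪 := by
  classical
  have hlie : ∀ (A : Matrix I' I' ℂ) (B : Matrix I I ℂ), A * G₁.map (algebraMap ℚ ℂ) = -(G₁.map (algebraMap ℚ ℂ) * B) →
      G₂.map (algebraMap ℚ ℂ) * Aᵀ = B * G₂.map (algebraMap ℚ ℂ) → ∀ Z, lieA A (uC G₁ G₂ Z) = uC G₁ G₂ (Z * B - B * Z) := by
    intro A B hA hB Z
    funext p
    have h3 := lieA_two A (G₁.map (algebraMap ℚ ℂ) * Z * G₂.map (algebraMap ℚ ℂ)) p
    refine h3.trans ?_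
    show _ = (G₁.map (algebraMap ℚ ℂ) * (Z * B - B * Z) * G₂.map (algebraMap ℚ ℂ)) (p 0) (p 1)
    refine congrFun (congrFun ?_ (p 0)) (p 1)
    calc A * (G₁.map (algebraMap ℚ ℂ) * Z * G₂.map (algebraMap ℚ ℂ)) + G₁.map (algebraMap ℚ ℂ) * Z * G₂.map (algebraMap ℚ ℂ) * Aᵀ =
        (A * G₁.map (algebraMap ℚ ℂ)) * Z * G₂.map (algebraMap ℚ ℂ) + G₁.map (algebraMap ℚ ℂ) * Z * (G₂.map (algebraMap ℚ ℂ) * Aᵀ) := by
          simp only [Matrix.mul_assoc]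
      _ = G₁.map (algebraMap ℚ ℂ) * (Z * B - B * Z) * G₂.map (algebraMap ℚ ℂ) := by
          rw [hA, hB]
          simp only [Matrix.mul_sub, Matrix.sub_mul, Matrix.neg_mul, Matrix.mul_assoc]
          abel
  set U : Submodule ℚ ((Fin 2 → I') → ℚ) := 𝔪.map (uQ G₁ G₂) with hU
  have hto : ∀ Z ∈ CS 𝔪, uC G₁ G₂ Z ∈ cs U := by
    intro Z hZ
    unfold CS at hZ
    induction hZ using Submodule.span_induction with
    | mem Z hZ =>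
      obtain ⟨X, hX, rfl⟩ := hZ
      exact Submodule.subset_span ⟨uQ G₁ G₂ X, ⟨X, hX, rfl⟩, (qc_uQ G₁ G₂ X).symm⟩
    | zero =>
      rw [map_zero]
      exact Submodule.zero_mem _
    | add Z Z' _ _ h1 h2 =>
      rw [map_add]
      exact Submodule.add_mem _ h1 h2
    | smul a Z _ h1 =>
      rw [map_smul]
      exact Submodule.smul_mem _ _ h1
  have hfrom : ∀ x ∈ cs U, ∃ Z ∈ CS 𝔪, uC G₁ G₂ Z = x := by
    intro x hx
    unfold cs at hx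
    induction hx using Submodule.span_induction with
    | mem x hx =>
      obtain ⟨_, ⟨X, hX, rfl⟩, rfl⟩ := hx
      exact ⟨_, Submodule.subset_span ⟨X, hX, rfl⟩, (qc_uQ G₁ G₂ X).symm⟩
    | zero => exact ⟨0, Submodule.zero_mem _, map_zero _⟩
    | add x x' _ _ h1 h2 =>
      obtain ⟨Z, hZ, rfl⟩ := h1
      obtain ⟨Z', hZ', rfl⟩ := h2
      exact ⟨Z + Z', Submodule.add_mem _ hZ hZ', map_add _ _ _⟩
    | smul a x _ h1 =>
      obtain ⟨Z, hZ, rfl⟩ := h1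
      exact ⟨a • Z, Submodule.smul_mem _ _ hZ, map_smul _ _ _⟩
  have hSb : Sb Φ' U := by
    rintro _ ⟨Y, hY, rfl⟩
    rw [qc_uQ, hlie Φ'ᵀ Φ e₁ (by rw [Matrix.transpose_transpose]; exact e₂)]
    exact hto _ (CS_br h𝔪 hY hΦ)
  have hSbN := sub_stabC hH hHc hΦ' hN hSb
  -- on rational elements
  have hrat : ∀ Y ∈ 𝔪, Y.map (algebraMap ℚ ℂ) * R - R * Y.map (algebraMap ℚ ℂ) ∈ CS 𝔪 := by
    intro Y hY
    have h3 := hSbN (uQ G₁ G₂ Y) ⟨Y, hY, rfl⟩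
    rw [Matrix.transpose_transpose, qc_uQ, hlie N R n₁ n₂] at h3
    obtain ⟨Z, hZ, h4⟩ := hfrom _ h3
    rw [← uC_inj h₁ h₂ h4]
    exact hZ
  unfold CS at hZ
  induction hZ using Submodule.span_induction with
  | mem Z hZ =>
    obtain ⟨X, hX, rfl⟩ := hZ
    exact hrat X hX
  | zero =>
    rw [Matrix.mul_zero, Matrix.zero_mul, sub_zero]
    exact Submodule.zero_mem _
  | add Z Z' _ _ h1 h2 =>
    have h3 : (Z + Z') * R - R * (Z + Z') = (Z * R - R * Z) + (Z' * R - R * Z') := by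
      rw [Matrix.mul_add, Matrix.add_mul]
      abel
    rw [h3]
    exact Submodule.add_mem _ h1 h2
  | smul a Z _ h1 =>
    rw [Matrix.mul_smul, Matrix.smul_mul, ← smul_sub]
    exact Submodule.smul_mem _ _ h1

end adj

end Q207.HN
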