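import Pool.Agent.Q207.HN.Mb

/-!
# Mumford-Tate Lie algebras over number fields: the ideal
-/

set_option autoImplicit false

open Matrix Finset

namespace Q207.HN

open Q207.HT (lieA lieA_apply qc)
open Q207.GH (ic ir Cl Pol Hs pcl pcl_apply tvC sp_span ic_T ic_det form_oper ir_inv fl_hodge mem_hB_of)

variable {k : ℕ} {n : Fin k → ℕ} {w : ℕ}

/-- the embedding of the tuples -/
noncomputable def Eb (w : ℕ) (n : Fin k → ℕ) : (∀ i, Matrix (Fin (n i)) (Fin (n i)) ℂ) →ₗ[ℂ]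
    Matrix ((Σ i, Fin (n i)) ⊕ Fin w) ((Σ i, Fin (n i)) ⊕ Fin w) ℂ where
  toFun X := (fromBlocks (blockDiagonal' X) 0 0 0)ᵀ
  map_add' X Y := by
    rw [blockDiagonal'_add, ← Matrix.transpose_add, fromBlocks_add]
    simp
  map_smul' a X := by
    rw [blockDiagonal'_smul, RingHom.id_apply, ← Matrix.transpose_smul, fromBlocks_smul]
    simp

lemma Eb_mul (X Y : ∀ i, Matrix (Fin (n i)) (Fin (n i)) ℂ) : Eb w n Y * Eb w n X = Eb w n fun i => X i * Y i := by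
  show (fromBlocks _ _ _ _)ᵀ * (fromBlocks _ _ _ _)ᵀ = (fromBlocks _ _ _ _)ᵀ
  rw [← Matrix.transpose_mul, fromBlocks_multiply, blockDiagonal'_mul]
  simp

lemma Eb_mid (X Y φ : ∀ i, Matrix (Fin (n i)) (Fin (n i)) ℂ) (ΦW : Matrix (Fin w) (Fin w) ℂ) :
    Eb w n Y * fromBlocks (blockDiagonal' φ) 0 0 ΦW * Eb w n X = Eb w n fun i => X i * (φ i)ᵀ * Y i := by
  show (fromBlocks _ _ _ _)ᵀ * _ * (fromBlocks _ _ _ _)ᵀ = (fromBlocks _ _ _ _)ᵀ
  simp only [fromBlocks_transpose, fromBlocks_multiply, Matrix.transpose_zero, Matrix.mul_zero, Matrix.zero_mul, add_zero,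
    blockDiagonal'_transpose, ← blockDiagonal'_mul]
  congr 1
  refine congrArg blockDiagonal' (funext fun i => ?_)
  rw [Matrix.transpose_mul, Matrix.transpose_mul, Matrix.transpose_transpose, Matrix.mul_assoc]

lemma quad_poly {a₀ a₁ a₂ b₀ b₁ b₂ : ℂ} (h : ∀ t : ℂ, (a₀ + a₁ * t + a₂ * t ^ 2) * (b₀ + b₁ * t + b₂ * t ^ 2) = 0) (hb : b₀ ≠ 0) :
    a₂ = 0 := by
  open Polynomial in
  set p : Polynomial ℂ := Polynomial.C a₀ + Polynomial.C a₁ * Polynomial.X + Polynomial.C a₂ * Polynomial.X ^ 2 with hp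
  set q : Polynomial ℂ := Polynomial.C b₀ + Polynomial.C b₁ * Polynomial.X + Polynomial.C b₂ * Polynomial.X ^ 2 with hq
  have h1 : p * q = 0 := by
    refine Polynomial.funext fun t => ?_
    rw [hp, hq]
    simp only [Polynomial.eval_mul, Polynomial.eval_add, Polynomial.eval_C, Polynomial.eval_X, Polynomial.eval_pow,
      Polynomial.eval_zero]
    exact h t
  rcases mul_eq_zero.1 h1 with h2 | h2
  · have h3 : p.coeff 2 = a₂ := by
      rw [hp]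
      simp
    rw [← h3, h2, Polynomial.coeff_zero]
  · exfalso
    apply hb
    have h3 : q.eval 0 = b₀ := by
      rw [hq]
      simp
    rw [← h3, h2, Polynomial.eval_zero]

lemma tv_sq {m : ℕ} {Q : Matrix (Fin m) (Fin m) ℂ} (hQ : Qᵀ = -Q) (v : Fin m → ℂ) : tvC Q v * tvC Q v = 0 := by
  unfold tvC
  rw [Matrix.vecMulVec_mul_vecMulVec]
  have h1 : (v ᵥ* Q) ⬝ᵥ v = 0 := by
    have h2 : (v ᵥ* Q) ⬝ᵥ v = -((v ᵥ* Q) ⬝ᵥ v) := by
      conv_lhs => rw [dotProduct_comm, ← Matrix.mulVec_transpose, hQ, Matrix.neg_mulVec, dotProduct_neg,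
        Matrix.dotProduct_mulVec]
    have h3 : (2 : ℂ) * ((v ᵥ* Q) ⬝ᵥ v) = 0 := by
      rw [two_mul]
      nth_rewrite 1 [h2]
      exact neg_add_cancel _
    exact (mul_eq_zero.1 h3).resolve_left two_ne_zero
  rw [h1]
  simp

lemma tv_mid {m : ℕ} (Q A : Matrix (Fin m) (Fin m) ℂ) (v : Fin m → ℂ) :
    tvC Q v * A * tvC Q v = ((v ᵥ* Q) ⬝ᵥ (A *ᵥ v)) • tvC Q v := by
  unfold tvC
  rw [Matrix.mul_assoc, Matrix.mul_vecMulVec, Matrix.vecMulVec_mul_vecMulVec]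
  ext a b
  simp only [Matrix.vecMulVec_apply, Matrix.smul_apply, Pi.smul_apply, smul_eq_mul]
  ring

/-- the quadratic form of a nonzero element is not zero -/
lemma form_ne {m : ℕ} {Q φ : Matrix (Fin m) (Fin m) ℂ} (hQ : Qᵀ = -Q) (hd : IsUnit Q.det) (hφ : φ * Q + Q * φᵀ = 0)
    (h0 : φ ≠ 0) : ∃ v : Fin m → ℂ, (v ᵥ* Q) ⬝ᵥ (φᵀ *ᵥ v) ≠ 0 := by
  classical
  by_contra hcon
  push Not at hcon
  apply h0
  set M := Q * φᵀ with hM
  have hMs : Mᵀ = M := by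
    rw [hM, Matrix.transpose_mul, Matrix.transpose_transpose, hQ, Matrix.mul_neg]
    exact (eq_neg_of_add_eq_zero_right hφ).symm
  have h1 : ∀ v : Fin m → ℂ, v ⬝ᵥ (M *ᵥ v) = 0 := by
    intro v
    rw [hM, ← Matrix.mulVec_mulVec, Matrix.dotProduct_mulVec]
    exact hcon v
  have h2 : ∀ a b, M a b = 0 := by
    intro a b
    have e1 := h1 (Pi.single a 1 + Pi.single b 1)
    have e2 := h1 (Pi.single a 1)
    have e3 := h1 (Pi.single b 1)
    simp only [Matrix.mulVec_add, dotProduct_add, add_dotProduct, Matrix.mulVec_single_one, single_one_dotProduct,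
      Matrix.col_apply] at e1 e2 e3
    have e4 : M b a = M a b := congrFun (congrFun hMs a) b
    rw [e2, e3, e4] at e1
    have e5 : (2 : ℂ) * M a b = 0 := by
      rw [two_mul, ← e1]
      ring
    exact (mul_eq_zero.1 e5).resolve_left two_ne_zero
  have h3 : Q * φᵀ = 0 := by
    ext a b
    exact h2 a b
  have h4 : φᵀ = 0 := by
    have h5 := congrArg (fun X => Q⁻¹ * X) h3
    simpa only [Matrix.nonsing_inv_mul_cancel_left _ _ hd, Matrix.mul_zero] using h5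
  rw [← Matrix.transpose_transpose φ, h4, Matrix.transpose_zero]

/-- **a subspace which contains the operator and is stable contains everything** -/
theorem full {Q φ : ∀ i, Matrix (Fin (n i)) (Fin (n i)) ℂ} (hQ : ∀ i, (Q i)ᵀ = -Q i) (hd : ∀ i, IsUnit (Q i).det)
    (hφ : ∀ i, φ i * Q i + Q i * (φ i)ᵀ = 0) (h0 : ∀ i, φ i ≠ 0) {ΦW : Matrix (Fin w) (Fin w) ℂ}
    {M : Submodule ℂ (Matrix ((Σ i, Fin (n i)) ⊕ Fin w) ((Σ i, Fin (n i)) ⊕ Fin w) ℂ)}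
    (hΦ : fromBlocks (blockDiagonal' φ) 0 0 ΦW ∈ M)
    (hst : ∀ X : ∀ i, Matrix (Fin (n i)) (Fin (n i)) ℂ, (∀ i, (X i)ᵀ * Q i + Q i * X i = 0) → ∀ Z ∈ M,
      Z * Eb w n X - Eb w n X * Z ∈ M) {X : ∀ i, Matrix (Fin (n i)) (Fin (n i)) ℂ}
    (hX : ∀ i, (X i)ᵀ * Q i + Q i * X i = 0) : Eb w n X ∈ M := by
  classical
  set Φ := fromBlocks (blockDiagonal' φ) 0 0 ΦW with hΦd
  -- rank one elements
  have htv : ∀ (i : Fin k) (v : Fin (n i) → ℂ), ∀ j, (Pi.single (M := fun i => Matrix (Fin (n i)) (Fin (n i)) ℂ) i (tvC (Q i) v) j)ᵀ * Q j +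
      Q j * Pi.single (M := fun i => Matrix (Fin (n i)) (Fin (n i)) ℂ) i (tvC (Q i) v) j = 0 := by
    intro i v j
    by_cases h : j = i
    · subst h
      rw [Pi.single_eq_same]
      unfold tvC
      have h1 : Q j *ᵥ v = -(v ᵥ* Q j) := by
        rw [← Matrix.vecMul_transpose, hQ, Matrix.vecMul_neg]
      rw [Matrix.transpose_vecMulVec, Matrix.vecMulVec_mul, Matrix.mul_vecMulVec, h1, Matrix.neg_vecMulVec, add_neg_cancel]
    · rw [Pi.single_eq_of_ne h, Matrix.transpose_zero, Matrix.zero_mul, Matrix.mul_zero, add_zero]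
  have hk : ∀ (i : Fin k) (v : Fin (n i) → ℂ), ((v ᵥ* Q i) ⬝ᵥ ((φ i)ᵀ *ᵥ v)) •
      Eb w n (Pi.single (M := fun i => Matrix (Fin (n i)) (Fin (n i)) ℂ) i (tvC (Q i) v)) ∈ M := by
    intro i v
    set T : ∀ i, Matrix (Fin (n i)) (Fin (n i)) ℂ := Pi.single (M := fun i => Matrix (Fin (n i)) (Fin (n i)) ℂ) i (tvC (Q i) v) with hT
    have h1 := hst T (htv i v) _ (hst T (htv i v) Φ hΦ)
    have h2 : Eb w n T * Eb w n T = 0 := by
      rw [Eb_mul]
      have h3 : (fun j => T j * T j) = 0 := by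
        funext j
        rw [hT]
        by_cases h : j = i
        · subst h
          rw [Pi.single_eq_same, tv_sq (hQ j)]
          rfl
        · rw [Pi.single_eq_of_ne h, Matrix.zero_mul]
          rfl
      rw [h3, map_zero]
    have h3 : Eb w n T * Φ * Eb w n T = ((v ᵥ* Q i) ⬝ᵥ ((φ i)ᵀ *ᵥ v)) • Eb w n T := by
      rw [hΦd, Eb_mid, ← map_smul]
      congr 1
      funext j
      rw [Pi.smul_apply, hT]
      by_cases h : j = i
      · subst h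
        rw [Pi.single_eq_same, tv_mid]
      · rw [Pi.single_eq_of_ne h, Matrix.zero_mul, Matrix.zero_mul, smul_zero]
    have h4 : (Φ * Eb w n T - Eb w n T * Φ) * Eb w n T - Eb w n T * (Φ * Eb w n T - Eb w n T * Φ) =
        (-2 : ℂ) • (Eb w n T * Φ * Eb w n T) := by
      calc (Φ * Eb w n T - Eb w n T * Φ) * Eb w n T - Eb w n T * (Φ * Eb w n T - Eb w n T * Φ) =
          Φ * (Eb w n T * Eb w n T) + (Eb w n T * Eb w n T) * Φ - (Eb w n T * Φ * Eb w n T + Eb w n T * Φ * Eb w n T) := by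
            simp only [Matrix.sub_mul, Matrix.mul_sub, Matrix.mul_assoc]
            abel
        _ = _ := by
            rw [h2, Matrix.mul_zero, Matrix.zero_mul, add_zero, zero_sub, neg_smul, two_smul]
    rw [h4, h3] at h1
    have h5 := Submodule.smul_mem M ((-2 : ℂ)⁻¹) h1
    rwa [smul_smul, inv_mul_cancel₀ (by norm_num), one_smul] at h5
  have hall : ∀ (i : Fin k) (v : Fin (n i) → ℂ),
      Eb w n (Pi.single (M := fun i => Matrix (Fin (n i)) (Fin (n i)) ℂ) i (tvC (Q i) v)) ∈ M := by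
    intro i v
    obtain ⟨v₀, hv₀⟩ := form_ne (hQ i) (hd i) (hφ i) (h0 i)
    by_contra hn
    obtain ⟨f, hf1, hf2⟩ := Submodule.exists_le_ker_of_notMem hn
    set L : Matrix (Fin (n i)) (Fin (n i)) ℂ →ₗ[ℂ] ℂ := f.comp ((Eb w n).comp
      (LinearMap.single ℂ (fun i => Matrix (Fin (n i)) (Fin (n i)) ℂ) i)) with hL
    have hLv : ∀ A, L A = f (Eb w n (Pi.single (M := fun i => Matrix (Fin (n i)) (Fin (n i)) ℂ) i A)) := fun A => rfl
    have hker : ∀ v : Fin (n i) → ℂ, L (tvC (Q i) v) * ((v ᵥ* Q i) ⬝ᵥ ((φ i)ᵀ *ᵥ v)) = 0 := by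
      intro v
      have h1 : f _ = 0 := hf2 (hk i v)
      rw [map_smul, smul_eq_mul, mul_comm] at h1
      exact h1
    apply hf1
    rw [← hLv]
    refine quad_poly (a₀ := L (tvC (Q i) v₀)) (a₁ := L (vecMulVec v₀ (v ᵥ* Q i) + vecMulVec v (v₀ ᵥ* Q i)))
      (b₀ := (v₀ ᵥ* Q i) ⬝ᵥ ((φ i)ᵀ *ᵥ v₀)) (b₁ := (v₀ ᵥ* Q i) ⬝ᵥ ((φ i)ᵀ *ᵥ v) + (v ᵥ* Q i) ⬝ᵥ ((φ i)ᵀ *ᵥ v₀))
      (b₂ := (v ᵥ* Q i) ⬝ᵥ ((φ i)ᵀ *ᵥ v)) (fun t => ?_) hv₀
    have h1 := hker (v₀ + t • v)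
    have h2 : tvC (Q i) (v₀ + t • v) = tvC (Q i) v₀ + t • (vecMulVec v₀ (v ᵥ* Q i) + vecMulVec v (v₀ ᵥ* Q i)) +
        t ^ 2 • tvC (Q i) v := by
      unfold tvC
      rw [Matrix.add_vecMul, Matrix.smul_vecMul]
      ext a b
      simp only [Matrix.vecMulVec_apply, Matrix.add_apply, Matrix.smul_apply, Pi.add_apply, Pi.smul_apply, smul_eq_mul]
      ring
    have h3 : ((v₀ + t • v) ᵥ* Q i) ⬝ᵥ ((φ i)ᵀ *ᵥ (v₀ + t • v)) = (v₀ ᵥ* Q i) ⬝ᵥ ((φ i)ᵀ *ᵥ v₀) +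
        ((v₀ ᵥ* Q i) ⬝ᵥ ((φ i)ᵀ *ᵥ v) + (v ᵥ* Q i) ⬝ᵥ ((φ i)ᵀ *ᵥ v₀)) * t + ((v ᵥ* Q i) ⬝ᵥ ((φ i)ᵀ *ᵥ v)) * t ^ 2 := by
      rw [Matrix.add_vecMul, Matrix.smul_vecMul, Matrix.mulVec_add, Matrix.mulVec_smul]
      simp only [add_dotProduct, dotProduct_add, smul_dotProduct, dotProduct_smul, smul_eq_mul]
      ring
    rw [h2, h3, map_add, map_add, map_smul, map_smul, smul_eq_mul, smul_eq_mul] at h1
    rw [← h1]
    ring
  have hcom : ∀ i, X i ∈ (M.comap (Eb w n)).comap (LinearMap.single ℂ (fun i => Matrix (Fin (n i)) (Fin (n i)) ℂ) i) := by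
    intro i
    rw [sp_span (hQ i) (hd i) (hX i)]
    refine Submodule.sum_mem _ fun a _ => Submodule.sum_mem _ fun b _ => Submodule.smul_mem _ _ ?_
    exact Submodule.sub_mem _ (Submodule.sub_mem _ (hall i _) (hall i _)) (hall i _)
  have hsum : X ∈ M.comap (Eb w n) := by
    rw [← Finset.univ_sum_single X]
    exact Submodule.sum_mem _ fun i _ => hcom i
  exact hsum

end Q207.HN
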