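import Pool.Agent.Q207.HN.Mc

/-!
# Mumford-Tate Lie algebras over number fields: one point
-/

set_option autoImplicit false

open Matrix Finset

namespace Q207.HN

open Q207.HT (lieA lieA_apply qc)
open Q207.HG (cmx)
open Q207.GH
open Q207.AH (GdA InA moveA isP_fl IsP)

variable {k : ℕ} {n : Fin k → ℕ} {w : ℕ}

/-- the operator is block diagonal -/
theorem blocks {Q : ∀ i, Matrix (Fin (n i)) (Fin (n i)) ℤ} (hQ : ∀ i, Cl (Q i)) {c : Fin k → ℂ} (hc : ∀ i, c i ≠ 0)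
    {H : ℤ → Submodule ℂ ((Σ i, Fin (n i)) → ℂ)} (hH : DirectSum.IsInternal H)
    (hHc : ∀ p, ∀ v ∈ H p, (fun a => (starRingEnd ℂ) (v a)) ∈ H (-p)) {lev : (Σ i, Fin (n i)) → ℤ}
    {Z : Matrix (Σ i, Fin (n i)) (Σ i, Fin (n i)) ℂ} (hZ : IsUnit Z.det) (hZb : ∀ x y, x.1 ≠ y.1 → Z x y = 0)
    (hfil : ∀ p, (⨆ q : {q : ℤ // p ≤ q}, H q) = Submodule.span ℂ {v | ∃ a, p ≤ lev a ∧ v = Z a})
    {Φ : Matrix (Σ i, Fin (n i)) (Σ i, Fin (n i)) ℂ} (hΦ : ∀ p, ∀ v ∈ H p, v ᵥ* Φ = (p : ℂ) • v)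
    (hS : Pol H (blockDiagonal' fun i => c i • ic (Q i))) :
    ∃ φ : ∀ i, Matrix (Fin (n i)) (Fin (n i)) ℂ, Φ = blockDiagonal' φ ∧ (∀ i, φ i * ic (Q i) + ic (Q i) * (φ i)ᵀ = 0) ∧
      ((∀ i, (Q i)ᵀ = -Q i) → ∀ i, φ i ≠ 0) := by
  classical
  have h1 : ∀ j, Φᵀ * pcl (fun i => (ic (Q i))⁻¹) j + pcl (fun i => (ic (Q i))⁻¹) j * Φ = 0 := by
    intro j
    set v : (Fin 2 → Σ i, Fin (n i)) → ℚ := fun p => pcl (fun i => (ir (Q i))⁻¹) j (p 0) (p 1) with hv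
    have h2 : IsP Q v := ⟨j, rfl, fun p => rfl⟩
    have h3 := fl_hodge hQ hc hH hHc hZ hZb hfil hΦ hS v (isP_fl hQ h2)
    have h4 : qc v = fun p : Fin 2 → Σ i, Fin (n i) => pcl (fun i => (ic (Q i))⁻¹) j (p 0) (p 1) := by
      funext p
      show ((pcl (fun i => (ir (Q i))⁻¹) j (p 0) (p 1) : ℚ) : ℂ) = _
      exact pcQ_cast (fun i => (hQ i).2.1) j (p 0) (p 1)
    rw [h4] at h3
    ext x y
    have h5 := congrFun h3 ![x, y]
    rw [lieA_two, Matrix.transpose_transpose] at h5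
    exact h5
  have hone : (blockDiagonal' fun i => (1 : Matrix (Fin (n i)) (Fin (n i)) ℂ)) = 1 := blockDiagonal'_one
  have hoff : ∀ x y : (Σ i, Fin (n i)), x.1 ≠ y.1 → Φ x y = 0 := by
    intro y x hyx
    have h2 : ∀ z, (Φᵀ * pcl (fun i => (ic (Q i))⁻¹) y.1) x z = 0 := by
      intro z
      have h3 := congrFun (congrFun (h1 y.1) x) z
      rw [Matrix.add_apply] at h3
      have h4 : (pcl (fun i => (ic (Q i))⁻¹) y.1 * Φ) x z = 0 := by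
        rw [Matrix.mul_apply]
        refine sum_eq_zero fun z' _ => ?_
        rw [pcl_apply, if_neg fun h => hyx h.symm, zero_mul]
      rw [h4, add_zero] at h3
      exact h3
    have h3 : (Φᵀ * pcl (fun i => (ic (Q i))⁻¹) y.1 * blockDiagonal' fun i => ic (Q i)) x y = 0 := by
      rw [Matrix.mul_apply]
      exact sum_eq_zero fun z _ => by rw [h2, zero_mul]
    have h4 : pcl (fun i => (ic (Q i))⁻¹) y.1 * (blockDiagonal' fun i => ic (Q i)) =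
        pcl (fun i => (1 : Matrix (Fin (n i)) (Fin (n i)) ℂ)) y.1 := by
      unfold pcl
      rw [← blockDiagonal'_mul]
      refine congrArg blockDiagonal' (funext fun i => ?_)
      by_cases h : i = y.1
      · rw [if_pos h, if_pos h, Matrix.nonsing_inv_mul _ (ic_det (hQ i).2.1)]
      · rw [if_neg h, if_neg h, Matrix.zero_mul]
    rw [Matrix.mul_assoc, h4, Matrix.mul_apply, Finset.sum_eq_single y] at h3
    · rw [pcl_apply, if_pos rfl, hone, Matrix.one_apply_eq, mul_one, Matrix.transpose_apply] at h3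
      exact h3
    · intro z _ hz
      rw [pcl_apply, hone, Matrix.one_apply_ne hz]
      split_ifs
      · exact mul_zero _
      · exact mul_zero _
    · intro h
      exact absurd (mem_univ _) h
  set φ : ∀ i, Matrix (Fin (n i)) (Fin (n i)) ℂ := fun i => Matrix.of fun a b => Φ ⟨i, a⟩ ⟨i, b⟩ with hφ
  have hΦφ : Φ = blockDiagonal' φ := by
    ext ⟨i, a⟩ ⟨j, b⟩
    by_cases h : i = j
    · subst h
      rw [blockDiagonal'_apply_eq]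
      rfl
    · rw [blockDiagonal'_apply_ne _ _ _ h]
      exact hoff _ _ h
  refine ⟨φ, hΦφ, fun i => ?_, fun hsk i h0 => ?_⟩
  · have h2 := form_oper hH hHc hΦ hS
    rw [hΦφ, blockDiagonal'_transpose, ← blockDiagonal'_mul, ← blockDiagonal'_mul, ← blockDiagonal'_add] at h2
    have h3 := blockDiagonal'_injective (h2.trans blockDiagonal'_zero.symm)
    have h4 := congrFun h3 i
    simp only [Pi.add_apply, Pi.zero_apply, Matrix.mul_smul, Matrix.smul_mul, ← smul_add] at h4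
    exact (smul_eq_zero.1 h4).resolve_left (hc i)
  · set a₀ : Fin (n i) := ⟨0, (hQ i).1⟩
    set v : (Σ i, Fin (n i)) → ℂ := Pi.single ⟨i, a₀⟩ 1 with hv
    have h2 : v ᵥ* Φ = ((0 : ℤ) : ℂ) • v := by
      rw [hv, Matrix.single_one_vecMul, Int.cast_zero, zero_smul]
      funext ⟨j, b⟩
      show Φ ⟨i, a₀⟩ ⟨j, b⟩ = 0
      rw [hΦφ]
      by_cases h : i = j
      · subst h
        rw [blockDiagonal'_apply_eq, h0]
        rfl
      · rw [blockDiagonal'_apply_ne _ _ _ h]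
    have h3 : v ∈ H 0 := mem_of_eg hH hΦ h2
    have h4 : v ≠ 0 := by
      intro h
      have h5 := congrFun h ⟨i, a₀⟩
      rw [hv, Pi.single_eq_same] at h5
      exact one_ne_zero h5
    obtain ⟨x, hx, h5⟩ := hS.pos 0 v h3 h4
    have h6 : star v = v := by
      funext y
      rw [Pi.star_apply, hv]
      by_cases h : y = ⟨i, a₀⟩
      · subst h
        rw [Pi.single_eq_same, star_one]
      · rw [Pi.single_eq_of_ne h, star_zero]
    have h7 : v ⬝ᵥ ((blockDiagonal' fun i => c i • ic (Q i)) *ᵥ v) = 0 := by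
      rw [hv, Matrix.mulVec_single_one, single_one_dotProduct, Matrix.col_apply, blockDiagonal'_apply_eq, Matrix.smul_apply]
      have h8 := congrFun (congrFun (hsk i) a₀) a₀
      rw [Matrix.transpose_apply, Matrix.neg_apply] at h8
      have h9 : Q i a₀ a₀ = 0 := by omega
      show c i • ((Q i a₀ a₀ : ℤ) : ℂ) = 0
      rw [h9, Int.cast_zero, smul_zero]
    rw [h6, h7, mul_zero] at h5
    have h8 : x = 0 := by exact_mod_cast h5.symm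
    exact hx.ne' h8

lemma Eb_eq (X : ∀ i, Matrix (Fin (n i)) (Fin (n i)) ℂ) : Eb w n X = fromBlocks (blockDiagonal' X)ᵀ 0 0 0 := by
  show (fromBlocks (blockDiagonal' X) 0 0 0)ᵀ = _
  rw [fromBlocks_transpose, Matrix.transpose_zero, Matrix.transpose_zero, Matrix.transpose_zero]

/-- **one point** -/
theorem mt_point {Q : ∀ i, Matrix (Fin (n i)) (Fin (n i)) ℤ} (hQ : ∀ i, Cl (Q i)) (hsk : ∀ i, (Q i)ᵀ = -Q i) {c : Fin k → ℂ}
    (hc : ∀ i, c i ≠ 0) {A : ∀ i, Matrix (Fin (n i)) (Fin (n i)) ℂ} {𝒢 : ∀ i, Subgroup (Matrix (Fin (n i)) (Fin (n i)) ℂ)ˣ}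
    (h𝒢 : ∀ γ : ∀ i, Matrix (Fin (n i)) (Fin (n i)) ℚ, Iso1 Q γ → InA 𝒢 γ) {ΦW : Matrix (Fin w) (Fin w) ℂ}
    {Ψ D : Matrix (Fin (w + w)) (Fin (w + w)) ℂ} {levD : Fin (w + w) → ℤ} (hD : IsUnit D.det) (hDm : ∀ a, D a ∈ eg Ψ (levD a))
    (hΨr : Ψ.map (starRingEnd ℂ) = -Ψ) {ι₂ : Matrix (Fin w) (Fin (w + w)) ℚ} {ι₁ : Matrix (Fin (w + w)) (Fin w) ℚ}
    {ρ₂ : Matrix (Fin (w + w)) (Fin w) ℚ} {ρ₁ : Matrix (Fin w) (Fin (w + w)) ℚ} (hι₂ : ι₂ * ρ₂ = 1) (hι₁ : ρ₁ * ι₁ = 1)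
    (hΨ₂ : ι₂.map (algebraMap ℚ ℂ) * Ψ = ΦW * ι₂.map (algebraMap ℚ ℂ))
    (hΨ₁ : Ψᵀ * ι₁.map (algebraMap ℚ ℂ) = -(ι₁.map (algebraMap ℚ ℂ) * ΦW))
    (hG : GdA A 𝒢 (fromBlocks 1 0 0 D)) {lev : (Σ i, Fin (n i)) → ℤ} {H : ℤ → Submodule ℂ ((Σ i, Fin (n i)) → ℂ)}
    (hH : DirectSum.IsInternal H) (hHc : ∀ p, ∀ v ∈ H p, (fun a => (starRingEnd ℂ) (v a)) ∈ H (-p))
    (hfil : ∀ p, (⨆ q : {q : ℤ // p ≤ q}, H q) = Submodule.span ℂ {v | ∃ a, p ≤ lev a ∧ v = (blockDiagonal' A)ᵀ a})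
    {ΦH : Matrix (Σ i, Fin (n i)) (Σ i, Fin (n i)) ℂ} (hΦH : ∀ p, ∀ v ∈ H p, v ᵥ* ΦH = (p : ℂ) • v)
    (hS : Pol H (blockDiagonal' fun i => c i • ic (Q i)))
    {𝔪 : Submodule ℚ (Matrix ((Σ i, Fin (n i)) ⊕ Fin w) ((Σ i, Fin (n i)) ⊕ Fin w) ℚ)}
    (h𝔪 : ∀ X ∈ 𝔪, ∀ Y ∈ 𝔪, X * Y - Y * X ∈ 𝔪) (hΦ : fromBlocks ΦH 0 0 ΦW ∈ CS 𝔪) :
    ∀ X : ∀ i, Matrix (Fin (n i)) (Fin (n i)) ℂ, (∀ i, (X i)ᵀ * ic (Q i) + ic (Q i) * X i = 0) → Eb w n X ∈ CS 𝔪 := by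
  classical
  obtain ⟨φ, hφ1, hφ2, hφ3⟩ := blocks hQ hc hH hHc (det_of_fil hH hfil) (by
    rintro ⟨i, a⟩ ⟨j, b⟩ hij
    rw [Matrix.transpose_apply, blockDiagonal'_apply_ne _ _ _ (fun h6 => hij h6.symm)]) hfil hΦH hS
  have hint : DirectSum.IsInternal (eg Ψ) := eg_int hD hDm
  have hcon := eg_conj hΨr
  have hop : ∀ p, ∀ v ∈ eg Ψ p, v ᵥ* Ψ = (p : ℂ) • v := fun p v hv => hv
  have hΦ' := op_oper hΦH hop
  have hd : ∀ i, IsUnit (ic (Q i)).det := fun i => ic_det (hQ i).2.1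
  have hdr : ∀ i, IsUnit (ir (Q i)).det := fun i => ir_det (hQ i).2.1
  set G₁ : Matrix ((Σ i, Fin (n i)) ⊕ Fin (w + w)) ((Σ i, Fin (n i)) ⊕ Fin w) ℚ :=
    fromBlocks (blockDiagonal' fun i => (ir (Q i))⁻¹) 0 0 ι₁ with hG₁
  set G₂ : Matrix ((Σ i, Fin (n i)) ⊕ Fin w) ((Σ i, Fin (n i)) ⊕ Fin (w + w)) ℚ := fromBlocks 1 0 0 ι₂ with hG₂
  set R₁ : Matrix ((Σ i, Fin (n i)) ⊕ Fin w) ((Σ i, Fin (n i)) ⊕ Fin (w + w)) ℚ :=
    fromBlocks (blockDiagonal' fun i => ir (Q i)) 0 0 ρ₁ with hR₁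
  set R₂ : Matrix ((Σ i, Fin (n i)) ⊕ Fin (w + w)) ((Σ i, Fin (n i)) ⊕ Fin w) ℚ := fromBlocks 1 0 0 ρ₂ with hR₂
  have h₁ : R₁ * G₁ = 1 := by
    rw [hR₁, hG₁, fromBlocks_multiply]
    simp only [Matrix.mul_zero, Matrix.zero_mul, add_zero, zero_add, hι₁]
    rw [← blockDiagonal'_mul]
    have h2 : (fun i => ir (Q i) * (ir (Q i))⁻¹) = fun i => (1 : Matrix (Fin (n i)) (Fin (n i)) ℚ) := by
      funext i
      exact Matrix.mul_nonsing_inv _ (hdr i)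
    rw [h2]
    have h3 : (blockDiagonal' fun i => (1 : Matrix (Fin (n i)) (Fin (n i)) ℚ)) = 1 := blockDiagonal'_one
    rw [h3, fromBlocks_one]
  have h₂ : G₂ * R₂ = 1 := by
    rw [hR₂, hG₂, fromBlocks_multiply]
    simp only [Matrix.mul_zero, Matrix.zero_mul, add_zero, zero_add, hι₂, Matrix.mul_one, fromBlocks_one]
  have cG₁ : G₁.map (algebraMap ℚ ℂ) = fromBlocks (blockDiagonal' fun i => (ic (Q i))⁻¹) 0 0 (ι₁.map (algebraMap ℚ ℂ)) := by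
    rw [hG₁, fromBlocks_map, blockDiagonal'_map _ _ (map_zero _), Matrix.map_zero _ (map_zero _), Matrix.map_zero _ (map_zero _)]
    congr 1
    refine congrArg blockDiagonal' (funext fun i => ?_)
    exact ir_inv (hQ i).2.1
  have cG₂ : G₂.map (algebraMap ℚ ℂ) = fromBlocks 1 0 0 (ι₂.map (algebraMap ℚ ℂ)) := by
    rw [hG₂, fromBlocks_map, Matrix.map_zero _ (map_zero _), Matrix.map_zero _ (map_zero _),
      Matrix.map_one _ (map_zero _) (map_one _)]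
  have hinv : ∀ (X : ∀ i, Matrix (Fin (n i)) (Fin (n i)) ℂ), (∀ i, (X i)ᵀ * ic (Q i) + ic (Q i) * X i = 0) →
      blockDiagonal' X * (blockDiagonal' fun i => (ic (Q i))⁻¹) =
        -((blockDiagonal' fun i => (ic (Q i))⁻¹) * (blockDiagonal' X)ᵀ) := by
    intro X hX
    rw [blockDiagonal'_transpose, ← blockDiagonal'_mul, ← blockDiagonal'_mul, ← blockDiagonal'_neg]
    refine congrArg blockDiagonal' (funext fun i => ?_)
    have h3 := congrArg (fun M => (ic (Q i))⁻¹ * M * (ic (Q i))⁻¹) (hX i)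
    simp only [Matrix.mul_add, Matrix.add_mul, Matrix.mul_zero, Matrix.zero_mul] at h3
    have h5 : (ic (Q i))⁻¹ * ((X i)ᵀ * ic (Q i)) * (ic (Q i))⁻¹ = (ic (Q i))⁻¹ * (X i)ᵀ := by
      rw [Matrix.mul_assoc, Matrix.mul_assoc, Matrix.mul_nonsing_inv _ (hd i), Matrix.mul_one]
    have h6 : (ic (Q i))⁻¹ * (ic (Q i) * X i) * (ic (Q i))⁻¹ = X i * (ic (Q i))⁻¹ := by
      rw [← Matrix.mul_assoc, Matrix.nonsing_inv_mul _ (hd i), Matrix.one_mul]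
    rw [h5, h6] at h3
    exact eq_neg_of_add_eq_zero_right h3
  have e₁ : (fromBlocks ΦH 0 0 Ψ)ᵀ * G₁.map (algebraMap ℚ ℂ) = -(G₁.map (algebraMap ℚ ℂ) * fromBlocks ΦH 0 0 ΦW) := by
    rw [cG₁, fromBlocks_transpose, fromBlocks_multiply, fromBlocks_multiply]
    simp only [Matrix.mul_zero, Matrix.zero_mul, add_zero, zero_add, Matrix.transpose_zero, hΨ₁, fromBlocks_neg, neg_zero]
    have h3 := hinv (fun i => (φ i)ᵀ) fun i => by rw [Matrix.transpose_transpose]; exact hφ2 i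
    rw [← blockDiagonal'_transpose, ← hφ1, Matrix.transpose_transpose] at h3
    rw [h3]
  have e₂ : G₂.map (algebraMap ℚ ℂ) * fromBlocks ΦH 0 0 Ψ = fromBlocks ΦH 0 0 ΦW * G₂.map (algebraMap ℚ ℂ) := by
    rw [cG₂, fromBlocks_multiply, fromBlocks_multiply]
    simp only [Matrix.mul_zero, Matrix.zero_mul, add_zero, zero_add, Matrix.one_mul, Matrix.mul_one, hΨ₂]
  intro X hX
  rw [hφ1] at hΦ
  refine full (fun i => ic_T (hsk i)) hd hφ2 (hφ3 hsk) hΦ (fun X hX Z hZ => ?_) hX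
  refine adj (op_int hH hint) (op_conj hHc hcon) hΦ' h₁ h₂ h𝔪 (by rw [← hφ1] at hΦ; exact hΦ) e₁ e₂
    (N := fromBlocks (blockDiagonal' X) 0 0 (0 : Matrix (Fin (w + w)) (Fin (w + w)) ℂ)) ?_ ?_ ?_ hZ
  · rw [Eb_eq, cG₁, fromBlocks_multiply, fromBlocks_multiply]
    simp only [Matrix.mul_zero, Matrix.zero_mul, add_zero, fromBlocks_neg, neg_zero]
    rw [hinv X hX]
  · rw [Eb_eq, cG₂, fromBlocks_transpose, fromBlocks_multiply, fromBlocks_multiply]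
    simp only [Matrix.mul_zero, Matrix.zero_mul, add_zero, zero_add, Matrix.transpose_zero, Matrix.one_mul, Matrix.mul_one]
  · intro q u hu
    obtain ⟨K, hK⟩ := bounded (Q := Q) hint hH hS hΦ' (u := u) fun γ hγ =>
      moveA hint hcon hD hDm hop hG hH hHc hfil hΦ' hu (h𝒢 γ hγ)
    exact kill_cl hQ hK _ ⟨X, fun i => mem_hB_of (hd i) (hX i), rfl⟩

end Q207.HN
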