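import Pool.Agent.Q207.HN.Mb
import Pool.Agent.Q207.HN.Mc

/-!
# Mumford-Tate Lie algebras over number fields: rational subspaces
-/

set_option autoImplicit false

open Matrix Finset

namespace Q207.HN

open Q207.GH (ic ir Cl pcl tvC sp_span ic_T ic_det)

section gen
variable {I : Type} [Fintype I] [DecidableEq I]

/-- the complexification of a functional -/
lemma fun_ext (f : Matrix I I ℚ →ₗ[ℚ] ℚ) : ∃ F : Matrix I I ℂ →ₗ[ℂ] ℂ,
    (∀ Z : Matrix I I ℚ, F (Z.map (algebraMap ℚ ℂ)) = ((f Z : ℚ) : ℂ)) := by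
  have hf : ∀ Z : Matrix I I ℚ, f Z = ∑ a, ∑ b, Z a b * f (Matrix.single a b 1) := by
    intro Z
    conv_lhs => rw [Matrix.matrix_eq_sum_single Z]
    rw [map_sum]
    refine Finset.sum_congr rfl fun a _ => ?_
    rw [map_sum]
    refine Finset.sum_congr rfl fun b _ => ?_
    have h1 : Matrix.single a b (Z a b) = Z a b • Matrix.single a b (1 : ℚ) := by
      rw [Matrix.smul_single, smul_eq_mul, mul_one]
    rw [h1, map_smul, smul_eq_mul]
  refine ⟨{ toFun := fun Z => ∑ a, ∑ b, Z a b * ((f (Matrix.single a b 1) : ℚ) : ℂ)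
            map_add' := fun Z Z' => by
              simp only [Matrix.add_apply, add_mul, Finset.sum_add_distrib]
            map_smul' := fun c Z => by
              simp only [Matrix.smul_apply, smul_eq_mul, RingHom.id_apply, Finset.mul_sum, mul_assoc] }, fun Z => ?_⟩
  rw [hf Z]
  show ∑ a, ∑ b, (Z.map (algebraMap ℚ ℂ)) a b * ((f (Matrix.single a b 1) : ℚ) : ℂ) = _
  push_cast
  rfl

lemma fun_CS {f : Matrix I I ℚ →ₗ[ℚ] ℚ} {F : Matrix I I ℂ →ₗ[ℂ] ℂ}
    (hF : ∀ Z : Matrix I I ℚ, F (Z.map (algebraMap ℚ ℂ)) = ((f Z : ℚ) : ℂ)) {𝔪 : Submodule ℚ (Matrix I I ℚ)}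
    (hf : 𝔪 ≤ LinearMap.ker f) {Z : Matrix I I ℂ} (hZ : Z ∈ CS 𝔪) : F Z = 0 := by
  have h1 : CS 𝔪 ≤ LinearMap.ker F := by
    refine Submodule.span_le.2 ?_
    rintro _ ⟨Z, hZ, rfl⟩
    show F (Z.map (algebraMap ℚ ℂ)) = 0
    rw [hF]
    have h2 : f Z = 0 := hf hZ
    rw [h2]
    norm_num
  exact h1 hZ

/-- coordinates of an element of the complex span -/
theorem coords {𝔪 : Submodule ℚ (Matrix I I ℚ)} {Z : Matrix I I ℂ} (hZ : Z ∈ CS 𝔪) :
    ∃ (d : ℕ) (z : Fin d → ℂ) (Y : Fin d → Matrix I I ℚ), LinearIndependent ℚ z ∧ (∀ i, Y i ∈ 𝔪) ∧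
      Z = ∑ i, z i • (Y i).map (algebraMap ℚ ℂ) := by
  classical
  set S : Submodule ℚ ℂ := Submodule.span ℚ (Set.range fun p : I × I => Z p.1 p.2) with hS
  have hfin : Module.Finite ℚ S := Module.Finite.iff_fg.2 (Submodule.fg_span (Set.finite_range _))
  let e := Module.finBasis ℚ S
  have hmem : ∀ a b, Z a b ∈ S := fun a b => Submodule.subset_span ⟨(a, b), rfl⟩
  have hlin : LinearIndependent ℚ fun i => ((e i : S) : ℂ) :=
    e.linearIndependent.map' S.subtype (Submodule.ker_subtype S)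
  set Y : Fin (Module.finrank ℚ S) → Matrix I I ℚ := fun i => Matrix.of fun a b => e.repr ⟨Z a b, hmem a b⟩ i with hY
  have hsum : Z = ∑ i, ((e i : S) : ℂ) • (Y i).map (algebraMap ℚ ℂ) := by
    ext a b
    rw [Matrix.sum_apply]
    have h1 := e.sum_repr ⟨Z a b, hmem a b⟩
    have h2 := congrArg (fun s : S => (s : ℂ)) h1
    simp only [Submodule.coe_sum, Submodule.coe_smul] at h2
    rw [← h2]
    refine sum_congr rfl fun i _ => ?_
    rw [Matrix.smul_apply, smul_eq_mul, Algebra.smul_def, mul_comm]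
    rfl
  refine ⟨_, fun i => ((e i : S) : ℂ), Y, hlin, fun i => ?_, hsum⟩
  by_contra hn
  obtain ⟨f, hf1, hf2⟩ := Submodule.exists_le_ker_of_notMem hn
  obtain ⟨F, hF⟩ := fun_ext f
  have h1 := fun_CS hF hf2 hZ
  rw [hsum, map_sum] at h1
  have h2 : ∑ i, f (Y i) • ((e i : S) : ℂ) = 0 := by
    rw [← h1]
    refine sum_congr rfl fun i _ => ?_
    rw [map_smul, hF, smul_eq_mul, Algebra.smul_def, mul_comm]
    rfl
  exact hf1 (Fintype.linearIndependent_iff.1 hlin _ h2 i)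

/-- rational elements of the complex span -/
theorem rat_mem {𝔪 : Submodule ℚ (Matrix I I ℚ)} {X : Matrix I I ℚ} (hX : X.map (algebraMap ℚ ℂ) ∈ CS 𝔪) : X ∈ 𝔪 := by
  by_contra hn
  obtain ⟨f, hf1, hf2⟩ := Submodule.exists_le_ker_of_notMem hn
  obtain ⟨F, hF⟩ := fun_ext f
  have h1 := fun_CS hF hf2 hX
  rw [hF] at h1
  exact hf1 (by exact_mod_cast h1)

/-- the full algebra -/
lemma CS_top (Z : Matrix I I ℂ) : Z ∈ CS (⊤ : Submodule ℚ (Matrix I I ℚ)) := by
  rw [Matrix.matrix_eq_sum_single Z]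
  refine Submodule.sum_mem _ fun a _ => Submodule.sum_mem _ fun b _ => ?_
  have h1 : Matrix.single a b (Z a b) = Z a b • (Matrix.single a b (1 : ℚ)).map (algebraMap ℚ ℂ) := by
    rw [Matrix.map_single, map_one, Matrix.smul_single, smul_eq_mul, mul_one]
  rw [h1]
  exact Submodule.smul_mem _ _ (Submodule.subset_span ⟨_, Submodule.mem_top, rfl⟩)

lemma CS_mono {𝔪 𝔫 : Submodule ℚ (Matrix I I ℚ)} (h : 𝔪 ≤ 𝔫) : CS 𝔪 ≤ CS 𝔫 := Submodule.span_mono (Set.image_mono h)

/-- linear maps -/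
lemma CS_map {J : Type} {𝔪 : Submodule ℚ (Matrix I I ℚ)} {𝔫 : Submodule ℚ (Matrix J J ℚ)}
    (L : Matrix I I ℂ →ₗ[ℂ] Matrix J J ℂ)
    (hL : ∀ Y ∈ 𝔪, L (Y.map (algebraMap ℚ ℂ)) ∈ CS 𝔫) {Z : Matrix I I ℂ} (hZ : Z ∈ CS 𝔪) : L Z ∈ CS 𝔫 := by
  have h1 : CS 𝔪 ≤ (CS 𝔫).comap L := by
    refine Submodule.span_le.2 ?_
    rintro _ ⟨Y, hY, rfl⟩
    exact hL Y hY
  exact h1 hZ

end gen

section prod
variable {k : ℕ} {n : Fin k → ℕ} {w : ℕ}

/-- the embedding of the second summand -/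
def jW (R : Type) [CommRing R] (I : Type) (w : ℕ) : Matrix (Fin w) (Fin w) R →ₗ[R] Matrix (I ⊕ Fin w) (I ⊕ Fin w) R where
  toFun B := fromBlocks 0 0 0 B
  map_add' B B' := by
    rw [fromBlocks_add]
    simp
  map_smul' a B := by
    rw [RingHom.id_apply, fromBlocks_smul]
    simp

/-- the embedding of the first summand -/
def jM (R : Type) [CommRing R] (n : Fin k → ℕ) (w : ℕ) : (∀ i, Matrix (Fin (n i)) (Fin (n i)) R) →ₗ[R]
    Matrix ((Σ i, Fin (n i)) ⊕ Fin w) ((Σ i, Fin (n i)) ⊕ Fin w) R where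
  toFun A := fromBlocks (blockDiagonal' A) 0 0 0
  map_add' X Y := by
    rw [blockDiagonal'_add, fromBlocks_add]
    simp
  map_smul' a X := by
    rw [blockDiagonal'_smul, RingHom.id_apply, fromBlocks_smul]
    simp

/-- the product of the symplectic Lie algebras and of a Lie algebra of endomorphisms of `W` -/
def pr (Q : ∀ i, Matrix (Fin (n i)) (Fin (n i)) ℤ) (𝔫 : Submodule ℚ (Matrix (Fin w) (Fin w) ℚ)) :
    Submodule ℚ (Matrix ((Σ i, Fin (n i)) ⊕ Fin w) ((Σ i, Fin (n i)) ⊕ Fin w) ℚ) where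
  carrier := {X | ∃ (A : ∀ i, Matrix (Fin (n i)) (Fin (n i)) ℚ) (B : Matrix (Fin w) (Fin w) ℚ),
    (∀ i, A i * ir (Q i) + ir (Q i) * (A i)ᵀ = 0) ∧ B ∈ 𝔫 ∧ X = fromBlocks (blockDiagonal' A) 0 0 B}
  zero_mem' := ⟨0, 0, fun i => by simp, Submodule.zero_mem _, by rw [blockDiagonal'_zero, fromBlocks_zero]⟩
  add_mem' := by
    rintro _ _ ⟨A, B, hA, hB, rfl⟩ ⟨A', B', hA', hB', rfl⟩
    refine ⟨A + A', B + B', fun i => ?_, Submodule.add_mem _ hB hB', ?_⟩
    · have h1 : (A + A') i * ir (Q i) + ir (Q i) * ((A + A') i)ᵀ = (A i * ir (Q i) + ir (Q i) * (A i)ᵀ) +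
          (A' i * ir (Q i) + ir (Q i) * (A' i)ᵀ) := by
        rw [Pi.add_apply, Matrix.transpose_add, Matrix.add_mul, Matrix.mul_add]
        abel
      rw [h1, hA, hA', add_zero]
    · rw [fromBlocks_add, blockDiagonal'_add]
      simp
  smul_mem' := by
    rintro a _ ⟨A, B, hA, hB, rfl⟩
    refine ⟨a • A, a • B, fun i => ?_, Submodule.smul_mem _ _ hB, ?_⟩
    · rw [Pi.smul_apply, Matrix.transpose_smul, Matrix.smul_mul, Matrix.mul_smul, ← smul_add, hA, smul_zero]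
    · rw [fromBlocks_smul, blockDiagonal'_smul]
      simp

lemma pr_br {Q : ∀ i, Matrix (Fin (n i)) (Fin (n i)) ℤ} {𝔫 : Submodule ℚ (Matrix (Fin w) (Fin w) ℚ)}
    (h𝔫 : ∀ X ∈ 𝔫, ∀ Y ∈ 𝔫, X * Y - Y * X ∈ 𝔫) : ∀ X ∈ pr Q 𝔫, ∀ Y ∈ pr Q 𝔫, X * Y - Y * X ∈ pr Q 𝔫 := by
  rintro _ ⟨A, B, hA, hB, rfl⟩ _ ⟨A', B', hA', hB', rfl⟩
  refine ⟨fun i => A i * A' i - A' i * A i, B * B' - B' * B, fun i => ?_, h𝔫 _ hB _ hB', ?_⟩
  · have h1 : A i * ir (Q i) = -(ir (Q i) * (A i)ᵀ) := eq_neg_of_add_eq_zero_left (hA i)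
    have h2 : A' i * ir (Q i) = -(ir (Q i) * (A' i)ᵀ) := eq_neg_of_add_eq_zero_left (hA' i)
    have h3 : A i * A' i * ir (Q i) = ir (Q i) * ((A i)ᵀ * (A' i)ᵀ) := by
      rw [Matrix.mul_assoc, h2, Matrix.mul_neg, ← Matrix.mul_assoc, h1, Matrix.neg_mul, neg_neg, Matrix.mul_assoc]
    have h4 : A' i * A i * ir (Q i) = ir (Q i) * ((A' i)ᵀ * (A i)ᵀ) := by
      rw [Matrix.mul_assoc, h1, Matrix.mul_neg, ← Matrix.mul_assoc, h2, Matrix.neg_mul, neg_neg, Matrix.mul_assoc]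
    rw [Matrix.sub_mul, h3, h4, Matrix.transpose_sub, Matrix.transpose_mul, Matrix.transpose_mul, Matrix.mul_sub]
    abel
  · rw [fromBlocks_multiply, fromBlocks_multiply]
    simp only [Matrix.mul_zero, Matrix.zero_mul, add_zero, zero_add, ← blockDiagonal'_mul]
    have h5 : (blockDiagonal' fun i => A i * A' i - A' i * A i) =
        (blockDiagonal' fun i => A i * A' i) - blockDiagonal' fun i => A' i * A i := by
      rw [← blockDiagonal'_sub]
      rfl
    rw [h5, sub_eq_add_neg (fromBlocks _ _ _ _), fromBlocks_neg, fromBlocks_add]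
    simp only [sub_eq_add_neg, neg_zero, add_zero]

/-- the operator is in the complex span of the product -/
theorem pr_op {Q : ∀ i, Matrix (Fin (n i)) (Fin (n i)) ℤ} (hsk : ∀ i, (Q i)ᵀ = -Q i) (hd : ∀ i, (Q i).det ≠ 0)
    {𝔫 : Submodule ℚ (Matrix (Fin w) (Fin w) ℚ)} {φ : ∀ i, Matrix (Fin (n i)) (Fin (n i)) ℂ}
    (hφ : ∀ i, φ i * ic (Q i) + ic (Q i) * (φ i)ᵀ = 0) {Φ : Matrix (Fin w) (Fin w) ℂ} (hΦ : Φ ∈ CS 𝔫) :
    fromBlocks (blockDiagonal' φ) 0 0 Φ ∈ CS (pr Q 𝔫) := by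
  classical
  have h1 : fromBlocks (blockDiagonal' φ) 0 0 Φ = jM ℂ n w φ + jW ℂ (Σ i, Fin (n i)) w Φ := by
    show _ = fromBlocks _ _ _ _ + fromBlocks _ _ _ _
    rw [fromBlocks_add]
    simp
  rw [h1]
  refine Submodule.add_mem _ ?_ (CS_map _ (fun Y hY => ?_) hΦ)
  · have hcom : ∀ i, φ i ∈ ((CS (pr Q 𝔫)).comap (jM ℂ n w)).comap
        (LinearMap.single ℂ (fun i => Matrix (Fin (n i)) (Fin (n i)) ℂ) i) := by
      intro i
      have h2 : (φ i)ᵀᵀ * ic (Q i) + ic (Q i) * (φ i)ᵀ = 0 := by rw [Matrix.transpose_transpose]; exact hφ i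
      have h3 := congrArg Matrix.transpose (sp_span (ic_T (hsk i)) (ic_det (hd i)) h2)
      rw [Matrix.transpose_transpose] at h3
      rw [h3, Matrix.transpose_sum]
      refine Submodule.sum_mem _ fun a _ => ?_
      rw [Matrix.transpose_sum]
      refine Submodule.sum_mem _ fun b _ => ?_
      rw [Matrix.transpose_smul]
      refine Submodule.smul_mem _ _ ?_
      rw [Matrix.transpose_sub, Matrix.transpose_sub]
      have htv : ∀ z : Fin (n i) → ℚ, (tvC (ic (Q i)) (fun a => (z a : ℂ)))ᵀ ∈ ((CS (pr Q 𝔫)).comap (jM ℂ n w)).comap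
          (LinearMap.single ℂ (fun i => Matrix (Fin (n i)) (Fin (n i)) ℂ) i) := by
        intro z
        set T : Matrix (Fin (n i)) (Fin (n i)) ℚ := (vecMulVec z (z ᵥ* ir (Q i)))ᵀ with hT
        have h5 : (tvC (ic (Q i)) (fun a => (z a : ℂ)))ᵀ = T.map (algebraMap ℚ ℂ) := by
          ext a b
          show (z b : ℂ) * ((fun a => (z a : ℂ)) ᵥ* ic (Q i)) a = algebraMap ℚ ℂ (z b * (z ᵥ* ir (Q i)) a)
          rw [map_mul]
          congr 1
          show ∑ c, (z c : ℂ) * ((Q i c a : ℤ) : ℂ) = algebraMap ℚ ℂ (∑ c, z c * ((Q i c a : ℤ) : ℚ))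
          rw [map_sum]
          refine sum_congr rfl fun c _ => ?_
          rw [map_mul, map_intCast]
          rfl
        have hir : (ir (Q i))ᵀ = -ir (Q i) := by
          ext a b
          have h2 := congrFun (congrFun (hsk i) a) b
          rw [Matrix.transpose_apply, Matrix.neg_apply] at h2
          simp only [ir, Matrix.transpose_apply, Matrix.neg_apply, Matrix.map_apply]
          rw [h2, Int.cast_neg]
        have hqz : ir (Q i) *ᵥ z = -(z ᵥ* ir (Q i)) := by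
          rw [← Matrix.vecMul_transpose, hir, Matrix.vecMul_neg]
        show jM ℂ n w (Pi.single i _) ∈ CS (pr Q 𝔫)
        rw [h5]
        refine Submodule.subset_span ⟨fromBlocks (blockDiagonal' (Pi.single i T)) 0 0 0,
          ⟨Pi.single i T, 0, fun j => ?_, Submodule.zero_mem _, rfl⟩, ?_⟩
        · by_cases h : j = i
          · subst h
            rw [Pi.single_eq_same, hT, Matrix.transpose_transpose, Matrix.transpose_vecMulVec, Matrix.vecMulVec_mul,
              Matrix.mul_vecMulVec, hqz, Matrix.neg_vecMulVec, add_neg_cancel]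
          · rw [Pi.single_eq_of_ne h, Matrix.transpose_zero, Matrix.zero_mul, Matrix.mul_zero, add_zero]
        · show (fromBlocks _ _ _ _).map (algebraMap ℚ ℂ) = fromBlocks _ _ _ _
          rw [fromBlocks_map, blockDiagonal'_map _ _ (map_zero _)]
          have h6 : (fun j => (Pi.single (M := fun i => Matrix (Fin (n i)) (Fin (n i)) ℚ) i T j).map (algebraMap ℚ ℂ)) =
              Pi.single (M := fun i => Matrix (Fin (n i)) (Fin (n i)) ℂ) i (T.map (algebraMap ℚ ℂ)) := by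
            funext j
            by_cases h : j = i
            · subst h
              rw [Pi.single_eq_same, Pi.single_eq_same]
            · rw [Pi.single_eq_of_ne h, Pi.single_eq_of_ne h]
              exact Matrix.map_zero _ (map_zero _)
          rw [h6]
          congr 1
          · exact Matrix.map_zero _ (map_zero _)
          · exact Matrix.map_zero _ (map_zero _)
          · exact Matrix.map_zero _ (map_zero _)
      have hs : ∀ a : Fin (n i), (Pi.single a 1 : Fin (n i) → ℂ) = fun x => (((Pi.single a 1 : Fin (n i) → ℚ) x : ℚ) : ℂ) := by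
        intro a
        funext x
        by_cases h : x = a
        · subst h
          rw [Pi.single_eq_same, Pi.single_eq_same, Rat.cast_one]
        · rw [Pi.single_eq_of_ne h, Pi.single_eq_of_ne h, Rat.cast_zero]
      have e2 : (Pi.single a 1 + Pi.single b 1 : Fin (n i) → ℂ) =
          fun x => (((Pi.single a 1 + Pi.single b 1 : Fin (n i) → ℚ) x : ℚ) : ℂ) := by
        rw [hs a, hs b]
        funext x
        simp only [Pi.add_apply, Rat.cast_add]
      refine Submodule.sub_mem _ (Submodule.sub_mem _ ?_ ?_) ?_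
      · rw [e2]
        exact htv _
      · rw [hs a]
        exact htv _
      · rw [hs b]
        exact htv _
    have hsum : φ ∈ (CS (pr Q 𝔫)).comap (jM ℂ n w) := by
      rw [← Finset.univ_sum_single φ]
      exact Submodule.sum_mem _ fun i _ => hcom i
    exact hsum
  · refine Submodule.subset_span ⟨fromBlocks (blockDiagonal' 0) 0 0 Y, ⟨0, Y, fun i => by simp, hY, rfl⟩, ?_⟩
    show (fromBlocks _ _ _ _).map (algebraMap ℚ ℂ) = fromBlocks _ _ _ _
    rw [blockDiagonal'_zero, fromBlocks_map]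
    congr 1
    · exact Matrix.map_zero _ (map_zero _)
    · exact Matrix.map_zero _ (map_zero _)
    · exact Matrix.map_zero _ (map_zero _)

/-- the part on the second summand -/
theorem part_W {I : Type} [Fintype I] [DecidableEq I] {𝔪 : Submodule ℚ (Matrix (I ⊕ Fin w) (I ⊕ Fin w) ℚ)}
    {Φ : Matrix (Fin w) (Fin w) ℂ} (h : fromBlocks 0 0 0 Φ ∈ CS 𝔪) : Φ ∈ CS (𝔪.comap (jW ℚ I w)) := by
  classical
  obtain ⟨d, z, Y, hz, hY, hsum⟩ := coords h
  have hval : ∀ x y, (fromBlocks 0 0 0 Φ : Matrix (I ⊕ Fin w) (I ⊕ Fin w) ℂ) x y = ∑ i, z i * ((Y i x y : ℚ) : ℂ) := by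
    intro x y
    rw [hsum, Matrix.sum_apply]
    rfl
  have hzero : ∀ x y, (fromBlocks 0 0 0 Φ : Matrix (I ⊕ Fin w) (I ⊕ Fin w) ℂ) x y = 0 → ∀ i, Y i x y = 0 := by
    intro x y h0 i
    have h1 := hval x y
    rw [h0] at h1
    refine Fintype.linearIndependent_iff.1 hz (fun i => Y i x y) ?_ i
    rw [h1]
    refine sum_congr rfl fun j _ => ?_
    rw [Algebra.smul_def, mul_comm]
    rfl
  have hYb : ∀ i, Y i = fromBlocks 0 0 0 ((Y i).toBlocks₂₂) := by
    intro i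
    ext x y
    rcases x with x | x <;> rcases y with y | y
    · exact hzero _ _ rfl i
    · exact hzero _ _ rfl i
    · exact hzero _ _ rfl i
    · rfl
  have hΦ : Φ = ∑ i, z i • ((Y i).toBlocks₂₂).map (algebraMap ℚ ℂ) := by
    ext x y
    have h1 := hval (Sum.inr x) (Sum.inr y)
    rw [Matrix.sum_apply]
    exact h1
  rw [hΦ]
  refine Submodule.sum_mem _ fun i _ => Submodule.smul_mem _ _ (Submodule.subset_span ⟨_, ?_, rfl⟩)
  show fromBlocks 0 0 0 ((Y i).toBlocks₂₂) ∈ 𝔪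
  rw [← hYb]
  exact hY i

end prod

end Q207.HN
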