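import Pool.Agent.Q207.HN.Md
import Pool.Agent.Q207.HN.Me
import Pool.Agent.Q207.HN.Dg
import Pool.Agent.Q207.AH.Ct

/-!
# Mumford-Tate Lie algebras over number fields: almost all tuples
-/

set_option autoImplicit false

open Matrix Finset

namespace Q207.HN

open Q207.HG (K0)
open Q207.GH (ic ir Cl Pol Iso1)
open Q207.AH (GdA InA)
open Pool.Agent.Y123.GN (Gs)
open Pool.Agent.Y916

variable {k : ℕ} {n : Fin k → ℕ} {w : ℕ}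

/-- the conclusion at one tuple: the symplectic Lie algebras are in the complex span -/
def GdM (β : ∀ i, Fin (n i) → ℚ) (Ω : ∀ i, Matrix (Fin (n i)) (Fin (n i)) ℂ) (Q : ∀ i, Matrix (Fin (n i)) (Fin (n i)) ℤ)
    (ΦW : Matrix (Fin w) (Fin w) ℂ) (α : Fin k → ℂ) : Prop :=
  (∀ i, 1 < ‖α i‖) ∧ ∀ ℓ : Fin k → ℂ, (∀ i, Complex.exp (ℓ i) = α i) →
    ∀ (lev : (Σ i, Fin (n i)) → ℤ) (H : ℤ → Submodule ℂ ((Σ i, Fin (n i)) → ℂ)), DirectSum.IsInternal H →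
    (∀ p, ∀ v ∈ H p, (fun a => (starRingEnd ℂ) (v a)) ∈ H (-p)) →
    (∀ p, (⨆ q : {q : ℤ // p ≤ q}, H q) = Submodule.span ℂ {v | ∃ a, p ≤ lev a ∧
      v = (blockDiagonal' fun i => Ω i * (YL (β i) (1 / α i) (-ℓ i))ᵀ)ᵀ a}) →
    ∀ ΦH : Matrix (Σ i, Fin (n i)) (Σ i, Fin (n i)) ℂ, (∀ p, ∀ v ∈ H p, v ᵥ* ΦH = (p : ℂ) • v) →
    ∀ c : Fin k → ℂ, (∀ i, c i ≠ 0) → Pol H (blockDiagonal' fun i => c i • ic (Q i)) →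
    (∃ φ : ∀ i, Matrix (Fin (n i)) (Fin (n i)) ℂ, ΦH = blockDiagonal' φ ∧ ∀ i, φ i * ic (Q i) + ic (Q i) * (φ i)ᵀ = 0) ∧
    ∀ 𝔪 : Submodule ℚ (Matrix ((Σ i, Fin (n i)) ⊕ Fin w) ((Σ i, Fin (n i)) ⊕ Fin w) ℚ),
      (∀ X ∈ 𝔪, ∀ Y ∈ 𝔪, X * Y - Y * X ∈ 𝔪) → fromBlocks ΦH 0 0 ΦW ∈ CS 𝔪 →
      ∀ X : ∀ i, Matrix (Fin (n i)) (Fin (n i)) ℂ, (∀ i, (X i)ᵀ * ic (Q i) + ic (Q i) * X i = 0) → Eb w n X ∈ CS 𝔪

/-- **almost all tuples** -/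
theorem mt_alg (k m w : ℕ) (hm : 1 ≤ m) (n : Fin k → ℕ) {β : ∀ i, Fin (n i) → ℚ} (hβ : ∀ i, Sp1 (β i)) :
    ∃ c C : ℝ, 0 < c ∧ ∀ (Ω : ∀ i, Matrix (Fin (n i)) (Fin (n i)) ℂ) (Q : ∀ i, Matrix (Fin (n i)) (Fin (n i)) ℤ)
      (γ : Fin k → ℂ), (∀ i, IsUnit (Ω i).det) → (∀ i, γ i ≠ 0) → (∀ i, (Ω i)ᵀ * ic (Q i) * Ω i = γ i • K0 (n i)) →
      ∃ B : Set ℂ, B.Finite ∧ ∀ (CW ΦW : Matrix (Fin w) (Fin w) ℂ) (levW : Fin w → ℤ), IsUnit CW.det →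
        (∀ a, CW a ᵥ* ΦW = (levW a : ℂ) • CW a) → ΦW.map (starRingEnd ℂ) = -ΦW → ∀ T : ℕ, 1 ≤ T →
        ({α : Fin k → ℂ | (∀ i, Sl.SInt m T (α i) ∧ α i ∉ B) ∧ ¬ GdM β Ω Q ΦW α}.ncard : ℝ) ≤
          C * (T : ℝ) ^ (-c) * ({α : ℂ | Sl.SInt m T α}.ncard : ℝ) ^ k := by
  classical
  obtain ⟨r, T₀, A, h, e, hG, hc, hP⟩ := inst hβ
  obtain ⟨c, hc0, C, hC0, hmain⟩ := Q207.AH.good_alg (n := n) hG hc m hm e (w + w)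
  obtain ⟨C₂, hC₂, h₂⟩ := few_small k m hm
  refine ⟨min c 1, C + C₂, lt_min hc0 one_pos, fun Ω Q γ hΩ hγ hQ => ?_⟩
  choose P hdeg hper hiso using fun i => hP i (Ω i)
  obtain ⟨B, hBf, hB⟩ := hmain P hdeg
  refine ⟨B, hBf, fun CW ΦW levW hCW hCm hr T hT => ?_⟩
  obtain ⟨Ψ, D, levD, hD, hDm, hΨr, ι₂, ι₁, ρ₂, ρ₁, hι₂, hι₁, hΨ₂, hΨ₁⟩ := dual_ext hCW hCm hr
  have hsk : ∀ i, (Q i)ᵀ = -Q i := by
    intro i
    obtain ⟨h1, h2⟩ := form_of (hβ i).two (hβ i).even (hΩ i) (hγ i) (hQ i)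
    ext a b
    have h3 := congrFun (congrFun h1 a) b
    rw [Matrix.transpose_apply, Matrix.neg_apply] at h3
    have h4 : ((Q i b a : ℤ) : ℂ) = -((Q i a b : ℤ) : ℂ) := h3
    rw [Matrix.transpose_apply, Matrix.neg_apply]
    exact_mod_cast h4
  have hCl : ∀ i, Cl (Q i) := by
    intro i
    obtain ⟨h1, h2⟩ := form_of (hβ i).two (hβ i).even (hΩ i) (hγ i) (hQ i)
    refine ⟨by have := (hβ i).two; omega, fun h0 => h2 ?_, Or.inl (hsk i)⟩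
    have h3 : (ic (Q i)).det = (((Q i).det : ℤ) : ℂ) := (RingHom.map_det (Int.castRingHom ℂ) (Q i)).symm
    rw [h3, h0, Int.cast_zero]
  have hIn : ∀ γ' : ∀ i, Matrix (Fin (n i)) (Fin (n i)) ℚ, Iso1 Q γ' → InA (fun i => Gs h (P i)) γ' := by
    intro γ' hγ' i
    obtain ⟨h1, h2⟩ := hγ' i
    have hu : IsUnit (γ' i).det := by rw [h2]; exact isUnit_one
    have hmul : ∀ X Y : Matrix (Fin (n i)) (Fin (n i)) ℚ, Q207.HG.cmx (X * Y) = Q207.HG.cmx X * Q207.HG.cmx Y := fun X Y =>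
      Matrix.map_mul
    have hone : Q207.HG.cmx (1 : Matrix (Fin (n i)) (Fin (n i)) ℚ) = 1 := Matrix.map_one _ (map_zero _) (map_one _)
    have hpr : ∀ g : Matrix (Fin (n i)) (Fin (n i)) ℚ, gᵀ * ir (Q i) * g = ir (Q i) →
        Pool.Agent.Y123.GN.Prs h (P i) (Q207.HG.cmx g) := by
      intro g hg
      refine hiso i (ic (Q i)) _ (γ i) (hΩ i) (hγ i) (hQ i) ?_
      have h3 := congrArg (fun X : Matrix (Fin (n i)) (Fin (n i)) ℚ => Q207.HG.cmx X) hg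
      simp only [hmul, Q207.GH.ic_ir] at h3
      exact h3
    refine ⟨⟨Q207.HG.cmx (γ' i), Q207.HG.cmx (γ' i)⁻¹, by rw [← hmul, Matrix.mul_nonsing_inv _ hu, hone],
      by rw [← hmul, Matrix.nonsing_inv_mul _ hu, hone]⟩, ⟨hpr _ h1, hpr _ ?_⟩, rfl⟩
    calc (γ' i)⁻¹ᵀ * ir (Q i) * (γ' i)⁻¹ = (γ' i)⁻¹ᵀ * ((γ' i)ᵀ * ir (Q i) * γ' i) * (γ' i)⁻¹ := by rw [h1]
      _ = ((γ' i)⁻¹ᵀ * (γ' i)ᵀ) * ir (Q i) * (γ' i * (γ' i)⁻¹) := by simp only [Matrix.mul_assoc]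
      _ = ir (Q i) := by
          rw [← Matrix.transpose_mul, Matrix.mul_nonsing_inv _ hu, Matrix.transpose_one, Matrix.one_mul, Matrix.mul_one]
  have hT1 : (1 : ℝ) ≤ T := by exact_mod_cast hT
  set S₁ : Set (Fin k → ℂ) := {α : Fin k → ℂ | (∀ i, Sl.SInt m T (α i) ∧ α i ∉ B) ∧ ¬ ∀ ℓ : Fin k → ℂ,
    (∀ i, Complex.exp (ℓ i) = α i) → GdA (fun i => Q207.AF.zM h (P i) (α i) (ℓ i)) (fun i => Gs h (P i))
      (fromBlocks 1 0 0 D)} with hS₁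
  set S₂ : Set (Fin k → ℂ) := {a : Fin k → ℂ | (∀ i, Sl.SInt m T (a i)) ∧ ∃ i, ‖a i‖ ≤ 1} with hS₂
  have hfin1 : S₁.Finite := by
    refine (Set.Finite.pi (fun _ : Fin k => Sl.sint_fin m T)).subset ?_
    intro α hα i _
    exact (hα.1 i).1
  have hfin2 : S₂.Finite := by
    refine (Set.Finite.pi (fun _ : Fin k => Sl.sint_fin m T)).subset ?_
    intro α hα i _
    exact hα.1 i
  have hsub : {α : Fin k → ℂ | (∀ i, Sl.SInt m T (α i) ∧ α i ∉ B) ∧ ¬ GdM β Ω Q ΦW α} ⊆ S₁ ∪ S₂ := by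
    rintro a ⟨h3, h4⟩
    by_cases h5 : ∃ i, ‖a i‖ ≤ 1
    · exact Or.inr ⟨fun i => (h3 i).1, h5⟩
    · refine Or.inl ⟨h3, fun hg => h4 ?_⟩
      have h6 : ∀ i, 1 < ‖a i‖ := fun i => not_le.1 fun h7 => h5 ⟨i, h7⟩
      refine ⟨h6, fun ℓ hℓ lev H hH hHc hfil ΦH hΦH c' hc' hS => ?_⟩
      have h7 := hg ℓ hℓ
      have h8 : (fun i => Q207.AF.zM h (P i) (a i) (ℓ i)) = fun i => Ω i * (YL (β i) (1 / a i) (-ℓ i))ᵀ := by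
        funext i
        exact hper i (a i) (ℓ i)
      rw [h8] at h7
      obtain ⟨φ, hφ1, hφ2, -⟩ := blocks hCl hc' hH hHc (Q207.GH.det_of_fil hH hfil) (by
        rintro ⟨i, a⟩ ⟨j, b⟩ hij
        rw [Matrix.transpose_apply, blockDiagonal'_apply_ne _ _ _ (fun h6 => hij h6.symm)]) hfil hΦH hS
      exact ⟨⟨φ, hφ1, hφ2⟩, fun 𝔪 h𝔪 hΦ => mt_point hCl hsk hc' hIn hD hDm hΨr hι₂ hι₁ hΨ₂ hΨ₁ h7 hH hHc hfil hΦH hS h𝔪 hΦ⟩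
  have hcard := (Set.ncard_le_ncard hsub (hfin1.union hfin2)).trans (Set.ncard_union_le _ _)
  have hmono1 : (T : ℝ) ^ (-c) ≤ (T : ℝ) ^ (-min c 1) := Real.rpow_le_rpow_of_exponent_le hT1 (by linarith [min_le_left c 1])
  have hmono2 : (T : ℝ) ^ (-(1 : ℝ)) ≤ (T : ℝ) ^ (-min c 1) :=
    Real.rpow_le_rpow_of_exponent_le hT1 (by linarith [min_le_right c 1])
  have h5 : ({α : Fin k → ℂ | (∀ i, Sl.SInt m T (α i) ∧ α i ∉ B) ∧ ¬ GdM β Ω Q ΦW α}.ncard : ℝ) ≤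
      (S₁.ncard : ℝ) + (S₂.ncard : ℝ) := by exact_mod_cast hcard
  refine h5.trans ?_
  have hI : (0 : ℝ) ≤ ({α : ℂ | Sl.SInt m T α}.ncard : ℝ) ^ k := by positivity
  have h6 := (hB (fromBlocks 1 0 0 D) T hT).trans (mul_le_mul_of_nonneg_right (mul_le_mul_of_nonneg_left hmono1 hC0) hI)
  have h7 := (h₂ T hT).trans (mul_le_mul_of_nonneg_right (mul_le_mul_of_nonneg_left hmono2 hC₂) hI)
  refine (add_le_add h6 h7).trans (le_of_eq ?_)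
  ring

end Q207.HN
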