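import Pool.Agent.Q207.HN.Mf

/-!
# Mumford-Tate Lie algebras over number fields: families with full symplectic monodromy
-/

set_option autoImplicit false

open Matrix Finset PowerSeries

namespace Q207.HN

open Q207.GH (ic ir Cl Pol Iso1)
open Q207.AH (GdA InA)
open Pool.Agent.Y123.GN (Gs)
open Pool.Agent.Y916

variable {k : ℕ} {n : Fin k → ℕ} {w : ℕ}

/-- the conclusion at one tuple for the periods `P_i` -/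
def GdN {r : ℕ} (h : Fin r → ℚ⟦X⟧) (P : ∀ i, Fin (n i) → Fin (n i) → MvPolynomial (Option (Fin r)) ℂ)
    (ΦW : Matrix (Fin w) (Fin w) ℂ) (α : Fin k → ℂ) : Prop :=
  ∀ ℓ : Fin k → ℂ, (∀ i, Complex.exp (ℓ i) = α i) →
    ∀ (lev : (Σ i, Fin (n i)) → ℤ) (H : ℤ → Submodule ℂ ((Σ i, Fin (n i)) → ℂ)), DirectSum.IsInternal H →
    (∀ p, ∀ v ∈ H p, (fun a => (starRingEnd ℂ) (v a)) ∈ H (-p)) →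
    (∀ p, (⨆ q : {q : ℤ // p ≤ q}, H q) = Submodule.span ℂ {v | ∃ a, p ≤ lev a ∧
      v = (blockDiagonal' fun i => Q207.AF.zM h (P i) (α i) (ℓ i))ᵀ a}) →
    ∀ ΦH : Matrix (Σ i, Fin (n i)) (Σ i, Fin (n i)) ℂ, (∀ p, ∀ v ∈ H p, v ᵥ* ΦH = (p : ℂ) • v) →
    ∀ Q : ∀ i, Matrix (Fin (n i)) (Fin (n i)) ℤ, (∀ i, Cl (Q i)) → (∀ i, (Q i)ᵀ = -Q i) →
    (∀ γ : ∀ i, Matrix (Fin (n i)) (Fin (n i)) ℚ, Iso1 Q γ → InA (fun i => Gs h (P i)) γ) →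
    ∀ c : Fin k → ℂ, (∀ i, c i ≠ 0) → Pol H (blockDiagonal' fun i => c i • ic (Q i)) →
    (∃ φ : ∀ i, Matrix (Fin (n i)) (Fin (n i)) ℂ, ΦH = blockDiagonal' φ ∧ ∀ i, φ i * ic (Q i) + ic (Q i) * (φ i)ᵀ = 0) ∧
    ∀ 𝔪 : Submodule ℚ (Matrix ((Σ i, Fin (n i)) ⊕ Fin w) ((Σ i, Fin (n i)) ⊕ Fin w) ℚ),
      (∀ X ∈ 𝔪, ∀ Y ∈ 𝔪, X * Y - Y * X ∈ 𝔪) → fromBlocks ΦH 0 0 ΦW ∈ CS 𝔪 →
      ∀ X : ∀ i, Matrix (Fin (n i)) (Fin (n i)) ℂ, (∀ i, (X i)ᵀ * ic (Q i) + ic (Q i) * X i = 0) → Eb w n X ∈ CS 𝔪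

/-- **almost all tuples** -/
theorem mt_gen {r : ℕ} {T₀ : Polynomial ℤ} {A : Fin r → Fin r → Polynomial ℤ} {h : Fin r → ℚ⟦X⟧} (hG : Af.GFam T₀ A h)
    (hc : Pool.Agent.Y118.UL.Conn h) (m : ℕ) (hm : 1 ≤ m) (e w : ℕ) :
    ∃ c : ℝ, 0 < c ∧ ∃ C : ℝ, 0 ≤ C ∧ ∀ P : ∀ i, Fin (n i) → Fin (n i) → MvPolynomial (Option (Fin r)) ℂ,
      (∀ i a b, (P i a b).totalDegree ≤ e) → ∃ B : Set ℂ, B.Finite ∧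
      ∀ (CW ΦW : Matrix (Fin w) (Fin w) ℂ) (levW : Fin w → ℤ), IsUnit CW.det →
        (∀ a, CW a ᵥ* ΦW = (levW a : ℂ) • CW a) → ΦW.map (starRingEnd ℂ) = -ΦW → ∀ T : ℕ, 1 ≤ T →
        ({α : Fin k → ℂ | (∀ i, Sl.SInt m T (α i) ∧ α i ∉ B) ∧ ¬ GdN h P ΦW α}.ncard : ℝ) ≤
          C * (T : ℝ) ^ (-c) * ({α : ℂ | Sl.SInt m T α}.ncard : ℝ) ^ k := by
  classical
  obtain ⟨c, hc0, C, hC0, hmain⟩ := Q207.AH.good_alg (n := n) hG hc m hm e (w + w)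
  refine ⟨c, hc0, C, hC0, fun P hP => ?_⟩
  obtain ⟨B, hBf, hB⟩ := hmain P hP
  refine ⟨B, hBf, fun CW ΦW levW hCW hCm hr T hT => ?_⟩
  obtain ⟨Ψ, D, levD, hD, hDm, hΨr, ι₂, ι₁, ρ₂, ρ₁, hι₂, hι₁, hΨ₂, hΨ₁⟩ := dual_ext hCW hCm hr
  refine le_trans ?_ (hB (fromBlocks 1 0 0 D) T hT)
  refine Nat.cast_le.2 (Set.ncard_le_ncard ?_ ?_)
  · rintro a ⟨h3, h4⟩
    refine ⟨h3, fun hg => h4 ?_⟩
    intro ℓ hℓ lev H hH hHc hfil ΦH hΦH Q hCl hsk hIn c' hc' hS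
    obtain ⟨φ, hφ1, hφ2, -⟩ := blocks hCl hc' hH hHc (Q207.GH.det_of_fil hH hfil) (by
      rintro ⟨i, a⟩ ⟨j, b⟩ hij
      rw [Matrix.transpose_apply, blockDiagonal'_apply_ne _ _ _ (fun h6 => hij h6.symm)]) hfil hΦH hS
    exact ⟨⟨φ, hφ1, hφ2⟩, fun 𝔪 h𝔪 hΦ => mt_point hCl hsk hc' hIn hD hDm hΨr hι₂ hι₁ hΨ₂ hΨ₁ (hg ℓ hℓ) hH hHc hfil hΦH hS h𝔪 hΦ⟩
  · refine (Set.Finite.pi (fun _ : Fin k => Sl.sint_fin m T)).subset ?_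
    intro α hα i _
    exact (hα.1 i).1

end Q207.HN
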