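import Pool.Agent.Q207.HN.Gf
import Pool.Agent.Y123.GN.C1

/-!
# Paths in the symplectic group, and quotients of polynomials which are algebraic
-/

set_option autoImplicit false

open Matrix

namespace Q207.HN

section quot

open Polynomial

lemma cop {F G : ℂ[X]} (hG : G ≠ 0) : ∃ g F' G' : ℂ[X], g ≠ 0 ∧ F = g * F' ∧ G = g * G' ∧ IsCoprime F' G' := by
  have h2 : EuclideanDomain.gcd F G ≠ 0 := fun h0 => hG (EuclideanDomain.gcd_eq_zero_iff.1 h0).2
  obtain ⟨a, ha⟩ := EuclideanDomain.gcd_dvd_left F G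
  obtain ⟨b, hb⟩ := EuclideanDomain.gcd_dvd_right F G
  have h3 := EuclideanDomain.gcd_eq_gcd_ab F G
  generalize EuclideanDomain.gcd F G = g at *
  generalize EuclideanDomain.gcdA F G = x at *
  generalize EuclideanDomain.gcdB F G = y at *
  refine ⟨g, a, b, h2, ha, hb, x, y, ?_⟩
  refine mul_left_cancel₀ h2 ?_
  rw [mul_one]
  nth_rewrite 2 [h3]
  rw [ha, hb]
  ring

/-- a quotient of polynomials which is algebraic over the constants is constant -/
theorem const_quot {F G : ℂ[X]} {d : ℕ} {c : ℕ → ℂ} (hc : c d ≠ 0)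
    (h : ∑ j ∈ Finset.range (d + 1), C (c j) * F ^ j * G ^ (d - j) = 0) (s t : ℂ) :
    F.eval s * G.eval t = F.eval t * G.eval s := by
  classical
  by_cases hG : G = 0
  · subst hG
    simp
  obtain ⟨g, F', G', hg, hF', hG', hco⟩ := cop (F := F) hG
  have h' : ∑ j ∈ Finset.range (d + 1), C (c j) * F' ^ j * G' ^ (d - j) = 0 := by
    refine mul_left_cancel₀ (pow_ne_zero d hg) ?_
    rw [mul_zero, ← h, Finset.mul_sum]
    refine Finset.sum_congr rfl fun j hj => ?_
    have hjd : j ≤ d := by
      have := Finset.mem_range.1 hj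
      omega
    have e1 : g ^ d = g ^ j * g ^ (d - j) := by rw [← pow_add]; congr 1; omega
    rw [hF', hG', mul_pow, mul_pow, e1]
    ring
  -- `G'` is a unit
  have hunit : IsUnit G' := by
    rw [Finset.sum_range_succ, Nat.sub_self, pow_zero, mul_one] at h'
    have h1 : G' ∣ ∑ j ∈ Finset.range d, C (c j) * F' ^ j * G' ^ (d - j) := by
      refine Finset.dvd_sum fun j hj => ?_
      have hjd := Finset.mem_range.1 hj
      exact Dvd.dvd.mul_left (dvd_pow_self _ (by omega)) _
    have h2 : G' ∣ C (c d) * F' ^ d := by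
      have h3 : C (c d) * F' ^ d = -∑ j ∈ Finset.range d, C (c j) * F' ^ j * G' ^ (d - j) := by linear_combination h'
      rw [h3]
      exact h1.neg_right
    have h3 : G' ∣ F' ^ d := by
      have hu : IsUnit (C (c d)) := isUnit_C.2 (Ne.isUnit hc)
      exact (IsUnit.dvd_mul_left hu).1 h2
    exact (hco.pow_left (m := d)).isUnit_of_dvd' h3 dvd_rfl
  obtain ⟨u, hu, hGu⟩ := Polynomial.isUnit_iff.1 hunit
  -- `F'` is constant
  obtain ⟨v, hv⟩ : ∃ v : ℂ, F' = C v := by
    set p : ℂ[X] := ∑ j ∈ Finset.range (d + 1), C (c j * u ^ (d - j)) * X ^ j with hp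
    have h1 : p.comp F' = 0 := by
      rw [hp, ← Polynomial.coe_compRingHom_apply, map_sum, ← h']
      simp only [Polynomial.coe_compRingHom_apply]
      refine Finset.sum_congr rfl fun j _ => ?_
      rw [Polynomial.mul_comp, Polynomial.C_comp, Polynomial.X_pow_comp, ← hGu, C_mul, C_pow]
      ring
    rcases Polynomial.comp_eq_zero_iff.1 h1 with h2 | ⟨-, h2⟩
    · exfalso
      apply hc
      have h3 := congrArg (fun q : ℂ[X] => q.coeff d) h2
      simp only [hp, Polynomial.finsetSum_coeff, Polynomial.coeff_C_mul_X_pow, Polynomial.coeff_zero] at h3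
      rw [Finset.sum_eq_single d] at h3
      · simpa using h3
      · intro j _ hj
        rw [if_neg (Ne.symm hj)]
      · intro hd
        exact absurd (Finset.mem_range.2 (Nat.lt_succ_self d)) hd
    · exact ⟨_, h2⟩
  rw [hF', hG', hv, ← hGu]
  simp only [eval_mul, eval_C]
  ring

end quot

section path

open Pool.Agent.Y123.GN

variable {n : ℕ} {J : Matrix (Fin n) (Fin n) ℂ}

/-- every symplectic matrix is the end of a polynomial path -/
theorem sp_path (hJ : Jᵀ = -J) (hdet : J.det ≠ 0) (g : Matrix (Fin n) (Fin n) ℂ) (hg : gᵀ * J * g = J) :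
    ∃ M : Matrix (Fin n) (Fin n) (Polynomial ℂ), M.map (Polynomial.eval 0) = 1 ∧ M.map (Polynomial.eval 1) = g ∧
      ∀ s : ℂ, (M.map (Polynomial.eval s))ᵀ * J * M.map (Polynomial.eval s) = J := by
  have hev : ∀ (s : ℂ) (M M' : Matrix (Fin n) (Fin n) (Polynomial ℂ)), (M * M').map (Polynomial.eval s) =
      M.map (Polynomial.eval s) * M'.map (Polynomial.eval s) := by
    intro s M M'
    exact Matrix.map_mul (f := Polynomial.evalRingHom s)
  let S : Submonoid (Matrix (Fin n) (Fin n) ℂ) :=
    { carrier := {g | ∃ M : Matrix (Fin n) (Fin n) (Polynomial ℂ), M.map (Polynomial.eval 0) = 1 ∧ M.map (Polynomial.eval 1) = g ∧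
        ∀ s : ℂ, (M.map (Polynomial.eval s))ᵀ * J * M.map (Polynomial.eval s) = J}
      one_mem' := by
        have h1 : ∀ s : ℂ, (1 : Matrix (Fin n) (Fin n) (Polynomial ℂ)).map (Polynomial.eval s) = 1 := fun s =>
          Matrix.map_one _ (by simp) (by simp)
        refine ⟨1, h1 0, h1 1, fun s => ?_⟩
        rw [h1 s, transpose_one, Matrix.one_mul, Matrix.mul_one]
      mul_mem' := by
        rintro g g' ⟨M, h1, h2, h3⟩ ⟨M', h1', h2', h3'⟩
        refine ⟨M * M', ?_, ?_, fun s => ?_⟩
        · rw [hev, h1, h1', Matrix.mul_one]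
        · rw [hev, h2, h2']
        · rw [hev, transpose_mul]
          calc (M'.map (Polynomial.eval s))ᵀ * (M.map (Polynomial.eval s))ᵀ * J * (M.map (Polynomial.eval s) * M'.map (Polynomial.eval s)) =
                (M'.map (Polynomial.eval s))ᵀ * ((M.map (Polynomial.eval s))ᵀ * J * M.map (Polynomial.eval s)) * M'.map (Polynomial.eval s) := by
                  simp only [Matrix.mul_assoc]
            _ = J := by rw [h3, h3'] }
  refine sp_gen' hJ hdet S (fun v t => ?_) g hg
  refine ⟨1 + (Polynomial.X : Polynomial ℂ) • (t • nv J v).map Polynomial.C, ?_, ?_, fun s => ?_⟩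
  · ext i j
    simp [Matrix.one_apply, apply_ite (Polynomial.eval (0 : ℂ))]
  · rw [nv_exp hJ]
    ext i j
    simp [Matrix.one_apply, apply_ite (Polynomial.eval (1 : ℂ))]
  · have h1 : (1 + (Polynomial.X : Polynomial ℂ) • (t • nv J v).map Polynomial.C).map (Polynomial.eval s) =
        IsNilpotent.exp ((s * t) • nv J v) := by
      rw [nv_exp hJ]
      ext i j
      simp [Matrix.one_apply, apply_ite (Polynomial.eval s), mul_assoc]
    rw [h1]
    exact nv_isom hJ v _

end path

end Q207.HN
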