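import Pool.Agent.Q207.HN.Pt

/-!
# The period matrices of symplectic hypergeometric families and their symmetries
-/

set_option autoImplicit false

open PowerSeries Filter Topology

namespace Q207.HN

open Q207.HM Q207.HG Pool.Agent.Y113 Pool.Agent.Y120.GF Pool.Agent.Y120.GH Pool.Agent.Y120.R Q207.AF Pool.Agent.Y123.GN
open Pool.Agent.Y119.HY (Hf Gal Hc Rel cm Am E Ac_nil Vr)
open Pool.Agent.Y119.HZ (evq ix)

variable {r : ℕ} {n : Fin r → ℕ} {α : ∀ j, Fin (n j) → ℚ}

/-- the function with the indices `b`, `d` of the block `j` -/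
def jx (j : Fin r) (b d : Fin (n j)) : Fin (sz n * sz n) :=
  (Pool.Agent.Y119.HZ.ix (sz n)).symm (finSigmaFinEquiv (⟨j, b⟩ : Σ j, Fin (n j)), finSigmaFinEquiv (⟨j, d⟩ : Σ j, Fin (n j)))

/-- the entries of the solution as polynomials -/
noncomputable def Yp (j : Fin r) (b c : Fin (n j)) : MvPolynomial (Option (Fin (sz n * sz n))) ℂ :=
  ∑ d, MvPolynomial.X (some (jx j b d)) * ∑ l ∈ Finset.range (n j),
    MvPolynomial.C ((-1) ^ l / (l.factorial : ℂ) * (cm (Am (n j)) ^ l) d c) * MvPolynomial.X none ^ l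

/-- the period matrix as a matrix of polynomials -/
noncomputable def Pp (j : Fin r) (Ω : Matrix (Fin (n j)) (Fin (n j)) ℂ) (a b : Fin (n j)) :
    MvPolynomial (Option (Fin (sz n * sz n))) ℂ := ∑ c, MvPolynomial.C (Ω a c) * Yp j b c

/-- the solution with an arbitrary logarithm -/
noncomputable def YL {m : ℕ} (α : Fin m → ℚ) (z L : ℂ) : Matrix (Fin m) (Fin m) ℂ := Hf (Hc m (QA α)) z * E (cm (Am m)) L

lemma Pp_deg (j : Fin r) (Ω : Matrix (Fin (n j)) (Fin (n j)) ℂ) (a b : Fin (n j)) : (Pp j Ω a b).totalDegree ≤ 1 + sz n := by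
  have hj : n j ≤ sz n := Finset.single_le_sum (f := n) (fun _ _ => Nat.zero_le _) (Finset.mem_univ j)
  refine (MvPolynomial.totalDegree_finsetSum _ _).trans (Finset.sup_le fun c _ => ?_)
  refine (MvPolynomial.totalDegree_mul _ _).trans ?_
  rw [MvPolynomial.totalDegree_C, zero_add]
  refine (MvPolynomial.totalDegree_finsetSum _ _).trans (Finset.sup_le fun d _ => ?_)
  refine (MvPolynomial.totalDegree_mul _ _).trans ?_
  rw [MvPolynomial.totalDegree_X]
  refine Nat.add_le_add_left ?_ _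
  refine (MvPolynomial.totalDegree_finsetSum _ _).trans (Finset.sup_le fun l hl => ?_)
  refine (MvPolynomial.totalDegree_mul _ _).trans ?_
  rw [MvPolynomial.totalDegree_C, zero_add, MvPolynomial.totalDegree_X_pow]
  have := Finset.mem_range.1 hl
  omega

lemma hf_val (z : ℂ) (j : Fin r) (b d : Fin (n j)) :
    ∑' m : ℕ, ((coeff m ((jsys (hb α)).hf (jx j b d)) : ℚ) : ℂ) * (1 / z) ^ m = Hf (Hc (n j) (QA (α j))) (1 / z) b d := by
  have h1 : ∑' m : ℕ, ((coeff m ((jsys (hb α)).hf (jx j b d)) : ℚ) : ℂ) * (1 / z) ^ m =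
      Hf (jsys (hb α)).Hc (1 / z) (finSigmaFinEquiv (⟨j, b⟩ : Σ j, Fin (n j))) (finSigmaFinEquiv (⟨j, d⟩ : Σ j, Fin (n j))) := by
    unfold Hf
    rw [Matrix.of_apply]
    unfold Pool.Agent.Y119.HY.ps
    refine tsum_congr fun m => ?_
    congr 1
    refine Eq.trans ?_ (coeff_sys (jsys (hb α)) m (finSigmaFinEquiv (⟨j, b⟩ : Σ j, Fin (n j)))
      (finSigmaFinEquiv (⟨j, d⟩ : Σ j, Fin (n j)))).symm
    unfold Sys.hf jx
    rw [Equiv.apply_symm_apply]
  rw [h1, Hf_blocks, BD_eq]

lemma eval_Yp (z ℓ : ℂ) (j : Fin r) (b c : Fin (n j)) :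
    MvPolynomial.eval (fun o : Option (Fin (sz n * sz n)) => o.elim ℓ
      fun i => ∑' m : ℕ, ((coeff m ((jsys (hb α)).hf i) : ℚ) : ℂ) * (1 / z) ^ m) (Yp j b c) = YL (α j) (1 / z) (-ℓ) b c := by
  unfold Yp YL
  rw [map_sum, Matrix.mul_apply]
  refine Finset.sum_congr rfl fun d _ => ?_
  rw [map_mul, MvPolynomial.eval_X]
  show (∑' m : ℕ, ((coeff m ((jsys (hb α)).hf (jx j b d)) : ℚ) : ℂ) * (1 / z) ^ m) * _ = _
  rw [hf_val]
  congr 1
  unfold E
  rw [map_sum, Matrix.sum_apply]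
  refine Finset.sum_congr rfl fun l _ => ?_
  rw [map_mul, MvPolynomial.eval_C, map_pow, MvPolynomial.eval_X, Matrix.smul_apply, smul_eq_mul, neg_pow]
  show _ * ℓ ^ l = _
  ring

/-- the period matrix -/
lemma zM_Pp (z ℓ : ℂ) (j : Fin r) (Ω : Matrix (Fin (n j)) (Fin (n j)) ℂ) :
    zM (jsys (hb α)).hf (Pp j Ω) z ℓ = Ω * (YL (α j) (1 / z) (-ℓ)).transpose := by
  ext a b
  unfold zM pw
  rw [Matrix.of_apply, Matrix.mul_apply]
  show MvPolynomial.eval _ (Pp j Ω a b) = _
  unfold Pp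
  rw [map_sum]
  refine Finset.sum_congr rfl fun c _ => ?_
  rw [map_mul, MvPolynomial.eval_C, Matrix.transpose_apply]
  congr 1
  exact eval_Yp z ℓ j b c

/-- the substitution -/
noncomputable def cvt (j : Fin r) (Ω : Matrix (Fin (n j)) (Fin (n j)) ℂ) :
    MvPolynomial (Fin (n j) × Fin (n j)) (Polynomial ℂ) →+* MvPolynomial (Vr (sz n)) ℂ :=
  MvPolynomial.eval₂Hom (Polynomial.aeval (MvPolynomial.X none : MvPolynomial (Vr (sz n)) ℂ) :
    Polynomial ℂ →ₐ[ℂ] MvPolynomial (Vr (sz n)) ℂ).toRingHom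
    (fun v => ∑ c, MvPolynomial.C (Ω v.1 c) * MvPolynomial.X (some (some (finSigmaFinEquiv (⟨j, v.2⟩ : Σ j, Fin (n j)),
      finSigmaFinEquiv (⟨j, c⟩ : Σ j, Fin (n j))))))

lemma ev_cvt (j : Fin r) (Ω : Matrix (Fin (n j)) (Fin (n j)) ℂ) (R : MvPolynomial (Fin (n j) × Fin (n j)) (Polynomial ℂ)) (x L : ℂ)
    (X : Bl n ℂ) : Pool.Agent.Y119.HY.ev (cvt j Ω R) x L (BD X) =
      MvPolynomial.eval₂ (Polynomial.evalRingHom x) (fun v => (Ω * (X j).transpose) v.1 v.2) R := by
  have h1 : (MvPolynomial.eval (Pool.Agent.Y119.HY.pt x L (BD X))).comp (cvt j Ω) =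
      MvPolynomial.eval₂Hom (Polynomial.evalRingHom x) (fun v => (Ω * (X j).transpose) v.1 v.2) := by
    refine MvPolynomial.ringHom_ext (fun q => ?_) fun v => ?_
    · rw [RingHom.comp_apply, cvt, MvPolynomial.eval₂Hom_C, MvPolynomial.eval₂Hom_C]
      simp only [AlgHom.toRingHom_eq_coe, RingHom.coe_coe, Polynomial.coe_evalRingHom]
      induction q using Polynomial.induction_on' with
      | add p q hp hq => rw [map_add, map_add, Polynomial.eval_add, hp, hq]
      | monomial k a =>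
        rw [Polynomial.aeval_monomial, Polynomial.eval_monomial, map_mul, map_pow, MvPolynomial.eval_X]
        congr 1
        exact MvPolynomial.eval_C _
    · rw [RingHom.comp_apply, cvt, MvPolynomial.eval₂Hom_X', MvPolynomial.eval₂Hom_X', map_sum, Matrix.mul_apply]
      refine Finset.sum_congr rfl fun c _ => ?_
      rw [map_mul, MvPolynomial.eval_C, MvPolynomial.eval_X, Matrix.transpose_apply]
      congr 1
      exact BD_eq X j v.2 c
  exact RingHom.congr_fun h1 R

lemma Sy.hmem (h : Sy α) (i : Fin (sz n * sz n)) : cx ((jsys (hb α)).hf i) ∈ Cw 1 := by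
  have h1 := h.mem (MvPolynomial.X i)
  rwa [MvPolynomial.aeval_X] at h1

/-- **symmetries of the relations** -/
theorem Sy.pres (h : Sy α) (j : Fin r) (Ω γ κ : Matrix (Fin (n j)) (Fin (n j)) ℂ) (hκ : κ.transpose * K0 (n j) * κ = K0 (n j))
    (hγ : γ * Ω = Ω * κ.transpose) : Prs (jsys (hb α)).hf (Pp j Ω) γ := by
  classical
  intro R hR
  have hpM : ∀ s : ℝ, pM (jsys (hb α)).hf (Pp j Ω) s = Ω * (YL (α j) (1 / (s : ℂ)) (-((Real.log s : ℝ) : ℂ))).transpose := by
    intro s
    rw [← zM_Pp]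
    ext a b
    show MvPolynomial.aeval (p1 (jsys (hb α)).hf s) (Pp j Ω a b) = _
    exact (pw_real (jsys (hb α)).hf (fun v : Fin (n j) × Fin (n j) => Pp j Ω v.1 v.2) s (a, b)).symm
  have hpw : ∀ s : ℝ, (fun v : Fin (n j) × Fin (n j) => pM (jsys (hb α)).hf (Pp j Ω) s v.1 v.2) =
      pw (jsys (hb α)).hf (fun v : Fin (n j) × Fin (n j) => Pp j Ω v.1 v.2) s (Real.log s) := by
    intro s
    funext v
    exact (pw_real (jsys (hb α)).hf (fun v : Fin (n j) × Fin (n j) => Pp j Ω v.1 v.2) s v).symm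
  -- the relation holds everywhere
  have hall : ∀ s : ℝ, 1 < s → rel1 R s (pM (jsys (hb α)).hf (Pp j Ω) s) = 0 := by
    intro s hs
    have hn : (1 : ℝ) < ‖(s : ℂ)‖ := by
      rw [Complex.norm_real, Real.norm_eq_abs]
      exact hs.trans_le (le_abs_self _)
    have h1 := point_all2 one_pos h.hmem (fun v : Fin (n j) × Fin (n j) => Pp j Ω v.1 v.2) R (by
      filter_upwards [hR] with t ht
      rw [← hpw]
      exact ht) hn ((Real.log s : ℝ) : ℂ)
    rw [← hpw] at h1
    exact h1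
  have hlog : ∀ x : ℝ, 0 < x → Complex.log (x : ℂ) = -((Real.log (1 / x) : ℝ) : ℂ) := by
    intro x hx
    rw [← Complex.ofReal_log hx.le, one_div, Real.log_inv]
    push_cast
    ring
  have hYL : ∀ x : ℝ, 0 < x → YL (α j) (x : ℂ) (-((Real.log (1 / x) : ℝ) : ℂ)) = Yx (n j) (QA (α j)) x := by
    intro x hx
    rw [← hlog x hx]
    rfl
  have hxs : ∀ x : ℝ, (1 / (((1 / x : ℝ)) : ℂ)) = (x : ℂ) := by
    intro x
    push_cast
    rw [one_div_one_div]
  have hRel : cvt j Ω R ∈ Rel (jsys (hb α)).Y := by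
    intro x hx0 hx1
    rw [Y_eq, ev_cvt]
    have h1 := hall (1 / x) (by rw [lt_div_iff₀ hx0, one_mul]; exact hx1)
    rw [hpM, hxs, hYL x hx0] at h1
    unfold rel1 at h1
    rw [hxs] at h1
    exact h1
  have hG := gal_all h (Function.update (fun _ => 1) j κ) fun i => by
    by_cases hi : i = j
    · subst hi
      rw [Function.update_self]
      exact hκ
    · rw [Function.update_of_ne hi, Matrix.transpose_one, Matrix.one_mul, Matrix.mul_one]
  filter_upwards [eventually_gt_atTop (1 : ℝ)] with s hs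
  have hx0 : (0 : ℝ) < 1 / s := by positivity
  have hx1 : 1 / s < 1 := by rw [div_lt_one (by linarith)]; exact hs
  have h1 := hG _ hRel (1 / s) hx0 hx1
  rw [Y_eq, ← BD_mul, ev_cvt] at h1
  simp only [Function.update_self] at h1
  have h2 : Ω * (Yx (n j) (QA (α j)) (1 / s) * κ).transpose = γ * pM (jsys (hb α)).hf (Pp j Ω) s := by
    rw [hpM, Matrix.transpose_mul, ← Matrix.mul_assoc, ← hγ, Matrix.mul_assoc]
    have h3 := hYL (1 / s) hx0
    rw [one_div_one_div] at h3
    rw [← h3]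
    congr 3
    push_cast
    rfl
  rw [h2] at h1
  unfold rel1
  have h3 : ((((1 / s : ℝ)) : ℂ)) = 1 / (s : ℂ) := by push_cast; rfl
  rw [h3] at h1
  exact h1

/-- the square of the form -/
lemma K0_sq {m : ℕ} (hm : (K0 m).transpose = -K0 m) : K0 m * K0 m = -1 := by
  have h1 : K0 m * (K0 m).transpose = 1 := by
    ext a b
    rw [Matrix.mul_apply, Finset.sum_eq_single a.rev]
    · rw [Matrix.transpose_apply]
      unfold K0
      rw [Matrix.of_apply, Matrix.of_apply, Matrix.one_apply, Fin.val_rev]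
      have := a.isLt
      rw [if_pos (by omega)]
      by_cases hab : a = b
      · subst hab
        rw [if_pos (by omega), if_pos rfl, ← mul_pow]
        norm_num
      · rw [if_neg hab, if_neg, mul_zero]
        intro h2
        apply hab
        ext
        omega
    · intro c _ hc
      unfold K0
      rw [Matrix.of_apply, if_neg, zero_mul]
      intro h2
      apply hc
      ext
      rw [Fin.val_rev]
      omega
    · intro h
      exact absurd (Finset.mem_univ _) h
  rw [hm, Matrix.mul_neg] at h1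
  rw [← h1, neg_neg]

/-- isometries of the form are symmetries -/
theorem Sy.isom (h : Sy α) (j : Fin r) {Ω γ Q : Matrix (Fin (n j)) (Fin (n j)) ℂ} (hΩ : IsUnit Ω.det) {c : ℂ} (hc : c ≠ 0)
    (hQ : Ω.transpose * Q * Ω = c • K0 (n j)) (hγ : γ.transpose * Q * γ = Q) : Prs (jsys (hb α)).hf (Pp j Ω) γ := by
  set S : Matrix (Fin (n j)) (Fin (n j)) ℂ := Ω⁻¹ * γ * Ω with hS
  have hsk := h.skew j
  have hsq := K0_sq hsk
  have hΩS : Ω * S = γ * Ω := by
    rw [hS, ← Matrix.mul_assoc, ← Matrix.mul_assoc, Matrix.mul_nonsing_inv _ hΩ, Matrix.one_mul]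
  have h1 : S.transpose * (c • K0 (n j)) * S = c • K0 (n j) := by
    rw [← hQ]
    calc S.transpose * (Ω.transpose * Q * Ω) * S = (Ω * S).transpose * Q * (Ω * S) := by
          rw [Matrix.transpose_mul Ω S]
          simp only [Matrix.mul_assoc]
      _ = Ω.transpose * (γ.transpose * Q * γ) * Ω := by
          rw [hΩS, Matrix.transpose_mul]
          simp only [Matrix.mul_assoc]
      _ = Ω.transpose * Q * Ω := by rw [hγ]
  have h2 : S.transpose * K0 (n j) * S = K0 (n j) := by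
    rw [Matrix.mul_smul, Matrix.smul_mul] at h1
    exact smul_right_injective _ hc h1
  -- the transpose is an isometry
  have h3 : (-(K0 (n j)) * S.transpose * K0 (n j)) * S = 1 := by
    calc (-(K0 (n j)) * S.transpose * K0 (n j)) * S = -(K0 (n j)) * (S.transpose * K0 (n j) * S) := by simp only [Matrix.mul_assoc]
      _ = 1 := by rw [h2, Matrix.neg_mul, hsq, neg_neg]
  have h4 : S * (-(K0 (n j)) * S.transpose * K0 (n j)) = 1 := mul_eq_one_comm.1 h3
  have h5 : S.transpose.transpose * K0 (n j) * S.transpose = K0 (n j) := by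
    rw [Matrix.transpose_transpose]
    have e1 : S * K0 (n j) * S.transpose * K0 (n j) = -1 := by
      have e2 : S * (-(K0 (n j)) * S.transpose * K0 (n j)) = -(S * K0 (n j) * S.transpose * K0 (n j)) := by
        simp only [Matrix.neg_mul, Matrix.mul_neg, Matrix.mul_assoc]
      rw [e2] at h4
      rw [← h4, neg_neg]
    calc S * K0 (n j) * S.transpose = -(S * K0 (n j) * S.transpose * (K0 (n j) * K0 (n j))) := by
          rw [hsq, Matrix.mul_neg, Matrix.mul_one, neg_neg]
      _ = -((S * K0 (n j) * S.transpose * K0 (n j)) * K0 (n j)) := by simp only [Matrix.mul_assoc]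
      _ = K0 (n j) := by rw [e1, Matrix.neg_mul, Matrix.one_mul, neg_neg]
  exact h.pres j Ω γ S.transpose h5 (by rw [Matrix.transpose_transpose, hΩS])

end Q207.HN
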