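import Pool.Agent.Q207.HN.Ga
import Pool.Agent.Y916.Af.Stm

/-!
# Galochkin's condition for the iterated matrices of a system with nilpotent residue
-/

set_option autoImplicit false

open PowerSeries Finset.HasAntidiagonal Pool.Agent.Y113 Pool.Agent.Y113.HGG Pool.Agent.Y120.GF Pool.Agent.Y120.GH

namespace Q207.HN

open Pool.Agent.Y119.HZ
open Pool.Agent.Y119.HY (choose_step choose_zero' GP)

section

variable {n : ℕ}

lemma choose_comm (N : Matrix (Fin n) (Fin n) ℚ) (s : ℕ) : Commute N (Ring.choose (-N) s) := by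
  induction s with
  | zero =>
    rw [choose_zero']
    exact Commute.one_right N
  | succ s ih =>
    have h1 := choose_step (-N) s
    have h2 : Commute N ((s + 1) • Ring.choose (-N) (s + 1)) := by
      rw [h1]
      exact ih.mul_right (((Commute.refl N).neg_right).sub_right (Nat.commute_cast N s))
    have h3 : Ring.choose (-N) (s + 1) = ((1 : ℚ) / (s + 1)) • ((s + 1) • Ring.choose (-N) (s + 1)) := by
      rw [← Nat.cast_smul_eq_nsmul ℚ, smul_smul]
      push_cast
      rw [one_div_mul_cancel (by positivity), one_smul]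
    rw [h3]
    exact h2.smul_right _

variable {T₁ : Polynomial ℤ} {A : Fin n → Fin n → Polynomial ℤ} {N : Matrix (Fin n) (Fin n) ℚ} {Nz : Fin n → Fin n → ℤ}

lemma sum_A3' {R : Type*} [CommRing R] (f : Polynomial ℤ →+* R) (b : Fin n × Fin n) (x : Fin n × Fin n → R) :
    ∑ l, x l * f (A3 T₁ A Nz l b) =
      ∑ k, x (k, b.2) * f (A k b.1) - f T₁ * ∑ l : Fin n, f (Polynomial.C (Nz b.2 l)) * x (b.1, l) := by
  unfold A3
  simp only [map_sub, mul_sub, Finset.sum_sub_distrib]
  congr 1
  · rw [Fintype.sum_prod_type]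
    refine Finset.sum_congr rfl fun k _ => ?_
    rw [Finset.sum_eq_single b.2]
    · simp
    · intro l _ hl
      rw [if_neg (Ne.symm hl), map_zero, mul_zero]
    · intro h
      exact absurd (Finset.mem_univ _) h
  · rw [Fintype.sum_prod_type, Finset.sum_eq_single b.1]
    · rw [Finset.mul_sum]
      refine Finset.sum_congr rfl fun l _ => ?_
      rw [if_pos rfl, map_mul]
      ring
    · intro k _ hk
      refine Finset.sum_eq_zero fun l _ => ?_
      rw [if_neg (Ne.symm hk), map_zero, mul_zero]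
    · intro h
      exact absurd (Finset.mem_univ _) h

lemma PP_zero (a b : Fin n × Fin n) : PP T₁ A N a b 0 = if a = b then 1 else 0 := by
  unfold PP
  rw [Finset.HasAntidiagonal.antidiagonal_zero, Finset.sum_singleton, ah_zero, choose_zero', pow_zero, mul_one, Matrix.one_apply]
  by_cases h1 : a.1 = b.1
  · by_cases h2 : b.2 = a.2
    · rw [if_pos h1, if_pos h2, if_pos (Prod.ext h1 h2.symm), map_one, mul_one]
    · rw [if_neg h2, if_neg (fun h : a = b => h2 (by rw [h])), map_zero, mul_zero]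
  · rw [if_neg h1, if_neg (fun h : a = b => h1 (by rw [h])), zero_mul]

/-- the ring homomorphism -/
noncomputable def tqR : Polynomial ℤ →+* Polynomial ℚ := Polynomial.mapRingHom (Int.castRingHom ℚ)

lemma PP_succ (hNz : ∀ i j, (Nz i j : ℚ) = N i j) (s : ℕ) (a b : Fin n × Fin n) :
    ((s : Polynomial ℚ) + 1) * PP T₁ A N a b (s + 1) =
      tqR (Polynomial.X * T₁) * Polynomial.derivative (PP T₁ A N a b s) + ∑ l, PP T₁ A N a l s * tqR (A3 T₁ A Nz l b) -
        (s : Polynomial ℚ) * (Polynomial.derivative (tqR (Polynomial.X * T₁)) * PP T₁ A N a b s) := by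
  set t : Polynomial ℚ := T₁.map (Int.castRingHom ℚ) with ht
  set a' := ah (Polynomial.X * T₁) (fun a b => A b a) with ha'
  set c : ℕ → Fin n → Fin n → ℚ := fun s i j => Ring.choose (-N) s i j with hc
  have htT : tqR T₁ = t := rfl
  have hT : tqR (Polynomial.X * T₁) = Polynomial.X * t := by
    rw [map_mul, htT]
    congr 1
    exact Polynomial.map_X _
  have hdT : Polynomial.derivative (Polynomial.X * t) = t + Polynomial.X * Polynomial.derivative t := by
    rw [Polynomial.derivative_mul, Polynomial.derivative_X, one_mul]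
  have hR1 : ∀ (p : ℕ) (i k : Fin n), ((p : Polynomial ℚ) + 1) * a' (p + 1) i k = Polynomial.X * t * Polynomial.derivative (a' p i k) -
      (p : Polynomial ℚ) * ((t + Polynomial.X * Polynomial.derivative t) * a' p i k) + ∑ l, a' p i l * tqR (A l k) := by
    intro p i k
    rw [ha', ah_succ]
    have e1 : ((p : Polynomial ℚ) + 1) * Polynomial.C (1 / ((p : ℚ) + 1)) = 1 := by
      have e2 : ((p : Polynomial ℚ) + 1) = Polynomial.C ((p : ℚ) + 1) := by simp
      have e3 : ((p : ℚ) + 1) ≠ 0 := by positivity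
      rw [e2, ← map_mul, mul_one_div_cancel e3, map_one]
    rw [← mul_assoc, e1, one_mul]
    have e4 : tq (Polynomial.X * T₁) = Polynomial.X * t := hT
    rw [e4, hdT]
    have e5 : ∑ l, HGG.aq (fun a b => A b a) l k * ah (Polynomial.X * T₁) (fun a b => A b a) p i l =
        ∑ l, ah (Polynomial.X * T₁) (fun a b => A b a) p i l * tqR (A l k) := by
      refine Finset.sum_congr rfl fun l _ => ?_
      rw [mul_comm]
      rfl
    rw [e5]
    rfl
  have hR2 : ∀ (p : ℕ) (i j : Fin n), (((p : Polynomial ℚ) + 1) * Polynomial.C (c (p + 1) i j)) =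
      -(∑ l, Polynomial.C (N i l) * Polynomial.C (c p l j)) - (p : Polynomial ℚ) * Polynomial.C (c p i j) := by
    intro p i j
    have h1 := congrFun (congrFun (choose_step (-N) p) i) j
    have h2 : Ring.choose (-N) p * (-N - p) = -(N * Ring.choose (-N) p) - (p : Matrix (Fin n) (Fin n) ℚ) * Ring.choose (-N) p := by
      rw [mul_sub, mul_neg, ← (choose_comm N p).eq, (Nat.cast_commute p (Ring.choose (-N) p)).eq]
    rw [h2, Matrix.smul_apply, Matrix.sub_apply, Matrix.neg_apply, Matrix.mul_apply, ← nsmul_eq_mul, Matrix.smul_apply, nsmul_eq_mul,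
      nsmul_eq_mul] at h1
    have h3 := congrArg (Polynomial.C (R := ℚ)) h1
    rw [map_mul, map_sub, map_neg, map_sum, map_mul, map_natCast, map_natCast] at h3
    push_cast at h3
    rw [h3]
    congr 2
    exact Finset.sum_congr rfl fun l _ => map_mul _ _ _
  have hL : ((s : Polynomial ℚ) + 1) * PP T₁ A N a b (s + 1) =
      ∑ p ∈ antidiagonal s, (((((p.1 : ℕ) : Polynomial ℚ) + 1) * a' (p.1 + 1) a.1 b.1) * (Polynomial.C (c p.2 b.2 a.2) * t ^ p.2) +
        a' p.1 a.1 b.1 * ((((p.2 : ℕ) : Polynomial ℚ) + 1) * Polynomial.C (c (p.2 + 1) b.2 a.2) * t ^ (p.2 + 1))) := by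
    unfold PP
    rw [Finset.mul_sum]
    have e1 : ∀ p ∈ antidiagonal (s + 1), ((s : Polynomial ℚ) + 1) * (a' p.1 a.1 b.1 * (Polynomial.C (c p.2 b.2 a.2) * t ^ p.2)) =
        ((p.1 : ℕ) : Polynomial ℚ) * (a' p.1 a.1 b.1 * (Polynomial.C (c p.2 b.2 a.2) * t ^ p.2)) +
        ((p.2 : ℕ) : Polynomial ℚ) * (a' p.1 a.1 b.1 * (Polynomial.C (c p.2 b.2 a.2) * t ^ p.2)) := by
      intro p hp
      rw [mem_antidiagonal] at hp
      have e2 : ((s : Polynomial ℚ) + 1) = ((p.1 : ℕ) : Polynomial ℚ) + ((p.2 : ℕ) : Polynomial ℚ) := by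
        rw [← Nat.cast_add, hp]
        push_cast
        rfl
      rw [e2]
      ring
    refine (Finset.sum_congr rfl e1).trans ?_
    rw [Finset.sum_add_distrib, Finset.Nat.sum_antidiagonal_succ, Finset.sum_add_distrib]
    have e3 : ∑ p ∈ antidiagonal (s + 1), ((p.2 : ℕ) : Polynomial ℚ) * (a' p.1 a.1 b.1 * (Polynomial.C (c p.2 b.2 a.2) * t ^ p.2)) =
        ∑ p ∈ antidiagonal s, a' p.1 a.1 b.1 * ((((p.2 : ℕ) : Polynomial ℚ) + 1) * Polynomial.C (c (p.2 + 1) b.2 a.2) * t ^ (p.2 + 1)) := by
      rw [Finset.Nat.sum_antidiagonal_succ']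
      simp only [Nat.cast_zero, zero_mul, zero_add]
      refine Finset.sum_congr rfl fun p _ => ?_
      push_cast
      ring
    rw [e3]
    simp only [Nat.cast_zero, zero_mul, zero_add]
    congr 1
    refine Finset.sum_congr rfl fun p _ => ?_
    push_cast
    ring
  have hPP : ∀ l : Fin n × Fin n, PP T₁ A N a l s = ∑ p ∈ antidiagonal s, a' p.1 a.1 l.1 * (Polynomial.C (c p.2 l.2 a.2) * t ^ p.2) :=
    fun l => rfl
  have hder : ∀ k : ℕ, Polynomial.X * t * Polynomial.derivative (t ^ k) = (k : Polynomial ℚ) * (Polynomial.X * Polynomial.derivative t) * t ^ k := by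
    intro k
    rw [Polynomial.derivative_pow]
    rcases k with _ | k
    · simp
    · simp only [Nat.add_sub_cancel]
      have : Polynomial.C (((k + 1 : ℕ) : ℚ)) = ((k + 1 : ℕ) : Polynomial ℚ) := by simp
      rw [this]
      ring
  have hD : Polynomial.X * t * Polynomial.derivative (PP T₁ A N a b s) = ∑ p ∈ antidiagonal s,
      (Polynomial.X * t * Polynomial.derivative (a' p.1 a.1 b.1) * (Polynomial.C (c p.2 b.2 a.2) * t ^ p.2) +
        a' p.1 a.1 b.1 * (Polynomial.C (c p.2 b.2 a.2) * (((p.2 : ℕ) : Polynomial ℚ) * (Polynomial.X * Polynomial.derivative t) * t ^ p.2))) := by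
    rw [hPP, Polynomial.derivative_sum, Finset.mul_sum]
    refine Finset.sum_congr rfl fun p _ => ?_
    rw [Polynomial.derivative_mul, Polynomial.derivative_C_mul, ← hder]
    ring
  have hA : ∑ l, PP T₁ A N a l s * tqR (A3 T₁ A Nz l b) = ∑ p ∈ antidiagonal s,
      ((∑ l, a' p.1 a.1 l * tqR (A l b.1)) * (Polynomial.C (c p.2 b.2 a.2) * t ^ p.2) -
        a' p.1 a.1 b.1 * ((∑ l, Polynomial.C (N b.2 l) * Polynomial.C (c p.2 l a.2)) * t ^ (p.2 + 1))) := by
    rw [sum_A3' tqR b fun l => PP T₁ A N a l s, Finset.sum_sub_distrib]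
    have hNC : ∀ l, tqR (Polynomial.C (Nz b.2 l)) = Polynomial.C (N b.2 l) := by
      intro l
      rw [← hNz]
      exact Polynomial.map_C _
    congr 1
    · simp only [hPP, Finset.sum_mul]
      rw [Finset.sum_comm]
      exact Finset.sum_congr rfl fun p _ => Finset.sum_congr rfl fun l _ => by ring
    · simp only [hPP, hNC, Finset.mul_sum, Finset.sum_mul]
      rw [Finset.sum_comm, htT]
      exact Finset.sum_congr rfl fun p _ => Finset.sum_congr rfl fun l _ => by ring
  have hS : (s : Polynomial ℚ) * ((t + Polynomial.X * Polynomial.derivative t) * PP T₁ A N a b s) = ∑ p ∈ antidiagonal s,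
      ((((p.1 : ℕ) : Polynomial ℚ) + ((p.2 : ℕ) : Polynomial ℚ)) * ((t + Polynomial.X * Polynomial.derivative t) *
        (a' p.1 a.1 b.1 * (Polynomial.C (c p.2 b.2 a.2) * t ^ p.2)))) := by
    rw [hPP, Finset.mul_sum, Finset.mul_sum]
    refine Finset.sum_congr rfl fun p hp => ?_
    rw [mem_antidiagonal] at hp
    rw [← Nat.cast_add, hp]
  rw [hL, hT, hdT, hD, hA, hS, ← Finset.sum_add_distrib, ← Finset.sum_sub_distrib]
  refine Finset.sum_congr rfl fun p _ => ?_
  rw [hR1, hR2]
  ring

theorem PP_itm (hNz : ∀ i j, (Nz i j : ℚ) = N i j) (s : ℕ) (a b : Fin n × Fin n) :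
    (s.factorial : Polynomial ℚ) * PP T₁ A N a b s = tqR (itm (Polynomial.X * T₁) (A3 T₁ A Nz) s a b) := by
  induction s generalizing b with
  | zero =>
    rw [PP_zero, Nat.factorial_zero, Nat.cast_one, one_mul]
    show _ = tqR (if a = b then 1 else 0)
    split_ifs
    · rw [map_one]
    · rw [map_zero]
  | succ s ih =>
    have h1 := PP_succ (T₁ := T₁) (A := A) hNz s a b
    have hd : ∀ P : Polynomial ℤ, Polynomial.derivative (tqR P) = tqR (Polynomial.derivative P) := fun P =>
      Polynomial.derivative_map P _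
    have h0 : tqR (itm (Polynomial.X * T₁) (A3 T₁ A Nz) (s + 1) a b) = tqR (Polynomial.X * T₁) *
        Polynomial.derivative (tqR (itm (Polynomial.X * T₁) (A3 T₁ A Nz) s a b)) +
        ∑ l, tqR (itm (Polynomial.X * T₁) (A3 T₁ A Nz) s a l) * tqR (A3 T₁ A Nz l b) -
        (s : Polynomial ℚ) * (Polynomial.derivative (tqR (Polynomial.X * T₁)) * tqR (itm (Polynomial.X * T₁) (A3 T₁ A Nz) s a b)) := by
      rw [hd, hd]
      show tqR (Polynomial.X * T₁ * Polynomial.derivative (itm (Polynomial.X * T₁) (A3 T₁ A Nz) s a b) +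
        ∑ l, itm (Polynomial.X * T₁) (A3 T₁ A Nz) s a l * A3 T₁ A Nz l b -
        (s : Polynomial ℤ) * (Polynomial.derivative (Polynomial.X * T₁) * itm (Polynomial.X * T₁) (A3 T₁ A Nz) s a b)) = _
      rw [map_sub, map_add, map_mul tqR (Polynomial.X * T₁), map_sum, map_mul tqR (s : Polynomial ℤ), map_mul tqR (Polynomial.derivative _),
        map_natCast]
      congr 2
      exact Finset.sum_congr rfl fun l _ => map_mul _ _ _
    rw [h0, Nat.factorial_succ]
    simp only [← ih]
    have hdf : Polynomial.derivative ((s.factorial : Polynomial ℚ) * PP T₁ A N a b s) =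
        (s.factorial : Polynomial ℚ) * Polynomial.derivative (PP T₁ A N a b s) := by
      have : (s.factorial : Polynomial ℚ) = Polynomial.C (s.factorial : ℚ) := by simp
      rw [this, Polynomial.derivative_C_mul]
    rw [hdf]
    have h2 : ∑ l, (s.factorial : Polynomial ℚ) * PP T₁ A N a l s * tqR (A3 T₁ A Nz l b) =
        (s.factorial : Polynomial ℚ) * ∑ l, PP T₁ A N a l s * tqR (A3 T₁ A Nz l b) := by
      rw [Finset.mul_sum]
      exact Finset.sum_congr rfl fun l _ => by ring
    rw [h2]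
    push_cast
    linear_combination (s.factorial : Polynomial ℚ) * h1

end

end Q207.HN
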