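import Pool.Agent.Q207.HN.Cd
import Pool.Agent.Q207.AF.Tz

/-!
# Relations between the functions at large points, general radius
-/

set_option autoImplicit false

open PowerSeries Filter Topology

namespace Q207.HN

open Pool.Agent.Y113 Pool.Agent.Y120.GF Pool.Agent.Y120.GH Q207.AF

section
variable {r : ℕ} {ν : Type} {C : ℝ}

/-- relations which hold at all large real points hold at all complex points and for all values of the logarithm -/
theorem point_all2 {h : Fin r → ℚ⟦X⟧} (hC : 0 < C) (hmem : ∀ i, cx (h i) ∈ Cw C)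
    (P : ν → MvPolynomial (Option (Fin r)) ℂ) (R : MvPolynomial ν (Polynomial ℂ))
    (hR : ∀ᶠ s : ℝ in atTop, MvPolynomial.eval₂ (Polynomial.evalRingHom (1 / (s : ℂ))) (pw h P s (Real.log s)) R = 0)
    {α : ℂ} (hα : C < ‖α‖) (ℓ : ℂ) : MvPolynomial.eval₂ (Polynomial.evalRingHom (1 / α)) (pw h P α ℓ) R = 0 := by
  obtain ⟨τ, hτ⟩ := eventually_atTop.1 hR
  have hC0 : (0 : ℝ) ≤ C := by linarith
  set p := plG hmem P R with hp
  set m := p.natDegree + 1 with hm
  have hsum : ∀ {z : ℂ} (_ : C < ‖z‖) (x : ℂ),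
      MvPolynomial.eval₂ (Polynomial.evalRingHom (1 / z)) (pw h P z x) R =
        ∑ j ∈ Finset.range m, ou (p.coeff j).1 z * x ^ j := by
    intro z hz x
    rw [← plG_eval hC0 hmem P hz, Polynomial.eval₂_eq_sum_range]
    rfl
  set U : Set ℂ := {z | C < z.re} with hU
  have hUn : ∀ z ∈ U, C < ‖z‖ := fun z hz => lt_of_lt_of_le hz (Complex.re_le_norm z)
  let G : ℂ → ℂ := fun z => ∑ j ∈ Finset.range m, ou (p.coeff j).1 z * (Complex.log z) ^ j
  have hGan : AnalyticOnNhd ℂ G U := by
    intro z hz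
    show AnalyticAt ℂ (fun z => ∑ j ∈ Finset.range m, ou (p.coeff j).1 z * (Complex.log z) ^ j) z
    refine Finset.analyticAt_fun_sum _ fun j _ => ?_
    refine AnalyticAt.mul (ou_an hC0 (p.coeff j).2 z (hUn z hz)) ?_
    exact (analyticAt_clog (Or.inl (lt_of_le_of_lt hC0 hz))).pow j
  have hreal : ∀ s : ℝ, τ ≤ s → C < s → G s = 0 := by
    intro s hs1 hs2
    have h1 := hτ s hs1
    have hsn : C < ‖(s : ℂ)‖ := by
      rw [Complex.norm_real, Real.norm_eq_abs]
      exact hs2.trans_le (le_abs_self _)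
    rw [hsum hsn] at h1
    rw [← h1]
    show ∑ j ∈ Finset.range m, ou (p.coeff j).1 s * (Complex.log s) ^ j = _
    refine Finset.sum_congr rfl fun j _ => ?_
    rw [Complex.ofReal_log (by linarith)]
  have hzero : Set.EqOn G 0 U := by
    set z₀ : ℂ := ((max τ C + 1 : ℝ) : ℂ) with hz₀
    have hz₀U : z₀ ∈ U := by
      show C < z₀.re
      rw [hz₀, Complex.ofReal_re]
      have := le_max_right τ C
      linarith
    refine hGan.eqOn_zero_of_preconnected_of_frequently_eq_zero (convex_halfSpace_re_gt C).isPreconnected hz₀U ?_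
    let u : ℕ → ℂ := fun n => ((max τ C + 1 + 1 / ((n : ℝ) + 1) : ℝ) : ℂ)
    have hu : Tendsto u atTop (𝓝[≠] z₀) := by
      rw [tendsto_nhdsWithin_iff]
      refine ⟨?_, Eventually.of_forall fun n => ?_⟩
      · have h1 : Tendsto (fun n : ℕ => (max τ C + 1 + 1 / ((n : ℝ) + 1) : ℝ)) atTop (𝓝 (max τ C + 1 + 0)) :=
          tendsto_const_nhds.add tendsto_one_div_add_atTop_nhds_zero_nat
        rw [add_zero] at h1
        exact (Complex.continuous_ofReal.tendsto _).comp h1
      · show u n ≠ z₀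
        intro h1
        have h2 : (max τ C + 1 + 1 / ((n : ℝ) + 1) : ℝ) = max τ C + 1 := Complex.ofReal_injective h1
        have h3 : (0 : ℝ) < 1 / ((n : ℝ) + 1) := by positivity
        linarith
    refine hu.frequently (Eventually.frequently (Eventually.of_forall fun n => ?_))
    have h3 : (0 : ℝ) < 1 / ((n : ℝ) + 1) := by positivity
    have h4 := le_max_left τ C
    have h5 := le_max_right τ C
    exact hreal _ (by linarith) (by linarith)
  set q : ℂ := ((C + 1 : ℝ) : ℂ) + Complex.I with hq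
  have hqre : q.re = C + 1 := by simp [hq]
  have hqim : q.im = 1 := by simp [hq]
  have hqU : q ∈ U := by
    show C < q.re
    rw [hqre]
    linarith
  have hqA : q ∈ Ann C (‖α‖ + ‖q‖ + 1) := ⟨hUn q hqU, by linarith [norm_nonneg α]⟩
  have hUo : IsOpen U := isOpen_lt continuous_const Complex.continuous_re
  have hnear : ∀ᶠ z in 𝓝 q, ∑ j ∈ Finset.range m, ((-1) ^ j * ou (p.coeff j).1 z) * (-Complex.log z) ^ j = 0 := by
    filter_upwards [hUo.mem_nhds hqU] with z hz
    have h1 : G z = 0 := hzero hz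
    rw [← h1]
    refine Finset.sum_congr rfl fun j _ => ?_
    have h2 : (-Complex.log z) ^ j = (-1) ^ j * Complex.log z ^ j := by
      rw [← mul_pow, neg_one_mul]
    have h3 : ((-1 : ℂ) ^ j) * (-1) ^ j = 1 := by
      rw [← mul_pow]
      simp
    rw [h2]
    linear_combination ou (p.coeff j).1 z * Complex.log z ^ j * h3
  have hsep := log_sep (by linarith) m (fun j z => (-1) ^ j * ou (p.coeff j).1 z) (fun j z hz =>
    analyticAt_const.mul (ou_an hC0 (p.coeff j).2 z hz.1)) q hqA (by rw [hqim]; exact one_pos) hnear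
  rw [hsum hα]
  refine Finset.sum_eq_zero fun j hj => ?_
  have h1 := hsep j (Finset.mem_range.1 hj) α ⟨hα, by linarith [norm_nonneg q]⟩
  have h2 : ou (p.coeff j).1 α = 0 := by
    rcases mul_eq_zero.1 h1 with h3 | h3
    · exact absurd h3 (pow_ne_zero _ (by norm_num))
    · exact h3
  rw [h2, zero_mul]

end

end Q207.HN
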