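import Pool.Agent.Q207.HN.Fi
import Pool.Agent.Q207.AF.Tz

/-!
# Relations between the solutions of several symplectic hypergeometric equations at tuples of algebraic integers
-/

set_option autoImplicit false

open PowerSeries Filter Topology

namespace Q207.HN

open Q207.HM Q207.HG Pool.Agent.Y113 Pool.Agent.Y120.GF Pool.Agent.Y120.GH Pool.Agent.Y120.R Q207.AF Pool.Agent.Y123.GN
open Pool.Agent.Y119.HY (Hf Gal Hc Rel cm Am E Ac_nil Vr E_add E_mul_neg E_isom)
open Pool.Agent.Y119.HZ (evq)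

variable {r : ℕ} {n : Fin r → ℕ} {α : ∀ j, Fin (n j) → ℚ}

/-- the logarithm and the entries of the solutions -/
abbrev Vj (n : Fin r → ℕ) : Type := Option (Σ j : Fin r, Fin (n j) × Fin (n j))

/-- the functions -/
noncomputable def PJ (v : Vj n) : MvPolynomial (Option (Fin (sz n * sz n))) ℂ :=
  v.elim (MvPolynomial.X none) fun v => Yp v.1 v.2.1 v.2.2

/-- the moved functions -/
noncomputable def PJ' (t : ℂ) (κ : ∀ j, Matrix (Fin (n j)) (Fin (n j)) ℂ) (v : Vj n) :
    MvPolynomial (Option (Fin (sz n * sz n))) ℂ :=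
  v.elim (MvPolynomial.X none + MvPolynomial.C t) fun v => ∑ c, Yp v.1 v.2.1 c * MvPolynomial.C (κ v.1 c v.2.2)

/-- the point -/
def vj (l : ℂ) (X : ∀ j, Matrix (Fin (n j)) (Fin (n j)) ℂ) (v : Vj n) : ℂ := v.elim l fun v => X v.1 v.2.1 v.2.2

lemma pw_PJ (z ℓ : ℂ) : pw (jsys (hb α)).hf PJ z ℓ = vj ℓ fun j => YL (α j) (1 / z) (-ℓ) := by
  funext v
  rcases v with _ | ⟨j, a, b⟩
  · unfold pw PJ
    show MvPolynomial.eval _ (MvPolynomial.X none) = ℓ
    rw [MvPolynomial.eval_X]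
    rfl
  · exact eval_Yp z ℓ j a b

lemma pw_PJ' (z ℓ t : ℂ) (κ : ∀ j, Matrix (Fin (n j)) (Fin (n j)) ℂ) :
    pw (jsys (hb α)).hf (PJ' t κ) z ℓ = vj (ℓ + t) fun j => YL (α j) (1 / z) (-ℓ) * κ j := by
  funext v
  rcases v with _ | ⟨j, a, b⟩
  · unfold pw PJ'
    show MvPolynomial.eval _ (MvPolynomial.X none + MvPolynomial.C t) = ℓ + t
    rw [map_add, MvPolynomial.eval_X, MvPolynomial.eval_C]
    rfl
  · unfold pw PJ'
    show MvPolynomial.eval _ (∑ c, Yp j a c * MvPolynomial.C (κ j c b)) = (YL (α j) (1 / z) (-ℓ) * κ j) a b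
    rw [map_sum, Matrix.mul_apply]
    refine Finset.sum_congr rfl fun c _ => ?_
    rw [map_mul, MvPolynomial.eval_C]
    congr 1
    exact eval_Yp z ℓ j a c

lemma PJ_deg (v : Vj n) : (PJ v).totalDegree ≤ 1 + sz n := by
  rcases v with _ | ⟨j, a, b⟩
  · show (MvPolynomial.X none : MvPolynomial (Option (Fin (sz n * sz n))) ℂ).totalDegree ≤ _
    rw [MvPolynomial.totalDegree_X]
    omega
  · have h1 := Pp_deg j (1 : Matrix (Fin (n j)) (Fin (n j)) ℂ) b a
    have h2 : Pp j (1 : Matrix (Fin (n j)) (Fin (n j)) ℂ) b a = Yp j a b := by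
      unfold Pp
      rw [Finset.sum_eq_single b]
      · rw [Matrix.one_apply_eq, map_one, one_mul]
      · intro c _ hc
        rw [Matrix.one_apply_ne (Ne.symm hc), map_zero, zero_mul]
      · intro h
        exact absurd (Finset.mem_univ _) h
    rw [h2] at h1
    exact h1

/-- the substitution -/
noncomputable def cvj (t : ℂ) : MvPolynomial (Vj n) (Polynomial ℂ) →+* MvPolynomial (Vr (sz n)) ℂ :=
  MvPolynomial.eval₂Hom (Polynomial.aeval (MvPolynomial.X none : MvPolynomial (Vr (sz n)) ℂ) :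
    Polynomial ℂ →ₐ[ℂ] MvPolynomial (Vr (sz n)) ℂ).toRingHom
    (fun v => v.elim (-MvPolynomial.X (some none) + MvPolynomial.C t) fun v =>
      ∑ c, MvPolynomial.X (some (some (finSigmaFinEquiv (⟨v.1, v.2.1⟩ : Σ j, Fin (n j)),
      finSigmaFinEquiv (⟨v.1, c⟩ : Σ j, Fin (n j))))) * MvPolynomial.C (E (cm (Am (n v.1))) (-t) c v.2.2))

lemma ev_cvj (t : ℂ) (R : MvPolynomial (Vj n) (Polynomial ℂ)) (x L : ℂ) (X : Bl n ℂ) :
    Pool.Agent.Y119.HY.ev (cvj t R) x L (BD X) =
      MvPolynomial.eval₂ (Polynomial.evalRingHom x) (vj (-L + t) fun j => X j * E (cm (Am (n j))) (-t)) R := by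
  have h1 : (MvPolynomial.eval (Pool.Agent.Y119.HY.pt x L (BD X))).comp (cvj t) =
      MvPolynomial.eval₂Hom (Polynomial.evalRingHom x) (vj (-L + t) fun j => X j * E (cm (Am (n j))) (-t)) := by
    refine MvPolynomial.ringHom_ext (fun q => ?_) fun v => ?_
    · rw [RingHom.comp_apply, cvj, MvPolynomial.eval₂Hom_C, MvPolynomial.eval₂Hom_C]
      simp only [AlgHom.toRingHom_eq_coe, RingHom.coe_coe, Polynomial.coe_evalRingHom]
      induction q using Polynomial.induction_on' with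
      | add p q hp hq => rw [map_add, map_add, Polynomial.eval_add, hp, hq]
      | monomial k a =>
        rw [Polynomial.aeval_monomial, Polynomial.eval_monomial, map_mul, map_pow, MvPolynomial.eval_X]
        congr 1
        exact MvPolynomial.eval_C _
    · rw [RingHom.comp_apply, cvj, MvPolynomial.eval₂Hom_X', MvPolynomial.eval₂Hom_X']
      rcases v with _ | ⟨j, a, b⟩
      · show MvPolynomial.eval _ (-MvPolynomial.X (some none) + MvPolynomial.C t) = -L + t
        rw [map_add, map_neg, MvPolynomial.eval_X, MvPolynomial.eval_C]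
        rfl
      · show MvPolynomial.eval _ (∑ c, MvPolynomial.X (some (some (finSigmaFinEquiv (⟨j, a⟩ : Σ j, Fin (n j)),
          finSigmaFinEquiv (⟨j, c⟩ : Σ j, Fin (n j))))) * MvPolynomial.C (E (cm (Am (n j))) (-t) c b)) =
          (X j * E (cm (Am (n j))) (-t)) a b
        rw [map_sum, Matrix.mul_apply]
        refine Finset.sum_congr rfl fun c _ => ?_
        rw [map_mul, MvPolynomial.eval_C, MvPolynomial.eval_X]
        congr 1
        exact BD_eq X j a c
  exact RingHom.congr_fun h1 R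

/-- **joint symmetries** -/
theorem Sy.satJ (h : Sy α) (t : ℂ) (κ : ∀ j, Matrix (Fin (n j)) (Fin (n j)) ℂ)
    (hκ : ∀ j, (κ j).transpose * K0 (n j) * κ j = K0 (n j)) : SatA (jsys (hb α)).hf PJ (PJ' t κ) := by
  classical
  intro R hR
  have hnil : ∀ j, cm (Am (n j)) ^ n j = 0 := fun j => Ac_nil
  have hall : ∀ s : ℝ, 1 < s → ∀ ℓ : ℂ, MvPolynomial.eval₂ (Polynomial.evalRingHom (1 / (s : ℂ)))
      (vj ℓ fun j => YL (α j) (1 / (s : ℂ)) (-ℓ)) R = 0 := by
    intro s hs ℓ
    have hn : (1 : ℝ) < ‖(s : ℂ)‖ := by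
      rw [Complex.norm_real, Real.norm_eq_abs]
      exact hs.trans_le (le_abs_self _)
    have h1 := point_all2 one_pos h.hmem PJ R hR hn ℓ
    rw [pw_PJ] at h1
    exact h1
  have hxs : ∀ x : ℝ, (1 / (((1 / x : ℝ)) : ℂ)) = (x : ℂ) := by
    intro x
    push_cast
    rw [one_div_one_div]
  have hRel : cvj t R ∈ Rel (jsys (hb α)).Y := by
    intro x hx0 hx1
    rw [Y_eq, ev_cvj]
    have h1 := hall (1 / x) (by rw [lt_div_iff₀ hx0, one_mul]; exact hx1) (-Complex.log (x : ℂ) + t)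
    rw [hxs] at h1
    have h2 : (fun j => YL (α j) (x : ℂ) (-(-Complex.log (x : ℂ) + t))) = fun j =>
        Yx (n j) (QA (α j)) x * E (cm (Am (n j))) (-t) := by
      funext j
      have h3 : -(-Complex.log (x : ℂ) + t) = Complex.log (x : ℂ) + -t := by ring
      unfold YL
      rw [h3, E_add (hnil j), ← Matrix.mul_assoc]
      rfl
    rw [h2] at h1
    exact h1
  have hG := gal_all h (fun j => κ j * E (cm (Am (n j))) t) fun j => by
    have h3 := E_isom (hnil j) (J := K0 (n j)) (Pool.Agent.Q195.HG.Cnc.rel1 (n := n j)) t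
    calc (κ j * E (cm (Am (n j))) t).transpose * K0 (n j) * (κ j * E (cm (Am (n j))) t) =
        (E (cm (Am (n j))) t).transpose * ((κ j).transpose * K0 (n j) * κ j) * E (cm (Am (n j))) t := by
          rw [Matrix.transpose_mul]
          simp only [Matrix.mul_assoc]
      _ = K0 (n j) := by rw [hκ, h3]
  filter_upwards [eventually_gt_atTop (1 : ℝ)] with s hs
  have hx0 : (0 : ℝ) < 1 / s := by positivity
  have hx1 : 1 / s < 1 := by rw [div_lt_one (by linarith)]; exact hs
  have h1 := hG _ hRel (1 / s) hx0 hx1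
  rw [Y_eq, ← BD_mul, ev_cvj] at h1
  rw [pw_PJ']
  have hlog : -Complex.log (((1 / s : ℝ)) : ℂ) = ((Real.log s : ℝ) : ℂ) := by
    rw [← Complex.ofReal_log hx0.le, one_div, Real.log_inv]
    push_cast
    ring
  rw [hlog] at h1
  have h3 : (fun j => Yx (n j) (QA (α j)) (1 / s) * (κ j * E (cm (Am (n j))) t) * E (cm (Am (n j))) (-t)) =
      fun j => YL (α j) (1 / (s : ℂ)) (-((Real.log s : ℝ) : ℂ)) * κ j := by
    funext j
    rw [Matrix.mul_assoc, Matrix.mul_assoc, E_mul_neg (hnil j), Matrix.mul_one]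
    congr 1
    rw [← hlog, neg_neg]
    have h4 : ((((1 / s : ℝ)) : ℂ)) = 1 / (s : ℂ) := by push_cast; rfl
    unfold YL
    rw [← h4]
    rfl
  rw [h3] at h1
  have h4 : ((((1 / s : ℝ)) : ℂ)) = 1 / (s : ℂ) := by push_cast; rfl
  rw [h4] at h1
  exact h1

end Q207.HN
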