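import Pool.Agent.Q207.HN.Sm

/-!
# Relations of bounded degree between the periods of sums of symplectic hypergeometric motives over number fields
-/

set_option autoImplicit false

open PowerSeries Filter Topology

namespace Q207.HN

open Q207.HM Q207.HG Pool.Agent.Y113 Pool.Agent.Y120.GF Pool.Agent.Y120.GH Pool.Agent.Y120.R Q207.AF Pool.Agent.Y123.GN
open Pool.Agent.Y916 Pool.Agent.Y123.SR
open Pool.Agent.Y119.HY (Hf Gal Hc Rel cm Am E Ac_nil Vr E_add E_mul_neg E_isom)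

variable {r : ℕ} {n : Fin r → ℕ} {α : ∀ j, Fin (n j) → ℚ} {k p : ℕ}

/-- the coordinates -/
abbrev Vq (k : ℕ) (n : Fin r → ℕ) (p : ℕ) : Type := Fin k × Option (Σ j : Fin r, Fin (n j) × Fin p)

/-- the point with the coordinates `l_i` and the entries of the matrices `X_{i j}` -/
def pq (l : Fin k → ℂ) (X : ∀ (_ : Fin k) (j : Fin r), Matrix (Fin (n j)) (Fin p) ℂ) (v : Vq k n p) : ℂ :=
  v.2.elim (l v.1) fun w => X v.1 w.1 w.2.1 w.2.2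

/-- relations of degree `≤ δ` over `V` are preserved -/
def GdJ (α : ∀ j, Fin (n j) → ℚ) (δ : ℕ) (V : Submodule ℚ ℂ) (Ω : ∀ (_ : Fin k) (j : Fin r), Matrix (Fin (n j)) (Fin p) ℂ)
    (a : Fin k → ℂ) : Prop :=
  ∀ ℓ : Fin k → ℂ, (∀ i, Complex.exp (ℓ i) = a i) → ∀ F : MvPolynomial (Vq k n p) ℂ, F.totalDegree ≤ δ →
    (∀ s, F.coeff s ∈ V) → MvPolynomial.eval (pq ℓ fun i j => YL (α j) (1 / a i) (-ℓ i) * Ω i j) F = 0 →
    ∀ (l : Fin k → ℂ) (κ : ∀ (_ : Fin k) (j : Fin r), Matrix (Fin (n j)) (Fin (n j)) ℂ),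
      (∀ i j, (κ i j).transpose * K0 (n j) * κ i j = K0 (n j)) →
      MvPolynomial.eval (pq l fun i j => YL (α j) (1 / a i) (-ℓ i) * κ i j * Ω i j) F = 0

/-- the substitution -/
noncomputable def Phq (Ω : ∀ (_ : Fin k) (j : Fin r), Matrix (Fin (n j)) (Fin p) ℂ) (v : Vq k n p) :
    MvPolynomial (Σ _ : Fin k, Vj n) ℂ :=
  v.2.elim (MvPolynomial.X ⟨v.1, none⟩) fun w =>
    ∑ b, MvPolynomial.C (Ω v.1 w.1 b w.2.2) * MvPolynomial.X ⟨v.1, some ⟨w.1, (w.2.1, b)⟩⟩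

lemma Phq_DC {W : Submodule ℚ ℂ} (h1 : (1 : ℂ) ∈ W) {Ω : ∀ (_ : Fin k) (j : Fin r), Matrix (Fin (n j)) (Fin p) ℂ}
    (hΩ : ∀ i j b c, Ω i j b c ∈ W) (v : Vq k n p) : DC 1 W (Phq Ω v) := by
  classical
  rcases v with ⟨i, _ | ⟨j, a, c⟩⟩
  · exact DCX h1 _
  · show DC 1 W (∑ b, MvPolynomial.C (Ω i j b c) * MvPolynomial.X (R := ℂ) (⟨i, some ⟨j, (a, b)⟩⟩ : Σ _ : Fin k, Vj n))
    refine DC.sum _ fun b _ => ⟨?_, fun s => ?_⟩
    · refine (MvPolynomial.totalDegree_mul _ _).trans ?_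
      rw [MvPolynomial.totalDegree_C, MvPolynomial.totalDegree_X]
    · rw [MvPolynomial.coeff_C_mul, MvPolynomial.coeff_X]
      split_ifs
      · rw [mul_one]
        exact hΩ i j b c
      · rw [mul_zero]
        exact W.zero_mem

lemma Phq_eval (Ω : ∀ (_ : Fin k) (j : Fin r), Matrix (Fin (n j)) (Fin p) ℂ) (l : Fin k → ℂ)
    (X : ∀ (_ : Fin k) (j : Fin r), Matrix (Fin (n j)) (Fin (n j)) ℂ) (v : Vq k n p) :
    MvPolynomial.aeval (fun v : Σ _ : Fin k, Vj n => vj (l v.1) (X v.1) v.2) (Phq Ω v) = pq l (fun i j => X i j * Ω i j) v := by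
  set f : (Σ _ : Fin k, Vj n) → ℂ := fun v => vj (l v.1) (X v.1) v.2 with hf
  rcases v with ⟨i, _ | ⟨j, a, c⟩⟩
  · exact MvPolynomial.aeval_X f (⟨i, none⟩ : Σ _ : Fin k, Vj n)
  · show MvPolynomial.aeval f (∑ b, MvPolynomial.C (Ω i j b c) * MvPolynomial.X (R := ℂ)
      (⟨i, some ⟨j, (a, b)⟩⟩ : Σ _ : Fin k, Vj n)) = (X i j * Ω i j) a c
    rw [map_sum, Matrix.mul_apply]
    refine Finset.sum_congr rfl fun b _ => ?_
    rw [map_mul, MvPolynomial.aeval_X, MvPolynomial.aeval_C, mul_comm]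
    rfl

/-- **almost all tuples of algebraic integers** -/
theorem sum_alg (h : Sy α) (k m : ℕ) (hm : 1 ≤ m) (δ D p : ℕ) :
    ∃ c : ℝ, 0 < c ∧ ∃ C : ℝ, 0 ≤ C ∧ ∃ B : Set ℂ, B.Finite ∧ ∀ V : Submodule ℚ ℂ, Module.Finite ℚ V →
      Module.finrank ℚ V ≤ D → ∀ Ω : ∀ (_ : Fin k) (j : Fin r), Matrix (Fin (n j)) (Fin p) ℂ, ∀ T : ℕ, 1 ≤ T →
        ({a : Fin k → ℂ | (∀ i, Sl.SInt m T (a i) ∧ a i ∉ B) ∧ ¬ GdJ α δ V Ω a}.ncard : ℝ) ≤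
          C * (T : ℝ) ^ (-c) * ({α : ℂ | Sl.SInt m T α}.ncard : ℝ) ^ k := by
  classical
  obtain ⟨T₀, A, hG⟩ := h.fam
  set ι : Type := Σ _ : Fin k, Σ j : Fin r, Fin (n j) × Fin p with hι
  obtain ⟨c, hc0, C, hC0, hmain⟩ := cnt_alg (k := k) (ν := fun _ => Vj n) hG h.conn m hm δ (1 + sz n)
    (D * (1 + Fintype.card ι + 1) ^ δ)
  obtain ⟨B, hBf, hB⟩ := hmain (fun _ => PJ) fun _ v => PJ_deg v
  refine ⟨c, hc0, C, hC0, B, hBf, fun V hVf hVD Ω T hT => ?_⟩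
  obtain ⟨hbf, hb1⟩ := bot_fin
  obtain ⟨W, hW1, hW2, hKW, hW3⟩ := exists_W' (⊥ : Subfield ℂ) (fun x : ι => Ω x.1 x.2.1 x.2.2.1 x.2.2.2)
  obtain ⟨hp1, hp2⟩ := finrank_pow_le W δ
  have hWD : Module.finrank ℚ W ≤ 1 + Fintype.card ι + 1 := by
    refine hW2.trans ?_
    omega
  have h1W : (1 : ℂ) ∈ W := hKW 1 (⊥ : Subfield ℂ).one_mem
  obtain ⟨hf1, hf2⟩ := Pool.Agent.Y113.finrank_mul_le V (W ^ δ)
  have hf3 : Module.finrank ℚ (V * W ^ δ : Submodule ℚ ℂ) ≤ D * (1 + Fintype.card ι + 1) ^ δ :=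
    hf2.trans (Nat.mul_le_mul hVD (hp2.trans (Nat.pow_le_pow_left hWD _)))
  refine le_trans ?_ (hB (V * W ^ δ) hf1 hf3 T hT)
  refine Nat.cast_le.2 (Set.ncard_le_ncard ?_ ?_)
  swap
  · refine (Set.Finite.pi (fun _ : Fin k => Sl.sint_fin m T)).subset ?_
    intro α hα i _
    exact (hα.1 i).1
  rintro a ⟨hα1, hα2⟩
  refine ⟨hα1, fun hgd => hα2 fun ℓ hℓ F hF1 hF2 hF0 l κ hκ => ?_⟩
  have hDC : DC δ (V * W ^ δ) (MvPolynomial.aeval (Phq Ω) F) :=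
    DC.subst' h1W (Phq Ω) (Phq_DC h1W fun i j b c => hW3 ⟨i, j, b, c⟩) ⟨hF1, hF2⟩
  have hcomp : ∀ (l : Fin k → ℂ) (X : ∀ (_ : Fin k) (j : Fin r), Matrix (Fin (n j)) (Fin (n j)) ℂ),
      MvPolynomial.eval (fun v : Σ _ : Fin k, Vj n => vj (l v.1) (X v.1) v.2) (MvPolynomial.aeval (Phq Ω) F) =
        MvPolynomial.eval (pq l fun i j => X i j * Ω i j) F := by
    intro l X
    have h1 := aeval_comp (Phq Ω) F (fun v : Σ _ : Fin k, Vj n => vj (l v.1) (X v.1) v.2)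
    rw [MvPolynomial.aeval_eq_eval] at h1
    refine Eq.trans h1 ?_
    congr 2
    funext v
    exact Phq_eval Ω l X v
  have h2 := hgd ℓ hℓ (MvPolynomial.aeval (Phq Ω) F) hDC.1 hDC.2 (by
    refine Eq.trans ?_ ((hcomp ℓ fun i j => YL (α j) (1 / a i) (-ℓ i)).trans hF0)
    congr 2
    funext v
    exact congrFun (pw_PJ (α := α) (a v.1) (ℓ v.1)) v.2) (fun i => PJ' (l i - ℓ i) (κ i)) fun i => h.satJ _ _ (hκ i)
  refine Eq.trans ?_ h2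
  refine ((hcomp l fun i j => YL (α j) (1 / a i) (-ℓ i) * κ i j).symm).trans ?_
  congr 2
  funext v
  have h3 := congrFun (pw_PJ' (α := α) (a v.1) (ℓ v.1) (l v.1 - ℓ v.1) (κ v.1)) v.2
  rw [h3]
  congr 1
  ring

end Q207.HN
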