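import Pool.Agent.Y123.ST.Out
import Pool.Agent.Y123.GN.E8
import Pool.Agent.Y122.HPDar
import Pool.Agent.Q207.HG.Yex

/-!
# Smallest subtorsors
-/

set_option autoImplicit false

open Matrix

namespace Q207.HN

open Pool.Agent.Y123.ST (SubT subT_iff)
open Pool.Agent.Y123.GN (EG IG GB EG_mul EG_one EG_inj EG_unit EG_isUnit EG_block_unit)

/-- the smallest `K`-subtorsor which contains `Z` -/
def PTo (K : Subfield ℂ) {B : Type} [Fintype B] [DecidableEq B] (Z : Matrix B B ℂ) : Set (Matrix B B ℂ) :=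
  {x | ∀ T, SubT K T → Z ∈ T → x ∈ T}

section gen

variable {K : Subfield ℂ} {B B' : Type} [Fintype B] [DecidableEq B] [Fintype B'] [DecidableEq B']

omit [Fintype B] [DecidableEq B] in
lemma vl_eq (x : Matrix B B ℂ) (p : MvPolynomial (B × B) K) :
    MvPolynomial.eval (fun b => x b.1 b.2) (MvPolynomial.map (algebraMap K ℂ) p) = MvPolynomial.aeval (fun b : B × B => x b.1 b.2) p := by
  rw [MvPolynomial.aeval_def, MvPolynomial.eval_map]

lemma gl_sub : SubT K {x : Matrix B B ℂ | IsUnit x} := by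
  refine ⟨fun x hx y hy z hz => ?_, ∅, fun x => ⟨fun h => ⟨h, fun p hp => hp.elim⟩, fun h => h.1⟩⟩
  have hx' : IsUnit x := hx
  have hy' : IsUnit y := hy
  have hz' : IsUnit z := hz
  exact (hx'.mul (by rw [Matrix.isUnit_nonsing_inv_iff]; exact hy')).mul hz'

lemma sub_unit {T : Set (Matrix B B ℂ)} (hT : SubT K T) {x : Matrix B B ℂ} (hx : x ∈ T) : IsUnit x := by
  obtain ⟨-, I, h⟩ := hT
  exact ((h x).1 hx).1

lemma pto_sub {Z : Matrix B B ℂ} (hZ : IsUnit Z) : SubT K (PTo K Z) := by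
  refine ⟨fun x hx y hy z hz T hT hZT => hT.1 _ (hx T hT hZT) _ (hy T hT hZT) _ (hz T hT hZT),
    {p | ∀ x ∈ PTo K Z, MvPolynomial.eval (fun b => x b.1 b.2) (MvPolynomial.map (algebraMap K ℂ) p) = 0}, fun x => ⟨fun hx => ?_, ?_⟩⟩
  · exact ⟨hx _ gl_sub hZ, fun p hp => hp x hx⟩
  · rintro ⟨h1, h2⟩ T hT hZT
    obtain ⟨-, I, hI⟩ := id hT
    rw [hI]
    exact ⟨h1, fun p hp => h2 p fun y hy => ((hI y).1 (hy T hT hZT)).2 p hp⟩

/-- polynomial functions over `K` of a matrix -/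
def Pol (K : Subfield ℂ) {B : Type} (g : Matrix B B ℂ → ℂ) : Prop :=
  ∃ p : MvPolynomial (B × B) K, ∀ x : Matrix B B ℂ, g x = MvPolynomial.aeval (fun b : B × B => x b.1 b.2) p

omit [Fintype B] [DecidableEq B] in
lemma pol_const {c : ℂ} (hc : c ∈ K) : Pol K fun _ : Matrix B B ℂ => c :=
  ⟨MvPolynomial.C ⟨c, hc⟩, fun x => by rw [MvPolynomial.aeval_C]; rfl⟩

omit [Fintype B] [DecidableEq B] in
lemma pol_coord (a b : B) : Pol K fun x : Matrix B B ℂ => x a b := ⟨MvPolynomial.X (a, b), fun x => by rw [MvPolynomial.aeval_X]⟩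

omit [Fintype B] [DecidableEq B] in
lemma Pol.add {f g : Matrix B B ℂ → ℂ} (hf : Pol K f) (hg : Pol K g) : Pol K fun x => f x + g x := by
  obtain ⟨p, hp⟩ := hf
  obtain ⟨q, hq⟩ := hg
  exact ⟨p + q, fun x => by rw [map_add, ← hp, ← hq]⟩

omit [Fintype B] [DecidableEq B] in
lemma Pol.mul {f g : Matrix B B ℂ → ℂ} (hf : Pol K f) (hg : Pol K g) : Pol K fun x => f x * g x := by
  obtain ⟨p, hp⟩ := hf
  obtain ⟨q, hq⟩ := hg
  exact ⟨p * q, fun x => by rw [map_mul, ← hp, ← hq]⟩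

omit [Fintype B] [DecidableEq B] in
lemma Pol.sub {f g : Matrix B B ℂ → ℂ} (hf : Pol K f) (hg : Pol K g) : Pol K fun x => f x - g x := by
  obtain ⟨p, hp⟩ := hf
  obtain ⟨q, hq⟩ := hg
  exact ⟨p - q, fun x => by rw [map_sub, ← hp, ← hq]⟩

omit [Fintype B] [DecidableEq B] in
lemma pol_sum {ι : Type} (s : Finset ι) {f : ι → Matrix B B ℂ → ℂ} (hf : ∀ i, Pol K (f i)) : Pol K fun x => ∑ i ∈ s, f i x := by
  choose p hp using hf
  exact ⟨∑ i ∈ s, p i, fun x => by rw [map_sum]; exact Finset.sum_congr rfl fun i _ => hp i x⟩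

/-- pull back -/
lemma sub_pull {T : Set (Matrix B B ℂ)} (hT : SubT K T) {f : Matrix B' B' ℂ → Matrix B B ℂ} (hf : ∀ a b, Pol K fun x => f x a b)
    {ι : Type} {g : ι → Matrix B' B' ℂ → ℂ} (hg : ∀ i, Pol K (g i)) (hE : ∀ x, IsUnit x → (∀ i, g i x = 0) → IsUnit (f x))
    (hcl : ∀ x y z : Matrix B' B' ℂ, (IsUnit x ∧ (∀ i, g i x = 0) ∧ f x ∈ T) → (IsUnit y ∧ (∀ i, g i y = 0) ∧ f y ∈ T) →
      (IsUnit z ∧ (∀ i, g i z = 0) ∧ f z ∈ T) → (∀ i, g i (x * y⁻¹ * z) = 0) ∧ f (x * y⁻¹ * z) ∈ T) :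
    SubT K {x : Matrix B' B' ℂ | IsUnit x ∧ (∀ i, g i x = 0) ∧ f x ∈ T} := by
  obtain ⟨h1, I, h2⟩ := id hT
  choose p hp using hg
  choose φ hφ using hf
  refine ⟨fun x hx y hy z hz => ⟨?_, hcl x y z hx hy hz⟩, Set.range p ∪ (MvPolynomial.bind₁ fun b : B × B => φ b.1 b.2) '' I, fun x => ?_⟩
  · exact (hx.1.mul (by rw [Matrix.isUnit_nonsing_inv_iff]; exact hy.1)).mul hz.1
  · have h3 : ∀ q : MvPolynomial (B × B) K, MvPolynomial.aeval (fun b : B' × B' => x b.1 b.2)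
        (MvPolynomial.bind₁ (fun b : B × B => φ b.1 b.2) q) = MvPolynomial.aeval (fun b : B × B => f x b.1 b.2) q := by
      intro q
      rw [MvPolynomial.aeval_bind₁]
      have h4 : (fun b : B × B => MvPolynomial.aeval (fun b : B' × B' => x b.1 b.2) (φ b.1 b.2)) = fun b : B × B => f x b.1 b.2 := by
        funext b
        exact (hφ b.1 b.2 x).symm
      rw [h4]
    constructor
    · rintro ⟨hx, hgx, hfx⟩
      refine ⟨hx, ?_⟩
      rintro q (⟨i, rfl⟩ | ⟨q, hq, rfl⟩)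
      · rw [vl_eq, ← hp]
        exact hgx i
      · rw [vl_eq, h3, ← vl_eq]
        exact ((h2 _).1 hfx).2 q hq
    · rintro ⟨hx, hq⟩
      have hgx : ∀ i, g i x = 0 := fun i => by
        rw [hp, ← vl_eq]
        exact hq _ (Or.inl ⟨i, rfl⟩)
      refine ⟨hx, hgx, (h2 _).2 ⟨hE x hx hgx, fun q hqI => ?_⟩⟩
      rw [vl_eq, ← h3, ← vl_eq]
      exact hq _ (Or.inr ⟨q, hqI, rfl⟩)

end gen

section block

variable {k w : ℕ} {n : Fin k → ℕ}

/-- the block of an index -/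
def blk : IG (Fin w) n → Option (Fin k)
  | Sum.inl _ => none
  | Sum.inr s => some s.1

/-- the blocks -/
def bl (m : Matrix (IG (Fin w) n) (IG (Fin w) n) ℂ) (i : Fin k) : Matrix (Fin (n i)) (Fin (n i)) ℂ :=
  Matrix.of fun a b => m (Sum.inr ⟨i, a⟩) (Sum.inr ⟨i, b⟩)

lemma EG_off (x : Matrix (Fin w) (Fin w) ℂ) (X : ∀ i, Matrix (Fin (n i)) (Fin (n i)) ℂ) {a b : IG (Fin w) n} (h : blk a ≠ blk b) :
    EG x X a b = 0 := by
  rcases a with a | ⟨i, a⟩ <;> rcases b with b | ⟨j, b⟩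
  · exact absurd rfl h
  · rfl
  · rfl
  · have h1 : i ≠ j := fun h2 => h (congrArg some h2)
    exact Matrix.blockDiagonal'_apply_ne X a b h1

lemma EG_bl (x : Matrix (Fin w) (Fin w) ℂ) (X : ∀ i, Matrix (Fin (n i)) (Fin (n i)) ℂ) : bl (EG x X) = X := by
  funext i
  ext a b
  exact Matrix.blockDiagonal'_apply_eq X i a b

lemma EG_11 (x : Matrix (Fin w) (Fin w) ℂ) (X : ∀ i, Matrix (Fin (n i)) (Fin (n i)) ℂ) : (EG x X).toBlocks₁₁ = x := rfl

lemma blk_eq {m : Matrix (IG (Fin w) n) (IG (Fin w) n) ℂ} (h : ∀ a b, blk a ≠ blk b → m a b = 0) : m = EG m.toBlocks₁₁ (bl m) := by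
  ext a b
  by_cases hab : blk a = blk b
  · rcases a with a | ⟨i, a⟩ <;> rcases b with b | ⟨j, b⟩
    · rfl
    · exact absurd hab (by simp [blk])
    · exact absurd hab (by simp [blk])
    · obtain rfl : i = j := Option.some.inj hab
      exact (Matrix.blockDiagonal'_apply_eq (bl m) i a b).symm
  · rw [h a b hab, EG_off _ _ hab]

lemma EG_inv {x : Matrix (Fin w) (Fin w) ℂ} {X : ∀ i, Matrix (Fin (n i)) (Fin (n i)) ℂ} (h : IsUnit (EG x X)) :
    (EG x X)⁻¹ = EG x⁻¹ fun i => (X i)⁻¹ := by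
  refine Matrix.inv_eq_right_inv ?_
  rw [EG_mul, Matrix.mul_nonsing_inv _ ((Matrix.isUnit_iff_isUnit_det _).1 (EG_unit h))]
  have h1 : (fun i => X i * (X i)⁻¹) = 1 := by
    funext i
    exact Matrix.mul_nonsing_inv _ ((Matrix.isUnit_iff_isUnit_det _).1 (EG_block_unit h i))
  rw [h1, EG_one]

lemma EG_tri {x y z : Matrix (Fin w) (Fin w) ℂ} {X Y Z : ∀ i, Matrix (Fin (n i)) (Fin (n i)) ℂ} (hy : IsUnit (EG y Y)) :
    EG x X * (EG y Y)⁻¹ * EG z Z = EG (x * y⁻¹ * z) fun i => X i * (Y i)⁻¹ * Z i := by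
  rw [EG_inv hy, EG_mul, EG_mul]

end block

section sec

open Q207.HG (K0 K0q K0q_map K0_tr K0_unit)

/-- the entries of a matrix over `K` -/
noncomputable abbrev cK {K : Subfield ℂ} {m : ℕ} (A : Matrix (Fin m) (Fin m) K) : Matrix (Fin m) (Fin m) ℂ := A.map (algebraMap K ℂ)

lemma cK_mul {K : Subfield ℂ} {m : ℕ} (A B : Matrix (Fin m) (Fin m) K) : cK (A * B) = cK A * cK B := Matrix.map_mul

lemma cK_det {K : Subfield ℂ} {m : ℕ} {A : Matrix (Fin m) (Fin m) K} (h : A.det ≠ 0) : (cK A).det ≠ 0 := by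
  have h1 : (cK A).det = algebraMap K ℂ A.det := (RingHom.map_det (algebraMap K ℂ) A).symm
  rw [h1]
  exact fun h2 => h ((algebraMap K ℂ).injective (h2.trans (map_zero _).symm))

/-- the form over `K` -/
noncomputable def K0K (K : Subfield ℂ) (m : ℕ) : Matrix (Fin m) (Fin m) K := (K0q m).map (algebraMap ℚ K)

lemma K0K_map (K : Subfield ℂ) (m : ℕ) : cK (K0K K m) = K0 m := by
  rw [← K0q_map]
  ext a b
  show algebraMap K ℂ (algebraMap ℚ K (K0q m a b)) = algebraMap ℚ ℂ (K0q m a b)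
  exact (IsScalarTower.algebraMap_apply ℚ K ℂ _).symm

lemma diag_zero {K : Subfield ℂ} {m : ℕ} {A : Matrix (Fin m) (Fin m) K} (h : A.transpose = -A) (i : Fin m) : A i i = 0 := by
  have h1 := congrFun (congrFun h i) i
  rw [Matrix.transpose_apply, Matrix.neg_apply] at h1
  exact self_eq_neg.1 h1

lemma K0K_skew (K : Subfield ℂ) {m : ℕ} (h2 : 2 ≤ m) (he : Even m) : (K0K K m).transpose = -K0K K m := by
  have hsk : (K0 m).transpose = -K0 m := by
    rw [K0_tr]
    have h1 : Odd (m - 1) := by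
      obtain ⟨a, ha⟩ := he
      exact ⟨a - 1, by omega⟩
    rw [h1.neg_one_pow, neg_one_smul]
  rw [← K0K_map K] at hsk
  ext a b
  have h1 : algebraMap K ℂ (K0K K m b a) = -algebraMap K ℂ (K0K K m a b) := congrFun (congrFun hsk a) b
  exact (congrArg Subtype.val (show K0K K m b a = -K0K K m a b from (algebraMap K ℂ).injective (by rw [map_neg]; exact h1)))

lemma K0K_det (K : Subfield ℂ) (m : ℕ) : (K0K K m).det ≠ 0 := by
  intro h
  have h1 : (cK (K0K K m)).det = algebraMap K ℂ (K0K K m).det := (RingHom.map_det (algebraMap K ℂ) _).symm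
  rw [h, map_zero, K0K_map] at h1
  exact ((Matrix.isUnit_iff_isUnit_det _).1 (K0_unit (n := m))).ne_zero h1

/-- **a section of the multiplier over `K`** -/
lemma ex_sec {K : Subfield ℂ} {m : ℕ} (h2 : 2 ≤ m) (he : Even m) {S B : Matrix (Fin m) (Fin m) K} (hS : S.transpose = -S)
    (hSd : S.det ≠ 0) (hB : B.transpose = -B) (hBd : B.det ≠ 0) : ∃ Xs : ℂ → Matrix (Fin m) (Fin m) ℂ,
      (∀ μ, Xs μ * cK S * (Xs μ).transpose = μ • cK B) ∧ ∀ a b, ∃ u v : K, ∀ μ, Xs μ a b = u + v * μ := by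
  obtain ⟨U, -, hU⟩ := Pool.Agent.Y122.HPDar.darboux S (K0K K m) hS (diag_zero hS) hSd (K0K_skew K h2 he) (diag_zero (K0K_skew K h2 he))
    (K0K_det K m)
  obtain ⟨V, -, hV⟩ := Pool.Agent.Y122.HPDar.darboux (K0K K m) B (K0K_skew K h2 he) (diag_zero (K0K_skew K h2 he)) (K0K_det K m) hB
    (diag_zero hB) hBd
  set D : ℂ → Matrix (Fin m) (Fin m) ℂ := fun μ => Matrix.diagonal fun a => if (a : ℕ) < m / 2 then μ else 1 with hD
  have hDK : ∀ μ, D μ * K0 m * (D μ).transpose = μ • K0 m := by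
    intro μ
    rw [hD, Matrix.diagonal_transpose]
    ext a b
    rw [Matrix.mul_diagonal, Matrix.diagonal_mul, Matrix.smul_apply, smul_eq_mul]
    unfold K0
    rw [Matrix.of_apply]
    obtain ⟨c, hc⟩ := he
    have ha := a.isLt
    have hb := b.isLt
    split_ifs with h3 h4 h5 <;> first | omega | ring
  refine ⟨fun μ => cK V * D μ * cK U, fun μ => ?_, fun a b => ?_⟩
  · calc cK V * D μ * cK U * cK S * (cK V * D μ * cK U).transpose =
        cK V * D μ * (cK U * cK S * (cK U).transpose) * (D μ).transpose * (cK V).transpose := by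
          rw [Matrix.transpose_mul, Matrix.transpose_mul]
          simp only [Matrix.mul_assoc]
      _ = cK V * (D μ * K0 m * (D μ).transpose) * (cK V).transpose := by
          have h3 : cK U * cK S * (cK U).transpose = K0 m := by
            rw [← K0K_map K, ← hU, cK_mul, cK_mul]
            rfl
          rw [h3]
          simp only [Matrix.mul_assoc]
      _ = μ • cK B := by
          rw [hDK, Matrix.mul_smul, Matrix.smul_mul]
          congr 1
          rw [← hV, cK_mul, cK_mul, K0K_map]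
          rfl
  · refine ⟨∑ c : Fin m, if (c : ℕ) < m / 2 then 0 else V a c * U c b, ∑ c : Fin m, if (c : ℕ) < m / 2 then V a c * U c b else 0, fun μ => ?_⟩
    show (cK V * D μ * cK U) a b = _
    rw [Matrix.mul_apply]
    simp only [hD, Matrix.mul_diagonal, Matrix.map_apply]
    push_cast
    rw [Finset.sum_mul, ← Finset.sum_add_distrib]
    refine Finset.sum_congr rfl fun c _ => ?_
    have e1 : ∀ z : K, algebraMap K ℂ z = (z : ℂ) := fun z => rfl
    rw [e1, e1]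
    split_ifs
    · push_cast
      ring
    · push_cast
      ring

end sec

end Q207.HN
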