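import Pool.Agent.Q207.HN.Ta

/-!
# The smallest subtorsor of a sum
-/

set_option autoImplicit false

open Matrix

namespace Q207.HN

open Pool.Agent.Y123.ST (SubT subT_iff)
open Pool.Agent.Y123.GN (EG IG GB EG_mul EG_one EG_inj EG_unit EG_isUnit EG_block_unit Spf fibre_full)

variable {k w : ℕ} {n : Fin k → ℕ}

/-- lines -/
def Ln (μ : Fin k → ℂ) (i : Fin k) : Matrix (Fin 1) (Fin 1) ℂ := Matrix.of fun _ _ => μ i

lemma Ln_inj {μ ν : Fin k → ℂ} (h : Ln μ = Ln ν) : μ = ν := by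
  funext i
  exact congrFun (congrFun (congrFun h i) 0) 0

lemma Ln_mul (μ ν : Fin k → ℂ) (i : Fin k) : Ln μ i * Ln ν i = Ln (fun i => μ i * ν i) i := by
  ext a b
  rw [Matrix.mul_apply, Fin.sum_univ_one]
  rfl

lemma Ln_inv (μ : Fin k → ℂ) (i : Fin k) (h : μ i ≠ 0) : (Ln μ i)⁻¹ = Ln (fun i => (μ i)⁻¹) i := by
  refine Matrix.inv_eq_right_inv ?_
  rw [Ln_mul]
  ext a b
  show μ i * (μ i)⁻¹ = (1 : Matrix (Fin 1) (Fin 1) ℂ) a b
  rw [mul_inv_cancel₀ h, Subsingleton.elim a b, Matrix.one_apply_eq]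

lemma Ln_unit {μ : Fin k → ℂ} {i : Fin k} : IsUnit (Ln μ i) ↔ μ i ≠ 0 := by
  rw [Matrix.isUnit_iff_isUnit_det, Matrix.det_unique, isUnit_iff_ne_zero]
  rfl

lemma mult_ne {m : ℕ} (hm : 0 < m) {X S B : Matrix (Fin m) (Fin m) ℂ} {μ : ℂ} (hX : IsUnit X) (hS : S.det ≠ 0)
    (h : X * S * X.transpose = μ • B) : μ ≠ 0 := by
  rintro rfl
  have h1 := congrArg Matrix.det h
  rw [Matrix.det_mul, Matrix.det_mul, Matrix.det_transpose, zero_smul] at h1
  have : Nonempty (Fin m) := ⟨⟨0, hm⟩⟩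
  rw [Matrix.det_zero] at h1
  have hd := ((Matrix.isUnit_iff_isUnit_det _).1 hX).ne_zero
  exact mul_ne_zero (mul_ne_zero hd hS) hd h1

lemma mult_tri {m : ℕ} {X Y Z S B : Matrix (Fin m) (Fin m) ℂ} {μ ν κ : ℂ} (hY : IsUnit Y) (hν : ν ≠ 0)
    (h1 : X * S * X.transpose = μ • B) (h2 : Y * S * Y.transpose = ν • B) (h3 : Z * S * Z.transpose = κ • B) :
    (X * Y⁻¹ * Z) * S * (X * Y⁻¹ * Z).transpose = (μ * ν⁻¹ * κ) • B := by
  have hd := (Matrix.isUnit_iff_isUnit_det _).1 hY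
  have hdT : IsUnit Y.transpose.det := by rwa [Matrix.det_transpose]
  have h4 : Y⁻¹ * B * Y⁻¹.transpose = ν⁻¹ • S := by
    have e1 : B = ν⁻¹ • (Y * S * Y.transpose) := by rw [h2, smul_smul, inv_mul_cancel₀ hν, one_smul]
    rw [e1, Matrix.mul_smul, Matrix.smul_mul]
    congr 1
    rw [Matrix.transpose_nonsing_inv]
    calc Y⁻¹ * (Y * S * Y.transpose) * Y.transpose⁻¹ = (Y⁻¹ * Y) * S * (Y.transpose * Y.transpose⁻¹) := by simp only [Matrix.mul_assoc]
      _ = S := by rw [Matrix.nonsing_inv_mul _ hd, Matrix.mul_nonsing_inv _ hdT, Matrix.one_mul, Matrix.mul_one]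
  calc (X * Y⁻¹ * Z) * S * (X * Y⁻¹ * Z).transpose = X * Y⁻¹ * (Z * S * Z.transpose) * Y⁻¹.transpose * X.transpose := by
        rw [Matrix.transpose_mul, Matrix.transpose_mul]
        simp only [Matrix.mul_assoc]
    _ = κ • (X * (Y⁻¹ * B * Y⁻¹.transpose) * X.transpose) := by
        rw [h3]
        simp only [Matrix.mul_smul, Matrix.smul_mul, Matrix.mul_assoc]
    _ = (μ * ν⁻¹ * κ) • B := by
        rw [h4, Matrix.mul_smul, Matrix.smul_mul, h1, smul_smul, smul_smul]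
        congr 1
        ring

/-- the relations of the blocks -/
def Off (n : Fin k → ℕ) (w : ℕ) : Type := {p : IG (Fin w) n × IG (Fin w) n // blk p.1 ≠ blk p.2}

section main

variable {K : Subfield ℂ} {C₀ : Matrix (Fin w) (Fin w) ℂ} {P : ∀ i, Matrix (Fin (n i)) (Fin (n i)) ℂ} {γ : Fin k → ℂ}
  {S B : ∀ i, Matrix (Fin (n i)) (Fin (n i)) K}

/-- the formula -/
def Fm (K : Subfield ℂ) (C₀ : Matrix (Fin w) (Fin w) ℂ) (γ : Fin k → ℂ) (s b : ∀ i, Matrix (Fin (n i)) (Fin (n i)) ℂ) :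
    Set (Matrix (IG (Fin w) n) (IG (Fin w) n) ℂ) :=
  {y | ∃ (x₀ : Matrix (Fin w) (Fin w) ℂ) (X : ∀ i, Matrix (Fin (n i)) (Fin (n i)) ℂ) (μ : Fin k → ℂ), y = EG x₀ X ∧
    EG x₀ (Ln μ) ∈ PTo K (EG C₀ (Ln γ)) ∧ ∀ i, X i * s i * (X i).transpose = μ i • b i}

/-- the smallest subtorsor is contained in the formula -/
theorem pto_le (h2 : ∀ i, 2 ≤ n i) (hS : ∀ i, (S i).det ≠ 0) (hBd : ∀ i, (B i).det ≠ 0) (hC₀ : IsUnit C₀)
    (hγ : ∀ i, γ i ≠ 0) (hform : ∀ i, P i * cK (S i) * (P i).transpose = γ i • cK (B i)) :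
    PTo K (EG C₀ P) ⊆ Fm K C₀ γ (fun i => cK (S i)) (fun i => cK (B i)) := by
  classical
  have hZ : IsUnit (EG C₀ (Ln γ)) := EG_isUnit hC₀ fun i => Ln_unit.2 (hγ i)
  have hT := pto_sub (K := K) hZ
  have hBe : ∀ i, ∃ a b, B i a b ≠ 0 := by
    intro i
    by_contra hcon
    push Not at hcon
    apply hBd i
    have h3 : B i = 0 := by ext a b; exact congrArg _ (hcon a b)
    have : Nonempty (Fin (n i)) := ⟨⟨0, by have := h2 i; omega⟩⟩
    rw [h3, Matrix.det_zero]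
  choose a₀ b₀ hab using hBe
  have habC : ∀ i, cK (B i) (a₀ i) (b₀ i) ≠ 0 := fun i h3 => hab i ((algebraMap K ℂ).injective (h3.trans (map_zero _).symm))
  set tr : Matrix (IG (Fin w) n) (IG (Fin w) n) ℂ → ∀ i, Matrix (Fin (n i)) (Fin (n i)) ℂ := fun y i =>
    bl y i * cK (S i) * (bl y i).transpose with htr
  set mu : Matrix (IG (Fin w) n) (IG (Fin w) n) ℂ → Fin k → ℂ := fun y i => tr y i (a₀ i) (b₀ i) * (cK (B i) (a₀ i) (b₀ i))⁻¹ with hmu
  have hpt : ∀ i a b, Pol K fun y : Matrix (IG (Fin w) n) (IG (Fin w) n) ℂ => tr y i a b := by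
    intro i a b
    have h3 : (fun y : Matrix (IG (Fin w) n) (IG (Fin w) n) ℂ => tr y i a b) = fun y => ∑ d : Fin (n i), (∑ c : Fin (n i),
        y (Sum.inr ⟨i, a⟩) (Sum.inr ⟨i, c⟩) * cK (S i) c d) * y (Sum.inr ⟨i, b⟩) (Sum.inr ⟨i, d⟩) := by
      funext y
      rw [htr]
      simp only [Matrix.mul_apply, Matrix.transpose_apply]
      rfl
    rw [h3]
    exact pol_sum _ fun d => (pol_sum _ fun c => (pol_coord _ _).mul (pol_const (S i c d).2)).mul (pol_coord _ _)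
  have hpm : ∀ i, Pol K fun y : Matrix (IG (Fin w) n) (IG (Fin w) n) ℂ => mu y i := fun i =>
    (hpt i _ _).mul (pol_const (K.inv_mem (B i (a₀ i) (b₀ i)).2))
  have hmuE : ∀ (x₀ : Matrix (Fin w) (Fin w) ℂ) (X : ∀ i, Matrix (Fin (n i)) (Fin (n i)) ℂ) (μ : Fin k → ℂ),
      (∀ i, X i * cK (S i) * (X i).transpose = μ i • cK (B i)) → mu (EG x₀ X) = μ := by
    intro x₀ X μ h3
    funext i
    show (bl (EG x₀ X) i * cK (S i) * (bl (EG x₀ X) i).transpose) (a₀ i) (b₀ i) * (cK (B i) (a₀ i) (b₀ i))⁻¹ = μ i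
    rw [EG_bl, h3, Matrix.smul_apply, smul_eq_mul, mul_assoc, mul_inv_cancel₀ (habC i), mul_one]
  set f : Matrix (IG (Fin w) n) (IG (Fin w) n) ℂ → Matrix (IG (Fin w) fun _ : Fin k => 1) (IG (Fin w) fun _ : Fin k => 1) ℂ :=
    fun y => EG y.toBlocks₁₁ (Ln (mu y)) with hf
  have hpf : ∀ a b, Pol K fun y => f y a b := by
    rintro (a | ⟨i, a⟩) (b | ⟨j, b⟩)
    · exact pol_coord (Sum.inl a) (Sum.inl b)
    · exact pol_const K.zero_mem
    · exact pol_const K.zero_mem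
    · by_cases hij : i = j
      · subst hij
        have h3 : (fun y => f y (Sum.inr ⟨i, a⟩) (Sum.inr ⟨i, b⟩)) = fun y => mu y i := by
          funext y
          exact Matrix.blockDiagonal'_apply_eq (Ln (mu y)) i a b
        rw [h3]
        exact hpm i
      · have h3 : (fun y => f y (Sum.inr ⟨i, a⟩) (Sum.inr ⟨j, b⟩)) = fun _ => 0 := by
          funext y
          exact Matrix.blockDiagonal'_apply_ne (Ln (mu y)) a b hij
        rw [h3]
        exact pol_const K.zero_mem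
  set g : (Off n w ⊕ (Σ i, Fin (n i) × Fin (n i))) → Matrix (IG (Fin w) n) (IG (Fin w) n) ℂ → ℂ :=
    Sum.elim (fun p y => y p.1.1 p.1.2) (fun q y => tr y q.1 q.2.1 q.2.2 - mu y q.1 * cK (B q.1) q.2.1 q.2.2) with hg
  have hpg : ∀ i, Pol K (g i) := by
    rintro (p | q)
    · exact pol_coord _ _
    · exact (hpt _ _ _).sub ((hpm _).mul (pol_const (B q.1 q.2.1 q.2.2).2))
  have hgz : ∀ y, (∀ i, g i y = 0) ↔ (∀ a b, blk a ≠ blk b → y a b = 0) ∧ ∀ i, tr y i = mu y i • cK (B i) := by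
    intro y
    constructor
    · intro h3
      refine ⟨fun a b hab => h3 (Sum.inl ⟨(a, b), hab⟩), fun i => ?_⟩
      ext a b
      have h4 := h3 (Sum.inr ⟨i, (a, b)⟩)
      exact sub_eq_zero.1 h4
    · rintro ⟨h3, h4⟩ (p | q)
      · exact h3 _ _ p.2
      · have h5 := congrFun (congrFun (h4 q.1) q.2.1) q.2.2
        show tr y q.1 q.2.1 q.2.2 - mu y q.1 * cK (B q.1) q.2.1 q.2.2 = 0
        rw [h5]
        exact sub_self _
  -- the formula
  have hset : Fm K C₀ γ (fun i => cK (S i)) (fun i => cK (B i)) =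
      {y | IsUnit y ∧ (∀ i, g i y = 0) ∧ f y ∈ PTo K (EG C₀ (Ln γ))} := by
    ext y
    constructor
    · rintro ⟨x₀, X, μ, rfl, h3, h4⟩
      have h5 := sub_unit hT h3
      have h6 : ∀ i, μ i ≠ 0 := fun i => Ln_unit.1 (EG_block_unit h5 i)
      have h7 : ∀ i, IsUnit (X i) := by
        intro i
        rw [Matrix.isUnit_iff_isUnit_det, isUnit_iff_ne_zero]
        intro h8
        have h9 := congrArg Matrix.det (h4 i)
        rw [Matrix.det_mul, Matrix.det_mul, h8, zero_mul, zero_mul, Matrix.det_smul] at h9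
        exact mul_ne_zero (pow_ne_zero _ (h6 i)) (cK_det (hBd i)) h9.symm
      have h8 := hmuE x₀ X μ h4
      refine ⟨EG_isUnit (EG_unit h5) h7, (hgz _).2 ⟨fun a b hab => EG_off _ _ hab, fun i => ?_⟩, ?_⟩
      · show bl (EG x₀ X) i * cK (S i) * (bl (EG x₀ X) i).transpose = _
        rw [h8, EG_bl]
        exact h4 i
      · show EG (EG x₀ X).toBlocks₁₁ (Ln (mu (EG x₀ X))) ∈ _
        rw [h8]
        exact h3
    · rintro ⟨h3, h4, h5⟩
      obtain ⟨h6, h7⟩ := (hgz y).1 h4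
      exact ⟨y.toBlocks₁₁, bl y, mu y, blk_eq h6, h5, h7⟩
  have hsub : SubT K (Fm K C₀ γ (fun i => cK (S i)) (fun i => cK (B i))) := by
    rw [hset]
    refine sub_pull hT hpf hpg (fun y hy hgy => ?_) fun x y z hx hy hz => ?_
    · obtain ⟨h6, h7⟩ := (hgz y).1 hgy
      have h8 := blk_eq h6
      rw [h8] at hy
      refine EG_isUnit (EG_unit hy) fun i => Ln_unit.2 ?_
      exact mult_ne (by have := h2 i; omega) (EG_block_unit hy i) (cK_det (hS i)) (h7 i)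
    · have hx' : x ∈ Fm K C₀ γ (fun i => cK (S i)) (fun i => cK (B i)) := by rw [hset]; exact hx
      have hy' : y ∈ Fm K C₀ γ (fun i => cK (S i)) (fun i => cK (B i)) := by rw [hset]; exact hy
      have hz' : z ∈ Fm K C₀ γ (fun i => cK (S i)) (fun i => cK (B i)) := by rw [hset]; exact hz
      have key : x * y⁻¹ * z ∈ Fm K C₀ γ (fun i => cK (S i)) (fun i => cK (B i)) := by
        obtain ⟨x₀, X, μ, rfl, h3, h4⟩ := hx'
        obtain ⟨y₀, Y, ν, rfl, h5, h6⟩ := hy'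
        obtain ⟨z₀, Z, κ, rfl, h7, h8⟩ := hz'
        have h9 := hT.1 _ h3 _ h5 _ h7
        have h10 := sub_unit hT h5
        have hν : ∀ i, ν i ≠ 0 := fun i => Ln_unit.1 (EG_block_unit h10 i)
        rw [EG_tri h10] at h9
        refine ⟨x₀ * y₀⁻¹ * z₀, fun i => X i * (Y i)⁻¹ * Z i, fun i => μ i * (ν i)⁻¹ * κ i, EG_tri hy.1, ?_, fun i =>
          mult_tri (EG_block_unit hy.1 i) (hν i) (h4 i) (h6 i) (h8 i)⟩
        have h11 : (fun i => Ln μ i * (Ln ν i)⁻¹ * Ln κ i) = Ln fun i => μ i * (ν i)⁻¹ * κ i := by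
          funext i
          rw [Ln_inv _ _ (hν i), Ln_mul, Ln_mul]
        rw [h11] at h9
        exact h9
      rw [hset] at key
      exact key.2
  have hmem : EG C₀ P ∈ Fm K C₀ γ (fun i => cK (S i)) (fun i => cK (B i)) :=
    ⟨C₀, P, γ, rfl, fun T hT hZT => hZT, hform⟩
  exact fun y hy => hy _ hsub hmem

/-- the formula is contained in the smallest subtorsor -/
theorem le_pto (h2 : ∀ i, 2 ≤ n i) (he : ∀ i, Even (n i)) (hS : ∀ i, (S i).det ≠ 0) (hSs : ∀ i, (S i).transpose = -S i)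
    (hBd : ∀ i, (B i).det ≠ 0) (hBs : ∀ i, (B i).transpose = -B i) (hC₀ : IsUnit C₀)
    (hγ : ∀ i, γ i ≠ 0) (hform : ∀ i, P i * cK (S i) * (P i).transpose = γ i • cK (B i))
    (hst : ∀ T, SubT K T → EG C₀ P ∈ T → ∀ g : ∀ i, (Matrix (Fin (n i)) (Fin (n i)) ℂ)ˣ, (∀ i, g i ∈ GB (cK (B i))) →
      ∀ x ∈ T, EG 1 (fun i => (g i : Matrix (Fin (n i)) (Fin (n i)) ℂ)) * x ∈ T) :
    Fm K C₀ γ (fun i => cK (S i)) (fun i => cK (B i)) ⊆ PTo K (EG C₀ P) := by
  classical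
  rintro _ ⟨x₁, X₁, μ₁, rfl, hx₁, hX₁⟩ T hT hcT
  have hT' := subT_iff.1 hT
  have hspf : ∀ i, Spf (cK (B i)) := by
    intro i
    refine ⟨(Matrix.isUnit_iff_isUnit_det _).2 (isUnit_iff_ne_zero.2 (cK_det (hBd i))), ?_⟩
    ext a b
    have h3 := congrFun (congrFun (hBs i) a) b
    show algebraMap K ℂ (B i b a) = -algebraMap K ℂ (B i a b)
    rw [← map_neg]
    exact congrArg _ h3
  choose Xs hXs hXa using fun i => ex_sec (h2 i) (he i) (hSs i) (hS i) (hBs i) (hBd i)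
  have hXu : ∀ i μ, μ ≠ 0 → IsUnit (Xs i μ) := by
    intro i μ hμ
    rw [Matrix.isUnit_iff_isUnit_det, isUnit_iff_ne_zero]
    intro h8
    have h9 := congrArg Matrix.det (hXs i μ)
    rw [Matrix.det_mul, Matrix.det_mul, h8, zero_mul, zero_mul, Matrix.det_smul] at h9
    exact mul_ne_zero (pow_ne_zero _ hμ) (cK_det (hBd i)) h9.symm
  have hfull : ∀ {x₀ : Matrix (Fin w) (Fin w) ℂ} {X Y : ∀ i, Matrix (Fin (n i)) (Fin (n i)) ℂ} {μ : Fin k → ℂ},
      (∀ i, μ i ≠ 0) → EG x₀ X ∈ T → (∀ i, X i * cK (S i) * (X i).transpose = μ i • cK (B i)) →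
      (∀ i, Y i * cK (S i) * (Y i).transpose = μ i • cK (B i)) → EG x₀ Y ∈ T := fun hμ hx hX hY =>
    fibre_full hT' (hst T hT hcT) hμ hx hX hY fun i => Or.inl (hspf i)
  -- the multiplier of the last entry
  set f : Matrix (IG (Fin w) fun _ : Fin k => 1) (IG (Fin w) fun _ : Fin k => 1) ℂ → Matrix (IG (Fin w) n) (IG (Fin w) n) ℂ :=
    fun y => EG y.toBlocks₁₁ fun i => Xs i (bl y i 0 0) with hf
  have hpf : ∀ a b, Pol K fun y => f y a b := by
    rintro (a | ⟨i, a⟩) (b | ⟨j, b⟩)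
    · exact pol_coord (Sum.inl a) (Sum.inl b)
    · exact pol_const K.zero_mem
    · exact pol_const K.zero_mem
    · by_cases hij : i = j
      · subst hij
        obtain ⟨u, v, huv⟩ := hXa i a b
        have h3 : (fun y => f y (Sum.inr ⟨i, a⟩) (Sum.inr ⟨i, b⟩)) = fun y : Matrix (IG (Fin w) fun _ : Fin k => 1)
            (IG (Fin w) fun _ : Fin k => 1) ℂ => (u : ℂ) + v * y (Sum.inr ⟨i, 0⟩) (Sum.inr ⟨i, 0⟩) := by
          funext y
          rw [← huv]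
          exact Matrix.blockDiagonal'_apply_eq (fun i => Xs i (bl y i 0 0)) i a b
        rw [h3]
        exact (pol_const u.2).add ((pol_const v.2).mul (pol_coord _ _))
      · have h3 : (fun y => f y (Sum.inr ⟨i, a⟩) (Sum.inr ⟨j, b⟩)) = fun _ => 0 := by
          funext y
          exact Matrix.blockDiagonal'_apply_ne (fun i => Xs i (bl y i 0 0)) a b hij
        rw [h3]
        exact pol_const K.zero_mem
  have hfL : ∀ (x₀ : Matrix (Fin w) (Fin w) ℂ) (μ : Fin k → ℂ), f (EG x₀ (Ln μ)) = EG x₀ fun i => Xs i (μ i) := by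
    intro x₀ μ
    show EG (EG x₀ (Ln μ)).toBlocks₁₁ (fun i => Xs i (bl (EG x₀ (Ln μ)) i 0 0)) = _
    rw [EG_bl]
    rfl
  set g : Off (fun _ : Fin k => 1) w → Matrix (IG (Fin w) fun _ : Fin k => 1) (IG (Fin w) fun _ : Fin k => 1) ℂ → ℂ :=
    fun p y => y p.1.1 p.1.2 with hg
  have hgz : ∀ y, (∀ i, g i y = 0) → y = EG y.toBlocks₁₁ (Ln fun i => bl y i 0 0) := by
    intro y h3
    have h4 := blk_eq (m := y) fun a b hab => h3 ⟨(a, b), hab⟩
    have h5 : bl y = Ln fun i => bl y i 0 0 := by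
      funext i
      ext a b
      show bl y i a b = bl y i 0 0
      rw [Subsingleton.elim a 0, Subsingleton.elim b 0]
    rw [← h5]
    exact h4
  have hsub : SubT K {y : Matrix (IG (Fin w) fun _ : Fin k => 1) (IG (Fin w) fun _ : Fin k => 1) ℂ |
      IsUnit y ∧ (∀ i, g i y = 0) ∧ f y ∈ T} := by
    refine sub_pull hT hpf (fun p => pol_coord _ _) (fun y hy hgy => ?_) fun x y z hx hy hz => ?_
    · rw [hgz y hgy] at hy
      exact EG_isUnit (EG_unit hy) fun i => hXu i _ (Ln_unit.1 (EG_block_unit hy i))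
    · obtain ⟨hx1, hx2, hx3⟩ := hx
      obtain ⟨hy1, hy2, hy3⟩ := hy
      obtain ⟨hz1, hz2, hz3⟩ := hz
      have hx4 := hgz x hx2
      have hy4 := hgz y hy2
      have hz4 := hgz z hz2
      set μ : Fin k → ℂ := fun i => bl x i 0 0
      set ν : Fin k → ℂ := fun i => bl y i 0 0
      set κ : Fin k → ℂ := fun i => bl z i 0 0
      rw [hx4] at hx1 hx3
      rw [hy4] at hy1 hy3
      rw [hz4] at hz1 hz3
      have hμ : ∀ i, μ i ≠ 0 := fun i => Ln_unit.1 (EG_block_unit hx1 i)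
      have hν : ∀ i, ν i ≠ 0 := fun i => Ln_unit.1 (EG_block_unit hy1 i)
      have hκ : ∀ i, κ i ≠ 0 := fun i => Ln_unit.1 (EG_block_unit hz1 i)
      have h11 : (fun i => Ln μ i * (Ln ν i)⁻¹ * Ln κ i) = Ln fun i => μ i * (ν i)⁻¹ * κ i := by
        funext i
        rw [Ln_inv _ _ (hν i), Ln_mul, Ln_mul]
      have h12 : x * y⁻¹ * z = EG (x.toBlocks₁₁ * y.toBlocks₁₁⁻¹ * z.toBlocks₁₁) (Ln fun i => μ i * (ν i)⁻¹ * κ i) := by
        rw [hx4, hy4, hz4, EG_tri hy1, h11]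
        rfl
      rw [h12]
      refine ⟨fun p => EG_off _ _ p.2, ?_⟩
      rw [hfL] at hx3 hy3 hz3 ⊢
      have h13 := hT.1 _ hx3 _ hy3 _ hz3
      have hyu := sub_unit hT hy3
      rw [EG_tri hyu] at h13
      exact hfull (μ := fun i => μ i * (ν i)⁻¹ * κ i) (fun i => mul_ne_zero (mul_ne_zero (hμ i) (inv_ne_zero (hν i))) (hκ i)) h13
        (fun i => mult_tri (hXu i _ (hν i)) (hν i) (hXs i _) (hXs i _) (hXs i _)) fun i => hXs i _
  have hmem : EG C₀ (Ln γ) ∈ {y : Matrix (IG (Fin w) fun _ : Fin k => 1) (IG (Fin w) fun _ : Fin k => 1) ℂ |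
      IsUnit y ∧ (∀ i, g i y = 0) ∧ f y ∈ T} := by
    refine ⟨EG_isUnit hC₀ fun i => Ln_unit.2 (hγ i), fun p => EG_off _ _ p.2, ?_⟩
    rw [hfL]
    exact hfull hγ hcT hform fun i => hXs i _
  obtain ⟨h3, -, h5⟩ := hx₁ _ hsub hmem
  rw [hfL] at h5
  exact hfull (fun i => Ln_unit.1 (EG_block_unit h3 i)) h5 (fun i => hXs i _) hX₁

end main

end Q207.HN
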