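import Pool.Agent.Q207.HN.Tb
import Pool.Agent.Q207.HN.Dg
import Pool.Agent.Q207.AF.Dg

/-!
# The period torsors of almost all members
-/

set_option autoImplicit false

open Finset Matrix Module Filter

namespace Q207.HN

open Q207.DB (swap_unit')
open Q207.HG (cmx K0 Nn Kp Kp_map K0_unit K0q K1q K0q_map K1q_map K1)
open Q207.HM (QA)
open Q207.GH (ic ir ic_T ic_det ir_det ir_inv)
open Pool.Agent.Y123.GN (Clf Spf GB EG IG Gs cl_perf mono_comm)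
open Pool.Agent.Y123.ST (SubT subT_iff)
open Q207.AF (GoodZ)
open Pool.Agent.Y916

variable {k : ℕ} {n : Fin k → ℕ} {w : ℕ}

/-- the period matrix -/
noncomputable def Pm (β : ∀ i, Fin (n i) → ℚ) (Ω : ∀ i, Matrix (Fin (n i)) (Fin (n i)) ℂ) (α ℓ : Fin k → ℂ) (i : Fin k) :
    Matrix (Fin (n i)) (Fin (n i)) ℂ := Ω i * (YL (β i) (1 / α i) (-ℓ i))ᵀ

/-- the de Rham form -/
noncomputable def sf (β : ∀ i, Fin (n i) → ℚ) (Ω : ∀ i, Matrix (Fin (n i)) (Fin (n i)) ℂ)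
    (Q : ∀ i, Matrix (Fin (n i)) (Fin (n i)) ℤ) (γ α ℓ : Fin k → ℂ) (i : Fin k) : Matrix (Fin (n i)) (Fin (n i)) ℂ :=
  γ i • ((Pm β Ω α ℓ i)⁻¹ * (ic (Q i))⁻¹ * ((Pm β Ω α ℓ i)⁻¹)ᵀ)

/-- the conclusion at one tuple -/
def GdP (D : ℕ) (β : ∀ i, Fin (n i) → ℚ) (Ω : ∀ i, Matrix (Fin (n i)) (Fin (n i)) ℂ)
    (Q : ∀ i, Matrix (Fin (n i)) (Fin (n i)) ℤ) (γ : Fin k → ℂ) (C₀ : Matrix (Fin w) (Fin w) ℂ) (α : Fin k → ℂ) : Prop :=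
  (∀ i, 1 < ‖α i‖) ∧ ∀ ℓ : Fin k → ℂ, (∀ i, Complex.exp (ℓ i) = α i) → ∀ K : Subfield ℂ, FiniteDimensional ℚ K →
    finrank ℚ K ≤ D → (∀ i, α i ∈ K) →
    (∀ i a b, sf β Ω Q γ α ℓ i a b ∈ K) ∧
    PTo K (EG C₀ (Pm β Ω α ℓ)) = Fm K C₀ γ (sf β Ω Q γ α ℓ) fun i => (ic (Q i))⁻¹

/-- one tuple -/
theorem pto_point {D : ℕ} {β : ∀ i, Fin (n i) → ℚ} (hβ : ∀ i, Sp1 (β i)) {Ω : ∀ i, Matrix (Fin (n i)) (Fin (n i)) ℂ}
    {Q : ∀ i, Matrix (Fin (n i)) (Fin (n i)) ℤ} {γ : Fin k → ℂ} (hΩ : ∀ i, IsUnit (Ω i).det) (hγ : ∀ i, γ i ≠ 0)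
    (hQ : ∀ i, (Ω i)ᵀ * ic (Q i) * Ω i = γ i • K0 (n i)) {C₀ : Matrix (Fin w) (Fin w) ℂ} (hC₀ : IsUnit C₀.det) {α : Fin k → ℂ}
    (hα : ∀ i, 1 < ‖α i‖) {𝒢 : ∀ i, Subgroup (Matrix (Fin (n i)) (Fin (n i)) ℂ)ˣ} (hQG : ∀ i, GB (ic (Q i))⁻¹ ≤ 𝒢 i)
    (hG : ∀ ℓ : Fin k → ℂ, (∀ i, Complex.exp (ℓ i) = α i) → GoodZ D C₀ 𝒢 (Pm β Ω α ℓ)) :
    GdP D β Ω Q γ C₀ α := by
  classical
  have hn2 : ∀ i, 2 ≤ n i := fun i => (hβ i).two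
  have hQ' : ∀ i, (Q i).det ≠ 0 ∧ (Q i)ᵀ = -Q i := by
    intro i
    obtain ⟨h1, h2⟩ := form_of (hβ i).two (hβ i).even (hΩ i) (hγ i) (hQ i)
    refine ⟨fun h0 => h2 ?_, ?_⟩
    · have h3 : (ic (Q i)).det = (((Q i).det : ℤ) : ℂ) := (RingHom.map_det (Int.castRingHom ℂ) (Q i)).symm
      rw [h3, h0, Int.cast_zero]
    · ext a b
      have h3 := congrFun (congrFun h1 a) b
      rw [Matrix.transpose_apply, Matrix.neg_apply] at h3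
      have h4 : ((Q i b a : ℤ) : ℂ) = -((Q i a b : ℤ) : ℂ) := h3
      rw [Matrix.transpose_apply, Matrix.neg_apply]
      exact_mod_cast h4
  refine ⟨hα, fun ℓ hℓ K hKf hKD hαK => ?_⟩
  set P := Pm β Ω α ℓ with hP
  have hPd : ∀ i, IsUnit (P i).det := by
    intro i
    rw [hP]
    unfold Pm
    rw [Matrix.det_mul, Matrix.det_transpose]
    exact (hΩ i).mul (one_det (hβ i) (hα i) _)
  have hsk : ∀ i, (K0 (n i))ᵀ = -K0 (n i) := fun i => (hβ i).sy.skew 0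
  set N : ∀ i, Matrix (Fin (n i)) (Fin (n i)) ℂ := fun i => Nn (n i) (QA (β i)) (1 / α i) with hN
  have hinv : ∀ i, (ic (Q i))⁻¹ = (γ i)⁻¹ • (P i * (-N i) * (P i)ᵀ) := fun i =>
    inv_form (hsk i) (hΩ i) (hγ i) (one_form (hβ i) (hα i) (ℓ i)) (hQ i)
  have hform : ∀ i, P i * (-N i) * (P i)ᵀ = γ i • (ic (Q i))⁻¹ := fun i => by
    rw [hinv, smul_smul, mul_inv_cancel₀ (hγ i), one_smul]
  have hsf : ∀ i, sf β Ω Q γ α ℓ i = -N i := by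
    intro i
    show γ i • ((P i)⁻¹ * (ic (Q i))⁻¹ * ((P i)⁻¹)ᵀ) = -N i
    have hPT : IsUnit (P i)ᵀ.det := by rw [Matrix.det_transpose]; exact hPd i
    rw [← Matrix.smul_mul, ← Matrix.mul_smul, ← hform, Matrix.transpose_nonsing_inv]
    calc (P i)⁻¹ * (P i * (-N i) * (P i)ᵀ) * (P i)ᵀ⁻¹ = ((P i)⁻¹ * P i) * (-N i) * ((P i)ᵀ * (P i)ᵀ⁻¹) := by simp only [Matrix.mul_assoc]
      _ = -N i := by rw [Matrix.nonsing_inv_mul _ (hPd i), Matrix.mul_nonsing_inv _ hPT, Matrix.one_mul, Matrix.mul_one]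
  have hNK : ∀ i a b, (-N i) a b ∈ K := fun i a b => by
    rw [Matrix.neg_apply]
    exact neg_mem (Nn_mem _ (div_mem (one_mem _) (hαK i)) a b)
  set S : ∀ i, Matrix (Fin (n i)) (Fin (n i)) K := fun i => Matrix.of fun a b => ⟨(-N i) a b, hNK i a b⟩ with hS
  have hcS : ∀ i, cK (S i) = -N i := fun i => rfl
  set B : ∀ i, Matrix (Fin (n i)) (Fin (n i)) K := fun i => ((ir (Q i))⁻¹).map (algebraMap ℚ K) with hB
  have hcB : ∀ i, cK (B i) = (ic (Q i))⁻¹ := by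
    intro i
    rw [← ir_inv (hQ' i).1]
    ext a b
    exact (IsScalarTower.algebraMap_apply ℚ K ℂ _).symm
  have hNs : ∀ i, (N i)ᵀ = -N i := by
    intro i
    have h1 := one_form (hβ i) (hα i) (ℓ i)
    set Y := YL (β i) (1 / α i) (-ℓ i) with hY
    have hYd : IsUnit Y.det := one_det (hβ i) (hα i) _
    have hYT : IsUnit Yᵀ.det := by rwa [Matrix.det_transpose]
    have h2 : Yᵀ * (N i)ᵀ * Y = Yᵀ * (-N i) * Y := by
      calc Yᵀ * (N i)ᵀ * Y = (Yᵀ * N i * Y)ᵀ := by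
            rw [Matrix.transpose_mul, Matrix.transpose_mul, Matrix.transpose_transpose, Matrix.mul_assoc]
        _ = Yᵀ * (-N i) * Y := by rw [h1, hsk, ← h1, Matrix.mul_neg, Matrix.neg_mul]
    have h3 := congrArg (fun X => X * Y⁻¹) h2
    simp only [Matrix.mul_nonsing_inv_cancel_right _ _ hYd] at h3
    have h4 := congrArg (fun X => Yᵀ⁻¹ * X) h3
    simp only [Matrix.nonsing_inv_mul_cancel_left _ _ hYT] at h4
    exact h4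
  have hNd : ∀ i, (-N i).det ≠ 0 := by
    intro i h0
    have h1 := congrArg Matrix.det (hform i)
    rw [Matrix.det_mul, Matrix.det_mul, h0, mul_zero, zero_mul, Matrix.det_smul] at h1
    have h2 : ((ic (Q i))⁻¹).det ≠ 0 := by
      have h3 := Matrix.isUnit_nonsing_inv_det _ (ic_det (hQ' i).1)
      exact h3.ne_zero
    exact mul_ne_zero (pow_ne_zero _ (hγ i)) h2 h1.symm
  have hSd : ∀ i, (S i).det ≠ 0 := by
    intro i h0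
    apply hNd i
    rw [← hcS, show (cK (S i)).det = algebraMap K ℂ (S i).det from (RingHom.map_det (algebraMap K ℂ) (S i)).symm, h0, map_zero]
  have hSs : ∀ i, (S i)ᵀ = -S i := by
    intro i
    ext a b
    show (-N i) b a = (-(S i a b) : K)
    have h1 := congrFun (congrFun (hNs i) a) b
    rw [Matrix.transpose_apply] at h1
    rw [Matrix.neg_apply, h1]
    rfl
  have hBd : ∀ i, (B i).det ≠ 0 := by
    intro i h0
    have h1 : (cK (B i)).det = algebraMap K ℂ (B i).det := (RingHom.map_det (algebraMap K ℂ) (B i)).symm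
    rw [h0, map_zero, hcB] at h1
    exact (Matrix.isUnit_nonsing_inv_det _ (ic_det (hQ' i).1)).ne_zero h1
  have hBs : ∀ i, (B i)ᵀ = -B i := by
    intro i
    have h1 : ((ic (Q i))⁻¹)ᵀ = -(ic (Q i))⁻¹ := by
      rw [Matrix.transpose_nonsing_inv, ic_T (hQ' i).2]
      refine Matrix.inv_eq_right_inv ?_
      rw [neg_mul_neg, Matrix.mul_nonsing_inv _ (ic_det (hQ' i).1)]
    rw [← hcB] at h1
    ext a b
    have h2 : algebraMap K ℂ (B i b a) = -algebraMap K ℂ (B i a b) := congrFun (congrFun h1 a) b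
    exact (congrArg Subtype.val (show B i b a = -B i a b from (algebraMap K ℂ).injective (by rw [map_neg]; exact h2)))
  have hB𝒢 : ∀ i, GB (cK (B i)) ≤ 𝒢 i := fun i => by rw [hcB]; exact hQG i
  have hClf : ∀ i, Clf (cK (B i)) := by
    intro i
    rw [hcB]
    refine Or.inr (Or.inl ⟨?_, ?_⟩)
    · rw [Matrix.isUnit_nonsing_inv_iff]
      exact (Matrix.isUnit_iff_isUnit_det _).2 (ic_det (hQ' i).1)
    · rw [Matrix.transpose_nonsing_inv, ic_T (hQ' i).2]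
      refine Matrix.inv_eq_right_inv ?_
      rw [neg_mul_neg, Matrix.mul_nonsing_inv _ (ic_det (hQ' i).1)]
  have hform' : ∀ i, P i * cK (S i) * (P i)ᵀ = γ i • cK (B i) := fun i => by rw [hcS, hcB, hform]
  have hC₀' : IsUnit C₀ := (Matrix.isUnit_iff_isUnit_det _).2 hC₀
  refine ⟨fun i a b => by rw [hsf]; exact hNK i a b, ?_⟩
  have e1 : sf β Ω Q γ α ℓ = fun i => cK (S i) := by
    funext i
    rw [hsf, hcS]
  have e2 : (fun i => (ic (Q i))⁻¹) = fun i => cK (B i) := by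
    funext i
    rw [hcB]
  rw [e1, e2]
  refine Set.Subset.antisymm (pto_le hn2 hSd hBd hC₀' hγ hform') (le_pto hn2 (fun i => (hβ i).even) hSd hSs hBd hBs hC₀' hγ hform' ?_)
  intro T hT hcT g hg x hx
  exact hG ℓ hℓ K hKf hKD T (subT_iff.1 hT) hcT g (fun i => mono_comm (hB𝒢 i) (cl_perf (hClf i)) (hg i)) x hx

/-- **almost all tuples** -/
theorem pto_alg (k m w D : ℕ) (hm : 1 ≤ m) (n : Fin k → ℕ) {β : ∀ i, Fin (n i) → ℚ} (hβ : ∀ i, Sp1 (β i)) :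
    ∃ c C : ℝ, 0 < c ∧ ∀ (Ω : ∀ i, Matrix (Fin (n i)) (Fin (n i)) ℂ) (Q : ∀ i, Matrix (Fin (n i)) (Fin (n i)) ℤ)
      (γ : Fin k → ℂ), (∀ i, IsUnit (Ω i).det) → (∀ i, γ i ≠ 0) → (∀ i, (Ω i)ᵀ * ic (Q i) * Ω i = γ i • K0 (n i)) →
      ∃ B : Set ℂ, B.Finite ∧ ∀ C₀ : Matrix (Fin w) (Fin w) ℂ, IsUnit C₀.det → ∀ T : ℕ, 1 ≤ T →
        ({α : Fin k → ℂ | (∀ i, Sl.SInt m T (α i) ∧ α i ∉ B) ∧ ¬ GdP D β Ω Q γ C₀ α}.ncard : ℝ) ≤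
          C * (T : ℝ) ^ (-c) * ({α : ℂ | Sl.SInt m T α}.ncard : ℝ) ^ k := by
  classical
  obtain ⟨r, T₀, A, h, e, hG, hc, hP⟩ := inst hβ
  obtain ⟨c, hc0, C, hC0, hmain⟩ := Q207.AF.tors_alg (n := n) hG hc m hm D e w
  obtain ⟨C₂, hC₂, h₂⟩ := few_small k m hm
  refine ⟨min c 1, C + C₂, lt_min hc0 one_pos, fun Ω Q γ hΩ hγ hQ => ?_⟩
  choose P hdeg hper hiso using fun i => hP i (Ω i)
  obtain ⟨B, hBf, hB⟩ := hmain P hdeg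
  refine ⟨B, hBf, fun C₀ hC₀ T hT => ?_⟩
  have hQG : ∀ i, GB (ic (Q i))⁻¹ ≤ Gs h (P i) := by
    intro i g hg
    have hdet : (ic (Q i)).det ≠ 0 := (form_of (hβ i).two (hβ i).even (hΩ i) (hγ i) (hQ i)).2
    have hu : IsUnit (ic (Q i)) := (Matrix.isUnit_iff_isUnit_det _).2 (isUnit_iff_ne_zero.2 hdet)
    have h1 : ∀ g : (Matrix (Fin (n i)) (Fin (n i)) ℂ)ˣ, g ∈ GB (ic (Q i))⁻¹ →
        Pool.Agent.Y123.GN.Prs h (P i) (g : Matrix (Fin (n i)) (Fin (n i)) ℂ) := fun g hg =>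
      hiso i (ic (Q i)) _ (γ i) (hΩ i) (hγ i) (hQ i) (swap_unit' hu hg.2)
    exact ⟨h1 g hg, h1 g⁻¹ ((GB _).inv_mem hg)⟩
  have hT1 : (1 : ℝ) ≤ T := by exact_mod_cast hT
  set S₁ : Set (Fin k → ℂ) := {α : Fin k → ℂ | (∀ i, Sl.SInt m T (α i) ∧ α i ∉ B) ∧ ¬ ∀ ℓ : Fin k → ℂ,
    (∀ i, Complex.exp (ℓ i) = α i) → GoodZ D C₀ (fun i => Gs h (P i)) fun i => Q207.AF.zM h (P i) (α i) (ℓ i)} with hS₁
  set S₂ : Set (Fin k → ℂ) := {a : Fin k → ℂ | (∀ i, Sl.SInt m T (a i)) ∧ ∃ i, ‖a i‖ ≤ 1} with hS₂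
  have hfin1 : S₁.Finite := by
    refine (Set.Finite.pi (fun _ : Fin k => Sl.sint_fin m T)).subset ?_
    intro α hα i _
    exact (hα.1 i).1
  have hfin2 : S₂.Finite := by
    refine (Set.Finite.pi (fun _ : Fin k => Sl.sint_fin m T)).subset ?_
    intro α hα i _
    exact hα.1 i
  have hsub : {α : Fin k → ℂ | (∀ i, Sl.SInt m T (α i) ∧ α i ∉ B) ∧ ¬ GdP D β Ω Q γ C₀ α} ⊆ S₁ ∪ S₂ := by
    rintro a ⟨h3, h4⟩
    by_cases h5 : ∃ i, ‖a i‖ ≤ 1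
    · exact Or.inr ⟨fun i => (h3 i).1, h5⟩
    · refine Or.inl ⟨h3, fun hg => h4 ?_⟩
      have h6 : ∀ i, 1 < ‖a i‖ := fun i => not_le.1 fun h7 => h5 ⟨i, h7⟩
      refine pto_point hβ hΩ hγ hQ hC₀ h6 hQG fun ℓ hℓ => ?_
      have h7 := hg ℓ hℓ
      have h8 : (fun i => Q207.AF.zM h (P i) (a i) (ℓ i)) = Pm β Ω a ℓ := by
        funext i
        exact hper i (a i) (ℓ i)
      rw [h8] at h7
      exact h7
  have hcard := (Set.ncard_le_ncard hsub (hfin1.union hfin2)).trans (Set.ncard_union_le _ _)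
  have hmono1 : (T : ℝ) ^ (-c) ≤ (T : ℝ) ^ (-min c 1) := Real.rpow_le_rpow_of_exponent_le hT1 (by linarith [min_le_left c 1])
  have hmono2 : (T : ℝ) ^ (-(1 : ℝ)) ≤ (T : ℝ) ^ (-min c 1) :=
    Real.rpow_le_rpow_of_exponent_le hT1 (by linarith [min_le_right c 1])
  have h5 : ({α : Fin k → ℂ | (∀ i, Sl.SInt m T (α i) ∧ α i ∉ B) ∧ ¬ GdP D β Ω Q γ C₀ α}.ncard : ℝ) ≤
      (S₁.ncard : ℝ) + (S₂.ncard : ℝ) := by exact_mod_cast hcard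
  refine h5.trans ?_
  have hI : (0 : ℝ) ≤ ({α : ℂ | Sl.SInt m T α}.ncard : ℝ) ^ k := by positivity
  have h6 := (hB C₀ T hT).trans (mul_le_mul_of_nonneg_right (mul_le_mul_of_nonneg_left hmono1 hC0) hI)
  have h7 := (h₂ T hT).trans (mul_le_mul_of_nonneg_right (mul_le_mul_of_nonneg_left hmono2 hC₂) hI)
  refine (add_le_add h6 h7).trans (le_of_eq ?_)
  ring

/-- growing degrees -/
theorem pto_grow (k m w : ℕ) (hm : 1 ≤ m) (n : Fin k → ℕ) {β : ∀ i, Fin (n i) → ℚ} (hβ : ∀ i, Sp1 (β i))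
    {Ω : ∀ i, Matrix (Fin (n i)) (Fin (n i)) ℂ} {Q : ∀ i, Matrix (Fin (n i)) (Fin (n i)) ℤ}
    {γ : Fin k → ℂ} (hΩ : ∀ i, IsUnit (Ω i).det) (hγ : ∀ i, γ i ≠ 0) (hQ : ∀ i, (Ω i)ᵀ * ic (Q i) * Ω i = γ i • K0 (n i)) :
    ∃ (D : ℕ → ℕ) (ε : ℕ → ℝ), Tendsto D atTop atTop ∧ Tendsto ε atTop (nhds 0) ∧
      ∀ C₀ : Matrix (Fin w) (Fin w) ℂ, IsUnit C₀.det → ∀ T : ℕ, 1 ≤ T →
        ({α : Fin k → ℂ | (∀ i, Sl.SInt m T (α i)) ∧ ¬ GdP (D T) β Ω Q γ C₀ α}.ncard : ℝ) ≤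
          ε T * ({α : ℂ | Sl.SInt m T α}.ncard : ℝ) ^ k := by
  obtain ⟨D, ε, hD, hε, hmain⟩ := Q207.AF.grow m hm k
    (fun D (C₀ : {C₀ : Matrix (Fin w) (Fin w) ℂ // IsUnit C₀.det}) α => GdP D β Ω Q γ C₀.1 α) fun D => by
      obtain ⟨c, C, hc0, h1⟩ := pto_alg k m w D hm n hβ
      obtain ⟨B, hBf, h2⟩ := h1 Ω Q γ hΩ hγ hQ
      exact ⟨c, C, hc0, B, hBf, fun C₀ T hT => h2 C₀.1 C₀.2 T hT⟩
  exact ⟨D, ε, hD, hε, fun C₀ hC₀ T hT => hmain ⟨C₀, hC₀⟩ T hT⟩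

end Q207.HN
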