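import Pool.Agent.Q207.HN.So
import Pool.Agent.Q207.HM.Tta
import Pool.Agent.Q207.DB.Pt

/-!
# Subtorsors which contain the periods of sums of symplectic hypergeometric motives at tuples of algebraic integers
-/

set_option autoImplicit false

open Matrix Module Filter

namespace Q207.HN

open Q207.HM (QA Yx tmt tmt_mul tmt_det FF FF_val Emb lk stab_abs)
open Q207.HG (K0 K0_unit)
open Q207.DB (swap_unit mem_GB_inv)
open Pool.Agent.Y123.GN (Clf Spf GB Rl Rl_of DCC DC0 DCX exists_W' bot_fin sp_det1)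
open Pool.Agent.Y113 (finrank_pow_le DC)
open Pool.Agent.Y123.ST (fl)
open Pool.Agent.TH127.PT (IsSubtorsor)
open Pool.Agent.Y916

variable {r : ℕ} {n : Fin r → ℕ} {β : ∀ j, Fin (n j) → ℚ} {k r₀ : ℕ}

/-- the sizes of the blocks -/
abbrev nJ (k : ℕ) (n : Fin r → ℕ) (p : Σ _ : Fin k, Fin r) : ℕ := n p.2

/-- a square matrix with columns of zeros -/
noncomputable def pd (N : ℕ) {m : ℕ} (Ω : Matrix (Fin m) (Fin m) ℂ) : Matrix (Fin m) (Fin N) ℂ :=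
  Matrix.of fun a c => if h : (c : ℕ) < m then Ω a ⟨c, h⟩ else 0

lemma pd_apply {N m : ℕ} (hm : m ≤ N) (X Ω : Matrix (Fin m) (Fin m) ℂ) (a b : Fin m) :
    (X * pd N Ω) a (Fin.castLE hm b) = (X * Ω) a b := by
  rw [Matrix.mul_apply, Matrix.mul_apply]
  refine Finset.sum_congr rfl fun c _ => ?_
  congr 1
  unfold pd
  rw [Matrix.of_apply, dif_pos (by simp)]
  rfl

lemma nle (n : Fin r → ℕ) (j : Fin r) : n j ≤ ∑ j, n j := Finset.single_le_sum (fun _ _ => Nat.zero_le _) (Finset.mem_univ j)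

/-- the entries of the total matrix as polynomials -/
noncomputable def PhS (C₀ : Matrix (Fin r₀) (Fin r₀) ℂ) (k : ℕ) (n : Fin r → ℕ)
    (p : (Fin r₀ ⊕ Σ x : (Σ _ : Fin k, Fin r), Fin (nJ k n x)) × (Fin r₀ ⊕ Σ x : (Σ _ : Fin k, Fin r), Fin (nJ k n x))) :
    MvPolynomial (Vq k n (∑ j, n j)) ℂ :=
  (fromBlocks (C₀.map MvPolynomial.C) 0 0 (blockDiagonal' fun x : (Σ _ : Fin k, Fin r) => Matrix.of fun a b =>
    MvPolynomial.X ((x.1, some ⟨x.2, (a, Fin.castLE (nle n x.2) b)⟩) : Vq k n (∑ j, n j))) :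
    Matrix (Fin r₀ ⊕ Σ x : (Σ _ : Fin k, Fin r), Fin (nJ k n x)) (Fin r₀ ⊕ Σ x : (Σ _ : Fin k, Fin r), Fin (nJ k n x))
      (MvPolynomial (Vq k n (∑ j, n j)) ℂ)) p.1 p.2

lemma PhS_DC {W : Submodule ℚ ℂ} (h1 : (1 : ℂ) ∈ W) {C₀ : Matrix (Fin r₀) (Fin r₀) ℂ} (hc : ∀ a b, C₀ a b ∈ W) :
    ∀ b, DC 1 W (PhS C₀ k n b) := by
  rintro ⟨a | ⟨i, a⟩, b | ⟨j, b⟩⟩
  · exact DCC (hc a b)
  · exact DC0
  · exact DC0
  · show DC 1 W ((blockDiagonal' fun x : (Σ _ : Fin k, Fin r) => Matrix.of fun a b =>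
      MvPolynomial.X ((x.1, some ⟨x.2, (a, Fin.castLE (nle n x.2) b)⟩) : Vq k n (∑ j, n j)) :
        Matrix (Σ x : (Σ _ : Fin k, Fin r), Fin (nJ k n x)) (Σ x : (Σ _ : Fin k, Fin r), Fin (nJ k n x))
          (MvPolynomial (Vq k n (∑ j, n j)) ℂ)) ⟨i, a⟩ ⟨j, b⟩)
    by_cases h : i = j
    · subst h
      rw [blockDiagonal'_apply_eq]
      exact DCX h1 _
    · rw [blockDiagonal'_apply_ne _ _ _ h]
      exact DC0

lemma PhS_eval (C₀ : Matrix (Fin r₀) (Fin r₀) ℂ) (l : Fin k → ℂ) (X Ω : ∀ (_ : Fin k) (j : Fin r), Matrix (Fin (n j)) (Fin (n j)) ℂ)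
    (b : (Fin r₀ ⊕ Σ x : (Σ _ : Fin k, Fin r), Fin (nJ k n x)) × (Fin r₀ ⊕ Σ x : (Σ _ : Fin k, Fin r), Fin (nJ k n x))) :
    fl (tmt (ν := nJ k n) C₀ (fun x => X x.1 x.2 * Ω x.1 x.2)) b =
      MvPolynomial.aeval (pq l fun i j => X i j * pd (∑ j, n j) (Ω i j)) (PhS C₀ k n b) := by
  obtain ⟨a | ⟨i, a⟩, b | ⟨j, b⟩⟩ := b
  · show C₀ a b = MvPolynomial.aeval _ (MvPolynomial.C (C₀ a b))
    rw [MvPolynomial.aeval_C]
    rfl
  · show (0 : ℂ) = MvPolynomial.aeval _ 0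
    rw [map_zero]
  · show (0 : ℂ) = MvPolynomial.aeval _ 0
    rw [map_zero]
  · show blockDiagonal' (fun x : (Σ _ : Fin k, Fin r) => X x.1 x.2 * Ω x.1 x.2) ⟨i, a⟩ ⟨j, b⟩ =
      MvPolynomial.aeval (pq l fun i j => X i j * pd (∑ j, n j) (Ω i j)) ((blockDiagonal' fun x : (Σ _ : Fin k, Fin r) => Matrix.of fun a b =>
      MvPolynomial.X ((x.1, some ⟨x.2, (a, Fin.castLE (nle n x.2) b)⟩) : Vq k n (∑ j, n j)) :
        Matrix (Σ x : (Σ _ : Fin k, Fin r), Fin (nJ k n x)) (Σ x : (Σ _ : Fin k, Fin r), Fin (nJ k n x))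
          (MvPolynomial (Vq k n (∑ j, n j)) ℂ)) ⟨i, a⟩ ⟨j, b⟩)
    by_cases h : i = j
    · subst h
      rw [blockDiagonal'_apply_eq, blockDiagonal'_apply_eq, Matrix.of_apply, MvPolynomial.aeval_X]
      exact (pd_apply (nle n i.2) _ _ a b).symm
    · rw [blockDiagonal'_apply_ne _ _ _ h, blockDiagonal'_apply_ne _ _ _ h, map_zero]

/-- the conclusion at one tuple -/
def GdS (D : ℕ) (β : ∀ j, Fin (n j) → ℚ) (C₀ : Matrix (Fin r₀) (Fin r₀) ℂ)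
    (Ω : ∀ (_ : Fin k) (j : Fin r), Matrix (Fin (n j)) (Fin (n j)) ℂ) (a : Fin k → ℂ) : Prop :=
  (∀ i, 1 < ‖a i‖) ∧ ∀ ℓ : Fin k → ℂ, (∀ i, Complex.exp (ℓ i) = a i) → ∀ K : Subfield ℂ, FiniteDimensional ℚ K → finrank ℚ K ≤ D →
    ∀ T : Set (Matrix (Fin r₀ ⊕ Σ x : (Σ _ : Fin k, Fin r), Fin (nJ k n x)) (Fin r₀ ⊕ Σ x : (Σ _ : Fin k, Fin r), Fin (nJ k n x)) ℂ),
      IsSubtorsor K T → tmt (ν := nJ k n) C₀ (fun x => YL (β x.2) (1 / a x.1) (-ℓ x.1) * Ω x.1 x.2) ∈ T →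
      ∀ X : ∀ (_ : Fin k) (j : Fin r), Matrix (Fin (n j)) (Fin (n j)) ℂ, (∀ i, Qd β (1 / a i) (X i)) →
        tmt (ν := nJ k n) C₀ (fun x => X x.1 x.2 * Ω x.1 x.2) ∈ T

/-- **almost all tuples of algebraic integers** -/
theorem sub_tor (h : Sy β) (k m : ℕ) (hm : 1 ≤ m) (D r₀ : ℕ) :
    ∃ c C : ℝ, 0 < c ∧ ∃ B : Set ℂ, B.Finite ∧ ∀ (C₀ : Matrix (Fin r₀) (Fin r₀) ℂ)
      (Ω : ∀ (_ : Fin k) (j : Fin r), Matrix (Fin (n j)) (Fin (n j)) ℂ) (T : ℕ), 1 ≤ T →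
        ({a : Fin k → ℂ | (∀ i, Sl.SInt m T (a i) ∧ a i ∉ B) ∧ ¬ GdS D β C₀ Ω a}.ncard : ℝ) ≤
          C * (T : ℝ) ^ (-c) * ({α : ℂ | Sl.SInt m T α}.ncard : ℝ) ^ k := by
  classical
  obtain ⟨dd, hdd⟩ := stab_abs (Fintype.card (Fin r₀ ⊕ Σ x : (Σ _ : Fin k, Fin r), Fin (nJ k n x))) D
  obtain ⟨c, hc0, C, hC0, B, hBf, hB⟩ := sum_alg h k m hm dd ((1 + r₀ * r₀ + 1) ^ (dd + 1)) (∑ j, n j)
  obtain ⟨C₂, hC₂, h₂⟩ := few_small k m hm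
  refine ⟨min c 1, C + C₂, lt_min hc0 one_pos, B, hBf, fun C₀ Ω T hT => ?_⟩
  have hT1 : (1 : ℝ) ≤ T := by exact_mod_cast hT
  obtain ⟨hbf, hb1⟩ := bot_fin
  obtain ⟨W, hW1, hW2, hKW, hW3⟩ := exists_W' (⊥ : Subfield ℂ) (fun b : Fin r₀ × Fin r₀ => C₀ b.1 b.2)
  obtain ⟨hp1, hp2⟩ := finrank_pow_le W (dd + 1)
  have hWD : Module.finrank ℚ W ≤ 1 + r₀ * r₀ + 1 := by
    refine hW2.trans ?_
    rw [Fintype.card_prod, Fintype.card_fin]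
    omega
  have h1W : (1 : ℂ) ∈ W := hKW 1 (⊥ : Subfield ℂ).one_mem
  set V := W ^ (dd + 1) with hV
  set Ω' : ∀ (_ : Fin k) (j : Fin r), Matrix (Fin (n j)) (Fin (∑ j, n j)) ℂ := fun i j => pd (∑ j, n j) (Ω i j) with hΩ'
  have hfin1 : {a : Fin k → ℂ | (∀ i, Sl.SInt m T (a i) ∧ a i ∉ B) ∧ ¬ GdJ β dd V Ω' a}.Finite := by
    refine (Set.Finite.pi (fun _ : Fin k => Sl.sint_fin m T)).subset ?_
    intro α hα i _
    exact (hα.1 i).1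
  have hfin2 : {a : Fin k → ℂ | (∀ i, Sl.SInt m T (a i)) ∧ ∃ i, ‖a i‖ ≤ 1}.Finite := by
    refine (Set.Finite.pi (fun _ : Fin k => Sl.sint_fin m T)).subset ?_
    intro α hα i _
    exact hα.1 i
  have hsub : {a : Fin k → ℂ | (∀ i, Sl.SInt m T (a i) ∧ a i ∉ B) ∧ ¬ GdS D β C₀ Ω a} ⊆
      {a : Fin k → ℂ | (∀ i, Sl.SInt m T (a i) ∧ a i ∉ B) ∧ ¬ GdJ β dd V Ω' a} ∪
        {a : Fin k → ℂ | (∀ i, Sl.SInt m T (a i)) ∧ ∃ i, ‖a i‖ ≤ 1} := by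
    rintro a ⟨h3, h4⟩
    by_cases h5 : ∃ i, ‖a i‖ ≤ 1
    · exact Or.inr ⟨fun i => (h3 i).1, h5⟩
    · refine Or.inl ⟨h3, fun hg => h4 ?_⟩
      have h6 : ∀ i, 1 < ‖a i‖ := fun i => not_le.1 fun h7 => h5 ⟨i, h7⟩
      refine ⟨h6, fun ℓ hℓ K hKf hKD T' hT' hcT X hX => ?_⟩
      set Y : ∀ (_ : Fin k) (j : Fin r), Matrix (Fin (n j)) (Fin (n j)) ℂ := fun i j => YL (β j) (1 / a i) (-ℓ i) with hY
      have hYu : ∀ i j, IsUnit (Y i j).det := by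
        intro i j
        have e1 := tmt_det C₀ _ (hT'.isUnit _ hcT) ⟨i, j⟩
        rw [Matrix.det_mul] at e1
        exact isUnit_iff_ne_zero.2 (left_ne_zero_of_mul e1)
      set Yi : ∀ (_ : Fin k) (j : Fin r), Matrix (Fin (n j)) (Fin (n j)) ℂ := fun i j => (Y i j)⁻¹ with hYi
      let E : Emb (nJ k n) (nJ k n) id :=
        { d := fun _ => false
          R := fun x => Y x.1 x.2
          R' := fun x => Yi x.1 x.2
          h1 := fun x => Matrix.mul_nonsing_inv _ (hYu x.1 x.2)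
          h2 := fun x => Matrix.nonsing_inv_mul _ (hYu x.1 x.2) }
      have hK0 : ∀ j, Spf (K0 (n j)) := fun j => ⟨K0_unit, h.skew j⟩
      have hK0i : ∀ j, Clf (K0 (n j))⁻¹ := by
        intro j
        refine Or.inr (Or.inl ⟨?_, ?_⟩)
        · rw [Matrix.isUnit_nonsing_inv_iff]
          exact K0_unit
        · have hu := (Matrix.isUnit_iff_isUnit_det _).1 (K0_unit (n := n j))
          rw [Matrix.transpose_nonsing_inv, h.skew j]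
          refine Matrix.inv_eq_right_inv ?_
          rw [neg_mul_neg, Matrix.mul_nonsing_inv _ hu]
      have hGB : ∀ (j : Fin r) (v : (Matrix (Fin (n j)) (Fin (n j)) ℂ)ˣ), v ∈ GB (K0 (n j))⁻¹ ↔
          (v : Matrix (Fin (n j)) (Fin (n j)) ℂ).det = 1 ∧
            (v : Matrix (Fin (n j)) (Fin (n j)) ℂ)ᵀ * K0 (n j) * (v : Matrix (Fin (n j)) (Fin (n j)) ℂ) = K0 (n j) := fun j v =>
        mem_GB_inv (by have := h.two j; omega) (Or.inr (Or.inl (hK0 j))) v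
      have hact : ∀ g : ∀ x : (Σ _ : Fin k, Fin r), (Matrix (Fin (nJ k n x)) (Fin (nJ k n x)) ℂ)ˣ,
          (FF r₀ E g).val * tmt (ν := nJ k n) C₀ (fun x => Y x.1 x.2 * Ω x.1 x.2) =
            tmt (ν := nJ k n) C₀ (fun x => Y x.1 x.2 * (g x : Matrix (Fin (n x.2)) (Fin (n x.2)) ℂ) * Ω x.1 x.2) := by
        intro g
        rw [FF_val, tmt_mul, Matrix.one_mul]
        congr 1
        funext x
        have e0 : lk (E.d x) (E.R x) (E.R' x) (g (id x) : Matrix (Fin (nJ k n (id x))) (Fin (nJ k n (id x))) ℂ) =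
            Y x.1 x.2 * (g x : Matrix (Fin (n x.2)) (Fin (n x.2)) ℂ) * (Y x.1 x.2)⁻¹ := by
          show lk false (Y x.1 x.2) (Yi x.1 x.2) (g x : Matrix (Fin (n x.2)) (Fin (n x.2)) ℂ) = _
          unfold lk
          simp only [Bool.false_eq_true, if_false, hYi]
        rw [e0]
        calc Y x.1 x.2 * (g x : Matrix (Fin (n x.2)) (Fin (n x.2)) ℂ) * (Y x.1 x.2)⁻¹ * (Y x.1 x.2 * Ω x.1 x.2) =
            Y x.1 x.2 * (g x : Matrix (Fin (n x.2)) (Fin (n x.2)) ℂ) * ((Y x.1 x.2)⁻¹ * Y x.1 x.2) * Ω x.1 x.2 := by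
              simp only [Matrix.mul_assoc]
          _ = _ := by rw [Matrix.nonsing_inv_mul _ (hYu x.1 x.2), Matrix.mul_one]
      have hrel : ∀ g : ∀ x : (Σ _ : Fin k, Fin r), (Matrix (Fin (nJ k n x)) (Fin (nJ k n x)) ℂ)ˣ, (∀ x, g x ∈ GB (K0 (n x.2))⁻¹) →
          Rl ⊥ dd (tmt (ν := nJ k n) C₀ (fun x => Y x.1 x.2 * Ω x.1 x.2))
            ((FF r₀ E g).val * tmt (ν := nJ k n) C₀ (fun x => Y x.1 x.2 * Ω x.1 x.2)) := by
        intro g hgx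
        rw [hact g]
        refine Rl_of hKW (PhS_DC h1W fun a b => hW3 (a, b)) (y := pq ℓ fun i j => Y i j * Ω' i j)
          (y' := pq ℓ fun i j => Y i j * (g ⟨i, j⟩ : Matrix (Fin (n j)) (Fin (n j)) ℂ) * Ω' i j) (fun F e2 e3 e4 => ?_)
          (fun b => PhS_eval C₀ ℓ Y Ω b) fun b => PhS_eval C₀ ℓ (fun i j => Y i j * (g ⟨i, j⟩ : Matrix (Fin (n j)) (Fin (n j)) ℂ)) Ω b
        rw [MvPolynomial.aeval_eq_eval] at e4 ⊢
        exact hg ℓ hℓ F e2 e3 e4 ℓ (fun i j => (g ⟨i, j⟩ : Matrix (Fin (n j)) (Fin (n j)) ℂ)) fun i j => ((hGB j _).1 (hgx ⟨i, j⟩)).2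
      have hmain := hdd r₀ (Σ _ : Fin k, Fin r) (Σ _ : Fin k, Fin r) (nJ k n) (nJ k n) id E (fun x => (K0 (n x.2))⁻¹) (fun x => hK0i x.2)
        le_rfl _ hrel K hKf hKD T' hT' hcT
      choose κ hκ hXκ using fun i j => h.orbit (h6 i) (ℓ i) (hX i) j
      have hκd : ∀ i j, (κ i j).det = 1 := by
        intro i j
        rw [← Matrix.det_transpose]
        refine sp_det1 (hK0 j) ?_
        rw [Matrix.transpose_transpose]
        exact hκ i j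
      let gu : ∀ x : (Σ _ : Fin k, Fin r), (Matrix (Fin (nJ k n x)) (Fin (nJ k n x)) ℂ)ˣ := fun x =>
        Matrix.nonsingInvUnit (κ x.1 x.2) (by rw [hκd]; exact isUnit_one)
      have hgu : ∀ x, (gu x : Matrix (Fin (n x.2)) (Fin (n x.2)) ℂ) = κ x.1 x.2 := fun x => rfl
      have h7 := hmain gu fun x => (hGB x.2 (gu x)).2 ⟨hκd x.1 x.2, hκ x.1 x.2⟩
      rw [hact gu] at h7
      have h8 : (fun x : (Σ _ : Fin k, Fin r) => Y x.1 x.2 * (gu x : Matrix (Fin (n x.2)) (Fin (n x.2)) ℂ) * Ω x.1 x.2) =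
          fun x : (Σ _ : Fin k, Fin r) => X x.1 x.2 * Ω x.1 x.2 := by
        funext x
        rw [hgu, hXκ]
      rw [h8] at h7
      exact h7
  have hcard := (Set.ncard_le_ncard hsub (hfin1.union hfin2)).trans (Set.ncard_union_le _ _)
  have hmono1 : (T : ℝ) ^ (-c) ≤ (T : ℝ) ^ (-min c 1) := Real.rpow_le_rpow_of_exponent_le hT1 (by linarith [min_le_left c 1])
  have hmono2 : (T : ℝ) ^ (-(1 : ℝ)) ≤ (T : ℝ) ^ (-min c 1) :=
    Real.rpow_le_rpow_of_exponent_le hT1 (by linarith [min_le_right c 1])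
  have h5 : ({a : Fin k → ℂ | (∀ i, Sl.SInt m T (a i) ∧ a i ∉ B) ∧ ¬ GdS D β C₀ Ω a}.ncard : ℝ) ≤
      ({a : Fin k → ℂ | (∀ i, Sl.SInt m T (a i) ∧ a i ∉ B) ∧ ¬ GdJ β dd V Ω' a}.ncard : ℝ) +
        ({a : Fin k → ℂ | (∀ i, Sl.SInt m T (a i)) ∧ ∃ i, ‖a i‖ ≤ 1}.ncard : ℝ) := by exact_mod_cast hcard
  refine h5.trans ?_
  have hI : (0 : ℝ) ≤ ({α : ℂ | Sl.SInt m T α}.ncard : ℝ) ^ k := by positivity
  have h6 := (hB V hp1 (hp2.trans (Nat.pow_le_pow_left hWD _)) Ω' T hT).trans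
    (mul_le_mul_of_nonneg_right (mul_le_mul_of_nonneg_left hmono1 hC0) hI)
  have h7 := (h₂ T hT).trans (mul_le_mul_of_nonneg_right (mul_le_mul_of_nonneg_left hmono2 hC₂) hI)
  refine (add_le_add h6 h7).trans (le_of_eq ?_)
  ring

end Q207.HN
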